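import Pool.Agent.V1126.HLEnds

/-!
# Elements fixing the end of a good element
-/

set_option autoImplicit false

namespace Pool.Agent.V1126

namespace HL

variable {G : Type} [Group G] {E : HL G}

/-- Conjugates of an element fixing the attracting end are bounded. -/
theorem Good.conj_pow_le {a : G} (h : E.Good a) {f : G} (hf : E.S (fun n => f * P a n) (P a))
    (n : ℕ) : E.l ((a ^ n)⁻¹ * (f * a ^ n)) ≤ E.l f + E.l a + 3 * E.D := by
  obtain ⟨N, hN⟩ := hf (2 * E.l (a ^ n) + E.D + E.l f)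
  obtain ⟨k, hk⟩ : ∃ k : ℕ, N ≤ n + k := ⟨N, by omega⟩
  have h0 := hN (n + k) (n + k) hk hk
  unfold P g2 at h0
  beta_reduce at h0
  have F1 := E.four 1 (a ^ n) (a ^ (n + k)) (f * a ^ n)
  have F2 := E.four f (f * a ^ n) (f * a ^ (n + k)) (a ^ (n + k))
  have e1 : (1 : G)⁻¹ * a ^ (n + k) = a ^ (n + k) := by simp
  have e2 : (1 : G)⁻¹ * a ^ n = a ^ n := by simp
  have e3 : (a ^ n)⁻¹ * a ^ (n + k) = a ^ k := by rw [pow_add]; group
  have e4 : (1 : G)⁻¹ * (f * a ^ n) = f * a ^ n := by simp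
  have e5 : f⁻¹ * (f * a ^ (n + k)) = a ^ (n + k) := by group
  have e6 : f⁻¹ * (f * a ^ n) = a ^ n := by group
  have e7 : (f * a ^ n)⁻¹ * (f * a ^ (n + k)) = a ^ k := by rw [pow_add]; group
  rw [e1, e2, e3, e4] at F1
  rw [e5, e6, e7, E.swap (f * a ^ n) (a ^ (n + k))] at F2
  have g1 := E.mul_le f (a ^ n)
  have g2 := E.mul_le f (a ^ (n + k))
  have g3 := E.mul_le f⁻¹ (a ^ (n + k))
  have g4 := h.add_ge n k
  have hD := E.D_nonneg
  have g5 := E.inv f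
  have g6 := E.nonneg f
  have g7 := E.nonneg a
  omega

theorem invol_aux {a : G} {x : G} (hx : x * x = 1)
    (hf : E.S (fun n => x * P a n) (P a)) :
    ∃ n0 : ℕ, ∀ n, n0 ≤ n → 2 * E.l (x * a ^ n) ≤ 2 * E.l (a ^ n) + E.D := by
  obtain ⟨N, hN⟩ := hf (E.l x + E.D + 1)
  refine ⟨N, fun n hn => ?_⟩
  have h0 := hN n n hn hn
  have hxi : x⁻¹ = x := inv_eq_of_mul_eq_one_left hx
  unfold P g2 at h0
  beta_reduce at h0
  have F := E.four 1 x (x * a ^ n) (a ^ n)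
  have e1 : (1 : G)⁻¹ * (x * a ^ n) = x * a ^ n := by simp
  have e2 : x⁻¹ * a ^ n = x * a ^ n := by rw [hxi]
  have e3 : (1 : G)⁻¹ * x = x := by simp
  have e4 : x⁻¹ * (x * a ^ n) = a ^ n := by group
  have e5 : (1 : G)⁻¹ * a ^ n = a ^ n := by simp
  rw [e1, e2, e3, e4, e5] at F
  have hD := E.D_nonneg
  omega

/-- Conjugates of an involution fixing the attracting end are uniformly bounded. -/
theorem Good.invol {a : G} (h : E.Good a) {x : G} (hx : x * x = 1)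
    (hf : E.S (fun n => x * P a n) (P a)) :
    ∃ n0 : ℕ, ∀ n, n0 ≤ n → 2 * E.l (x * a ^ n) ≤ 2 * E.l (a ^ n) + E.D ∧
      E.l ((a ^ n)⁻¹ * (x * a ^ n)) ≤ E.l a + 4 * E.D := by
  obtain ⟨n0, hn0⟩ := invol_aux hx hf
  refine ⟨n0, fun n hn => ⟨hn0 n hn, ?_⟩⟩
  have hxi : x⁻¹ = x := inv_eq_of_mul_eq_one_left hx
  obtain ⟨N, hN⟩ := hf (2 * E.l (a ^ n) + E.D + E.l x)
  obtain ⟨k, hk⟩ : ∃ k : ℕ, N ≤ n + k := ⟨N, by omega⟩
  have h0 := hN (n + k) (n + k) hk hk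
  unfold P g2 at h0
  beta_reduce at h0
  have F1 := E.four 1 (a ^ n) (a ^ (n + k)) (x * a ^ n)
  have F2 := E.four x (x * a ^ n) (x * a ^ (n + k)) (a ^ (n + k))
  have e1 : (1 : G)⁻¹ * a ^ (n + k) = a ^ (n + k) := by simp
  have e2 : (1 : G)⁻¹ * a ^ n = a ^ n := by simp
  have e3 : (a ^ n)⁻¹ * a ^ (n + k) = a ^ k := by rw [pow_add]; group
  have e4 : (1 : G)⁻¹ * (x * a ^ n) = x * a ^ n := by simp
  have e5 : x⁻¹ * (x * a ^ (n + k)) = a ^ (n + k) := by group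
  have e6 : x⁻¹ * (x * a ^ n) = a ^ n := by group
  have e7 : (x * a ^ n)⁻¹ * (x * a ^ (n + k)) = a ^ k := by rw [pow_add]; group
  have e8 : x⁻¹ * a ^ (n + k) = x * a ^ (n + k) := by rw [hxi]
  rw [e1, e2, e3, e4] at F1
  rw [e5, e6, e7, e8, E.swap (x * a ^ n) (a ^ (n + k))] at F2
  have g1 := hn0 n hn
  have g2 := hn0 (n + k) (by omega)
  have g4 := h.add_ge n k
  have hD := E.D_nonneg
  have g5 := E.nonneg x
  have g7 := E.nonneg a
  omega

/-- An element commuting with a good element is near a power of it. -/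
theorem Good.near_axis {a : G} (h : E.Good a) {u : G} (hu : Commute u a) :
    ∃ k : ℤ, E.l (u * a ^ k) ≤ 2 * E.l a + 4 * E.D := by
  have hD := E.D_nonneg
  -- minimise
  obtain ⟨k, hk⟩ : ∃ k : ℤ, ∀ k' : ℤ, E.l (u * a ^ k) ≤ E.l (u * a ^ k') := by
    have hne : (Set.range fun k : ℤ => (E.l (u * a ^ k)).toNat).Nonempty := ⟨_, 0, rfl⟩
    obtain ⟨k, hk⟩ := Nat.sInf_mem hne
    refine ⟨k, fun k' => ?_⟩
    have h1 : sInf (Set.range fun k : ℤ => (E.l (u * a ^ k)).toNat) ≤ (E.l (u * a ^ k')).toNat :=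
      Nat.sInf_le ⟨k', rfl⟩
    simp only at hk
    rw [← hk] at h1
    have h2 := E.nonneg (u * a ^ k)
    have h3 := E.nonneg (u * a ^ k')
    omega
  refine ⟨k, ?_⟩
  set v := u * a ^ k with hv
  have hva : Commute v a := hu.mul_left ((Commute.refl a).zpow_left k)
  have hmin : ∀ j : ℤ, E.l v ≤ E.l (v * a ^ j) := by
    intro j
    have := hk (k + j)
    rwa [zpow_add, ← mul_assoc] at this
  -- the least exponent with large length
  have hex : ∃ n : ℕ, E.l v + E.D < E.l (a ^ n) :=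
    ⟨(E.l v + E.D + 1).toNat, by have := h.le_pow (E.l v + E.D + 1).toNat; omega⟩
  classical
  obtain ⟨n, hn, hn'⟩ : ∃ n : ℕ, E.l v + E.D < E.l (a ^ n) ∧ E.l (a ^ n) ≤ E.l v + E.D + E.l a := by
    refine ⟨Nat.find hex, Nat.find_spec hex, ?_⟩
    have hv0 := E.nonneg v
    rcases Nat.eq_zero_or_pos (Nat.find hex) with h0 | h0
    · have := Nat.find_spec hex
      rw [h0, pow_zero, E.one] at this
      omega
    · have h1 := Nat.find_min hex (m := Nat.find hex - 1) (by omega)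
      have h2 := E.mul_le (a ^ (Nat.find hex - 1)) a
      rw [← pow_succ, Nat.sub_add_cancel h0] at h2
      omega
  have hc : v * (a ^ n)⁻¹ = (a ^ n)⁻¹ * v := ((hva.pow_right n).inv_right).eq
  have hc' : v * a ^ n = a ^ n * v := (hva.pow_right n).eq
  have Q := E.four 1 v (v * a ^ n) (a ^ n)
  have Q2 := E.four 1 v (a ^ n) (v * a ^ n)
  have e1 : (1 : G)⁻¹ * (v * a ^ n) = v * a ^ n := by simp
  have e2 : E.l (v⁻¹ * a ^ n) = E.l (v * (a ^ n)⁻¹) := by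
    rw [← E.inv (v⁻¹ * a ^ n), hc]; congr 1; group
  have e3 : (1 : G)⁻¹ * v = v := by simp
  have e4 : v⁻¹ * (v * a ^ n) = a ^ n := by group
  have e5 : (1 : G)⁻¹ * a ^ n = a ^ n := by simp
  have e6 : (v * a ^ n)⁻¹ * a ^ n = v⁻¹ := by rw [hc']; group
  have e7 : (a ^ n)⁻¹ * (v * a ^ n) = v := by rw [hc']; group
  rw [e1, e2, e3, e4, e5, e6, E.inv] at Q
  rw [e1, e2, e3, e4, e5, e7] at Q2
  -- the second quadruple
  have R := E.four 1 (a ^ n) v (a ^ n)⁻¹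
  have f1 : (1 : G)⁻¹ * (a ^ n)⁻¹ = (a ^ n)⁻¹ := by simp
  have f2 : (a ^ n)⁻¹ * (a ^ n)⁻¹ = (a ^ (n + n))⁻¹ := by rw [pow_add]; group
  have f3 : E.l (v⁻¹ * (a ^ n)⁻¹) = E.l (v * a ^ n) := by
    rw [← E.inv (v⁻¹ * (a ^ n)⁻¹), hc']; congr 1; group
  have f4 : (a ^ n)⁻¹ * v = v * (a ^ n)⁻¹ := hc.symm
  rw [e3, e5, f1, f2, f3, f4, E.inv, E.inv] at R
  have g1 := h.add_ge n n
  have g2 := hmin n
  have g3 := hmin (-n)
  rw [zpow_natCast] at g2
  rw [zpow_neg, zpow_natCast] at g3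
  have g4 := E.nonneg a
  omega

end HL

end Pool.Agent.V1126
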