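import Pool.Agent.V1126.QPHeight
import Pool.Agent.V1126.HLFix

/-!
# From generating sets to hyperbolic length functions
-/

set_option autoImplicit false

namespace Pool.Agent.V1126.QP

open scoped Pointwise

variable {G : Type} [Group G]

/-- Two elements have the same attracting end. -/
def SameEnd (S : Set G) (a b : G) : Prop :=
  ∀ K : ℝ, ∃ N : ℕ, ∀ n m : ℕ, N ≤ n → N ≤ m → K ≤ gprod S (a ^ n) (b ^ m)

/-- The set is a generating set with hyperbolic Cayley graph and quasi-parabolic action. -/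
def IsQP (S : Set G) : Prop :=
  Subgroup.closure S = ⊤ ∧
  (∃ δ : ℝ, ∀ x y z : G, min (gprod S x y) (gprod S y z) - δ ≤ gprod S x z) ∧
  (∃ g h : G, Loxodromic S g ∧ Loxodromic S h ∧
    ¬ ((SameEnd S g h ∧ SameEnd S g⁻¹ h⁻¹) ∨ (SameEnd S g h⁻¹ ∧ SameEnd S g⁻¹ h))) ∧
  (∀ g h : G, Loxodromic S g → Loxodromic S h →
    (SameEnd S g h ∨ SameEnd S g h⁻¹ ∨ SameEnd S g⁻¹ h ∨ SameEnd S g⁻¹ h⁻¹))

theorem wlen_one (S : Set G) : wlen S (1 : G) = 0 := by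
  have : wlen S (1 : G) ≤ 0 := wlen_le (one_mem_pow_zero _)
  omega

theorem exists_HL {Y : Set G} (hY : Subgroup.closure Y = ⊤)
    (hδ : ∃ δ : ℝ, ∀ x y z : G, min (gprod Y x y) (gprod Y y z) - δ ≤ gprod Y x z) :
    ∃ E : HL G, ∀ g, E.l g = wlen Y g := by
  obtain ⟨δ, hδ⟩ := hδ
  refine ⟨⟨fun g => wlen Y g, (⌈2 * δ⌉.toNat : ℕ), ?_, ?_, ?_, ?_, ?_, ?_⟩, fun g => rfl⟩
  · show ((wlen Y (1 : G) : ℕ) : ℤ) = 0
    rw [wlen_one]; rfl
  · intro g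
    show ((wlen Y g⁻¹ : ℕ) : ℤ) = wlen Y g
    rw [wlen_inv hY]
  · intro g h
    show ((wlen Y (g * h) : ℕ) : ℤ) ≤ wlen Y g + wlen Y h
    exact_mod_cast wlen_mul_le hY g h
  · intro g
    positivity
  · positivity
  · intro a b c e
    show ((wlen Y (a⁻¹ * c) : ℕ) : ℤ) + (wlen Y (b⁻¹ * e) : ℕ) ≤
      max ((wlen Y (a⁻¹ * b) : ℤ) + (wlen Y (c⁻¹ * e) : ℕ))
        ((wlen Y (b⁻¹ * c) : ℤ) + (wlen Y (a⁻¹ * e) : ℕ)) + (⌈2 * δ⌉.toNat : ℕ)
    have h := hδ (e⁻¹ * a) (e⁻¹ * b) (e⁻¹ * c)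
    have i1 : (e⁻¹ * a)⁻¹ * (e⁻¹ * b) = a⁻¹ * b := by group
    have i2 : (e⁻¹ * b)⁻¹ * (e⁻¹ * c) = b⁻¹ * c := by group
    have i3 : (e⁻¹ * a)⁻¹ * (e⁻¹ * c) = a⁻¹ * c := by group
    have j1 : wlen Y (e⁻¹ * a) = wlen Y (a⁻¹ * e) := by
      rw [← wlen_inv hY (a⁻¹ * e)]; congr 1; group
    have j2 : wlen Y (e⁻¹ * b) = wlen Y (b⁻¹ * e) := by
      rw [← wlen_inv hY (b⁻¹ * e)]; congr 1; group
    have j3 : wlen Y (e⁻¹ * c) = wlen Y (c⁻¹ * e) := by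
      rw [← wlen_inv hY (c⁻¹ * e)]; congr 1; group
    unfold gprod at h
    rw [i1, i2, i3, j1, j2, j3] at h
    have hc : 2 * δ ≤ ((⌈2 * δ⌉.toNat : ℕ) : ℝ) := by
      have h1 := Int.le_ceil (2 * δ)
      have h2 := Int.self_le_toNat ⌈2 * δ⌉
      have h3 : ((⌈2 * δ⌉ : ℤ) : ℝ) ≤ ((⌈2 * δ⌉.toNat : ℤ) : ℝ) := by exact_mod_cast h2
      rw [Int.cast_natCast] at h3
      linarith
    have goal : ((wlen Y (a⁻¹ * c) : ℕ) : ℝ) + (wlen Y (b⁻¹ * e) : ℕ) ≤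
      max ((wlen Y (a⁻¹ * b) : ℝ) + (wlen Y (c⁻¹ * e) : ℕ))
        ((wlen Y (b⁻¹ * c) : ℝ) + (wlen Y (a⁻¹ * e) : ℕ)) + (⌈2 * δ⌉.toNat : ℕ) := by
      rcases min_cases ((((wlen Y (a⁻¹ * e) : ℕ) : ℝ) + (wlen Y (b⁻¹ * e) : ℕ) -
        (wlen Y (a⁻¹ * b) : ℕ)) / 2) ((((wlen Y (b⁻¹ * e) : ℕ) : ℝ) + (wlen Y (c⁻¹ * e) : ℕ) -
        (wlen Y (b⁻¹ * c) : ℕ)) / 2) with ⟨h1, -⟩ | ⟨h1, -⟩
      · rw [h1] at h
        have := le_max_left ((wlen Y (a⁻¹ * b) : ℝ) + (wlen Y (c⁻¹ * e) : ℕ))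
          ((wlen Y (b⁻¹ * c) : ℝ) + (wlen Y (a⁻¹ * e) : ℕ))
        linarith
      · rw [h1] at h
        have := le_max_right ((wlen Y (a⁻¹ * b) : ℝ) + (wlen Y (c⁻¹ * e) : ℕ))
          ((wlen Y (b⁻¹ * c) : ℝ) + (wlen Y (a⁻¹ * e) : ℕ))
        linarith
    exact_mod_cast goal

variable {Y : Set G} {E : HL G}

theorem gprod_eq (hE : ∀ g, E.l g = wlen Y g) (a b : G) : gprod Y a b = (E.g2 a b : ℝ) / 2 := by
  unfold gprod HL.g2
  rw [hE, hE, hE]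
  push_cast
  ring

theorem sameEnd_iff (hE : ∀ g, E.l g = wlen Y g) (a b : G) :
    SameEnd Y a b ↔ E.S (HL.P a) (HL.P b) := by
  constructor
  · intro h K
    obtain ⟨N, hN⟩ := h (K / 2)
    refine ⟨N, fun n m hn hm => ?_⟩
    have := hN n m hn hm
    rw [gprod_eq hE] at this
    have h2 : (K : ℝ) ≤ (E.g2 (a ^ n) (b ^ m) : ℝ) := by linarith
    exact_mod_cast h2
  · intro h K
    obtain ⟨N, hN⟩ := h ⌈2 * K⌉
    refine ⟨N, fun n m hn hm => ?_⟩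
    have h1 : ⌈2 * K⌉ ≤ E.g2 (a ^ n) (b ^ m) := hN n m hn hm
    rw [gprod_eq hE]
    have h2 := Int.le_ceil (2 * K)
    have h3 : ((⌈2 * K⌉ : ℤ) : ℝ) ≤ (E.g2 (a ^ n) (b ^ m) : ℝ) := by exact_mod_cast h1
    linarith

theorem lox_iff (hE : ∀ g, E.l g = wlen Y g) (g : G) : Loxodromic Y g ↔ E.Lox g := by
  constructor
  · rintro ⟨c, hc, h⟩
    by_contra hl
    obtain ⟨M, hM⟩ := exists_nat_gt (1 / c)
    have hM0 : (0 : ℝ) < M := lt_trans (by positivity) hM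
    have hcM : 1 ≤ c * M := by
      rw [div_lt_iff₀ hc] at hM; linarith
    obtain ⟨k, hk⟩ := HL.exists_two_pow (M * E.l g) (M * (2 * E.D)) 0
    have h1 := E.not_lox_double hl k
    have h2 := h (2 ^ k)
    have h3 : (2 ^ k : ℝ) ≤ M * (wlen Y (g ^ 2 ^ k) : ℝ) := by
      have h4 : (M : ℝ) * (c * ((2 ^ k : ℕ) : ℝ)) ≤ M * (wlen Y (g ^ 2 ^ k) : ℝ) :=
        mul_le_mul_of_nonneg_left h2 hM0.le
      have h5 : (0 : ℝ) < 2 ^ k := by positivity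
      push_cast at h4
      nlinarith
    have h4 : (2 ^ k : ℤ) ≤ M * E.l (g ^ 2 ^ k) := by
      rw [hE]; exact_mod_cast h3
    have h5 : (M : ℤ) * E.l (g ^ 2 ^ k) ≤ M * (E.l g + k * (2 * E.D)) :=
      mul_le_mul_of_nonneg_left h1 (by positivity)
    nlinarith
  · rintro ⟨M, hM, h⟩
    have hM0 : (0 : ℝ) < M := by exact_mod_cast hM
    refine ⟨1 / M, by positivity, fun n => ?_⟩
    have h1 := h.le_pow n
    have h2 := E.pow_le (g ^ n) M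
    rw [← pow_mul, mul_comm M n, pow_mul] at h1
    have h3 : (n : ℤ) ≤ M * (wlen Y (g ^ n) : ℕ) := by
      rw [← hE]; omega
    have h4 : (n : ℝ) ≤ M * (wlen Y (g ^ n) : ℝ) := by exact_mod_cast h3
    rw [one_div, inv_mul_le_iff₀ hM0]
    exact h4

theorem IsQP.toHL (hE : ∀ g, E.l g = wlen Y g) (h : IsQP Y) : E.QP := by
  obtain ⟨-, -, h1, h2⟩ := h
  constructor
  · simpa only [sameEnd_iff hE, lox_iff hE] using h1
  · simpa only [sameEnd_iff hE, lox_iff hE] using h2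

/-! ### Height data -/

namespace HeightData

variable (D : HeightData G)

theorem not_lox_of_k {g : G} (hg : D.k g = 0) : ¬ Loxodromic D.gen g := by
  rintro ⟨c, hc, h⟩
  have hH : ∀ n : ℕ, D.H (g ^ n) ≤ D.H g := by
    intro n
    induction n with
    | zero => rw [pow_zero]; exact D.H_one.trans (D.H_nonneg g)
    | succ n ih =>
      rw [pow_succ]
      have h1 := D.H_mul (g ^ n) g
      have h2 := D.k_pow g n
      rw [hg, mul_zero] at h2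
      omega
  obtain ⟨n, hn⟩ := exists_nat_gt ((2 * (D.H g : ℝ) + 1) / c)
  rw [div_lt_iff₀ hc] at hn
  have h1 := h n
  have h2 := D.wlen_le_D (g ^ n)
  have h3 : D.D (g ^ n) ≤ 2 * D.H g := by
    have h4 := hH n
    have h5 := D.k_pow g n
    rw [hg, mul_zero] at h5
    unfold HeightData.D
    omega
  have h4 : ((wlen D.gen (g ^ n) : ℕ) : ℝ) ≤ 2 * (D.H g : ℝ) + 1 := by
    exact_mod_cast h2.trans (by omega)
  linarith

theorem sameEnd_of_k {g h : G} (hg : 0 < D.k g) (hh : 0 < D.k h) : SameEnd D.gen g h := by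
  intro K
  obtain ⟨N, hN⟩ := exists_nat_gt (K + 3 / 2)
  refine ⟨N, fun n m hn hm => ?_⟩
  have h1 := abs_le.1 (D.gprod_near (g ^ n) (h ^ m))
  have h2 : (N : ℤ) ≤ D.gD (g ^ n) (h ^ m) := by
    have a1 := D.k_le (g ^ n)
    have a2 := D.k_le (h ^ m)
    rw [D.k_pow] at a1 a2
    have a3 := D.HH_ultra (g ^ n) 1 (h ^ m)
    rw [D.HH_comm (g ^ n) 1, D.HH_one, D.HH_one] at a3
    have a4 : (n : ℤ) ≤ n * D.k g := by nlinarith [Int.natCast_nonneg n]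
    have a5 : (m : ℤ) ≤ m * D.k h := by nlinarith [Int.natCast_nonneg m]
    unfold gD
    omega
  have h3 : (N : ℝ) ≤ (D.gD (g ^ n) (h ^ m) : ℝ) := by exact_mod_cast h2
  linarith

theorem not_sameEnd_of_bound {g h : G} (M : ℤ) (hM : ∀ n : ℕ, D.gD (g ^ n) (h ^ n) ≤ M) :
    ¬ SameEnd D.gen g h := by
  intro hs
  obtain ⟨N, hN⟩ := hs (M + 2)
  have h1 := hN N N le_rfl le_rfl
  have h2 := abs_le.1 (D.gprod_near (g ^ N) (h ^ N))
  have h3 : (D.gD (g ^ N) (h ^ N) : ℝ) ≤ M := by exact_mod_cast hM N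
  linarith

/-- Height data with an element moving the repelling end of `t` define a quasi-parabolic structure. -/
theorem isQP (e : G) (he : D.k e = 0) (M : ℤ)
    (hM : ∀ n : ℕ, (n : ℤ) - M ≤ D.H (D.t ^ n * (e * (D.t ^ n)⁻¹ * e⁻¹))) : IsQP D.gen := by
  have hHe : D.H e⁻¹ = D.H e := by rw [D.H_inv', he, sub_zero]
  have hke : D.k e⁻¹ = 0 := by rw [D.k_inv, he, neg_zero]
  have hH0 := D.H_nonneg e
  have hHc : ∀ n : ℕ, D.H (e * (D.t ^ n)⁻¹ * e⁻¹) ≤ D.H e := by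
    intro n
    have h1 := D.H_mul (e * (D.t ^ n)⁻¹) e⁻¹
    have h2 := D.H_mul e (D.t ^ n)⁻¹
    rw [D.k_mul, he, D.k_inv, D.k_t_pow, hHe] at h1
    rw [he, D.H_inv', D.H_t_pow, D.k_t_pow] at h2
    omega
  refine ⟨D.closure_gen, D.hyperbolic, ⟨D.t, e * D.t * e⁻¹, ?_, ?_, ?_⟩, ?_⟩
  · exact D.loxodromic_of_k (by rw [D.k_t]; norm_num)
  · exact D.loxodromic_of_k (by rw [D.k_mul, D.k_mul, he, hke, D.k_t]; norm_num)
  · rintro (⟨-, h⟩ | ⟨h, -⟩)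
    · refine D.not_sameEnd_of_bound (D.H e + M) (fun n => ?_) h
      have e1 : (e * D.t * e⁻¹)⁻¹ ^ n = e * (D.t ^ n)⁻¹ * e⁻¹ := by
        rw [inv_pow, conj_pow]; group
      rw [e1, inv_pow]
      unfold gD HH
      rw [inv_inv, D.k_inv, D.k_t_pow, D.H_inv', D.H_t_pow, D.k_t_pow]
      have h1 := hM n
      have h2 := hHc n
      omega
    · refine D.not_sameEnd_of_bound (D.H e) (fun n => ?_) h
      have e1 : (e * D.t * e⁻¹)⁻¹ ^ n = e * (D.t ^ n)⁻¹ * e⁻¹ := by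
        rw [inv_pow, conj_pow]; group
      rw [e1]
      unfold gD HH
      rw [D.k_t_pow, D.H_t_pow]
      have h1 := D.H_nonneg ((D.t ^ n)⁻¹ * (e * (D.t ^ n)⁻¹ * e⁻¹))
      have h2 := hHc n
      omega
  · intro g h hg hh
    have hg' : D.k g ≠ 0 := fun h0 => D.not_lox_of_k h0 hg
    have hh' : D.k h ≠ 0 := fun h0 => D.not_lox_of_k h0 hh
    rcases lt_or_gt_of_ne hg' with h1 | h1 <;> rcases lt_or_gt_of_ne hh' with h2 | h2
    · right; right; right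
      exact D.sameEnd_of_k (by rw [D.k_inv]; omega) (by rw [D.k_inv]; omega)
    · right; right; left
      exact D.sameEnd_of_k (by rw [D.k_inv]; omega) (by omega)
    · right; left
      exact D.sameEnd_of_k (by omega) (by rw [D.k_inv]; omega)
    · left
      exact D.sameEnd_of_k (by omega) (by omega)

end HeightData

end Pool.Agent.V1126.QP
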