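import Pool.Agent.V1126.RatGroup

/-!
# The height data of the group
-/

set_option autoImplicit false

namespace Pool.Agent.V1126.RatAlg

open RatFunc

/-- The translation character. -/
noncomputable def kG (f : Gr) : ℤ := intDegree (f.1 1 - f.1 0)

/-- The height. -/
noncomputable def HG (f : Gr) : ℤ := max 0 (max (kG f) (intDegree (f.1 0)))

theorem exists_form (f : Gr) : ∃ (y : K) (i j : ℤ) (ε : Bool), y ∈ R ∧
    (∀ x, f.1 x = t ^ i * s ^ j * σe ε x + y) ∧ f.1 0 = y ∧ kG f = i + j := by
  obtain ⟨f, y, hy, i, j, ε, hf⟩ := f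
  have h0 : f 0 = y := by rw [hf, σe_zero, mul_zero, zero_add]
  refine ⟨y, i, j, ε, hy, hf, h0, ?_⟩
  show intDegree (f 1 - f 0) = _
  rw [h0, hf, σe_one, mul_one, add_sub_cancel_right, deg_u]

theorem kG_mul (f g : Gr) : kG (f * g) = kG f + kG g := by
  obtain ⟨y, i, j, ε, -, hf, -, hk⟩ := exists_form f
  obtain ⟨z, i', j', ε', -, hg, hg0, hk'⟩ := exists_form g
  have h1 : (f * g).1 1 - (f * g).1 0 = t ^ i * s ^ j * σe ε (g.1 1 - g.1 0) := by
    rw [mul_apply, mul_apply, hf, hf]
    have : σe ε (g.1 1 - g.1 0) = σe ε (g.1 1) - σe ε (g.1 0) := by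
      unfold σe; cases ε <;> simp
    rw [this]; ring
  have h2 : g.1 1 - g.1 0 = t ^ i' * s ^ j' := by
    rw [hg0, hg, σe_one, mul_one, add_sub_cancel_right]
  have h3 : σe ε (g.1 1 - g.1 0) ≠ 0 := by
    intro h
    have := congrArg (σe ε) h
    rw [σe_self, σe_zero, h2] at this
    exact u_ne _ _ this
  show intDegree ((f * g).1 1 - (f * g).1 0) = _
  rw [h1, intDegree_mul (u_ne i j) h3, deg_u, deg_σe, hk]
  rfl

/-- Degree of `t ^ i * s ^ j * σ ^ ε x + y`. -/
theorem deg_le (i j : ℤ) (ε : Bool) (x y : K) (M : ℤ) (h0 : 0 ≤ M) (h1 : intDegree x + (i + j) ≤ M)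
    (h2 : intDegree y ≤ M) : intDegree (t ^ i * s ^ j * σe ε x + y) ≤ M := by
  by_cases hx : x = 0
  · rw [hx, σe_zero, mul_zero, zero_add]; exact h2
  have hσx : σe ε x ≠ 0 := by
    intro h
    have := congrArg (σe ε) h
    rw [σe_self, σe_zero] at this
    exact hx this
  have h3 : intDegree (t ^ i * s ^ j * σe ε x) = intDegree x + (i + j) := by
    rw [intDegree_mul (u_ne i j) hσx, deg_u, deg_σe, add_comm]
  by_cases hy : y = 0
  · rw [hy, add_zero, h3]; exact h1
  by_cases hs : t ^ i * s ^ j * σe ε x + y = 0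
  · rw [hs, intDegree_zero]; exact h0
  · have := intDegree_add_le hy hs
    rw [h3] at this
    omega

/-- The height data. -/
noncomputable def height : QP.HeightData Gr where
  k := kG
  H := HG
  t := TG
  k_mul := kG_mul
  H_nonneg := fun _ => le_max_left _ _
  k_le := fun _ => le_trans (le_max_left _ _) (le_max_right _ _)
  H_one := by
    unfold HG kG
    rw [one_apply, one_apply, sub_zero, intDegree_one, intDegree_zero]
    simp
  H_inv := fun f => by
    obtain ⟨y, i, j, ε, -, hf, hf0, hk⟩ := exists_form f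
    have hkinv : kG f⁻¹ = - kG f := by
      have h1 := kG_mul f⁻¹ f
      rw [inv_mul_cancel] at h1
      have h2 : kG 1 = 0 := by
        unfold kG
        rw [one_apply, one_apply, sub_zero, intDegree_one]
      omega
    have h0 : (f⁻¹).1 0 = σe ε (t ^ (-i) * s ^ (-j) * y) := by
      apply inv_mul_apply
      rw [hf, σe_self, ← mul_assoc]
      have h1 : t ^ i * s ^ j * (t ^ (-i) * s ^ (-j)) = 1 := by
        rw [mul_mul_mul_comm, ← zpow_add₀ t_ne, ← zpow_add₀ s_ne, add_neg_cancel, add_neg_cancel,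
          zpow_zero, zpow_zero, one_mul]
      rw [h1, one_mul, add_self]
    unfold HG
    rw [hkinv, h0, deg_σe, hf0, hk]
    by_cases hy : y = 0
    · rw [hy, mul_zero, intDegree_zero]; omega
    · rw [intDegree_mul (u_ne _ _) hy, deg_u]; omega
  H_mul := fun f g => by
    obtain ⟨y, i, j, ε, -, hf, hf0, hk⟩ := exists_form f
    have h1 := kG_mul f g
    have h2 : intDegree ((f * g).1 0) ≤ max (HG f) (HG g + kG f) := by
      rw [mul_apply, hf]
      apply deg_le
      · unfold HG; omega
      · unfold HG; omega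
      · rw [← hf0]; unfold HG; omega
    have h3 : HG (f * g) = max 0 (max (kG (f * g)) (intDegree ((f * g).1 0))) := rfl
    rw [h3, h1]
    have h4 : kG g ≤ HG g := le_trans (le_max_left _ _) (le_max_right _ _)
    have h5 : 0 ≤ HG f := le_max_left _ _
    omega
  k_t := by
    unfold kG
    rw [TG_apply, TG_apply, mul_one, mul_zero, sub_zero, deg_t]
  H_t := by
    unfold HG kG
    rw [TG_apply, TG_apply, mul_one, mul_zero, sub_zero, deg_t, intDegree_zero]
    simp

theorem height_form (x : R) (i j : ℤ) (e : Gr) (he : e = 1 ∨ e = data.σ) :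
    kG (data.τ x * data.U i j * e) = i + j ∧
    HG (data.τ x * data.U i j * e) = max 0 (max (i + j) (intDegree (x : K))) := by
  have hU : ∀ z, (data.U i j).1 z = t ^ i * s ^ j * z := by
    intro z
    show (TG ^ i * SG ^ j).1 z = _
    rw [mul_apply, zpow_apply t_ne TG_apply, zpow_apply s_ne SG_apply, mul_assoc]
  have he0 : e.1 0 = 0 := by
    rcases he with rfl | rfl
    · rfl
    · show σ 0 = 0; rw [map_zero]
  have he1 : e.1 1 = 1 := by
    rcases he with rfl | rfl
    · rfl
    · show σ 1 = 1; rw [map_one]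
  have h0 : (data.τ x * data.U i j * e).1 0 = (x : K) := by
    rw [mul_apply, mul_apply, he0, hU, mul_zero]
    show (0 : K) + x = x
    rw [zero_add]
  have h1 : (data.τ x * data.U i j * e).1 1 = t ^ i * s ^ j + x := by
    rw [mul_apply, mul_apply, he1, hU, mul_one]
    rfl
  have hk : kG (data.τ x * data.U i j * e) = i + j := by
    unfold kG
    rw [h0, h1, add_sub_cancel_right, deg_u]
  refine ⟨hk, ?_⟩
  unfold HG
  rw [hk, h0]

end Pool.Agent.V1126.RatAlg
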