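import Pool.Agent.V1126.CTDefs

/-!
# Dynamics of free groups on their Gromov boundaries
-/

set_option autoImplicit false

namespace Pool.Agent.V1126.CT

open Filter

variable {n : ℕ}

theorem ext_iff' {ξ η : Boundary n} : ξ = η ↔ ∀ k, ξ.1 k = η.1 k :=
  ⟨fun h k => by rw [h], fun h => Subtype.ext (funext h)⟩

theorem act_pos {a : Letter n} {ξ : Boundary n} (h : ξ.1 0 = linv a) (k : ℕ) :
    (act a ξ).1 k = ξ.1 (k + 1) := by
  show actFun a ξ.1 k = _
  unfold actFun; rw [if_pos h]

theorem act_neg_zero {a : Letter n} {ξ : Boundary n} (h : ξ.1 0 ≠ linv a) :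
    (act a ξ).1 0 = a := by
  show actFun a ξ.1 0 = _
  unfold actFun; rw [if_neg h]; simp

theorem act_neg_succ {a : Letter n} {ξ : Boundary n} (h : ξ.1 0 ≠ linv a) (k : ℕ) :
    (act a ξ).1 (k + 1) = ξ.1 k := by
  show actFun a ξ.1 (k + 1) = _
  unfold actFun; rw [if_neg h]; simp

/-! ### The action of words -/

theorem smul_mk (L : List (Letter n)) (ξ : Boundary n) :
    (FreeGroup.mk L) • ξ = L.foldr act ξ := by
  induction L with
  | nil => rw [← FreeGroup.one_eq_mk, one_smul]; rfl
  | cons a L ih =>
    have h : FreeGroup.mk (a :: L) = FreeGroup.mk [a] * FreeGroup.mk L := by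
      rw [FreeGroup.mul_mk]; rfl
    rw [h, mul_smul, ih, List.foldr_cons]
    obtain ⟨i, b⟩ := a
    cases b
    · have h2 : FreeGroup.mk [(i, false)] = (FreeGroup.of i)⁻¹ := by
        rw [FreeGroup.of, FreeGroup.inv_mk]; rfl
      rw [h2]
      show (FreeGroup.lift genPerm (FreeGroup.of i)⁻¹) _ = _
      rw [map_inv, FreeGroup.lift_apply_of]
      rfl
    · show (FreeGroup.lift genPerm (FreeGroup.of i)) _ = _
      rw [FreeGroup.lift_apply_of]
      rfl

theorem smul_eq (g : FreeGroup (Fin n)) (ξ : Boundary n) : g • ξ = g.toWord.foldr act ξ := by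
  rw [← smul_mk, FreeGroup.mk_toWord]

/-- Reducedness of lists. -/
def Red (L : List (Letter n)) : Prop := ∀ k (h : k + 1 < L.length), L[k + 1] ≠ linv L[k]

theorem red_toWord (g : FreeGroup (Fin n)) : Red g.toWord := by
  intro k h he
  have h1 := (List.isChain_iff_getElem.1 (FreeGroup.isReduced_toWord (x := g))) k h
  rw [he] at h1
  have h2 := h1 rfl
  unfold linv at h2
  simp at h2

theorem Red.cons_tail {a : Letter n} {L : List (Letter n)} (h : Red (a :: L)) : Red L := by
  intro k hk
  have := h (k + 1) (by simpa using hk)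
  simpa using this

/-- Without cancellation at the junction the word is simply put in front. -/
theorem foldr_of_no_cancel (L : List (Letter n)) (hL : Red L) (ξ : Boundary n)
    (h : ∀ hl : 0 < L.length, ξ.1 0 ≠ linv (L[L.length - 1]'(by omega))) :
    (∀ k (hk : k < L.length), (L.foldr act ξ).1 k = L[k]) ∧
      ∀ k, (L.foldr act ξ).1 (k + L.length) = ξ.1 k := by
  induction L with
  | nil => exact ⟨fun k hk => absurd hk (by simp), fun k => by simp⟩
  | cons a L ih =>
    have hLr := hL.cons_tail
    have ih' := ih hLr (fun hl => by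
      have h1 := h (by simp)
      have e : (a :: L)[(a :: L).length - 1]'(by simp) = L[L.length - 1]'(by omega) := by
        have : (a :: L).length - 1 = (L.length - 1) + 1 := by simp; omega
        simp only [this, List.getElem_cons_succ]
      rwa [e] at h1)
    obtain ⟨h1, h2⟩ := ih'
    have hne : (L.foldr act ξ).1 0 ≠ linv a := by
      rcases Nat.eq_zero_or_pos L.length with h0 | h0
      · have := h2 0
        rw [h0, zero_add] at this
        rw [this]
        have h3 := h (by simp)
        have e : (a :: L)[(a :: L).length - 1]'(by simp) = a := by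
          have hL0 : L = [] := List.length_eq_zero_iff.1 h0
          subst hL0; rfl
        rwa [e] at h3
      · rw [h1 0 h0]
        have := hL 0 (by simpa using h0)
        simpa using this
    rw [List.foldr_cons]
    constructor
    · intro k hk
      cases k with
      | zero => rw [act_neg_zero hne]; rfl
      | succ k =>
        rw [act_neg_succ hne]
        have : k < L.length := by simpa using hk
        rw [h1 k this]; rfl
    · intro k
      have e : k + (a :: L).length = (k + L.length) + 1 := by simp; omega
      rw [e, act_neg_succ hne, h2]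

/-- If the word and the boundary point stop cancelling after at most `j` letters, an initial segment of
the word survives. -/
theorem foldr_of_differ (j : ℕ) : ∀ (L : List (Letter n)) (_ : Red L) (ξ : Boundary n)
    (hj : j < L.length) (_ : ξ.1 j ≠ linv (L[L.length - 1 - j]'(by omega))),
    ∀ k (hk : k + j < L.length), (L.foldr act ξ).1 k = L[k]'(by omega) := by
  induction j with
  | zero =>
    intro L hL ξ hj hne k hk
    exact (foldr_of_no_cancel L hL ξ (fun _ => by simpa using hne)).1 k (by omega)
  | succ j ih =>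
    intro L hL ξ hj hne k hk
    by_cases hc : ξ.1 0 = linv (L[L.length - 1]'(by omega))
    · -- cancel the last letter
      obtain ⟨L', a, rfl⟩ : ∃ (L' : List (Letter n)) (a : Letter n), L = L' ++ [a] := by
        have hL0 : L ≠ [] := by rintro rfl; simp at hj
        exact ⟨L.dropLast, L.getLast hL0, (List.dropLast_append_getLast hL0).symm⟩
      have hlen : (L' ++ [a]).length = L'.length + 1 := by simp
      have ha : (L' ++ [a])[(L' ++ [a]).length - 1]'(by omega) = a := by
        simp
      rw [ha] at hc
      rw [List.foldr_append, List.foldr_cons, List.foldr_nil]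
      have hL' : Red L' := by
        intro i hi
        have := hL i (by omega)
        rw [List.getElem_append_left (by omega), List.getElem_append_left (by omega)] at this
        exact this
      have := ih L' hL' (act a ξ) (by omega) (by
        rw [act_pos hc]
        have e : (L' ++ [a])[(L' ++ [a]).length - 1 - (j + 1)]'(by omega) =
            L'[L'.length - 1 - j]'(by omega) := by
          have e1 : (L' ++ [a]).length - 1 - (j + 1) = L'.length - 1 - j := by omega
          simp only [e1]
          rw [List.getElem_append_left (by omega)]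
        rwa [e] at hne) k (by omega)
      rw [this, List.getElem_append_left (by omega)]
    · exact (foldr_of_no_cancel L hL ξ (fun _ => hc)).1 k (by omega)

/-! ### Topology -/

instance : CompactSpace (Boundary n) := by
  have h : IsClosed {ξ : ℕ → Letter n | ∀ k, ξ (k + 1) ≠ linv (ξ k)} := by
    rw [Set.ofPred_forall]
    refine isClosed_iInter fun k => ?_
    have h1 : {ξ : ℕ → Letter n | ξ (k + 1) ≠ linv (ξ k)} =
        (fun ξ : ℕ → Letter n => (ξ (k + 1), ξ k)) ⁻¹' {p | p.1 ≠ linv p.2} := rfl
    rw [h1]
    refine IsClosed.preimage ((continuous_apply _).prodMk (continuous_apply _)) ?_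
    exact isClosed_discrete _
  exact isCompact_iff_compactSpace.1 h.isCompact

instance : T2Space (Boundary n) :=
  inferInstanceAs (T2Space {ξ : ℕ → Letter n // ∀ k, ξ (k + 1) ≠ linv (ξ k)})

theorem continuous_coord (k : ℕ) : Continuous fun ξ : Boundary n => ξ.1 k :=
  (continuous_apply k).comp continuous_subtype_val

theorem continuous_act (a : Letter n) : Continuous (act a : Boundary n → Boundary n) := by
  refine Continuous.subtype_mk (continuous_pi fun k => ?_) _
  have h1 : (fun ξ : Boundary n => actFun a ξ.1 k) = (fun p : Letter n × Letter n × Letter n =>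
      if p.1 = linv a then p.2.1 else if k = 0 then a else p.2.2) ∘
      (fun ξ : Boundary n => (ξ.1 0, ξ.1 (k + 1), ξ.1 (k - 1))) := by
    funext ξ
    simp only [Function.comp]
    unfold actFun
    by_cases h : ξ.1 0 = linv a <;> simp [h]
  rw [h1]
  exact continuous_of_discreteTopology.comp
    ((continuous_coord _).prodMk ((continuous_coord _).prodMk (continuous_coord _)))

theorem continuous_smul (g : FreeGroup (Fin n)) : Continuous fun ξ : Boundary n => g • ξ := by
  have h : (fun ξ : Boundary n => g • ξ) = fun ξ => g.toWord.foldr act ξ := by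
    funext ξ; exact smul_eq g ξ
  rw [h]
  induction g.toWord with
  | nil => exact continuous_id
  | cons a L ih => exact (continuous_act a).comp ih

theorem isOpen_cyl (b : Boundary n) (m : ℕ) : IsOpen {ξ : Boundary n | ∀ k < m, ξ.1 k = b.1 k} := by
  have h : {ξ : Boundary n | ∀ k < m, ξ.1 k = b.1 k} =
      ⋂ k ∈ Finset.range m, (fun ξ : Boundary n => ξ.1 k) ⁻¹' {b.1 k} := by
    ext ξ; simp
  rw [h]
  exact isOpen_biInter_finset fun k _ => (isOpen_discrete _).preimage (continuous_coord k)

/-- Neighbourhoods contain cylinders. -/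
theorem exists_cyl {b : Boundary n} {U : Set (Boundary n)} (hU : U ∈ nhds b) :
    ∃ m : ℕ, ∀ ξ : Boundary n, (∀ k < m, ξ.1 k = b.1 k) → ξ ∈ U := by
  by_contra hc
  push Not at hc
  choose x hx hxU using hc
  have h1 : Tendsto x atTop (nhds b) := by
    refine (Topology.IsInducing.subtypeVal.tendsto_nhds_iff).2 ?_
    rw [tendsto_pi_nhds]
    intro k
    rw [nhds_discrete, tendsto_pure]
    filter_upwards [eventually_gt_atTop k] with m hm
    exact hx m k hm
  obtain ⟨m, hm⟩ := (h1.eventually hU).exists
  exact hxU m hm

/-! ### Convergence dynamics -/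

theorem finite_length_le (L : ℕ) : {g : FreeGroup (Fin n) | g.toWord.length ≤ L}.Finite := by
  have h1 : {l : List (Letter n) | l.length ≤ L}.Finite := List.finite_length_le _ _
  exact (h1.preimage FreeGroup.toWord_injective.injOn)

theorem tendsto_length {h : ℕ → FreeGroup (Fin n)} (hh : Tendsto h atTop cofinite) (L : ℕ) :
    ∀ᶠ m in atTop, L < (h m).toWord.length := by
  have := hh.eventually (finite_length_le L).compl_mem_cofinite
  filter_upwards [this] with m hm
  simpa using hm

/-- Convergence dynamics of the free group on its boundary. -/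
theorem exists_conv {h : ℕ → FreeGroup (Fin n)} (hh : Tendsto h atTop cofinite) :
    ∃ φ : ℕ → ℕ, StrictMono φ ∧ ∃ b c : Boundary n,
      (∀ k, ∀ᶠ m in atTop, (h (φ m)).toWord[k]? = some (c.1 k)) ∧
      ∀ K : Set (Boundary n), IsClosed K → b ∉ K → ∀ N : ℕ, ∀ᶠ m in atTop, ∀ ξ ∈ K, ∀ k < N,
        (h (φ m) • ξ).1 k = c.1 k := by
  classical
  let _ : TopologicalSpace (Option (Letter n)) := ⊥
  have : DiscreteTopology (Option (Letter n)) := ⟨rfl⟩
  -- the pair of words
  let W : ℕ → (ℕ → Option (Letter n)) × (ℕ → Option (Letter n)) := fun m =>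
    (fun k => (h m).toWord[k]?, fun k => (h m)⁻¹.toWord[k]?)
  obtain ⟨p, φ, hφ, hp⟩ := CompactSpace.tendsto_subseq W
  have h1 : ∀ k, ∀ᶠ m in atTop, (h (φ m)).toWord[k]? = p.1 k := by
    intro k
    have := (tendsto_pi_nhds.1 (hp.fst_nhds)) k
    rw [nhds_discrete, tendsto_pure] at this
    exact this
  have h2 : ∀ k, ∀ᶠ m in atTop, (h (φ m))⁻¹.toWord[k]? = p.2 k := by
    intro k
    have := (tendsto_pi_nhds.1 (hp.snd_nhds)) k
    rw [nhds_discrete, tendsto_pure] at this
    exact this
  have hlen : ∀ L : ℕ, ∀ᶠ m in atTop, L < (h (φ m)).toWord.length := fun L =>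
    hφ.tendsto_atTop.eventually (tendsto_length hh L)
  have hlen' : ∀ m, ((h (φ m))⁻¹).toWord.length = (h (φ m)).toWord.length := by
    intro m; rw [FreeGroup.toWord_inv, FreeGroup.invRev_length]
  -- the limit words
  have hc : ∀ k, ∃ a, p.1 k = some a := by
    intro k
    obtain ⟨m, hm1, hm2⟩ := ((h1 k).and (hlen k)).exists
    rw [← hm1]
    exact ⟨_, List.getElem?_eq_getElem hm2⟩
  have hb : ∀ k, ∃ a, p.2 k = some a := by
    intro k
    obtain ⟨m, hm1, hm2⟩ := ((h2 k).and (hlen k)).exists
    rw [← hm1]
    exact ⟨_, List.getElem?_eq_getElem (by rw [hlen']; exact hm2)⟩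
  choose c hc using hc
  choose b hb using hb
  have hcr : ∀ k, c (k + 1) ≠ linv (c k) := by
    intro k
    obtain ⟨m, ⟨hm1, hm2⟩, hm3⟩ := (((h1 k).and (h1 (k + 1))).and (hlen (k + 1))).exists
    rw [hc] at hm1 hm2
    rw [List.getElem?_eq_getElem (by omega), Option.some_inj] at hm1 hm2
    rw [← hm1, ← hm2]
    exact red_toWord _ k hm3
  have hbr : ∀ k, b (k + 1) ≠ linv (b k) := by
    intro k
    obtain ⟨m, ⟨hm1, hm2⟩, hm3⟩ := (((h2 k).and (h2 (k + 1))).and (hlen (k + 1))).exists
    rw [hb] at hm1 hm2
    rw [← hlen' m] at hm3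
    rw [List.getElem?_eq_getElem (by omega), Option.some_inj] at hm1 hm2
    rw [← hm1, ← hm2]
    exact red_toWord _ k hm3
  refine ⟨φ, hφ, ⟨b, hbr⟩, ⟨c, hcr⟩, fun k => ?_, ?_⟩
  · filter_upwards [h1 k] with m hm
    rw [hm, hc]
  · intro K hK hbK N
    -- a cylinder around b disjoint from K
    obtain ⟨j0, hj0⟩ := exists_cyl (hK.isOpen_compl.mem_nhds hbK)
    have hev : ∀ᶠ m in atTop, ∀ k < j0, (h (φ m))⁻¹.toWord[k]? = some (b k) := by
      have : ∀ k ∈ Finset.range j0, ∀ᶠ m in atTop, (h (φ m))⁻¹.toWord[k]? = some (b k) := by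
        intro k _
        filter_upwards [h2 k] with m hm
        rw [hm, hb]
      have h3 := (Filter.eventually_all_finset (Finset.range j0)).2 this
      filter_upwards [h3] with m hm k hk
      exact hm k (Finset.mem_range.2 hk)
    have hev2 : ∀ᶠ m in atTop, ∀ k < N, (h (φ m)).toWord[k]? = some (c k) := by
      have : ∀ k ∈ Finset.range N, ∀ᶠ m in atTop, (h (φ m)).toWord[k]? = some (c k) := by
        intro k _
        filter_upwards [h1 k] with m hm
        rw [hm, hc]
      have h3 := (Filter.eventually_all_finset (Finset.range N)).2 this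
      filter_upwards [h3] with m hm k hk
      exact hm k (Finset.mem_range.2 hk)
    filter_upwards [hev, hev2, hlen (N + j0)] with m hm1 hm2 hm3 ξ hξ k hk
    -- ξ differs from b early
    have hd : ∃ j < j0, ξ.1 j ≠ b j := by
      by_contra hcon
      push Not at hcon
      exact hj0 ξ hcon hξ
    obtain ⟨j, hj, hne⟩ := hd
    have hw : (h (φ m))⁻¹.toWord[j]? = some (b j) := hm1 j hj
    have hjl : j < (h (φ m)).toWord.length := by omega
    have hinv : b j = linv ((h (φ m)).toWord[(h (φ m)).toWord.length - 1 - j]'(by omega)) := by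
      rw [List.getElem?_eq_getElem (by rw [hlen']; exact hjl), Option.some_inj] at hw
      rw [← hw]
      simp only [FreeGroup.toWord_inv, FreeGroup.invRev, List.getElem_reverse, List.getElem_map,
        List.length_map]
      rfl
    rw [smul_eq, foldr_of_differ j _ (red_toWord _) ξ hjl (by rw [← hinv]; exact hne) k (by omega)]
    have h4 := hm2 k hk
    rw [List.getElem?_eq_getElem (by omega), Option.some_inj] at h4
    exact h4

end Pool.Agent.V1126.CT
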