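import Mathlib

/-!
# Free groups, their Gromov boundaries, and convergence actions

Definitions. The Gromov boundary of the free group `F_n` (equivalently, of its Cayley tree with respect to
the free basis) is the space of infinite reduced words, on which `F_n` acts by left multiplication.
-/

set_option autoImplicit false

namespace Pool.Agent.V1126.CT

open Filter

/-- The letters `x_i` (`(i, true)`) and `x_i⁻¹` (`(i, false)`) of the free group of rank `n`. -/
abbrev Letter (n : ℕ) : Type := Fin n × Bool

/-- The inverse letter. -/
def linv {n : ℕ} (a : Letter n) : Letter n := (a.1, !a.2)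

theorem linv_linv {n : ℕ} (a : Letter n) : linv (linv a) = a := by
  unfold linv; simp

/-- The Gromov boundary of the free group of rank `n`: the infinite reduced words, with the topology of
pointwise convergence. -/
def Boundary (n : ℕ) : Type := {ξ : ℕ → Letter n // ∀ k, ξ (k + 1) ≠ linv (ξ k)}

instance (n : ℕ) : TopologicalSpace (Boundary n) := instTopologicalSpaceSubtype

/-- The Gromov product of two distinct boundary points with respect to the base vertex `1` of the Cayley
tree: the length of the common initial segment of the two infinite reduced words. -/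
noncomputable def gromovProd {n : ℕ} (ξ η : Boundary n) : ℕ := sInf {k | ξ.1 k ≠ η.1 k}

/-- The metric `m` is a visual metric with parameter `a`. -/
def IsVisual {n : ℕ} (m : MetricSpace (Boundary n)) (a : ℝ) : Prop :=
  ∃ C : ℝ, 1 ≤ C ∧ ∀ ξ η : Boundary n, ξ ≠ η →
    C⁻¹ * (a ^ gromovProd ξ η)⁻¹ ≤ m.dist ξ η ∧ m.dist ξ η ≤ C * (a ^ gromovProd ξ η)⁻¹

/-- Multiplication of an infinite reduced word by a letter, on underlying sequences. -/
def actFun {n : ℕ} (a : Letter n) (ξ : ℕ → Letter n) : ℕ → Letter n :=
  if ξ 0 = linv a then fun k => ξ (k + 1) else fun k => if k = 0 then a else ξ (k - 1)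

/-- Left multiplication of an infinite reduced word by a letter. -/
def act {n : ℕ} (a : Letter n) (ξ : Boundary n) : Boundary n :=
  ⟨actFun a ξ.1, by
    intro k
    unfold actFun
    by_cases h : ξ.1 0 = linv a
    · rw [if_pos h]; exact ξ.2 (k + 1)
    · rw [if_neg h]
      cases k with
      | zero => simpa using h
      | succ k => simpa using ξ.2 k⟩

theorem act_linv_act {n : ℕ} (a : Letter n) (ξ : Boundary n) : act (linv a) (act a ξ) = ξ := by
  apply Subtype.ext
  show actFun (linv a) (actFun a ξ.1) = ξ.1
  by_cases h : ξ.1 0 = linv a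
  · have h1 : actFun a ξ.1 = fun k => ξ.1 (k + 1) := by unfold actFun; rw [if_pos h]
    have h2 : ¬ (ξ.1 (0 + 1) = linv (linv a)) := by
      rw [← h]; exact ξ.2 0
    rw [h1]
    unfold actFun
    rw [if_neg h2]
    funext k
    cases k with
    | zero => simp [h]
    | succ k => simp
  · have h1 : actFun a ξ.1 = fun k => if k = 0 then a else ξ.1 (k - 1) := by
      unfold actFun; rw [if_neg h]
    rw [h1]
    unfold actFun
    rw [if_pos (by simp [linv_linv])]
    funext k
    simp

/-- Left multiplication by a generator. -/
def genPerm {n : ℕ} (i : Fin n) : Equiv.Perm (Boundary n) where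
  toFun := act (i, true)
  invFun := act (i, false)
  left_inv ξ := act_linv_act (i, true) ξ
  right_inv ξ := act_linv_act (i, false) ξ

/-- The action of the free group on its Gromov boundary. -/
instance (n : ℕ) : MulAction (FreeGroup (Fin n)) (Boundary n) :=
  MulAction.compHom (Boundary n) (FreeGroup.lift (genPerm (n := n)))

variable {H Z : Type} [Group H] [TopologicalSpace Z] [MulAction H Z]

/-- `h n` converges to `c` uniformly on compact subsets of `Z ∖ {b}`. -/
def ConvTo (h : ℕ → H) (b c : Z) : Prop :=
  ∀ K : Set Z, IsCompact K → b ∉ K → ∀ U ∈ nhds c, ∀ᶠ n in atTop, ∀ z ∈ K, h n • z ∈ U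

variable (H Z)

/-- A convergence action (sequence form): the group acts by homeomorphisms, and every sequence of distinct
elements has a subsequence converging to a point `c` uniformly on compact subsets of the complement of a
point `b`. -/
def IsConvergenceAction : Prop :=
  (∀ g : H, Continuous fun z : Z => g • z) ∧
    ∀ h : ℕ → H, Function.Injective h → ∃ φ : ℕ → ℕ, StrictMono φ ∧ ∃ b c : Z, ConvTo (h ∘ φ) b c

/-- The induced action on the space of distinct triples is properly discontinuous: for every compact set
`K` of distinct triples only finitely many group elements move `K` to a set meeting `K`. -/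
def IsProperOnTriples : Prop :=
  ∀ K : Set (Z × Z × Z), IsCompact K → (∀ t ∈ K, t.1 ≠ t.2.1 ∧ t.2.1 ≠ t.2.2 ∧ t.1 ≠ t.2.2) →
    {h : H | ∃ t ∈ K, (h • t.1, h • t.2.1, h • t.2.2) ∈ K}.Finite

/-- The limit set. -/
def limitSet : Set Z := {c | ∃ (h : ℕ → H) (b : Z), Function.Injective h ∧ ConvTo h b c}

variable {Z}

/-- Conical points. -/
def IsConical (z : Z) : Prop :=
  ∃ (h : ℕ → H) (b c : Z), b ≠ c ∧ Tendsto (fun n => h n • z) atTop (nhds b) ∧
    ∀ y : Z, y ≠ z → Tendsto (fun n => h n • y) atTop (nhds c)

end Pool.Agent.V1126.CT
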