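import Pool.Agent.V1126.CTBoundary

/-!
# A quotient of the Gromov boundary of the free group of rank three

The quotient collapses, for each conjugate of the free factor generated by the first two generators, its
limit set to a point.
-/

set_option autoImplicit false

namespace Pool.Agent.V1126.CT

open Filter

/-! ### Generalities -/

section General

variable {H Z : Type} [Group H] [TopologicalSpace Z] [MulAction H Z]

theorem ConvTo.comp {h : ℕ → H} {b c : Z} (hc : ConvTo h b c) {φ : ℕ → ℕ}
    (hφ : Tendsto φ atTop atTop) : ConvTo (h ∘ φ) b c := by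
  intro K hK hb U hU
  exact hφ.eventually (hc K hK hb U hU)

theorem ConvTo.tendsto [T2Space Z] [CompactSpace Z] {h : ℕ → H} {b c : Z} (hc : ConvTo h b c)
    {x : ℕ → Z} {x0 : Z} (hx : Tendsto x atTop (nhds x0)) (hne : x0 ≠ b) :
    Tendsto (fun m => h m • x m) atTop (nhds c) := by
  intro U hU
  obtain ⟨K, hK1, hK2, hK3⟩ := exists_mem_nhds_isClosed_subset (isOpen_compl_singleton.mem_nhds hne)
  have hb : b ∉ K := fun hbK => hK3 hbK rfl
  have hev : ∀ᶠ m in atTop, x m ∈ K := hx hK1
  have hev2 : ∀ᶠ m in atTop, h m • x m ∈ U := by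
    filter_upwards [hc K hK2.isCompact hb U hU, hev] with m hm1 hm2
    exact hm1 _ hm2
  exact hev2

/-- Convergence dynamics imply proper discontinuity on distinct triples. -/
theorem finite_of_triples [T2Space Z] [CompactSpace Z] [FirstCountableTopology Z]
    (hcv : ∀ h : ℕ → H, Function.Injective h → ∃ φ : ℕ → ℕ, StrictMono φ ∧ ∃ b c : Z,
      ConvTo (h ∘ φ) b c) (K : Set (Z × Z × Z)) (hK : IsCompact K)
    (hd : ∀ t ∈ K, t.1 ≠ t.2.1 ∧ t.2.1 ≠ t.2.2 ∧ t.1 ≠ t.2.2) :
    {h : H | ∃ t ∈ K, (h • t.1, h • t.2.1, h • t.2.2) ∈ K}.Finite := by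
  by_contra hinf
  have hinf' : {h : H | ∃ t ∈ K, (h • t.1, h • t.2.1, h • t.2.2) ∈ K}.Infinite := hinf
  let h : ℕ → H := fun m => (hinf'.natEmbedding _ m : H)
  have hinj : Function.Injective h := fun a b hab =>
    (hinf'.natEmbedding _).injective (Subtype.ext hab)
  have hmem : ∀ m, ∃ t ∈ K, (h m • t.1, h m • t.2.1, h m • t.2.2) ∈ K :=
    fun m => (hinf'.natEmbedding _ m).2
  choose t htK ht using hmem
  obtain ⟨φ, hφ, b, c, hconv⟩ := hcv h hinj
  obtain ⟨p, hp, ψ, hψ, hpt⟩ := hK.tendsto_subseq (x := fun m => t (φ m)) (fun m => htK _)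
  obtain ⟨q, hq, θ, hθ, hqt⟩ := hK.tendsto_subseq
    (x := fun m => (h (φ (ψ m)) • (t (φ (ψ m))).1, h (φ (ψ m)) • (t (φ (ψ m))).2.1,
      h (φ (ψ m)) • (t (φ (ψ m))).2.2)) (fun m => ht _)
  have hconv' := hconv.comp (hψ.tendsto_atTop.comp hθ.tendsto_atTop)
  have hpt' := hpt.comp hθ.tendsto_atTop
  obtain ⟨d1, d2, d3⟩ := hd p hp
  obtain ⟨e1, e2, e3⟩ := hd q hq
  have p1 := (continuous_fst.tendsto _).comp hpt'
  have p2 := ((continuous_fst.comp continuous_snd).tendsto _).comp hpt'
  have p3 := ((continuous_snd.comp continuous_snd).tendsto _).comp hpt'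
  have q1 := (continuous_fst.tendsto _).comp hqt
  have q2 := ((continuous_fst.comp continuous_snd).tendsto _).comp hqt
  have q3 := ((continuous_snd.comp continuous_snd).tendsto _).comp hqt
  by_cases b1 : p.1 = b
  · have c2 := hconv'.tendsto p2 (fun hb => d1 (b1.trans hb.symm))
    have c3 := hconv'.tendsto p3 (fun hb => d3 (b1.trans hb.symm))
    exact e2 ((tendsto_nhds_unique q2 c2).trans (tendsto_nhds_unique q3 c3).symm)
  · have c1 := hconv'.tendsto p1 b1
    by_cases b2 : p.2.1 = b
    · have c3 := hconv'.tendsto p3 (fun hb => d2 (b2.trans hb.symm))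
      exact e3 ((tendsto_nhds_unique q1 c1).trans (tendsto_nhds_unique q3 c3).symm)
    · have c2 := hconv'.tendsto p2 b2
      exact e1 ((tendsto_nhds_unique q1 c1).trans (tendsto_nhds_unique q2 c2).symm)

end General

/-! ### Convergence on the boundary -/

variable {n : ℕ}

theorem exists_convTo {h : ℕ → FreeGroup (Fin n)} (hh : Tendsto h atTop cofinite) :
    ∃ φ : ℕ → ℕ, StrictMono φ ∧ ∃ b c : Boundary n,
      (∀ k, ∀ᶠ m in atTop, (h (φ m)).toWord[k]? = some (c.1 k)) ∧ ConvTo (h ∘ φ) b c := by
  obtain ⟨φ, hφ, b, c, h1, h2⟩ := exists_conv hh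
  refine ⟨φ, hφ, b, c, h1, ?_⟩
  intro K hK hb U hU
  obtain ⟨m0, hm0⟩ := exists_cyl hU
  filter_upwards [h2 K hK.isClosed hb m0] with m hm ξ hξ
  exact hm0 _ (hm ξ hξ)

/-- The first `m` letters as a group element. -/
def seg (ξ : Boundary n) (m : ℕ) : FreeGroup (Fin n) := FreeGroup.mk (List.ofFn fun k : Fin m => ξ.1 k)

theorem toWord_seg (ξ : Boundary n) (m : ℕ) :
    (seg ξ m).toWord = List.ofFn fun k : Fin m => ξ.1 k := by
  unfold seg
  rw [FreeGroup.toWord_mk]
  apply FreeGroup.IsReduced.reduce_eq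
  unfold FreeGroup.IsReduced
  rw [List.isChain_iff_getElem]
  intro i hi h1
  by_contra h2
  simp only [List.getElem_ofFn] at h1 h2
  apply ξ.2 i
  unfold linv
  rw [Prod.ext_iff]
  refine ⟨h1.symm, ?_⟩
  show (ξ.1 (i + 1)).2 = !(ξ.1 i).2
  cases hx : (ξ.1 (i + 1)).2 <;> cases hy : (ξ.1 i).2 <;> simp_all

theorem seg_length (ξ : Boundary n) (m : ℕ) : (seg ξ m).toWord.length = m := by
  rw [toWord_seg, List.length_ofFn]

theorem seg_injective (ξ : Boundary n) : Function.Injective (seg ξ) := by
  intro a b hab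
  have := congrArg (fun g => g.toWord.length) hab
  simpa [seg_length] using this

/-! ### The quotient -/

/-- The free group of rank three. -/
abbrev F3 : Type := FreeGroup (Fin 3)

/-- Whether a letter is the third generator or its inverse. -/
def isC (a : Letter 3) : Bool := decide (a.1 = 2)

/-- The coding map: for every group element `g`, whether the ray from `g` to the boundary point starts
with the third generator or its inverse. -/
def code (ξ : Boundary 3) : F3 → Bool := fun g => isC ((g⁻¹ • ξ).1 0)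

/-- The quotient space: the image of the coding map. -/
def Quo : Type := {z : F3 → Bool // z ∈ Set.range code}

instance : TopologicalSpace Quo := instTopologicalSpaceSubtype

theorem continuous_code : Continuous code := by
  refine continuous_pi fun g => ?_
  have h : (fun ξ : Boundary 3 => code ξ g) = isC ∘ (fun ξ : Boundary 3 => ξ.1 0) ∘
      (fun ξ : Boundary 3 => g⁻¹ • ξ) := rfl
  rw [h]
  exact continuous_of_discreteTopology.comp ((continuous_coord 0).comp (continuous_smul _))

instance : CompactSpace Quo :=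
  isCompact_iff_compactSpace.1 (isCompact_range continuous_code)

instance : T2Space Quo := inferInstanceAs (T2Space {z : F3 → Bool // z ∈ Set.range code})

instance : Countable F3 := FreeGroup.toWord_injective.countable

instance : TopologicalSpace.MetrizableSpace Quo :=
  inferInstanceAs (TopologicalSpace.MetrizableSpace {z : F3 → Bool // z ∈ Set.range code})

theorem code_smul (g : F3) (ξ : Boundary 3) (h : F3) : code (g • ξ) h = code ξ (g⁻¹ * h) := by
  unfold code
  rw [← mul_smul, mul_inv_rev, inv_inv]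

instance : MulAction F3 Quo where
  smul g z := ⟨fun h => z.1 (g⁻¹ * h), by
    obtain ⟨ξ, hξ⟩ := z.2
    refine ⟨g • ξ, ?_⟩
    funext h
    rw [code_smul, hξ]⟩
  one_smul z := Subtype.ext (by funext h; show z.1 (1⁻¹ * h) = z.1 h; simp)
  mul_smul g g' z := Subtype.ext (by
    funext h
    show z.1 ((g * g')⁻¹ * h) = z.1 (g'⁻¹ * (g⁻¹ * h))
    rw [mul_inv_rev, mul_assoc])

/-- The quotient map. -/
def quo (ξ : Boundary 3) : Quo := ⟨code ξ, ξ, rfl⟩

theorem continuous_quo : Continuous quo := continuous_code.subtype_mk _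

theorem quo_surjective : Function.Surjective quo := by
  rintro ⟨z, ξ, rfl⟩
  exact ⟨ξ, rfl⟩

theorem quo_smul (g : F3) (ξ : Boundary 3) : quo (g • ξ) = g • quo ξ :=
  Subtype.ext (by funext h; exact code_smul g ξ h)

theorem quo_ne {ξ η : Boundary 3} (g : F3) (h : code ξ g ≠ code η g) : quo ξ ≠ quo η := by
  intro h1
  apply h
  have h2 : code ξ = code η := congrArg Subtype.val h1
  rw [h2]

theorem continuous_smul_quo (g : F3) : Continuous fun z : Quo => g • z := by
  refine Continuous.subtype_mk (continuous_pi fun h => ?_) _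
  exact (continuous_apply (g⁻¹ * h)).comp continuous_subtype_val

theorem push {h : ℕ → F3} {b c : Boundary 3} (hc : ConvTo h b c) : ConvTo h (quo b) (quo c) := by
  intro K hK hb U hU
  have h1 : IsCompact (quo ⁻¹' K) := (hK.isClosed.preimage continuous_quo).isCompact
  have h2 := hc _ h1 hb _ (continuous_quo.continuousAt.preimage_mem_nhds hU)
  filter_upwards [h2] with m hm z hz
  obtain ⟨ξ, rfl⟩ := quo_surjective z
  rw [← quo_smul]
  exact hm ξ hz

theorem isConvergence : IsConvergenceAction F3 Quo := by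
  refine ⟨continuous_smul_quo, fun h hh => ?_⟩
  have h1 : Tendsto h atTop cofinite := by
    rw [← Nat.cofinite_eq_atTop]; exact hh.tendsto_cofinite
  obtain ⟨φ, hφ, b, c, -, hc⟩ := exists_convTo h1
  exact ⟨φ, hφ, quo b, quo c, push hc⟩

theorem quo_mem_limitSet (ξ : Boundary 3) : quo ξ ∈ limitSet F3 Quo := by
  have h1 : Tendsto (seg ξ) atTop cofinite := by
    rw [← Nat.cofinite_eq_atTop]; exact (seg_injective ξ).tendsto_cofinite
  obtain ⟨φ, hφ, b, c, hw, hc⟩ := exists_convTo h1
  have hcx : c = ξ := by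
    rw [ext_iff']
    intro k
    obtain ⟨m, hm1, hm2⟩ := ((hw k).and (hφ.tendsto_atTop.eventually_gt_atTop k)).exists
    rw [toWord_seg, List.getElem?_eq_getElem (by simpa using hm2), Option.some_inj,
      List.getElem_ofFn] at hm1
    exact hm1.symm
  rw [hcx] at hc
  exact ⟨seg ξ ∘ φ, quo b, (seg_injective ξ).comp hφ.injective, push hc⟩

/-! ### Points -/

/-- Constant words. -/
def cst (a : Letter n) : Boundary n := ⟨fun _ => a, fun _ => by
  intro h
  have := congrArg Prod.snd h
  unfold linv at this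
  simp at this⟩

/-- Two points with the same code. -/
def Q (ξ η : Boundary 3) : Prop :=
  ∃ m : ℕ, (∀ k < m, ξ.1 k = η.1 k) ∧ ∀ k, m ≤ k → (ξ.1 k).1 ≠ 2 ∧ (η.1 k).1 ≠ 2

theorem Q.act {ξ η : Boundary 3} (h : Q ξ η) (a : Letter 3) : Q (act a ξ) (act a η) := by
  obtain ⟨m, h1, h2⟩ := h
  cases m with
  | zero =>
    by_cases ha : a.1 = 2
    · have e1 : ξ.1 0 ≠ linv a := by
        intro h
        apply (h2 0 le_rfl).1
        rw [h]; exact ha
      have e2 : η.1 0 ≠ linv a := by
        intro h
        apply (h2 0 le_rfl).2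
        rw [h]; exact ha
      refine ⟨1, fun k hk => ?_, fun k hk => ?_⟩
      · have : k = 0 := by omega
        subst this
        rw [act_neg_zero e1, act_neg_zero e2]
      · obtain ⟨j, rfl⟩ : ∃ j, k = j + 1 := ⟨k - 1, by omega⟩
        rw [act_neg_succ e1, act_neg_succ e2]
        exact h2 j (by omega)
    · have key : ∀ ζ : Boundary 3, (∀ k, (ζ.1 k).1 ≠ 2) → ∀ k, ((CT.act a ζ).1 k).1 ≠ 2 := by
        intro ζ hζ k
        by_cases e : ζ.1 0 = linv a
        · rw [act_pos e]; exact hζ _
        · cases k with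
          | zero => rw [act_neg_zero e]; exact ha
          | succ k => rw [act_neg_succ e]; exact hζ _
      refine ⟨0, fun k hk => absurd hk (by omega), fun k _ => ⟨?_, ?_⟩⟩
      · exact key ξ (fun k => (h2 k (by omega)).1) k
      · exact key η (fun k => (h2 k (by omega)).2) k
  | succ m =>
    by_cases e : ξ.1 0 = linv a
    · have e' : η.1 0 = linv a := by rw [← h1 0 (by omega)]; exact e
      refine ⟨m, fun k hk => ?_, fun k hk => ?_⟩
      · rw [act_pos e, act_pos e']; exact h1 _ (by omega)
      · rw [act_pos e, act_pos e']; exact h2 _ (by omega)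
    · have e' : η.1 0 ≠ linv a := by rw [← h1 0 (by omega)]; exact e
      refine ⟨m + 2, fun k hk => ?_, fun k hk => ?_⟩
      · cases k with
        | zero => rw [act_neg_zero e, act_neg_zero e']
        | succ k => rw [act_neg_succ e, act_neg_succ e']; exact h1 _ (by omega)
      · obtain ⟨j, rfl⟩ : ∃ j, k = j + 1 := ⟨k - 1, by omega⟩
        rw [act_neg_succ e, act_neg_succ e']
        exact h2 j (by omega)

theorem Q.smul {ξ η : Boundary 3} (h : Q ξ η) (g : F3) : Q (g • ξ) (g • η) := by
  rw [smul_eq, smul_eq]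
  induction g.toWord with
  | nil => exact h
  | cons a L ih => exact ih.act a

theorem Q.isC {ξ η : Boundary 3} (h : Q ξ η) : isC (ξ.1 0) = isC (η.1 0) := by
  obtain ⟨m, h1, h2⟩ := h
  cases m with
  | zero =>
    have := h2 0 le_rfl
    unfold CT.isC
    rw [decide_eq_false this.1, decide_eq_false this.2]
  | succ m => rw [h1 0 (by omega)]

theorem quo_eq {ξ η : Boundary 3} (hξ : ∀ k, (ξ.1 k).1 ≠ 2) (hη : ∀ k, (η.1 k).1 ≠ 2) :
    quo ξ = quo η := by
  have h : Q ξ η := ⟨0, fun k hk => absurd hk (by omega), fun k _ => ⟨hξ k, hη k⟩⟩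
  exact Subtype.ext (by funext g; exact (h.smul g⁻¹).isC)

theorem code_one (ξ : Boundary 3) : code ξ 1 = isC (ξ.1 0) := by
  unfold code; rw [inv_one, one_smul]

/-- Three points. -/
theorem exists_three : quo (cst (0, true)) ≠ quo (cst (2, true)) ∧
    quo (cst (2, true)) ≠ quo (act (2, true) (cst (0, true))) ∧
    quo (cst (0, true)) ≠ quo (act (2, true) (cst (0, true))) := by
  have hof : ∀ ξ : Boundary 3, (FreeGroup.of (2 : Fin 3))⁻¹ • ξ = act (2, false) ξ := by
    intro ξ
    show (FreeGroup.lift genPerm (FreeGroup.of (2 : Fin 3))⁻¹) ξ = _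
    rw [map_inv, FreeGroup.lift_apply_of]
    rfl
  refine ⟨quo_ne 1 ?_, quo_ne (FreeGroup.of 2) ?_, quo_ne 1 ?_⟩
  · rw [code_one, code_one]
    decide
  · unfold code
    rw [hof, hof]
    have h1 : act (2, false) (act (2, true) (cst (0, true)) : Boundary 3) = cst (0, true) :=
      act_linv_act (2, true) _
    rw [h1, act_pos (by rfl)]
    decide
  · rw [code_one, code_one, act_neg_zero (by decide)]
    decide

/-- Points with several preimages are not conical. -/
theorem not_conical {ξ η : Boundary 3} (hne : ξ ≠ η) (h : quo ξ = quo η) :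
    ¬ IsConical F3 (quo ξ) := by
  rintro ⟨g, b, c, hbc, h1, h2⟩
  obtain ⟨d1, d2, d3⟩ := exists_three
  -- two more points besides any given one
  have hthree : ∀ z w : Quo, ∃ y : Quo, y ≠ z ∧ y ≠ w := by
    intro z w
    by_contra hcon
    push Not at hcon
    have a1 := hcon (quo (cst (0, true)))
    have a2 := hcon (quo (cst (2, true)))
    have a3 := hcon (quo (act (2, true) (cst (0, true))))
    by_cases b1 : quo (cst (0, true)) = z
    · have c2 := a2 (fun h => d1 (b1.trans h.symm))
      have c3 := a3 (fun h => d3 (b1.trans h.symm))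
      exact d2 (c2.trans c3.symm)
    · have c1 := a1 b1
      by_cases b2 : quo (cst (2, true)) = z
      · have c3 := a3 (fun h => d2 (b2.trans h.symm))
        exact d3 (c1.trans c3.symm)
      · exact d1 (c1.trans (a2 b2).symm)
  -- the sequence leaves every finite set
  have hg : Tendsto g atTop cofinite := by
    rw [← Nat.cofinite_eq_atTop]
    refine Filter.Tendsto.cofinite_of_finite_preimage_singleton fun f => ?_
    by_contra hinf
    have hfr : ∃ᶠ m in atTop, g m = f := by
      rw [← Nat.cofinite_eq_atTop]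
      exact Filter.frequently_cofinite_iff_infinite.2 hinf
    obtain ⟨y1, hy1, -⟩ := hthree (quo ξ) (quo ξ)
    obtain ⟨y2, hy2, hy12⟩ := hthree (quo ξ) y1
    have key : ∀ (y l : Quo), Tendsto (fun m => g m • y) atTop (nhds l) → f • y = l := by
      intro y l hl
      by_contra hcon
      have := hl.eventually (isOpen_compl_singleton.mem_nhds (Ne.symm hcon))
      obtain ⟨m, hm1, hm2⟩ := (hfr.and_eventually this).exists
      exact hm2 (by rw [hm1]; rfl)
    have k1 := key y1 c (h2 y1 hy1)
    have k2 := key y2 c (h2 y2 hy2)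
    exact hy12 (MulAction.injective f (k2.trans k1.symm))
  obtain ⟨φ, hφ, b', c', -, hconv⟩ := exists_convTo hg
  -- the image of the common point
  have hb : b = quo c' := by
    obtain ⟨ζ, hζ, hζz⟩ : ∃ ζ : Boundary 3, ζ ≠ b' ∧ quo ζ = quo ξ := by
      by_cases hx : ξ = b'
      · exact ⟨η, fun h => hne (hx.trans h.symm), h.symm⟩
      · exact ⟨ξ, hx, rfl⟩
    have t1 := hconv.tendsto (tendsto_const_nhds (x := ζ)) hζ
    have t2 := (continuous_quo.tendsto _).comp t1
    have t3 := h1.comp hφ.tendsto_atTop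
    refine tendsto_nhds_unique t3 (t2.congr fun m => ?_)
    show quo (g (φ m) • ζ) = g (φ m) • quo ξ
    rw [quo_smul, hζz]
  have hc : c = quo c' := by
    obtain ⟨y, hy1, hy2⟩ := hthree (quo ξ) (quo b')
    obtain ⟨ζ, rfl⟩ := quo_surjective y
    have hζ : ζ ≠ b' := by rintro rfl; exact hy2 rfl
    have t1 := hconv.tendsto (tendsto_const_nhds (x := ζ)) hζ
    have t2 := (continuous_quo.tendsto _).comp t1
    have t3 := (h2 _ hy1).comp hφ.tendsto_atTop
    refine tendsto_nhds_unique t3 (t2.congr fun m => ?_)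
    show quo (g (φ m) • ζ) = g (φ m) • quo ζ
    rw [quo_smul]
  exact hbc (hb.trans hc.symm)

/-! ### Hausdorff dimension -/

/-- Sets containing all positive words in the first two generators have positive Hausdorff dimension. -/
theorem dimH_pos (m : MetricSpace (Boundary 3)) {a : ℝ} (ha : 1 < a) (hm : IsVisual m a)
    {S : Set (Boundary 3)} (hS : ∀ ξ : Boundary 3, (∀ k, ξ.1 k = (0, true) ∨ ξ.1 k = (1, true)) → ξ ∈ S) :
    0 < @dimH (Boundary 3) m.toEMetricSpace S := by
  obtain ⟨C, hC, hvis⟩ := hm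
  let P : Set (Boundary 3) := {ξ | ∀ k, ξ.1 k = (0, true) ∨ ξ.1 k = (1, true)}
  let f : Boundary 3 → ℝ := fun ξ => Real.ofDigits (b := 2) fun k => if (ξ.1 k).1 = 0 then 0 else 1
  -- the exponent
  let r : ℝ := Real.logb a 2
  have hr : 0 < r := Real.logb_pos ha (by norm_num)
  have har : a ^ r = 2 := Real.rpow_logb (by linarith) (by linarith) (by norm_num)
  have ha0 : 0 < a := by linarith
  have hC0 : 0 < C := by linarith
  -- agreement
  have hagree : ∀ ξ η : Boundary 3, ∀ k < gromovProd ξ η, ξ.1 k = η.1 k := by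
    intro ξ η k hk
    by_contra hne
    exact absurd (Nat.sInf_le (show k ∈ {k | ξ.1 k ≠ η.1 k} from hne)) (by
      unfold gromovProd at hk; omega)
  have hf : ∀ ξ η : Boundary 3, |f ξ - f η| ≤ ((2 : ℝ) ^ gromovProd ξ η)⁻¹ := by
    intro ξ η
    have := Real.abs_ofDigits_sub_ofDigits_le (b := 2) (x := fun k => if (ξ.1 k).1 = 0 then 0 else 1)
      (y := fun k => if (η.1 k).1 = 0 then 0 else 1) (n := gromovProd ξ η)
      (fun i hi => by rw [hagree ξ η i hi])
    exact_mod_cast this
  have hhold : ∀ ξ η : Boundary 3, |f ξ - f η| ≤ C ^ r * (m.dist ξ η) ^ r := by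
    intro ξ η
    by_cases hne : ξ = η
    · subst hne
      have hd : m.dist ξ ξ = 0 := m.dist_self ξ
      rw [sub_self, abs_zero, hd, Real.zero_rpow hr.ne', mul_zero]
    · obtain ⟨h1, -⟩ := hvis ξ η hne
      refine (hf ξ η).trans ?_
      have h2 : (a ^ gromovProd ξ η)⁻¹ ≤ C * m.dist ξ η := by
        rw [inv_mul_le_iff₀ hC0] at h1
        exact h1
      have h3 : ((2 : ℝ) ^ gromovProd ξ η)⁻¹ = ((a ^ gromovProd ξ η)⁻¹) ^ r := by
        rw [← har, Real.inv_rpow (by positivity), ← Real.rpow_natCast (a ^ r),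
          ← Real.rpow_natCast a, ← Real.rpow_mul ha0.le, ← Real.rpow_mul ha0.le, mul_comm]
      have hdn : 0 ≤ m.dist ξ η := @dist_nonneg _ m.toPseudoMetricSpace ξ η
      rw [h3, ← Real.mul_rpow hC0.le hdn]
      exact Real.rpow_le_rpow (by positivity) h2 hr.le
  let _ := m
  have hH : HolderWith (Real.toNNReal (C ^ r)) (Real.toNNReal r) f := by
    intro ξ η
    rw [edist_dist, edist_dist, Real.dist_eq]
    have h1 := hhold ξ η
    have hdn : 0 ≤ dist ξ η := dist_nonneg
    have e1 : (ENNReal.ofNNReal (Real.toNNReal (C ^ r))) = ENNReal.ofReal (C ^ r) := rfl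
    have e2 : ((Real.toNNReal r : NNReal) : ℝ) = r := Real.coe_toNNReal r hr.le
    rw [e1, e2, ENNReal.ofReal_rpow_of_nonneg hdn hr.le,
      ← ENNReal.ofReal_mul (by positivity)]
    exact ENNReal.ofReal_le_ofReal h1
  have hr' : 0 < Real.toNNReal r := Real.toNNReal_pos.2 hr
  have h1 := hH.dimH_image_le hr' P
  have h2 : Set.Icc (0 : ℝ) 1 ⊆ f '' P := by
    intro y hy
    obtain ⟨d, -, hd⟩ := Real.ofDigits_SurjOn (b := 2) (by norm_num) hy
    refine ⟨⟨fun k => (if d k = 0 then 0 else 1, true), fun k => ?_⟩, fun k => ?_, ?_⟩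
    · intro h
      have := congrArg Prod.snd h
      unfold linv at this
      simp at this
    · show (_, true) = _ ∨ (_, true) = _
      by_cases h : d k = 0 <;> simp [h]
    · rw [← hd]
      show Real.ofDigits _ = _
      congr 1
      funext k
      show (if (if d k = 0 then (0 : Fin 3) else 1) = 0 then (0 : Fin 2) else 1) = d k
      by_cases h : d k = 0
      · simp [h]
      · have h3 : d k = 1 := by
          generalize d k = e at h
          revert e
          decide
        simp [h3]
  have h3 : (1 : ENNReal) ≤ dimH (f '' P) := by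
    have h4 : dimH (Set.Icc (0 : ℝ) 1) = 1 := by
      rw [Real.dimH_of_nonempty_interior (by rw [interior_Icc]; exact ⟨1 / 2, by norm_num, by norm_num⟩)]
      simp
    rw [← h4]
    exact dimH_mono h2
  have h4 : 0 < dimH P := by
    by_contra hcon
    have h5 : dimH P = 0 := le_antisymm (not_lt.1 hcon) bot_le
    rw [h5, ENNReal.zero_div] at h1
    exact absurd (h3.trans h1) (by norm_num)
  exact h4.trans_le (dimH_mono hS)

end Pool.Agent.V1126.CT
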