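import Pool.Agent.V1126.CTMap

/-!
# The standard visual metrics, and the Cannon-Thurston property
-/

set_option autoImplicit false

namespace Pool.Agent.V1126.CT

open Filter

variable {n : ℕ}

theorem gromovProd_comm (ξ η : Boundary n) : gromovProd ξ η = gromovProd η ξ := by
  unfold gromovProd
  congr 1
  ext k
  exact ne_comm

theorem agree_of_lt {ξ η : Boundary n} {k : ℕ} (hk : k < gromovProd ξ η) : ξ.1 k = η.1 k := by
  by_contra hne
  have := Nat.sInf_le (show k ∈ {k | ξ.1 k ≠ η.1 k} from hne)
  unfold gromovProd at hk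
  omega

theorem le_gromovProd {ξ η : Boundary n} (hne : ξ ≠ η) {m : ℕ} (h : ∀ k < m, ξ.1 k = η.1 k) :
    m ≤ gromovProd ξ η := by
  by_contra hlt
  push Not at hlt
  have hex : {k | ξ.1 k ≠ η.1 k}.Nonempty := by
    by_contra hcon
    apply hne
    rw [ext_iff']
    intro k
    by_contra hk
    exact hcon ⟨k, hk⟩
  exact Nat.sInf_mem hex (h _ hlt)

theorem min_le_gromovProd {ξ η ζ : Boundary n} (hne : ξ ≠ ζ) :
    min (gromovProd ξ η) (gromovProd η ζ) ≤ gromovProd ξ ζ := by
  apply le_gromovProd hne
  intro k hk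
  rw [agree_of_lt (lt_of_lt_of_le hk (min_le_left _ _)),
    agree_of_lt (lt_of_lt_of_le hk (min_le_right _ _))]

open Classical in
/-- The metric `a ^ (- (ξ | η))`. -/
@[reducible] noncomputable def stdMetric (n : ℕ) (a : ℝ) (ha : 1 < a) : MetricSpace (Boundary n) where
  dist ξ η := if ξ = η then 0 else (a ^ gromovProd ξ η)⁻¹
  dist_self ξ := if_pos rfl
  dist_comm ξ η := by
    by_cases h : ξ = η
    · rw [if_pos h, if_pos h.symm]
    · rw [if_neg h, if_neg (Ne.symm h), gromovProd_comm]
  dist_triangle ξ η ζ := by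
    have ha0 : 0 < a := by linarith
    have hpos : ∀ k : ℕ, 0 < (a ^ k)⁻¹ := fun k => by positivity
    by_cases h1 : ξ = ζ
    · rw [if_pos h1]
      split_ifs <;> positivity
    · rw [if_neg h1]
      by_cases h2 : ξ = η
      · subst h2; rw [if_pos rfl, if_neg h1, zero_add]
      · by_cases h3 : η = ζ
        · subst h3; rw [if_pos rfl, if_neg h1, add_zero]
        · rw [if_neg h2, if_neg h3]
          have h4 := min_le_gromovProd (η := η) h1
          rcases min_le_iff.1 h4 with h5 | h5
          · have h6 : (a ^ gromovProd ξ ζ)⁻¹ ≤ (a ^ gromovProd ξ η)⁻¹ :=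
              inv_anti₀ (by positivity) (pow_le_pow_right₀ ha.le h5)
            have := hpos (gromovProd η ζ)
            linarith
          · have h6 : (a ^ gromovProd ξ ζ)⁻¹ ≤ (a ^ gromovProd η ζ)⁻¹ :=
              inv_anti₀ (by positivity) (pow_le_pow_right₀ ha.le h5)
            have := hpos (gromovProd ξ η)
            linarith
  eq_of_dist_eq_zero := by
    intro ξ η h
    by_contra hne
    have ha0 : 0 < a := by linarith
    have h' : (if ξ = η then (0 : ℝ) else (a ^ gromovProd ξ η)⁻¹) = 0 := h
    rw [if_neg hne] at h'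
    have : (0 : ℝ) < (a ^ gromovProd ξ η)⁻¹ := by positivity
    linarith

theorem isVisual_stdMetric (n : ℕ) (a : ℝ) (ha : 1 < a) : IsVisual (stdMetric n a ha) a := by
  refine ⟨1, le_rfl, fun ξ η hne => ?_⟩
  have h : (stdMetric n a ha).dist ξ η = (a ^ gromovProd ξ η)⁻¹ := if_neg hne
  rw [h]
  constructor <;> simp

/-- The orbit map of the base point extends continuously by the quotient map. -/
theorem orbit_tendsto (ξ : Boundary 3) {U : Set Quo} (hU : U ∈ nhds (quo ξ)) :
    ∃ N : ℕ, ∀ g : F3, (∀ k < N, g.toWord[k]? = some (ξ.1 k)) → g • quo (cst (0, true)) ∈ U := by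
  obtain ⟨N, hN⟩ := exists_cyl (continuous_quo.continuousAt.preimage_mem_nhds hU)
  refine ⟨N, fun g hg => ?_⟩
  have hlen : N ≤ g.toWord.length := by
    by_contra hlt
    push Not at hlt
    have := hg g.toWord.length hlt
    rw [List.getElem?_eq_none le_rfl] at this
    exact absurd this (by simp)
  -- a point of the limit set of the free factor without cancellation
  obtain ⟨η, hη, hne⟩ : ∃ η : Boundary 3, (∀ k, (η.1 k).1 ≠ 2) ∧
      ∀ hl : 0 < g.toWord.length, η.1 0 ≠ linv (g.toWord[g.toWord.length - 1]'(by omega)) := by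
    by_cases hl : 0 < g.toWord.length
    · by_cases hc : ((0, true) : Letter 3) = linv (g.toWord[g.toWord.length - 1]'(by omega))
      · refine ⟨cst (1, true), fun k => by show (1 : Fin 3) ≠ 2; decide, fun _ => ?_⟩
        rw [← hc]
        show ((1, true) : Letter 3) ≠ (0, true)
        decide
      · exact ⟨cst (0, true), fun k => by show (0 : Fin 3) ≠ 2; decide, fun _ => hc⟩
    · exact ⟨cst (0, true), fun k => by show (0 : Fin 3) ≠ 2; decide, fun h => absurd h hl⟩
  have h1 : quo (cst (0, true)) = quo η :=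
    quo_eq (fun k => by show (0 : Fin 3) ≠ 2; decide) hη
  rw [h1, ← quo_smul]
  apply hN
  intro k hk
  rw [smul_eq, (foldr_of_no_cancel _ (red_toWord g) η hne).1 k (by omega)]
  have h2 := hg k hk
  rw [List.getElem?_eq_getElem (by omega), Option.some_inj] at h2
  exact h2

end Pool.Agent.V1126.CT
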