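import Mathlib

/-!
Submodules of free modules over a principal ideal domain are free, in arbitrary rank.
-/

set_option autoImplicit false
set_option linter.unusedSectionVars false

namespace PoolAgent.V1126.FreeSub

open Finsupp

variable {R : Type*} [CommRing R] [IsDomain R] [IsPrincipalIdealRing R]
variable {B : Type*} [LinearOrder B] [WellFoundedLT B]

/-- The ideal of leading coefficients at `b`. -/
noncomputable def lead (D : Submodule R (B →₀ R)) (b : B) : Ideal R :=
  (D ⊓ Finsupp.supported R R (Set.Iic b)).map (Finsupp.lapply b)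

lemma exists_lead (D : Submodule R (B →₀ R)) (b : B) :
    ∃ y : D, (y : B →₀ R) ∈ Finsupp.supported R R (Set.Iic b) ∧
      ∀ x : D, (x : B →₀ R) ∈ Finsupp.supported R R (Set.Iic b) →
        (y : B →₀ R) b ∣ (x : B →₀ R) b := by
  obtain ⟨a, ha⟩ := (IsPrincipalIdealRing.principal (lead D b)).principal
  have h1 : a ∈ lead D b := by
    rw [ha]; exact Submodule.mem_span_singleton_self a
  obtain ⟨y, ⟨hy1, hy2⟩, hy3⟩ := h1
  refine ⟨⟨y, hy1⟩, hy2, ?_⟩
  intro x hx
  have h2 : (x : B →₀ R) b ∈ lead D b := ⟨x, ⟨x.2, hx⟩, rfl⟩
  rw [ha] at h2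
  rw [Submodule.mem_span_singleton] at h2
  obtain ⟨r, hr⟩ := h2
  refine ⟨r, ?_⟩
  rw [← hr]
  have : y b = a := hy3
  change r • a = y b * r
  rw [this, smul_eq_mul, mul_comm]

/-- The chosen element with leading term at `b`. -/
noncomputable def yy (D : Submodule R (B →₀ R)) (b : B) : D := (exists_lead D b).choose

lemma yy_supp (D : Submodule R (B →₀ R)) (b : B) :
    (yy D b : B →₀ R) ∈ Finsupp.supported R R (Set.Iic b) := (exists_lead D b).choose_spec.1

lemma yy_dvd (D : Submodule R (B →₀ R)) (b : B) (x : D)
    (hx : (x : B →₀ R) ∈ Finsupp.supported R R (Set.Iic b)) :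
    (yy D b : B →₀ R) b ∣ (x : B →₀ R) b := (exists_lead D b).choose_spec.2 x hx

lemma yy_zero (D : Submodule R (B →₀ R)) {b b' : B} (h : b < b') :
    (yy D b : B →₀ R) b' = 0 := by
  by_contra hne
  have := yy_supp D b (Finsupp.mem_support_iff.2 hne)
  exact absurd h (not_lt.2 this)

/-- The family. -/
noncomputable def fam (D : Submodule R (B →₀ R)) (b : {b : B // (yy D b : B →₀ R) b ≠ 0}) : D :=
  yy D b.1

lemma fam_linInd (D : Submodule R (B →₀ R)) : LinearIndependent R (fam D) := by
  unfold LinearIndependent
  rw [injective_iff_map_eq_zero]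
  intro l hl
  by_contra hne
  have hs : l.support.Nonempty := Finsupp.support_nonempty_iff.2 hne
  obtain ⟨m, hm, hmax⟩ := l.support.exists_max_image (fun b => b.1) hs
  have h1 : ((Finsupp.linearCombination R (fam D) l : D) : B →₀ R) m.1 = 0 := by
    rw [hl]; rfl
  rw [Finsupp.linearCombination_apply, Finsupp.sum] at h1
  rw [Submodule.coe_sum, Finsupp.finsetSum_apply] at h1
  rw [Finset.sum_eq_single m] at h1
  · rw [Submodule.coe_smul, Finsupp.smul_apply, smul_eq_mul] at h1
    rcases mul_eq_zero.1 h1 with h | h
    · exact (Finsupp.mem_support_iff.1 hm) h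
    · exact m.2 h
  · intro b hb hbm
    rw [Submodule.coe_smul, Finsupp.smul_apply]
    have hlt : b.1 < m.1 := lt_of_le_of_ne (hmax b hb) (fun h => hbm (Subtype.ext h))
    have : (fam D b : B →₀ R) m.1 = 0 := yy_zero D hlt
    rw [this, smul_zero]
  · intro h; exact absurd hm h

lemma fam_span_aux (D : Submodule R (B →₀ R)) (b : B) :
    ∀ x : D, (x : B →₀ R) ∈ Finsupp.supported R R (Set.Iic b) →
      x ∈ Submodule.span R (Set.range (fam D)) := by
  induction b using WellFoundedLT.induction with
  | ind b ih =>
    intro x hx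
    obtain ⟨q, hq⟩ := yy_dvd D b x hx
    -- subtract
    by_cases hy : (yy D b : B →₀ R) b = 0
    · -- the leading coefficient vanishes
      have hxb : (x : B →₀ R) b = 0 := by rw [hq, hy, zero_mul]
      by_cases hx0 : x = 0
      · rw [hx0]; exact Submodule.zero_mem _
      have hs : (x : B →₀ R).support.Nonempty :=
        Finsupp.support_nonempty_iff.2 (fun h => hx0 (Subtype.ext h))
      obtain ⟨m, hm, hmax⟩ := (x : B →₀ R).support.exists_max_image id hs
      have hmb : m ≤ b := hx hm
      have hmb' : m < b := lt_of_le_of_ne hmb (by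
        rintro rfl
        exact (Finsupp.mem_support_iff.1 hm) hxb)
      exact ih m hmb' x (fun c hc => hmax c hc)
    · set z : D := x - q • yy D b with hz
      have hzx : x = z + q • yy D b := by rw [hz]; abel
      have hzs : (z : B →₀ R) ∈ Finsupp.supported R R (Set.Iic b) := by
        rw [hz, Submodule.coe_sub, Submodule.coe_smul]
        exact Submodule.sub_mem _ hx (Submodule.smul_mem _ _ (yy_supp D b))
      have hzb : (z : B →₀ R) b = 0 := by
        rw [hz, Submodule.coe_sub, Submodule.coe_smul, Finsupp.sub_apply, Finsupp.smul_apply,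
          smul_eq_mul, hq]
        ring
      have hzspan : z ∈ Submodule.span R (Set.range (fam D)) := by
        by_cases hz0 : z = 0
        · rw [hz0]; exact Submodule.zero_mem _
        have hs : (z : B →₀ R).support.Nonempty :=
          Finsupp.support_nonempty_iff.2 (fun h => hz0 (Subtype.ext h))
        obtain ⟨m, hm, hmax⟩ := (z : B →₀ R).support.exists_max_image id hs
        have hmb : m ≤ b := hzs hm
        have hmb' : m < b := lt_of_le_of_ne hmb (by
          rintro rfl
          exact (Finsupp.mem_support_iff.1 hm) hzb)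
        exact ih m hmb' z (fun c hc => hmax c hc)
      rw [hzx]
      refine Submodule.add_mem _ hzspan (Submodule.smul_mem _ _ (Submodule.subset_span ?_))
      exact ⟨⟨b, hy⟩, rfl⟩

lemma fam_span (D : Submodule R (B →₀ R)) : ⊤ ≤ Submodule.span R (Set.range (fam D)) := by
  intro x _
  by_cases hx0 : x = 0
  · rw [hx0]; exact Submodule.zero_mem _
  have hs : (x : B →₀ R).support.Nonempty :=
    Finsupp.support_nonempty_iff.2 (fun h => hx0 (Subtype.ext h))
  obtain ⟨m, hm, hmax⟩ := (x : B →₀ R).support.exists_max_image id hs
  exact fam_span_aux D m x (fun c hc => hmax c hc)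

theorem free_of_finsupp (D : Submodule R (B →₀ R)) : Module.Free R D :=
  Module.Free.of_basis (Module.Basis.mk (fam_linInd D) (fam_span D))

omit [LinearOrder B] [WellFoundedLT B] in
/-- A submodule of a free module over a principal ideal domain is free. -/
theorem free_submodule {M : Type*} [AddCommGroup M] [Module R M] [Module.Free R M]
    (D : Submodule R M) : Module.Free R D := by
  classical
  obtain ⟨ι, b⟩ := Module.Free.exists_basis (R := R) (M := M)
  obtain ⟨hl, hw⟩ := exists_wellFoundedLT ι
  have h := free_of_finsupp (D.map (b.repr : M →ₗ[R] ι →₀ R))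
  exact Module.Free.of_equiv (b.repr.submoduleMap D).symm

/-- A module embedding into a free module over a principal ideal domain is free. -/
theorem free_of_injective {M N : Type*} [AddCommGroup M] [Module R M] [AddCommGroup N]
    [Module R N] [Module.Free R M] (f : N →ₗ[R] M) (hf : Function.Injective f) :
    Module.Free R N := by
  have h := free_submodule (LinearMap.range f)
  exact Module.Free.of_equiv (LinearEquiv.ofInjective f hf).symm

end PoolAgent.V1126.FreeSub
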