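import Mathlib
import Pool.Agent.V1126.FreeSub

/-!
Compactly generated complete abelian groups with a basis of open subgroups and no compact
subgroups are discrete and free of finite rank.
-/

set_option autoImplicit false

namespace PoolAgent.V1126.CompGen

open Filter Topology

/-- If a free module over `ℤ` is not finitely generated then for each function `c` it admits a
homomorphism to `ℤ` which is not bounded by a multiple of `c`. -/
lemma exists_unbounded {D : Type*} [AddCommGroup D] [Module.Free ℤ D] (h : ¬ Module.Finite ℤ D)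
    (c : D → ℕ) : ∃ φ : D →+ ℤ, ∀ n : ℕ, ∃ d : D, (n * c d : ℤ) < |φ d| := by
  obtain ⟨I, b⟩ := Module.Free.exists_basis (R := ℤ) (M := D)
  have hI : Infinite I := by
    by_contra hc
    rw [not_infinite_iff_finite] at hc
    exact h (Module.Finite.of_basis b)
  let e : ℕ ↪ I := Infinite.natEmbedding I
  let g : I → ℤ := fun i => ((Function.invFun e i : ℕ) : ℤ) * (c (b i) : ℤ) + 1
  refine ⟨(b.constr ℤ g : D →ₗ[ℤ] ℤ).toAddMonoidHom, fun n => ⟨b (e n), ?_⟩⟩
  have h1 : (b.constr ℤ g : D →ₗ[ℤ] ℤ).toAddMonoidHom (b (e n)) = g (e n) := by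
    change (b.constr ℤ g : D →ₗ[ℤ] ℤ) (b (e n)) = g (e n)
    rw [Module.Basis.constr_basis]
  rw [h1]
  have h2 : g (e n) = (n : ℤ) * (c (b (e n)) : ℤ) + 1 := by
    change ((Function.invFun e (e n) : ℕ) : ℤ) * (c (b (e n)) : ℤ) + 1 = _
    rw [Function.leftInverse_invFun e.injective n]
  rw [h2, abs_of_nonneg (by positivity)]
  exact lt_add_one _

/-- A finitely generated abelian group has finitely many homomorphisms to `ℤ` whose common
kernel is finite. -/
lemma exists_homs {Q : Type*} [AddCommGroup Q] [AddGroup.FG Q] :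
    ∃ (n : ℕ) (f : Fin n → Q →+ ℤ), {q : Q | ∀ i, f i q = 0}.Finite := by
  obtain ⟨n, ι, _, p, hp, e, ⟨E⟩⟩ := AddCommGroup.equiv_free_prod_directSum_zmod Q
  have hfin : Finite (DirectSum ι fun i => ZMod (p i ^ e i)) := by
    have : ∀ i, NeZero (p i ^ e i) := fun i => ⟨pow_ne_zero _ (hp i).ne_zero⟩
    have : ∀ i, Finite (ZMod (p i ^ e i)) := fun i => inferInstance
    exact Finite.of_injective (fun x : DirectSum ι fun i => ZMod (p i ^ e i) => fun i => x i)
      DFunLike.coe_injective
  refine ⟨n, fun i => ((Finsupp.applyAddHom i).comp (AddMonoidHom.fst _ _)).comp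
    E.toAddMonoidHom, ?_⟩
  have hsub : {q : Q | ∀ i, ((((Finsupp.applyAddHom i).comp (AddMonoidHom.fst (Fin n →₀ ℤ)
      (DirectSum ι fun i => ZMod (p i ^ e i)))).comp E.toAddMonoidHom : Q →+ ℤ)) q = 0} ⊆
      Set.range (fun y : DirectSum ι fun i => ZMod (p i ^ e i) => E.symm (0, y)) := by
    intro q hq
    refine ⟨(E q).2, ?_⟩
    simp only
    rw [AddEquiv.symm_apply_eq]
    refine Prod.ext ?_ rfl
    ext i
    have := hq i
    exact this.symm
  exact (Set.finite_range _).subset hsub

section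

variable {G : Type*} [AddCommGroup G] [UniformSpace G] [IsUniformAddGroup G]

/-- An open subgroup of a compactly generated group has finitely generated quotient. -/
lemma quotient_fg {K : Set G} (hK : IsCompact K) (hgen : AddSubgroup.closure K = ⊤)
    (U : AddSubgroup G) (hU : IsOpen (U : Set G)) : AddGroup.FG (G ⧸ U) := by
  rw [AddGroup.fg_iff]
  refine ⟨(QuotientAddGroup.mk' U) '' K, ?_, ?_⟩
  · rw [← AddMonoidHom.map_closure, hgen, ← AddMonoidHom.range_eq_map,
      AddMonoidHom.range_eq_top]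
    exact QuotientAddGroup.mk'_surjective U
  · -- compact image in a discrete space
    have hd : DiscreteTopology (G ⧸ U) := QuotientAddGroup.discreteTopology hU
    have hc : Continuous (QuotientAddGroup.mk' U) := QuotientAddGroup.continuous_mk
    exact (hK.image hc).finite_of_discrete

/-- Continuous homomorphisms to `ℤ`. -/
abbrev Dual (G : Type*) [AddCommGroup G] [TopologicalSpace G] : Type _ := G →ₜ+ ℤ

lemma cauchy_aux {K : Set G} (hK : IsCompact K) (hgen : AddSubgroup.closure K = ⊤)
    (φ : Dual G → ℤ) (𝒰 : Ultrafilter G) (h𝒰 : ∀ f : Dual G, {x | f x = φ f} ∈ 𝒰)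
    (U : AddSubgroup G) (hU : IsOpen (U : Set G)) :
    ∃ y : G, {x | x - y ∈ U} ∈ 𝒰 := by
  have hfg := quotient_fg hK hgen U hU
  obtain ⟨n, f, hf⟩ := exists_homs (Q := G ⧸ U)
  have hd : DiscreteTopology (G ⧸ U) := QuotientAddGroup.discreteTopology hU
  let F : Fin n → Dual G := fun i =>
    ⟨(f i).comp (QuotientAddGroup.mk' U),
      (continuous_of_discreteTopology (f := f i)).comp continuous_quot_mk⟩
  have h1 : (⋂ i, {x | F i x = φ (F i)}) ∈ 𝒰 := by
    rw [← Ultrafilter.mem_coe, Filter.iInter_mem]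
    intro i
    exact h𝒰 (F i)
  obtain ⟨x0, hx0⟩ := Ultrafilter.nonempty_of_mem h1
  have h2 : (⋃ q ∈ {q : G ⧸ U | ∀ i, f i q = 0},
      {x : G | (QuotientAddGroup.mk' U) (x - x0) = q}) ∈ 𝒰 := by
    refine Filter.mem_of_superset h1 ?_
    intro x hx
    simp only [Set.mem_iUnion]
    refine ⟨(QuotientAddGroup.mk' U) (x - x0), ?_, rfl⟩
    intro i
    have e1 : F i x = φ (F i) := Set.mem_iInter.1 hx i
    have e2 : F i x0 = φ (F i) := Set.mem_iInter.1 hx0 i
    have e3 : f i ((QuotientAddGroup.mk' U) (x - x0)) = F i x - F i x0 := by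
      rw [map_sub, map_sub]; rfl
    rw [e3, e1, e2, sub_self]
  rw [Ultrafilter.finite_biUnion_mem_iff hf] at h2
  obtain ⟨q, _, hq⟩ := h2
  obtain ⟨z, hz⟩ := QuotientAddGroup.mk'_surjective U q
  refine ⟨x0 + z, Filter.mem_of_superset hq ?_⟩
  intro x hx
  change (QuotientAddGroup.mk' U) (x - x0) = q at hx
  change x - (x0 + z) ∈ U
  rw [← hz] at hx
  have : (QuotientAddGroup.mk' U) (x - (x0 + z)) = 0 := by
    rw [← sub_sub, map_sub, hx, sub_self]
  exact (QuotientAddGroup.eq_zero_iff _).1 this

/-- An ultrafilter concentrated on a fibre of evaluation converges. -/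
lemma exists_limit [CompleteSpace G]
    (hna : ∀ s ∈ 𝓝 (0 : G), ∃ U : AddSubgroup G, IsOpen (U : Set G) ∧ (U : Set G) ⊆ s)
    {K : Set G} (hK : IsCompact K) (hgen : AddSubgroup.closure K = ⊤)
    (φ : Dual G → ℤ) (𝒰 : Ultrafilter G) (h𝒰 : ∀ f : Dual G, {x | f x = φ f} ∈ 𝒰) :
    ∃ x, (𝒰 : Filter G) ≤ 𝓝 x ∧ ∀ f : Dual G, f x = φ f := by
  have hc : Cauchy (𝒰 : Filter G) := by
    refine ⟨𝒰.neBot, ?_⟩
    intro s hs
    rw [uniformity_eq_comap_nhds_zero G, Filter.mem_comap] at hs
    obtain ⟨t, ht, hts⟩ := hs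
    obtain ⟨U, hU, hUt⟩ := hna t ht
    obtain ⟨y, hy⟩ := cauchy_aux hK hgen φ 𝒰 h𝒰 U hU
    refine Filter.mem_of_superset (Filter.prod_mem_prod hy hy) ?_
    rintro ⟨a, b⟩ ⟨ha, hb⟩
    apply hts
    apply hUt
    change b - a ∈ U
    have : b - a = (b - y) - (a - y) := by abel
    rw [this]
    exact U.sub_mem hb ha
  obtain ⟨x, hx⟩ := CompleteSpace.complete hc
  refine ⟨x, hx, fun f => ?_⟩
  have hcl : IsClosed {x | f x = φ f} := isClosed_eq f.continuous_toFun continuous_const
  have h3 : x ∈ {x | f x = φ f} :=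
    hcl.mem_of_tendsto (b := (𝒰 : Filter G)) (f := id) hx (h𝒰 f)
  exact h3

/-- The common kernel of all continuous homomorphisms to `ℤ`. -/
def ker0 (G : Type*) [AddCommGroup G] [TopologicalSpace G] : AddSubgroup G where
  carrier := {x | ∀ f : Dual G, f x = 0}
  add_mem' := by
    intro a b ha hb f
    rw [map_add, ha f, hb f, add_zero]
  zero_mem' := fun f => map_zero f
  neg_mem' := by
    intro a ha f
    rw [map_neg, ha f, neg_zero]

lemma ker0_compact [CompleteSpace G]
    (hna : ∀ s ∈ 𝓝 (0 : G), ∃ U : AddSubgroup G, IsOpen (U : Set G) ∧ (U : Set G) ⊆ s)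
    {K : Set G} (hK : IsCompact K) (hgen : AddSubgroup.closure K = ⊤) :
    IsCompact (ker0 G : Set G) := by
  rw [isCompact_iff_ultrafilter_le_nhds]
  intro 𝒰 h𝒰
  obtain ⟨x, hx, hx'⟩ := exists_limit hna hK hgen (fun _ => 0) 𝒰 (fun f => by
    refine Filter.mem_of_superset (Filter.le_principal_iff.1 h𝒰) ?_
    intro y hy
    exact hy f)
  exact ⟨x, hx', hx⟩

/-- Evaluation at a point. -/
def evd (x : G) : Dual G →+ ℤ where
  toFun f := f x
  map_zero' := rfl
  map_add' _ _ := rfl

lemma smul_apply' (m : ℤ) (g : Dual G) (x : G) : (m • g) x = m * g x := by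
  have := map_zsmul (evd x) m g
  rw [smul_eq_mul] at this
  exact this

/-- Division of a continuous homomorphism by an integer. -/
lemma exists_div (g : Dual G) (m : ℤ) (h : ∀ x, m ∣ g x) : ∃ g' : Dual G, g = m • g' := by
  by_cases hm : m = 0
  · refine ⟨0, ?_⟩
    ext x
    have := h x
    rw [hm, zero_dvd_iff] at this
    rw [this]
    simp
  · refine ⟨⟨⟨⟨fun x => g x / m, by simp⟩, ?_⟩, ?_⟩, ?_⟩
    · intro x y
      simp only [map_add]
      exact Int.add_ediv_of_dvd_left (h x)
    · exact (continuous_of_discreteTopology (f := fun z : ℤ => z / m)).comp g.continuous_toFun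
    · ext x
      rw [smul_apply']
      change g x = m * (g x / m)
      rw [Int.mul_ediv_cancel' (h x)]

/-- Finitely many values of an abstract homomorphism on the dual are realised by a point. -/
lemma exists_finite (φ : Dual G →+ ℤ) (F : Finset (Dual G)) : ∃ x : G, ∀ f ∈ F, f x = φ f := by
  classical
  -- the image of `G` in `ℤ ^ F`
  let ev : G →+ (F → ℤ) :=
    { toFun := fun x f => f.1 x
      map_zero' := by funext f; exact map_zero f.1
      map_add' := fun x y => by funext f; exact map_add f.1 x y }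
  let N : Submodule ℤ (F → ℤ) := AddSubgroup.toIntSubmodule ev.range
  have hN : ∀ w, w ∈ N ↔ ∃ x, ev x = w := fun w => Iff.rfl
  obtain ⟨n, snf⟩ := Submodule.smithNormalForm (Pi.basisFun ℤ F) N
  -- values of `φ` on combinations
  have hcomb : ∀ ℓ : (F → ℤ) →ₗ[ℤ] ℤ, ∃ g : Dual G, (∀ x, g x = ℓ (ev x)) ∧
      φ g = ℓ (fun f => φ f.1) := by
    intro ℓ
    refine ⟨∑ f : F, ℓ (Pi.single f 1) • f.1, fun x => ?_, ?_⟩
    · have h1 : ev x = ∑ f : F, (ev x f) • (Pi.single f (1 : ℤ) : F → ℤ) := by
        rw [← Finset.univ_sum_single (ev x)]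
        refine Finset.sum_congr rfl fun f _ => ?_
        rw [← Pi.single_smul]
        simp
      rw [h1, map_sum]
      have h2 : (∑ f : F, ℓ (Pi.single f 1) • f.1 : Dual G) x =
          ∑ f : F, ℓ (Pi.single f 1) * f.1 x := by
        change evd x (∑ f : F, ℓ (Pi.single f 1) • f.1) = _
        rw [map_sum]
        refine Finset.sum_congr rfl fun f _ => ?_
        rw [map_zsmul, smul_eq_mul]
        rfl
      rw [h2]
      refine Finset.sum_congr rfl fun f _ => ?_
      rw [map_smul, smul_eq_mul, mul_comm]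
      rfl
    · rw [map_sum]
      have h1 : (fun f : F => φ f.1) = ∑ f : F, (φ f.1) • (Pi.single f (1 : ℤ) : F → ℤ) := by
        rw [← Finset.univ_sum_single (fun f : F => φ f.1)]
        refine Finset.sum_congr rfl fun f _ => ?_
        rw [← Pi.single_smul]
        simp
      rw [h1, map_sum]
      refine Finset.sum_congr rfl fun f _ => ?_
      rw [map_zsmul, map_smul, smul_eq_mul, smul_eq_mul, mul_comm]
  have key : (fun f : F => φ f.1) ∈ N := by
    -- coordinates with respect to the Smith basis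
    set v : F → ℤ := fun f => φ f.1 with hv
    have hcoord : ∀ i : F, ∀ m : ℤ, (∀ x, m ∣ snf.bM.coord i (ev x)) → m ∣ snf.bM.coord i v := by
      intro i m hm
      obtain ⟨g, hg, hg'⟩ := hcomb (snf.bM.coord i)
      obtain ⟨g', hg''⟩ := exists_div g m (fun x => by rw [hg x]; exact hm x)
      rw [← hg', hg'', map_zsmul, smul_eq_mul]
      exact dvd_mul_right _ _
    have hnot : ∀ i : F, i ∉ Set.range snf.f → snf.bM.coord i v = 0 := by
      intro i hi
      rw [← zero_dvd_iff]
      apply hcoord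
      intro x
      rw [zero_dvd_iff]
      exact snf.repr_eq_zero_of_notMem_range ⟨ev x, (hN _).2 ⟨x, rfl⟩⟩ hi
    have hdvd : ∀ j : Fin n, snf.a j ∣ snf.bM.coord (snf.f j) v := by
      intro j
      apply hcoord
      intro x
      have h1 := snf.repr_apply_embedding_eq_repr_smul (m := ⟨ev x, (hN _).2 ⟨x, rfl⟩⟩) (i := j)
      have h2 : snf.bM.coord (snf.f j) (ev x) = snf.bM.repr (ev x) (snf.f j) := rfl
      rw [h2, h1]
      rw [map_smul]
      exact ⟨_, rfl⟩
    choose q hq using hdvd
    have hv2 : v = ∑ j : Fin n, q j • (snf.bN j : F → ℤ) := by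
      apply snf.bM.repr.injective
      ext i
      by_cases hi : i ∈ Set.range snf.f
      · obtain ⟨j, rfl⟩ := hi
        have h1 : snf.bM.repr v (snf.f j) = snf.a j * q j := hq j
        rw [h1, map_sum, Finsupp.finsetSum_apply, Finset.sum_eq_single j]
        · rw [map_smul, snf.snf, map_smul, Finsupp.smul_apply, Finsupp.smul_apply,
            Module.Basis.repr_self, Finsupp.single_eq_same]
          simp only [smul_eq_mul]
          ring
        · intro k _ hkj
          rw [map_smul, snf.snf, map_smul, Finsupp.smul_apply, Finsupp.smul_apply,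
            Module.Basis.repr_self, Finsupp.single_eq_of_ne]
          · simp
          · intro h
            exact hkj (snf.f.injective h).symm
        · intro h; exact absurd (Finset.mem_univ _) h
      · have h1 : snf.bM.repr v i = 0 := hnot i hi
        rw [h1, map_sum, Finsupp.finsetSum_apply, Finset.sum_eq_zero]
        intro k _
        rw [map_smul, snf.snf, map_smul, Finsupp.smul_apply, Finsupp.smul_apply,
            Module.Basis.repr_self, Finsupp.single_eq_of_ne]
        · simp
        · rintro rfl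
          exact hi ⟨k, rfl⟩
    rw [hv2]
    exact N.sum_mem fun j _ => N.smul_mem _ (snf.bN j).2
  obtain ⟨x, hx⟩ := (hN _).1 key
  refine ⟨x, fun f hf => ?_⟩
  exact congrFun hx ⟨f, hf⟩

/-- Each homomorphism from the dual to `ℤ` is the evaluation at a point. -/
lemma exists_point [CompleteSpace G]
    (hna : ∀ s ∈ 𝓝 (0 : G), ∃ U : AddSubgroup G, IsOpen (U : Set G) ∧ (U : Set G) ⊆ s)
    {K : Set G} (hK : IsCompact K) (hgen : AddSubgroup.closure K = ⊤) (φ : Dual G →+ ℤ) :
    ∃ x : G, ∀ f : Dual G, f x = φ f := by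
  classical
  let S : Dual G → Set G := fun f => {x | f x = φ f}
  have hne : NeBot (Filter.generate (Set.range S)) := by
    rw [Filter.generate_neBot_iff]
    intro t ht htf
    have h1 : (htf.toFinset : Set (Set G)) ⊆ S '' Set.univ := by
      rw [htf.coe_toFinset, Set.image_univ]
      exact ht
    obtain ⟨F, -, hF⟩ := Finset.subset_set_image_iff.1 h1
    obtain ⟨x, hx⟩ := exists_finite φ F
    refine ⟨x, ?_⟩
    intro s hs
    have h2 : s ∈ htf.toFinset := htf.mem_toFinset.2 hs
    rw [← hF, Finset.mem_image] at h2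
    obtain ⟨f, hf, rfl⟩ := h2
    exact hx f hf
  obtain ⟨x, -, hx⟩ := exists_limit hna hK hgen (fun f => φ f)
    (Ultrafilter.of (Filter.generate (Set.range S))) (fun f =>
      Ultrafilter.of_le _ (Filter.mem_generate_of_mem ⟨f, rfl⟩))
  exact ⟨x, hx⟩

/-- The restriction of a continuous homomorphism to a compact set, a locally constant function. -/
def restr (K : Set G) : Dual G →ₗ[ℤ] LocallyConstant K ℤ :=
  AddMonoidHom.toIntLinearMap
    { toFun := fun f => ⟨fun k => f k.1, by
        rw [IsLocallyConstant.iff_continuous]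
        exact f.continuous_toFun.comp continuous_subtype_val⟩
      map_zero' := rfl
      map_add' := fun _ _ => rfl }

lemma restr_injective {K : Set G} (hgen : AddSubgroup.closure K = ⊤) :
    Function.Injective (restr K) := by
  intro f g h
  have hK : Set.EqOn f g K := by
    intro k hk
    exact DFunLike.congr_fun h ⟨k, hk⟩
  have h2 : (f : G →+ ℤ) = (g : G →+ ℤ) := by
    apply AddMonoidHom.eq_of_eqOn_dense hgen
    exact hK
  ext x
  exact DFunLike.congr_fun h2 x

lemma dual_free [T2Space G]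
    (hna : ∀ s ∈ 𝓝 (0 : G), ∃ U : AddSubgroup G, IsOpen (U : Set G) ∧ (U : Set G) ⊆ s)
    {K : Set G} (hK : IsCompact K) (hgen : AddSubgroup.closure K = ⊤) :
    Module.Free ℤ (Dual G) := by
  have h1 : NonarchimedeanAddGroup G := ⟨by
    intro s hs
    obtain ⟨U, hU, hUs⟩ := hna s hs
    exact ⟨⟨U, hU⟩, hUs⟩⟩
  have h2 : CompactSpace K := isCompact_iff_compactSpace.1 hK
  have h3 : TotallyDisconnectedSpace K := inferInstance
  have h4 : Module.Free ℤ (LocallyConstant K ℤ) :=
    LocallyConstant.freeOfProfinite (Profinite.of K)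
  exact FreeSub.free_of_injective (restr K) (restr_injective hgen)

lemma dual_finite [T2Space G] [CompleteSpace G]
    (hna : ∀ s ∈ 𝓝 (0 : G), ∃ U : AddSubgroup G, IsOpen (U : Set G) ∧ (U : Set G) ⊆ s)
    {K : Set G} (hK : IsCompact K) (hgen : AddSubgroup.closure K = ⊤) :
    Module.Finite ℤ (Dual G) := by
  by_contra hfin
  have hfree := dual_free hna hK hgen
  have hbound : ∀ f : Dual G, ∃ c : ℕ, ∀ k ∈ K, |f k| ≤ c := by
    intro f
    have h1 : (f '' K).Finite := (hK.image f.continuous_toFun).finite_of_discrete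
    obtain ⟨M, hM⟩ := (h1.image (fun z : ℤ => |z|)).bddAbove
    refine ⟨M.toNat, fun k hk => ?_⟩
    have h2 : |f k| ≤ M := hM ⟨f k, ⟨k, hk, rfl⟩, rfl⟩
    exact h2.trans (Int.self_le_toNat M)
  choose c hc using hbound
  obtain ⟨φ, hφ⟩ := exists_unbounded hfin c
  obtain ⟨x, hx⟩ := exists_point hna hK hgen φ
  have hx2 : x ∈ AddSubgroup.closure K := by rw [hgen]; trivial
  have hx3 : ∃ n : ℕ, ∀ f : Dual G, |f x| ≤ n * c f := by
    clear hx
    induction hx2 using AddSubgroup.closure_induction with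
    | mem y hy => exact ⟨1, fun f => by simpa using hc f y hy⟩
    | zero => exact ⟨0, fun f => by simp⟩
    | add y z _ _ hy hz =>
      obtain ⟨n, hn⟩ := hy
      obtain ⟨m, hm⟩ := hz
      refine ⟨n + m, fun f => ?_⟩
      rw [map_add]
      calc |f y + f z| ≤ |f y| + |f z| := abs_add_le _ _
        _ ≤ n * c f + m * c f := add_le_add (hn f) (hm f)
        _ = _ := by push_cast; ring
    | neg y _ hy =>
      obtain ⟨n, hn⟩ := hy
      refine ⟨n, fun f => ?_⟩
      rw [map_neg, abs_neg]
      exact hn f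
  obtain ⟨n, hn⟩ := hx3
  obtain ⟨f, hf⟩ := hφ n
  rw [← hx f] at hf
  exact absurd (hn f) (not_le.2 hf)

theorem main [T2Space G] [CompleteSpace G]
    (hna : ∀ s ∈ 𝓝 (0 : G), ∃ U : AddSubgroup G, IsOpen (U : Set G) ∧ (U : Set G) ⊆ s)
    {K : Set G} (hK : IsCompact K) (hgen : AddSubgroup.closure K = ⊤)
    (hcf : ∀ H : AddSubgroup G, IsCompact (H : Set G) → H = ⊥) :
    DiscreteTopology G ∧ ∃ n : ℕ, Nonempty (G ≃+ (Fin n → ℤ)) := by
  have hfin := dual_finite hna hK hgen
  obtain ⟨S, hS⟩ := hfin.fg_top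
  have hker : ker0 G = ⊥ := hcf _ (ker0_compact hna hK hgen)
  have hopen : IsOpen (⋂ f ∈ S, {x : G | f x = 0}) := by
    refine isOpen_biInter_finset fun f _ => ?_
    exact (isOpen_discrete ({0} : Set ℤ)).preimage f.continuous_toFun
  have hzero : (⋂ f ∈ S, {x : G | f x = 0}) = {0} := by
    apply subset_antisymm
    · intro x hx
      have hx' : ∀ f ∈ S, f x = 0 := by simpa using hx
      have : x ∈ ker0 G := by
        intro f
        have hf : f ∈ Submodule.span ℤ (S : Set (Dual G)) := by rw [hS]; trivial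
        induction hf using Submodule.span_induction with
        | mem g hg => exact hx' g hg
        | zero => rfl
        | add g h _ _ hg hh =>
          change g x + h x = 0
          rw [hg, hh, add_zero]
        | smul m g _ hg =>
          rw [smul_apply', hg, mul_zero]
      rw [hker] at this
      exact this
    · rintro _ rfl
      simp
  have hdisc : DiscreteTopology G := by
    rw [hzero] at hopen
    exact discreteTopology_of_isOpen_singleton_zero hopen
  refine ⟨hdisc, ?_⟩
  have hKf : K.Finite := hK.finite_of_discrete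
  have hfg : AddGroup.FG G := by
    rw [AddGroup.fg_iff]
    exact ⟨K, hgen, hKf⟩
  have hmf : Module.Finite ℤ G := Module.Finite.iff_addGroup_fg.2 hfg
  have htf : IsAddTorsionFree G := by
    constructor
    intro n hn a b hab
    have h0 : n • (a - b) = 0 := by
      rw [nsmul_sub]
      exact sub_eq_zero.2 hab
    have h1 : IsOfFinAddOrder (a - b) :=
      isOfFinAddOrder_iff_nsmul_eq_zero.2 ⟨n, Nat.pos_of_ne_zero hn, h0⟩
    have h2 : (AddSubgroup.zmultiples (a - b) : Set G).Finite := finite_zmultiples.2 h1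
    have h3 := hcf _ h2.isCompact
    rw [AddSubgroup.zmultiples_eq_bot] at h3
    exact sub_eq_zero.1 h3
  have : Module.Free ℤ G := inferInstance
  exact ⟨Module.finrank ℤ G, ⟨((Module.finBasis ℤ G).equivFun).toAddEquiv⟩⟩

end

end PoolAgent.V1126.CompGen
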