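import Mathlib

/-!
# Integer-valued hyperbolic length functions on groups

`HL G` is a left invariant integer valued pseudometric on `G` (given by its length function `l`) that
satisfies the four point condition with constant `D`.
-/

set_option autoImplicit false

namespace Pool.Agent.V1126

/-- A hyperbolic length function. -/
structure HL (G : Type) [Group G] where
  l : G → ℤ
  D : ℤ
  one : l 1 = 0
  inv : ∀ g, l g⁻¹ = l g
  mul_le : ∀ g h, l (g * h) ≤ l g + l h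
  nonneg : ∀ g, 0 ≤ l g
  D_nonneg : 0 ≤ D
  four : ∀ a b c e, l (a⁻¹ * c) + l (b⁻¹ * e) ≤
    max (l (a⁻¹ * b) + l (c⁻¹ * e)) (l (b⁻¹ * c) + l (a⁻¹ * e)) + D

namespace HL

variable {G : Type} [Group G] (E : HL G)

theorem swap (a b : G) : E.l (a⁻¹ * b) = E.l (b⁻¹ * a) := by
  rw [← E.inv (a⁻¹ * b)]; congr 1; group

theorem sub_le (g h : G) : E.l g - E.l h ≤ E.l (g * h) := by
  have h1 := E.mul_le (g * h) h⁻¹
  rw [E.inv] at h1
  have : g * h * h⁻¹ = g := by group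
  rw [this] at h1
  omega

theorem sub_le' (g h : G) : E.l h - E.l g ≤ E.l (g * h) := by
  have h1 := E.mul_le g⁻¹ (g * h)
  rw [E.inv] at h1
  have : g⁻¹ * (g * h) = h := by group
  rw [this] at h1
  omega

/-- `l g` and `l h` differ by at most the distance between `g` and `h`. -/
theorem near (g h : G) : E.l h ≤ E.l g + E.l (g⁻¹ * h) := by
  have h1 := E.mul_le g (g⁻¹ * h)
  have : g * (g⁻¹ * h) = h := by group
  rwa [this] at h1

theorem pow_le (g : G) (n : ℕ) : E.l (g ^ n) ≤ n * E.l g := by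
  induction n with
  | zero => simp [E.one]
  | succ n ih =>
    rw [pow_succ]
    have := E.mul_le (g ^ n) g
    push_cast
    nlinarith

theorem zpow_le (g : G) (n : ℤ) : E.l (g ^ n) ≤ |n| * E.l g := by
  rcases Int.natAbs_eq n with h | h
  · rw [h, zpow_natCast]
    simpa using E.pow_le g n.natAbs
  · rw [h, zpow_neg, E.inv, zpow_natCast]
    simpa using E.pow_le g n.natAbs

theorem zpow_neg_l (g : G) (n : ℤ) : E.l (g ^ (-n)) = E.l (g ^ n) := by
  rw [zpow_neg, E.inv]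

theorem conj_le (g x : G) : E.l (g * x * g⁻¹) ≤ E.l x + 2 * E.l g := by
  have h1 := E.mul_le (g * x) g⁻¹
  have h2 := E.mul_le g x
  rw [E.inv] at h1
  omega

/-- Twice the Gromov product at `1`. -/
def g2 (a b : G) : ℤ := E.l a + E.l b - E.l (a⁻¹ * b)

theorem g2_comm (a b : G) : E.g2 a b = E.g2 b a := by
  unfold g2; rw [E.swap a b]; ring

theorem g2_hyp (x y z : G) : min (E.g2 x y) (E.g2 y z) - E.D ≤ E.g2 x z := by
  have h := E.four x y z 1
  rw [mul_one, mul_one, mul_one, E.inv, E.inv, E.inv] at h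
  unfold g2
  omega

theorem g2_near_left (x x' y : G) : E.g2 x y - 2 * E.l (x⁻¹ * x') ≤ E.g2 x' y := by
  unfold g2
  have h1 := E.near x' x
  have h2 := E.mul_le (x'⁻¹ * x) (x⁻¹ * y)
  have h3 : x'⁻¹ * x * (x⁻¹ * y) = x'⁻¹ * y := by group
  rw [h3] at h2
  rw [E.swap x' x] at h1 h2
  omega

theorem g2_left (g x y : G) : E.g2 x y - 2 * E.l g ≤ E.g2 (g * x) (g * y) := by
  unfold g2
  have h1 := E.sub_le' g x
  have h2 := E.sub_le' g y
  have h3 : (g * x)⁻¹ * (g * y) = x⁻¹ * y := by group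
  rw [h3]
  omega

/-! ### Growth of powers -/

theorem growth_step (a : G) (n : ℕ) (hn : E.l (a ^ n) ≤ E.l (a ^ (n + 1)))
    (h : E.l a + E.D < E.l (a ^ 2)) :
    E.l (a ^ (n + 1)) + (E.l (a ^ 2) - E.l a - E.D) ≤ E.l (a ^ (n + 2)) := by
  have h1 := E.four 1 (a ^ n) (a ^ (n + 1)) (a ^ (n + 2))
  have e1 : (1 : G)⁻¹ * a ^ (n + 1) = a ^ (n + 1) := by simp
  have e2 : (a ^ n)⁻¹ * a ^ (n + 2) = a ^ 2 := by rw [pow_add]; group
  have e3 : (1 : G)⁻¹ * a ^ n = a ^ n := by simp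
  have e4 : (a ^ (n + 1))⁻¹ * a ^ (n + 2) = a := by rw [pow_succ a (n + 1)]; group
  have e5 : (a ^ n)⁻¹ * a ^ (n + 1) = a := by rw [pow_succ]; group
  have e6 : (1 : G)⁻¹ * a ^ (n + 2) = a ^ (n + 2) := by simp
  rw [e1, e2, e3, e4, e5, e6] at h1
  omega

theorem growth (a : G) (h : E.l a + E.D < E.l (a ^ 2)) (n : ℕ) :
    E.l (a ^ n) + (E.l (a ^ 2) - E.l a - E.D) ≤ E.l (a ^ (n + 1)) := by
  induction n with
  | zero =>
    have h1 := E.pow_le a 2
    have h2 := E.D_nonneg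
    rw [pow_zero, E.one, zero_add, pow_one]
    push_cast at h1
    omega
  | succ n ih => exact E.growth_step a n (by omega) h

/-- Elements with a comfortable gap between `l (a ^ 2)` and `l a`. -/
def Good (a : G) : Prop := E.l a + 2 * E.D + 1 ≤ E.l (a ^ 2)

variable {E}

theorem Good.inv {a : G} (h : E.Good a) : E.Good a⁻¹ := by
  unfold Good at h ⊢
  rw [inv_pow, E.inv, E.inv]; exact h

theorem Good.add_le {a : G} (h : E.Good a) (n m : ℕ) :
    E.l (a ^ n) + m * (E.D + 1) ≤ E.l (a ^ (n + m)) := by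
  have hD := E.D_nonneg
  unfold Good at h
  induction m with
  | zero => simp
  | succ m ih =>
    have h1 := E.growth a (by omega) (n + m)
    have e : n + (m + 1) = n + m + 1 := by ring
    rw [e]
    push_cast
    have e2 : ((m : ℤ) + 1) * (E.D + 1) = m * (E.D + 1) + (E.D + 1) := by ring
    rw [e2]
    omega

theorem Good.le_pow {a : G} (h : E.Good a) (n : ℕ) : (n : ℤ) ≤ E.l (a ^ n) := by
  have h1 := h.add_le 0 n
  rw [pow_zero, E.one, zero_add, zero_add] at h1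
  have hD := E.D_nonneg
  nlinarith

theorem Good.mono {a : G} (h : E.Good a) {n m : ℕ} (hnm : n ≤ m) :
    E.l (a ^ n) + (m - n) ≤ E.l (a ^ m) := by
  obtain ⟨k, rfl⟩ := Nat.exists_eq_add_of_le hnm
  have h1 := h.add_le n k
  have hD := E.D_nonneg
  push_cast
  nlinarith

theorem Good.add_ge {a : G} (h : E.Good a) (n m : ℕ) :
    E.l (a ^ n) + E.l (a ^ m) ≤ E.l (a ^ (n + m)) + E.l a + E.D := by
  have hD := E.D_nonneg
  cases m with
  | zero =>
    rw [pow_zero, E.one, add_zero, add_zero]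
    have := E.nonneg a
    omega
  | succ m =>
    have h1 := E.four 1 (a ^ n) (a ^ (n + 1)) (a ^ (n + (m + 1)))
    have e1 : (1 : G)⁻¹ * a ^ (n + 1) = a ^ (n + 1) := by simp
    have e2 : (a ^ n)⁻¹ * a ^ (n + (m + 1)) = a ^ (m + 1) := by rw [pow_add]; group
    have e3 : (1 : G)⁻¹ * a ^ n = a ^ n := by simp
    have e4 : (a ^ (n + 1))⁻¹ * a ^ (n + (m + 1)) = a ^ m := by
      have : n + (m + 1) = n + 1 + m := by ring
      rw [this, pow_add a (n + 1) m]; group
    have e5 : (a ^ n)⁻¹ * a ^ (n + 1) = a := by rw [pow_succ]; group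
    have e6 : (1 : G)⁻¹ * a ^ (n + (m + 1)) = a ^ (n + (m + 1)) := by simp
    rw [e1, e2, e3, e4, e5, e6] at h1
    have h2 := h.add_le n 1
    have h3 := h.add_le m 1
    push_cast at h2 h3
    omega

theorem Good.pow {a : G} (h : E.Good a) {m : ℕ} (hm : 1 ≤ m) : E.Good (a ^ m) := by
  have hD := E.D_nonneg
  unfold Good
  rw [← pow_mul]
  rcases Nat.lt_or_ge m 2 with h1 | h1
  · have : m = 1 := by omega
    subst this
    unfold Good at h
    rw [pow_one, one_mul]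
    exact h
  · have h2 := h.add_le m m
    have e : m * 2 = m + m := by ring
    rw [e]
    have h3 : (2 : ℤ) ≤ m := by exact_mod_cast h1
    nlinarith

variable (E)

/-- Elements with a good power; these are the loxodromic elements. -/
def Lox (g : G) : Prop := ∃ M : ℕ, 1 ≤ M ∧ E.Good (g ^ M)

variable {E}

theorem Lox.inv {g : G} (h : E.Lox g) : E.Lox g⁻¹ := by
  obtain ⟨M, hM, h⟩ := h
  exact ⟨M, hM, by rw [inv_pow]; exact h.inv⟩

theorem Lox.pow {g : G} (h : E.Lox g) {m : ℕ} (hm : 1 ≤ m) : E.Lox (g ^ m) := by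
  obtain ⟨M, hM, h⟩ := h
  refine ⟨M, hM, ?_⟩
  rw [← pow_mul, mul_comm, pow_mul]
  exact h.pow hm

theorem Lox.conj {g : G} (h : E.Lox g) (f : G) : E.Lox (f * g * f⁻¹) := by
  obtain ⟨M, hM, h⟩ := h
  -- take a large power of the good power
  obtain ⟨k, hk⟩ : ∃ k : ℕ, 4 * E.l f + 2 * E.D + 1 ≤ k :=
    ⟨(4 * E.l f + 2 * E.D + 1).toNat, Int.self_le_toNat _⟩
  refine ⟨M * (k + 1), Nat.mul_pos hM (Nat.succ_pos _), ?_⟩
  have hD := E.D_nonneg
  unfold Good
  have e : (f * g * f⁻¹) ^ (M * (k + 1)) = f * (g ^ M) ^ (k + 1) * f⁻¹ := by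
    rw [conj_pow, pow_mul]
  have e2 : (f * (g ^ M) ^ (k + 1) * f⁻¹) ^ 2 = f * (g ^ M) ^ (k + 1 + (k + 1)) * f⁻¹ := by
    rw [conj_pow, ← pow_mul, mul_two]
  rw [e, e2]
  have h1 := E.conj_le f ((g ^ M) ^ (k + 1))
  have h2 := E.conj_le f⁻¹ (f * (g ^ M) ^ (k + 1 + (k + 1)) * f⁻¹)
  have e3 : f⁻¹ * (f * (g ^ M) ^ (k + 1 + (k + 1)) * f⁻¹) * f⁻¹⁻¹ = (g ^ M) ^ (k + 1 + (k + 1)) := by
    group
  rw [e3, E.inv] at h2
  have h3 := h.mono (n := k + 1) (m := k + 1 + (k + 1)) (by omega)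
  push_cast at h3
  omega

variable (E)

theorem not_lox_double {g : G} (h : ¬ E.Lox g) (k : ℕ) :
    E.l (g ^ (2 ^ k)) ≤ E.l g + k * (2 * E.D) := by
  induction k with
  | zero => simp
  | succ k ih =>
    have h1 : ¬ E.Good (g ^ (2 ^ k)) := fun h2 => h ⟨2 ^ k, Nat.one_le_two_pow, h2⟩
    unfold Good at h1
    rw [← pow_mul, ← pow_succ] at h1
    push_cast
    have : ((k : ℤ) + 1) * (2 * E.D) = k * (2 * E.D) + 2 * E.D := by ring
    omega

theorem exists_two_pow (A B C : ℤ) : ∃ k : ℕ, A + B * k + C * (k * k) < 2 ^ k := by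
  have h1 : Filter.Tendsto (fun k : ℕ => (k : ℝ) ^ 3 * (1 / 2 : ℝ) ^ k) Filter.atTop (nhds 0) :=
    tendsto_pow_const_mul_const_pow_of_abs_lt_one 3 (by norm_num [abs_of_pos])
  have h2 := (h1.eventually (gt_mem_nhds (show (0 : ℝ) < 1 by norm_num))).and
    ((Filter.eventually_ge_atTop (|A| + |B| + |C| + 1).toNat))
  obtain ⟨k, hk1, hk2⟩ := h2.exists
  refine ⟨k, ?_⟩
  have h3 : (|A| + |B| + |C| + 1) ≤ (k : ℤ) := by omega
  have h4 : (k : ℝ) ^ 3 < 2 ^ k := by
    have h5 : (k : ℝ) ^ 3 * (1 / 2 : ℝ) ^ k = (k : ℝ) ^ 3 / 2 ^ k := by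
      rw [one_div, inv_pow]; rfl
    rw [h5, div_lt_one (by positivity)] at hk1
    exact hk1
  have h5 : (k : ℤ) ^ 3 < 2 ^ k := by exact_mod_cast h4
  have hk : (1 : ℤ) ≤ k := by
    have := abs_nonneg A
    have := abs_nonneg B
    have := abs_nonneg C
    omega
  have hkk : (1 : ℤ) ≤ (k : ℤ) * k := by nlinarith
  have a1 : A ≤ |A| * (k * k) :=
    le_trans (le_abs_self A) (le_mul_of_one_le_right (abs_nonneg A) hkk)
  have a2 : B * k ≤ |B| * (k * k) := by
    calc B * k ≤ |B| * k := mul_le_mul_of_nonneg_right (le_abs_self B) (by omega)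
      _ ≤ |B| * (k * k) := mul_le_mul_of_nonneg_left (by nlinarith) (abs_nonneg B)
  have a3 : C * (k * k) ≤ |C| * (k * k) := by
    have := le_abs_self C
    nlinarith [mul_nonneg (show (0:ℤ) ≤ k by omega) (show (0:ℤ) ≤ k by omega)]
  have a4 : (|A| + |B| + |C| + 1) * (k * k) ≤ (k : ℤ) ^ 3 := by
    have : (k : ℤ) ^ 3 = k * (k * k) := by ring
    rw [this]
    exact mul_le_mul_of_nonneg_right h3 (by positivity)
  nlinarith

/-- Elements whose powers of two grow faster than quadratically in the exponent are loxodromic. -/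
theorem lox_of_growth {g : G} {C : ℤ} (h : ∀ n : ℕ, (n : ℤ) ≤ E.l (g ^ n) + C) : E.Lox g := by
  by_contra hc
  obtain ⟨k, hk⟩ := exists_two_pow (E.l g + C) (2 * E.D) 0
  have h1 := E.not_lox_double hc k
  have h2 := h (2 ^ k)
  push_cast at h2
  nlinarith

end HL

end Pool.Agent.V1126
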