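import Pool.Agent.V1126.HL

/-!
# Ends of loxodromic elements for hyperbolic length functions
-/

set_option autoImplicit false

namespace Pool.Agent.V1126

namespace HL

variable {G : Type} [Group G] (E : HL G)

/-- Two sequences converge to the same point at infinity. -/
def S (x y : ℕ → G) : Prop := ∀ K : ℤ, ∃ N : ℕ, ∀ n m : ℕ, N ≤ n → N ≤ m → K ≤ E.g2 (x n) (y m)

variable {E}

theorem S.symm {x y : ℕ → G} (h : E.S x y) : E.S y x := by
  intro K
  obtain ⟨N, hN⟩ := h K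
  exact ⟨N, fun n m hn hm => by rw [E.g2_comm]; exact hN m n hm hn⟩

theorem S.trans {x y z : ℕ → G} (h1 : E.S x y) (h2 : E.S y z) : E.S x z := by
  intro K
  obtain ⟨N1, hN1⟩ := h1 (K + E.D)
  obtain ⟨N2, hN2⟩ := h2 (K + E.D)
  refine ⟨max N1 N2, fun n m hn hm => ?_⟩
  have a1 := hN1 n (max N1 N2) (by omega) (by omega)
  have a2 := hN2 (max N1 N2) m (by omega) (by omega)
  have a3 := E.g2_hyp (x n) (y (max N1 N2)) (z m)
  omega

theorem S.left {x y : ℕ → G} (h : E.S x y) (g : G) : E.S (fun n => g * x n) (fun n => g * y n) := by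
  intro K
  obtain ⟨N, hN⟩ := h (K + 2 * E.l g)
  refine ⟨N, fun n m hn hm => ?_⟩
  have a1 := hN n m hn hm
  have a2 := E.g2_left g (x n) (y m)
  show K ≤ E.g2 (g * x n) (g * y m)
  omega

theorem S.near {x x' y : ℕ → G} (h : E.S x y) (B : ℤ) (hB : ∀ n, E.l ((x n)⁻¹ * x' n) ≤ B) :
    E.S x' y := by
  intro K
  obtain ⟨N, hN⟩ := h (K + 2 * B)
  refine ⟨N, fun n m hn hm => ?_⟩
  have a1 := hN n m hn hm
  have a2 := E.g2_near_left (x n) (x' n) (y m)
  have a3 := hB n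
  omega

theorem S.comp {x y : ℕ → G} (h : E.S x y) (φ : ℕ → ℕ) (hφ : ∀ N, ∃ N', ∀ n, N' ≤ n → N ≤ φ n) :
    E.S (fun n => x (φ n)) y := by
  intro K
  obtain ⟨N, hN⟩ := h K
  obtain ⟨N', hN'⟩ := hφ N
  refine ⟨max N N', fun n m hn hm => ?_⟩
  exact hN _ _ (hN' n (by omega)) (by omega)

/-- Bounded Gromov products from non-convergence. -/
theorem bounded_of_not_S {x y : ℕ → G} (hx : E.S x x) (hy : E.S y y) (h : ¬ E.S x y) :
    ∃ (K : ℤ) (N : ℕ), ∀ n m : ℕ, N ≤ n → N ≤ m → E.g2 (x n) (y m) ≤ K := by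
  unfold S at h
  push Not at h
  obtain ⟨K0, hK0⟩ := h
  obtain ⟨N1, hN1⟩ := hx (K0 + 2 * E.D)
  obtain ⟨N2, hN2⟩ := hy (K0 + 2 * E.D)
  obtain ⟨n0, m0, hn0, hm0, hlt⟩ := hK0 (max N1 N2)
  refine ⟨K0 + 2 * E.D, max N1 N2, fun n m hn hm => ?_⟩
  have a1 := hN1 n0 n (by omega) (by omega)
  have a2 := hN2 m m0 (by omega) (by omega)
  have a3 := E.g2_hyp (x n0) (x n) (y m0)
  have a4 := E.g2_hyp (x n) (y m) (y m0)
  have hD := E.D_nonneg
  omega

/-- The sequence of powers. -/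
def P (a : G) : ℕ → G := fun n => a ^ n

theorem Good.S_self {a : G} (h : E.Good a) : E.S (P a) (P a) := by
  intro K
  refine ⟨K.toNat, fun n m hn hm => ?_⟩
  show K ≤ E.g2 (a ^ n) (a ^ m)
  unfold g2
  rcases le_total n m with hnm | hnm
  · obtain ⟨k, rfl⟩ := Nat.exists_eq_add_of_le hnm
    have e : (a ^ n)⁻¹ * a ^ (n + k) = a ^ k := by rw [pow_add]; group
    rw [e]
    have h1 := h.mono (n := k) (m := n + k) (by omega)
    have h2 := E.nonneg (a ^ n)
    push_cast at h1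
    omega
  · obtain ⟨k, rfl⟩ := Nat.exists_eq_add_of_le hnm
    have e : (a ^ (m + k))⁻¹ * a ^ m = (a ^ k)⁻¹ := by rw [pow_add]; group
    rw [e, E.inv]
    have h1 := h.mono (n := k) (m := m + k) (by omega)
    have h2 := E.nonneg (a ^ m)
    push_cast at h1
    omega

theorem Good.not_S_inv {a : G} (h : E.Good a) : ¬ E.S (P a) (P a⁻¹) := by
  intro hs
  obtain ⟨N, hN⟩ := hs (E.l a + E.D + 1)
  have h1 := hN N N le_rfl le_rfl
  unfold P g2 at h1
  have e : (a ^ N)⁻¹ * a⁻¹ ^ N = (a ^ (N + N))⁻¹ := by rw [pow_add]; group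
  rw [e, inv_pow, E.inv, E.inv] at h1
  have h2 := h.add_ge N N
  omega

theorem S_pow {g : G} {M : ℕ} (hM : 1 ≤ M) (h : E.Good (g ^ M)) : E.S (P g) (P (g ^ M)) := by
  have h1 := h.S_self.comp (fun n => n / M) (fun N => ⟨N * M, fun n hn => by
    rw [Nat.le_div_iff_mul_le (by omega)]; exact hn⟩)
  refine h1.near (M * E.l g) fun n => ?_
  show E.l ((P (g ^ M) (n / M))⁻¹ * g ^ n) ≤ _
  have e : (P (g ^ M) (n / M))⁻¹ * g ^ n = g ^ (n % M) := by
    unfold P
    conv_lhs => rw [← Nat.div_add_mod n M]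
    rw [pow_add, pow_mul, Nat.mul_add_div (by omega), Nat.div_eq_of_lt (Nat.mod_lt _ (by omega)),
      add_zero]
    group
  rw [e]
  have h2 := E.pow_le g (n % M)
  have h3 : ((n % M : ℕ) : ℤ) ≤ M := by exact_mod_cast (Nat.mod_lt _ (by omega)).le
  have h4 := E.nonneg g
  nlinarith

theorem Lox.S_self {g : G} (h : E.Lox g) : E.S (P g) (P g) := by
  obtain ⟨M, hM, h⟩ := h
  have h1 := S_pow hM h
  exact h1.trans h1.symm

theorem Lox.not_S_inv {g : G} (h : E.Lox g) : ¬ E.S (P g) (P g⁻¹) := by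
  obtain ⟨M, hM, h⟩ := h
  intro hs
  have h1 := S_pow hM h
  have h2 := S_pow (g := g⁻¹) hM (by rw [inv_pow]; exact h.inv)
  rw [inv_pow] at h2
  exact h.not_S_inv ((h1.symm.trans hs).trans h2)

/-- Fixed points of a loxodromic element. -/
theorem Good.fix {g : G} (hg : E.Good g) {η : ℕ → G} (hη : E.S η η)
    (h : ∀ k : ℕ, E.S (fun n => g ^ k * η n) η) : E.S η (P g) ∨ E.S η (P g⁻¹) := by
  by_contra hc
  push Not at hc
  obtain ⟨hc1, hc2⟩ := hc
  obtain ⟨K1, N1, h1⟩ := bounded_of_not_S hη hg.S_self hc1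
  obtain ⟨K2, N2, h2⟩ := bounded_of_not_S hη hg.inv.S_self hc2
  have hD := E.D_nonneg
  obtain ⟨n, hn⟩ : ∃ n : ℕ, N1 ≤ n ∧ N2 ≤ n ∧ K1 + K2 + E.D < n :=
    ⟨max N1 (max N2 (K1 + K2 + E.D + 1).toNat), by omega, by omega, by omega⟩
  obtain ⟨hn1, hn2, hn3⟩ := hn
  obtain ⟨N3, h3⟩ := h n (K1 + E.D + 1)
  obtain ⟨m, hm1, hm2, hm3⟩ : ∃ m : ℕ, N1 ≤ m ∧ N2 ≤ m ∧ N3 ≤ m :=
    ⟨max N1 (max N2 N3), by omega, by omega, by omega⟩
  have a1 := h1 m n hm1 hn1
  have a2 := h2 m n hm2 hn2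
  have a3 := h3 m m hm3 hm3
  have a4 := E.g2_hyp (η m) (g ^ n * η m) (g ^ n)
  have a5 := hg.le_pow n
  simp only [P] at a1 a2
  have a3' : K1 + E.D + 1 ≤ E.g2 (g ^ n * η m) (η m) := a3
  rw [E.g2_comm] at a3'
  unfold g2 at a1 a2 a3' a4
  have e1 : (η m)⁻¹ * g⁻¹ ^ n = (g ^ n * η m)⁻¹ := by rw [inv_pow]; group
  have e2 : (g ^ n * η m)⁻¹ * g ^ n = (η m)⁻¹ := by group
  rw [e1, inv_pow, E.inv, E.inv] at a2
  rw [e2, E.inv] at a4
  omega

theorem Lox.fix {g : G} (hg : E.Lox g) {η : ℕ → G} (hη : E.S η η)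
    (h : ∀ k : ℕ, E.S (fun n => g ^ k * η n) η) : E.S η (P g) ∨ E.S η (P g⁻¹) := by
  obtain ⟨M, hM, hg'⟩ := hg
  have h1 := S_pow hM hg'
  have h2 := S_pow (g := g⁻¹) hM (by rw [inv_pow]; exact hg'.inv)
  rw [inv_pow] at h2
  rcases hg'.fix hη (fun k => by
    have := h (M * k)
    rwa [pow_mul] at this) with h3 | h3
  · exact Or.inl (h3.trans h1.symm)
  · exact Or.inr (h3.trans h2.symm)

/-- Powers of a conjugate are near the translate of the powers. -/
theorem S_conj {g : G} (hg : E.Lox g) (f : G) :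
    E.S (P (f * g * f⁻¹)) (fun n => f * P g n) := by
  have h1 := hg.S_self.left f
  refine h1.near (E.l f) fun n => ?_
  show E.l ((f * g ^ n)⁻¹ * (f * g * f⁻¹) ^ n) ≤ _
  rw [conj_pow]
  have e : (f * g ^ n)⁻¹ * (f * g ^ n * f⁻¹) = f⁻¹ := by group
  rw [e, E.inv]

theorem S_shift {g : G} (hg : E.Lox g) (f : G) (hf : Commute f g) :
    E.S (fun n => f * P g n) (P g) := by
  refine hg.S_self.near (E.l f) fun n => ?_
  show E.l ((g ^ n)⁻¹ * (f * g ^ n)) ≤ _
  rw [(hf.pow_right n).eq]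
  have e : (g ^ n)⁻¹ * (g ^ n * f) = f := by group
  rw [e]

variable (E)

/-- Quasi-parabolicity of a hyperbolic length function. -/
structure QP : Prop where
  exists_two : ∃ g h : G, E.Lox g ∧ E.Lox h ∧
    ¬ ((E.S (P g) (P h) ∧ E.S (P g⁻¹) (P h⁻¹)) ∨ (E.S (P g) (P h⁻¹) ∧ E.S (P g⁻¹) (P h)))
  share : ∀ g h : G, E.Lox g → E.Lox h →
    (E.S (P g) (P h) ∨ E.S (P g) (P h⁻¹) ∨ E.S (P g⁻¹) (P h) ∨ E.S (P g⁻¹) (P h⁻¹))

variable {E}

/-- Two loxodromic elements with exactly one common end. -/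
theorem QP.exists_pair (hq : E.QP) : ∃ g h : G, E.Lox g ∧ E.Lox h ∧ E.S (P g) (P h) ∧
    ¬ E.S (P g⁻¹) (P h⁻¹) := by
  obtain ⟨g, h, hg, hh, hne⟩ := hq.exists_two
  push Not at hne
  obtain ⟨n1, n2⟩ := hne
  rcases hq.share g h hg hh with h1 | h1 | h1 | h1
  · exact ⟨g, h, hg, hh, h1, n1 h1⟩
  · exact ⟨g, h⁻¹, hg, hh.inv, h1, by rw [inv_inv]; exact n2 h1⟩
  · refine ⟨g⁻¹, h, hg.inv, hh, h1, ?_⟩
    rw [inv_inv]
    intro h2
    exact n2 h2 h1
  · refine ⟨g⁻¹, h⁻¹, hg.inv, hh.inv, h1, ?_⟩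
    rw [inv_inv, inv_inv]
    intro h2
    exact n1 h2 h1

/-- The common end of all loxodromic elements. -/
theorem QP.common (hq : E.QP) : ∃ g h : G, E.Lox g ∧ E.Lox h ∧ E.S (P g) (P h) ∧
    ¬ E.S (P g⁻¹) (P h⁻¹) ∧ ∀ k : G, E.Lox k → E.S (P k) (P g) ∨ E.S (P k⁻¹) (P g) := by
  obtain ⟨g, h, hg, hh, hgh, hne⟩ := hq.exists_pair
  refine ⟨g, h, hg, hh, hgh, hne, ?_⟩
  -- key claim for k with ends matching g⁻ and h⁻
  have key : ∀ k : G, E.Lox k → ¬ E.S (P k) (P g) → ¬ E.S (P k⁻¹) (P g) →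
      E.S (P k) (P g⁻¹) → E.S (P k⁻¹) (P h⁻¹) → False := by
    intro k hk k1 k2 k3 k4
    have hconj : ∀ n : ℕ, E.S (fun m => g ^ n * P h⁻¹ m) (P h⁻¹) := by
      intro n
      have hl : E.Lox (g ^ n * h * (g ^ n)⁻¹) := hh.conj _
      have c1 : E.S (P (g ^ n * h * (g ^ n)⁻¹)) (P g) := by
        have a1 := S_conj hh (g ^ n)
        have a2 := hgh.symm.left (g ^ n)
        have a3 := S_shift hg (g ^ n) ((Commute.refl g).pow_left n)
        exact (a1.trans a2).trans a3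
      have c2 : E.S (P (g ^ n * h * (g ^ n)⁻¹)⁻¹) (fun m => g ^ n * P h⁻¹ m) := by
        have a1 := S_conj hh.inv (g ^ n)
        have e : g ^ n * h⁻¹ * (g ^ n)⁻¹ = (g ^ n * h * (g ^ n)⁻¹)⁻¹ := by group
        rwa [e] at a1
      rcases hq.share k _ hk hl with h1 | h1 | h1 | h1
      · exact absurd (h1.trans c1) k1
      · exfalso
        have a1 : E.S (P g⁻¹) (fun m => g ^ n * P h⁻¹ m) := (k3.symm.trans h1).trans c2
        have a2 := a1.left (g ^ n)⁻¹
        have a3 : E.S (fun m => (g ^ n)⁻¹ * P g⁻¹ m) (P g⁻¹) :=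
          S_shift hg.inv _ (((Commute.refl g).pow_left n).inv_left.inv_right)
        have a4 : E.S (P g⁻¹) (P h⁻¹) := by
          have e : (fun m => (g ^ n)⁻¹ * (g ^ n * P h⁻¹ m)) = P h⁻¹ := by
            funext m; group
          rw [e] at a2
          exact a3.symm.trans a2
        exact hne a4
      · exact absurd (h1.trans c1) k2
      · exact (c2.symm.trans h1.symm).trans k4
    rcases hg.fix hh.inv.S_self hconj with h1 | h1
    · exact hh.not_S_inv ((h1.trans hgh).symm)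
    · exact hne h1.symm
  intro k hk
  by_contra hc
  push Not at hc
  obtain ⟨k1, k2⟩ := hc
  have s1 : E.S (P k) (P g⁻¹) ∨ E.S (P k⁻¹) (P g⁻¹) := by
    rcases hq.share k g hk hg with h1 | h1 | h1 | h1
    · exact absurd h1 k1
    · exact Or.inl h1
    · exact absurd h1 k2
    · exact Or.inr h1
  have s2 : E.S (P k) (P h⁻¹) ∨ E.S (P k⁻¹) (P h⁻¹) := by
    rcases hq.share k h hk hh with h1 | h1 | h1 | h1
    · exact absurd (h1.trans hgh.symm) k1
    · exact Or.inl h1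
    · exact absurd (h1.trans hgh.symm) k2
    · exact Or.inr h1
  rcases s1 with s1 | s1 <;> rcases s2 with s2 | s2
  · exact hne (s1.symm.trans s2)
  · exact key k hk k1 k2 s1 s2
  · exact key k⁻¹ hk.inv k2 (by rwa [inv_inv]) s1 (by rwa [inv_inv])
  · exact hne (s1.symm.trans s2)

/-- All elements fix one of the two ends of any given loxodromic element. -/
theorem QP.fixed (hq : E.QP) {a : G} (ha : E.Lox a) :
    (∀ f : G, E.S (fun n => f * P a n) (P a)) ∨ (∀ f : G, E.S (fun n => f * P a⁻¹ n) (P a⁻¹)) := by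
  obtain ⟨g, h, hg, hh, hgh, hne, hall⟩ := hq.common
  have hfix : ∀ f : G, E.S (fun n => f * P g n) (P g) := by
    intro f
    by_contra hc
    have h1 : ∀ k : G, E.Lox k → E.S (P k) (fun n => f * P g n) ∨ E.S (P k⁻¹) (fun n => f * P g n) := by
      intro k hk
      have hk' : E.Lox (f⁻¹ * k * f⁻¹⁻¹) := hk.conj _
      have e0 : ∀ k : G, (fun n => f * (f⁻¹ * P k n)) = P k := by
        intro k; funext n; group
      rcases hall _ hk' with h2 | h2
      · left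
        have a1 := (S_conj hk f⁻¹).left f
        rw [e0] at a1
        exact a1.symm.trans (h2.left f)
      · right
        have e : (f⁻¹ * k * f⁻¹⁻¹)⁻¹ = f⁻¹ * k⁻¹ * f⁻¹⁻¹ := by group
        rw [e] at h2
        have a1 := (S_conj hk.inv f⁻¹).left f
        rw [e0] at a1
        exact a1.symm.trans (h2.left f)
    have h2 : E.S (P g⁻¹) (fun n => f * P g n) := by
      rcases h1 g hg with h3 | h3
      · exact absurd h3.symm hc
      · exact h3
    have h3 : E.S (P h⁻¹) (fun n => f * P g n) := by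
      rcases h1 h hh with h4 | h4
      · exact absurd (hgh.trans h4).symm hc
      · exact h4
    exact hne (h2.trans h3.symm)
  rcases hall a ha with h1 | h1
  · left
    intro f
    exact ((h1.left f).trans (hfix f)).trans h1.symm
  · right
    intro f
    exact ((h1.left f).trans (hfix f)).trans h1.symm

end HL

end Pool.Agent.V1126
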