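import Mathlib

set_option autoImplicit false

open MeasureTheory Set Filter Topology ENNReal

namespace Pool.Agent.V1126.LL

noncomputable section

/-- Lebesgue measure on the half line `(0,∞)` -/
abbrev mu : Measure ℝ := (volume : Measure ℝ).restrict (Ioi 0)

/-- `L_1(0,∞)` -/
abbrev L1 : Type := Lp ℝ 1 mu

/-- `L_∞(0,∞)` -/
abbrev Li : Type := Lp ℝ ∞ mu

/-- The real vector space `L_1 + L_∞` on `(0,∞)`: a.e. classes `x` of measurable functions with
`x = u + v` for some `u ∈ L_1(0,∞)` and `v ∈ L_∞(0,∞)`. -/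
def SumSub : Submodule ℝ (ℝ →ₘ[mu] ℝ) where
  carrier := {x | ∃ (u : L1) (v : Li), x = (u : ℝ →ₘ[mu] ℝ) + (v : ℝ →ₘ[mu] ℝ)}
  zero_mem' := ⟨0, 0, by simp⟩
  add_mem' := by
    rintro x y ⟨u, v, rfl⟩ ⟨u', v', rfl⟩
    refine ⟨u + u', v + v', ?_⟩
    simp only [AddSubgroup.coe_add]
    abel
  smul_mem' := by
    rintro c x ⟨u, v, rfl⟩
    refine ⟨c • u, c • v, ?_⟩
    rw [smul_add]
    rfl

/-- The type of elements of `L_1 + L_∞`. -/
def SumSp : Type := SumSub

instance : AddCommGroup SumSp := inferInstanceAs (AddCommGroup SumSub)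
instance : Module ℝ SumSp := inferInstanceAs (Module ℝ SumSub)

/-- the underlying a.e. class -/
def SumSp.toFn (x : SumSp) : ℝ →ₘ[mu] ℝ := x.1

/-- the values `‖u‖_1 + ‖v‖_∞` over all decompositions `x = u + v` -/
def decomps (x : SumSp) : Set ℝ :=
  {r | ∃ (u : L1) (v : Li), x.toFn = (u : ℝ →ₘ[mu] ℝ) + (v : ℝ →ₘ[mu] ℝ) ∧ r = ‖u‖ + ‖v‖}

/-- The norm `‖x‖ = inf { ‖u‖_1 + ‖v‖_∞ : x = u + v }`. -/
instance : Norm SumSp := ⟨fun x => sInf (decomps x)⟩

lemma norm_def (x : SumSp) : ‖x‖ = sInf (decomps x) := rfl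

lemma decomps_nonempty (x : SumSp) : (decomps x).Nonempty := by
  obtain ⟨u, v, h⟩ := x.2
  exact ⟨_, u, v, h, rfl⟩

lemma decomps_nonneg {x : SumSp} {r : ℝ} (h : r ∈ decomps x) : 0 ≤ r := by
  obtain ⟨u, v, _, rfl⟩ := h
  positivity

lemma decomps_bdd (x : SumSp) : BddBelow (decomps x) := ⟨0, fun _ h => decomps_nonneg h⟩

lemma norm_le_of {x : SumSp} (u : L1) (v : Li)
    (h : x.toFn = (u : ℝ →ₘ[mu] ℝ) + (v : ℝ →ₘ[mu] ℝ)) : ‖x‖ ≤ ‖u‖ + ‖v‖ :=
  csInf_le (decomps_bdd x) ⟨u, v, h, rfl⟩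

lemma exists_lt {x : SumSp} {r : ℝ} (h : ‖x‖ < r) : ∃ (u : L1) (v : Li),
    x.toFn = (u : ℝ →ₘ[mu] ℝ) + (v : ℝ →ₘ[mu] ℝ) ∧ ‖u‖ + ‖v‖ < r := by
  obtain ⟨s, ⟨u, v, h1, rfl⟩, h2⟩ := exists_lt_of_csInf_lt (decomps_nonempty x) h
  exact ⟨u, v, h1, h2⟩

lemma toFn_add (x y : SumSp) : (x + y).toFn = x.toFn + y.toFn := rfl
lemma toFn_smul (c : ℝ) (x : SumSp) : (c • x).toFn = c • x.toFn := rfl
lemma toFn_zero : (0 : SumSp).toFn = 0 := rfl

lemma toFn_inj {x y : SumSp} (h : x.toFn = y.toFn) : x = y := Subtype.ext h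

/-- integrability and the basic bound over sets of measure at most one -/
lemma integral_le_decomp (x : ℝ →ₘ[mu] ℝ) (u : L1) (v : Li)
    (h : x = (u : ℝ →ₘ[mu] ℝ) + (v : ℝ →ₘ[mu] ℝ)) {A : Set ℝ}
    (hA : MeasurableSet A) (hA1 : mu A ≤ 1) :
    IntegrableOn x A mu ∧ ∫ s in A, |x s| ∂mu ≤ ‖u‖ + ‖v‖ := by
  have hu : Integrable u mu := L1.integrable_coeFn u
  have hv : MemLp v ∞ mu := Lp.memLp v
  have hAf : mu A < ∞ := lt_of_le_of_lt hA1 (by simp)
  have hvA : IntegrableOn v A mu := by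
    have : IsFiniteMeasure (mu.restrict A) := ⟨by simpa using hAf⟩
    exact (hv.restrict A).integrable (by simp)
  have hx : (x : ℝ → ℝ) =ᵐ[mu] fun s => u s + v s := by
    rw [h]
    exact AEEqFun.coeFn_add _ _
  have hxA : (x : ℝ → ℝ) =ᵐ[mu.restrict A] fun s => u s + v s := ae_restrict_of_ae hx
  refine ⟨(hu.integrableOn.add hvA).congr hxA.symm, ?_⟩
  have e1 : ∫ s in A, |x s| ∂mu = ∫ s in A, |u s + v s| ∂mu := by
    refine integral_congr_ae ?_
    filter_upwards [hxA] with s hs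
    rw [hs]
  rw [e1]
  have e2 : ∫ s in A, |u s + v s| ∂mu ≤ ∫ s in A, (|u s| + |v s|) ∂mu := by
    refine integral_mono_ae (hu.integrableOn.add hvA).abs
      (hu.integrableOn.abs.add hvA.abs) ?_
    exact Eventually.of_forall fun s => abs_add_le _ _
  refine e2.trans ?_
  rw [integral_add hu.integrableOn.abs hvA.abs]
  have e3 : ∫ s in A, |u s| ∂mu ≤ ‖u‖ := by
    have h1 : ‖u‖ = ∫ s, ‖u s‖ ∂mu := L1.norm_eq_integral_norm u
    rw [h1]
    exact setIntegral_le_integral hu.norm (Eventually.of_forall fun s => abs_nonneg _)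
  have e4 : ∫ s in A, |v s| ∂mu ≤ ‖v‖ := by
    have h1 : ∀ᵐ s ∂mu, ‖v s‖ ≤ ‖v‖ := by
      have := ae_le_eLpNormEssSup (f := v) (μ := mu)
      filter_upwards [this] with s hs
      rw [Lp.norm_def]
      have h3 : eLpNorm (v : ℝ → ℝ) ∞ mu = eLpNormEssSup v mu := by simp
      rw [h3]
      have h4 : eLpNormEssSup (v : ℝ → ℝ) mu ≠ ∞ := by
        rw [← h3]
        exact (Lp.eLpNorm_lt_top v).ne
      have := ENNReal.toReal_mono h4 hs
      simpa using this
    have h2 : ∫ s in A, |v s| ∂mu ≤ ∫ s in A, ‖v‖ ∂mu := by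
      refine integral_mono_ae hvA.abs (integrableOn_const hAf.ne) ?_
      exact ae_restrict_of_ae h1
    refine h2.trans ?_
    rw [setIntegral_const]
    have h5 : mu.real A ≤ 1 := by
      rw [Measure.real]
      exact ENNReal.toReal_le_of_le_ofReal zero_le_one (by simpa using hA1)
    have h6 := norm_nonneg v
    simp only [smul_eq_mul]
    nlinarith
  linarith

lemma integral_le_norm (x : SumSp) {A : Set ℝ}
    (hA : MeasurableSet A) (hA1 : mu A ≤ 1) :
    IntegrableOn x.toFn A mu ∧ ∫ s in A, |x.toFn s| ∂mu ≤ ‖x‖ := by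
  constructor
  · obtain ⟨u, v, h⟩ := x.2
    exact (integral_le_decomp x.toFn u v h hA hA1).1
  · rw [norm_def]
    refine le_csInf (decomps_nonempty x) ?_
    rintro r ⟨u, v, h, rfl⟩
    exact (integral_le_decomp x.toFn u v h hA hA1).2

lemma core : NormedSpace.Core ℝ SumSp where
  norm_nonneg x := Real.sInf_nonneg fun r hr => decomps_nonneg hr
  norm_smul := by
    have key : ∀ (c : ℝ) (x : SumSp), ‖c • x‖ ≤ ‖c‖ * ‖x‖ := by
      intro c x
      refine le_of_forall_pos_lt_add fun ε hε => ?_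
      have hc : 0 < ‖c‖ + 1 := by positivity
      obtain ⟨u, v, h1, h2⟩ := exists_lt (x := x) (r := ‖x‖ + ε / (‖c‖ + 1))
        (by have : 0 < ε / (‖c‖ + 1) := by positivity
            linarith)
      have h3 : ‖c • x‖ ≤ ‖c • u‖ + ‖c • v‖ := by
        refine norm_le_of _ _ ?_
        rw [toFn_smul, h1, smul_add]
        rfl
      rw [norm_smul c u, norm_smul c v, ← mul_add] at h3
      have h4 : ‖c‖ * (‖u‖ + ‖v‖) ≤ ‖c‖ * (‖x‖ + ε / (‖c‖ + 1)) :=
        mul_le_mul_of_nonneg_left h2.le (norm_nonneg c)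
      have h5 : ‖c‖ * (ε / (‖c‖ + 1)) < ε := by
        rw [mul_div_assoc', div_lt_iff₀ hc]
        nlinarith
      nlinarith
    intro c x
    refine le_antisymm (key c x) ?_
    by_cases hc : c = 0
    · subst hc
      simp only [norm_zero, zero_mul]
      exact Real.sInf_nonneg fun r hr => decomps_nonneg hr
    · have h1 := key c⁻¹ (c • x)
      rw [smul_smul, inv_mul_cancel₀ hc, one_smul, norm_inv] at h1
      have hc' : 0 < ‖c‖ := norm_pos_iff.2 hc
      calc ‖c‖ * ‖x‖ ≤ ‖c‖ * (‖c‖⁻¹ * ‖c • x‖) := mul_le_mul_of_nonneg_left h1 hc'.le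
        _ = ‖c • x‖ := by rw [← mul_assoc, mul_inv_cancel₀ hc'.ne', one_mul]
  norm_triangle := by
    intro x y
    refine le_of_forall_pos_lt_add fun ε hε => ?_
    obtain ⟨u, v, h1, h2⟩ := exists_lt (x := x) (r := ‖x‖ + ε / 2) (by linarith)
    obtain ⟨u', v', h1', h2'⟩ := exists_lt (x := y) (r := ‖y‖ + ε / 2) (by linarith)
    have h3 : ‖x + y‖ ≤ ‖u + u'‖ + ‖v + v'‖ := by
      refine norm_le_of _ _ ?_
      rw [toFn_add, h1, h1']
      simp only [AddSubgroup.coe_add]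
      abel
    have h4 := norm_add_le u u'
    have h5 := norm_add_le v v'
    linarith
  norm_eq_zero_iff := by
    intro x
    constructor
    · intro h
      apply toFn_inj
      rw [toFn_zero]
      apply AEEqFun.ext
      refine EventuallyEq.trans ?_ AEEqFun.coeFn_zero.symm
      -- on each `(n, n+1]` the class vanishes
      have h1 : ∀ n : ℕ, ∀ᵐ s ∂(mu.restrict (Ioc (n : ℝ) (n + 1))), x.toFn s = 0 := by
        intro n
        have hm : mu (Ioc (n : ℝ) (n + 1)) ≤ 1 := by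
          refine (Measure.restrict_apply_le _ _).trans ?_
          rw [Real.volume_Ioc]
          simp
        obtain ⟨hi, hle⟩ := integral_le_norm x measurableSet_Ioc hm
        rw [h] at hle
        have h0 : ∫ s in Ioc (n : ℝ) (n + 1), |x.toFn s| ∂mu = 0 :=
          le_antisymm hle (integral_nonneg fun s => abs_nonneg _)
        rw [integral_eq_zero_iff_of_nonneg (fun s => abs_nonneg _) hi.abs] at h0
        filter_upwards [h0] with s hs
        simpa using hs
      have h2 : ∀ᵐ s ∂mu, ∀ n : ℕ, s ∈ Ioc (n : ℝ) (n + 1) → x.toFn s = 0 := by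
        rw [ae_all_iff]
        intro n
        exact (ae_restrict_iff' measurableSet_Ioc).1 (h1 n)
      have h3 : ∀ᵐ s ∂mu, s ∈ Ioi (0 : ℝ) := ae_restrict_mem measurableSet_Ioi
      filter_upwards [h2, h3] with s hs hs0
      have hs0' : 0 < s := hs0
      have hc : 0 < ⌈s⌉₊ := Nat.ceil_pos.2 hs0'
      refine hs (⌈s⌉₊ - 1) ⟨?_, ?_⟩
      · have h5 := Nat.ceil_lt_add_one hs0'.le
        rw [Nat.cast_sub (by omega)]
        push_cast
        linarith
      · have h5 := Nat.le_ceil s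
        rw [Nat.cast_sub (by omega)]
        push_cast
        linarith
    · rintro rfl
      refine le_antisymm ?_ (Real.sInf_nonneg fun r hr => decomps_nonneg hr)
      have := norm_le_of (x := 0) 0 0 (by simp [toFn_zero])
      simpa using this

instance : NormedAddCommGroup SumSp := NormedAddCommGroup.ofCore core
instance : NormedSpace ℝ SumSp := NormedSpace.ofCore core

end

end Pool.Agent.V1126.LL
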