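import Pool.Agent.V1126.LLHelly

set_option autoImplicit false

open MeasureTheory Set Filter Topology ENNReal

namespace Pool.Agent.V1126.LL

noncomputable section

/-- limits of functionals along an ultrafilter -/
theorem exists_ulim {W : Type*} [NormedAddCommGroup W] [NormedSpace ℝ W]
    (x : ℕ → (W →L[ℝ] ℝ)) (M : ℝ) (hM : ∀ m, ‖x m‖ ≤ M) :
    ∃ y : W →L[ℝ] ℝ, ∀ w, Tendsto (fun m => x m w) (hyperfilter ℕ) (𝓝 (y w)) := by
  have hM0 : 0 ≤ M := (norm_nonneg _).trans (hM 0)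
  have hb : ∀ w m, |x m w| ≤ M * ‖w‖ := fun w m =>
    ((x m).le_opNorm w).trans (mul_le_mul_of_nonneg_right (hM m) (norm_nonneg w))
  have h1 : ∀ w, ∃ a : ℝ, Tendsto (fun m => x m w) (hyperfilter ℕ) (𝓝 a) := by
    intro w
    have hc : IsCompact (Icc (-(M * ‖w‖)) (M * ‖w‖)) := isCompact_Icc
    obtain ⟨a, _, ha⟩ := hc.ultrafilter_le_nhds ((hyperfilter ℕ).map fun m => x m w) (by
      rw [le_principal_iff]
      exact Filter.mem_map.2 (Filter.Eventually.of_forall fun m => abs_le.1 (hb w m)))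
    exact ⟨a, ha⟩
  choose l hl using h1
  let L : W →ₗ[ℝ] ℝ :=
    { toFun := l
      map_add' := by
        intro a b
        refine tendsto_nhds_unique (hl (a + b)) ?_
        simpa using (hl a).add (hl b)
      map_smul' := by
        intro c a
        refine tendsto_nhds_unique (hl (c • a)) ?_
        simpa using (hl a).const_mul c }
  refine ⟨L.mkContinuous M ?_, hl⟩
  intro w
  have h2 : Tendsto (fun m => |x m w|) (hyperfilter ℕ) (𝓝 |l w|) := (hl w).abs
  exact le_of_tendsto h2 (Eventually.of_forall fun m => hb w m)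

/-- dyadic intervals -/
def dy (n k : ℕ) : Set ℝ := Ioc ((k : ℝ) / 2 ^ n) (((k : ℝ) + 1) / 2 ^ n)

/-- index of the dyadic interval containing `t` -/
def kk (n : ℕ) (t : ℝ) : ℕ := ⌈2 ^ n * t⌉₊ - 1

lemma mem_dy {n : ℕ} {t : ℝ} (ht : 0 < t) : t ∈ dy n (kk n t) := by
  have h2 : (0 : ℝ) < 2 ^ n := by positivity
  have hp : 0 < 2 ^ n * t := by positivity
  have hc : 0 < ⌈2 ^ n * t⌉₊ := Nat.ceil_pos.2 hp
  have h5 := Nat.ceil_lt_add_one hp.le
  have h6 := Nat.le_ceil (2 ^ n * t)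
  have h7 : ((⌈2 ^ n * t⌉₊ - 1 : ℕ) : ℝ) = (⌈2 ^ n * t⌉₊ : ℝ) - 1 := by
    rw [Nat.cast_sub (by omega)]
    simp
  refine ⟨?_, ?_⟩
  · rw [kk, h7, div_lt_iff₀ h2]
    linarith
  · rw [kk, h7, le_div_iff₀ h2]
    linarith

lemma kk_lt {n : ℕ} {t : ℝ} (ht1 : t ≤ 1) : kk n t < 2 ^ n := by
  have h2 : (0 : ℝ) < 2 ^ n := by positivity
  have h3 : ⌈(2 : ℝ) ^ n * t⌉₊ ≤ 2 ^ n := by
    rw [Nat.ceil_le]
    push_cast
    nlinarith
  have h4 : 0 < 2 ^ n := by positivity
  rw [kk]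
  omega

lemma dy_subset {n k : ℕ} (hk : k < 2 ^ n) : dy n k ⊆ Ioc 0 1 := by
  have h2 : (0 : ℝ) < 2 ^ n := by positivity
  intro t ht
  refine ⟨lt_of_le_of_lt (by positivity) ht.1, ht.2.trans ?_⟩
  rw [div_le_one h2]
  exact_mod_cast hk

lemma dy_meas (n k : ℕ) : MeasurableSet (dy n k) := measurableSet_Ioc

lemma mu_eq {A : Set ℝ} (hA : MeasurableSet A) (h : A ⊆ Ioi 0) : mu A = volume A := by
  rw [Measure.restrict_apply hA, inter_eq_left.2 h]

lemma restrict_mu_eq {A : Set ℝ} (hA : MeasurableSet A) (h : A ⊆ Ioi 0) :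
    mu.restrict A = volume.restrict A := by
  rw [Measure.restrict_restrict hA, inter_eq_left.2 h]

lemma Ioc_sub : Ioc (0 : ℝ) 1 ⊆ Ioi 0 := fun _ h => h.1

lemma mu_dy {n k : ℕ} (hk : k < 2 ^ n) : mu (dy n k) = ENNReal.ofReal (1 / 2 ^ n) := by
  rw [mu_eq (dy_meas n k) ((dy_subset hk).trans Ioc_sub), dy, Real.volume_Ioc]
  congr 1
  ring

lemma mu_dy_le {n k : ℕ} (hk : k < 2 ^ n) : mu (dy n k) ≤ 1 := by
  rw [mu_dy hk]
  refine ENNReal.ofReal_le_one.2 ?_
  rw [div_le_one (by positivity)]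
  exact one_le_pow₀ (by norm_num)

lemma dy_disj {n k l : ℕ} (h : k ≠ l) : Disjoint (dy n k) (dy n l) := by
  have h2 : (0 : ℝ) < 2 ^ n := by positivity
  rw [Set.disjoint_left]
  intro t h1 h3
  have a1 := (div_lt_iff₀ h2).1 h1.1
  have a2 := (le_div_iff₀ h2).1 h1.2
  have b1 := (div_lt_iff₀ h2).1 h3.1
  have b2 := (le_div_iff₀ h2).1 h3.2
  have c1 : (k : ℝ) < l + 1 := by linarith
  have c2 : (l : ℝ) < k + 1 := by linarith
  have c3 : k < l + 1 := by exact_mod_cast c1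
  have c4 : l < k + 1 := by exact_mod_cast c2
  omega

lemma dy_cover (n : ℕ) : Ioc (0 : ℝ) 1 = ⋃ k : Fin (2 ^ n), dy n k := by
  apply Subset.antisymm
  · intro t ht
    exact mem_iUnion.2 ⟨⟨kk n t, kk_lt ht.2⟩, mem_dy ht.1⟩
  · exact iUnion_subset fun k => dy_subset k.2

lemma mu_unit : mu (Ioc (0 : ℝ) 1) = 1 := by
  rw [mu_eq measurableSet_Ioc Ioc_sub, Real.volume_Ioc]
  simp

/-- Lebesgue differentiation along dyadic intervals -/
theorem ae_dyadic (h : ℝ → ℝ) (hh : IntegrableOn h (Ioc 0 1) mu) :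
    ∀ᵐ t ∂mu, t ∈ Ioc (0 : ℝ) 1 →
      Tendsto (fun m : ℕ => 2 ^ m * ∫ s in dy m (kk m t), h s ∂mu) atTop (𝓝 (h t)) := by
  have hr : mu.restrict (Ioc (0 : ℝ) 1) = volume.restrict (Ioc 0 1) :=
    restrict_mu_eq measurableSet_Ioc Ioc_sub
  let f : ℝ → ℝ := indicator (Ioc 0 1) h
  have hf : Integrable f volume := by
    rw [integrable_indicator_iff measurableSet_Ioc]
    rw [IntegrableOn, ← hr]
    exact hh
  have h1 := IsUnifLocDoublingMeasure.ae_tendsto_average (μ := (volume : Measure ℝ))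
    hf.locallyIntegrable 1
  have h1' : ∀ᵐ x ∂mu, ∀ {ι : Type} {l : Filter ι} (w : ι → ℝ) (δ : ι → ℝ)
      (_ : Tendsto δ l (𝓝[>] 0)) (_ : ∀ᶠ j in l, x ∈ Metric.closedBall (w j) (1 * δ j)),
      Tendsto (fun j => ⨍ y in Metric.closedBall (w j) (δ j), f y ∂volume) l (𝓝 (f x)) :=
    ae_restrict_of_ae h1
  filter_upwards [h1'] with t ht htI
  have h2 := ht (l := atTop) (fun m : ℕ => ((kk m t : ℝ) + 1 / 2) / 2 ^ m)
    (fun m : ℕ => (1 / 2) ^ (m + 1)) ?_ ?_
  · have hft : f t = h t := indicator_of_mem htI h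
    rw [hft] at h2
    refine h2.congr fun m => ?_
    have hp : (0 : ℝ) < 2 ^ m := by positivity
    have e1 : Metric.closedBall (((kk m t : ℝ) + 1 / 2) / 2 ^ m) ((1 / 2) ^ (m + 1))
        = Icc ((kk m t : ℝ) / 2 ^ m) (((kk m t : ℝ) + 1) / 2 ^ m) := by
      rw [Real.closedBall_eq_Icc]
      congr 1
      · rw [pow_succ, one_div_pow]
        field_simp
        ring
      · rw [pow_succ, one_div_pow]
        field_simp
        ring
    rw [e1, setAverage_eq, integral_Icc_eq_integral_Ioc]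
    have e2 : volume.real (Icc ((kk m t : ℝ) / 2 ^ m) (((kk m t : ℝ) + 1) / 2 ^ m))
        = 1 / 2 ^ m := by
      rw [Measure.real, Real.volume_Icc, ENNReal.toReal_ofReal]
      · ring
      · have : ((kk m t : ℝ) + 1) / 2 ^ m - (kk m t : ℝ) / 2 ^ m = 1 / 2 ^ m := by ring
        rw [this]
        positivity
    rw [e2]
    have hsub : dy m (kk m t) ⊆ Ioc 0 1 := dy_subset (kk_lt htI.2)
    have e3 : ∫ s in dy m (kk m t), h s ∂mu
        = ∫ s in Ioc ((kk m t : ℝ) / 2 ^ m) (((kk m t : ℝ) + 1) / 2 ^ m), f s := by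
      rw [restrict_mu_eq (dy_meas _ _) (hsub.trans Ioc_sub)]
      refine setIntegral_congr_fun (dy_meas _ _) fun s hs => ?_
      exact (indicator_of_mem (hsub hs) h).symm
    rw [e3]
    simp
  · rw [tendsto_nhdsWithin_iff]
    refine ⟨?_, Eventually.of_forall fun m => (by positivity : (0 : ℝ) < (1 / 2) ^ (m + 1))⟩
    have := (tendsto_pow_atTop_nhds_zero_of_lt_one (r := (1 / 2 : ℝ)) (by norm_num)
      (by norm_num))
    exact this.comp (tendsto_add_atTop_nat 1)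
  · refine Eventually.of_forall fun m => ?_
    have hm := mem_dy (n := m) htI.1
    have hp : (0 : ℝ) < 2 ^ m := by positivity
    rw [one_mul, Real.closedBall_eq_Icc]
    have a1 := hm.1
    have a2 := hm.2
    constructor
    · refine le_trans (le_of_eq ?_) a1.le
      rw [pow_succ, one_div_pow]
      field_simp
      ring
    · refine a2.trans (le_of_eq ?_)
      rw [pow_succ, one_div_pow]
      field_simp
      ring

end

end Pool.Agent.V1126.LL
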