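import Pool.Agent.V1126.LLMain

set_option autoImplicit false

open MeasureTheory Set Filter Topology ENNReal

namespace Pool.Agent.V1126.LL

noncomputable section

section

theorem kk_injOn (F : Finset ℝ) (hF : ∀ t ∈ F, t ∈ Ioc (0:ℝ) 1) :
    ∀ᶠ n : ℕ in atTop, ∀ t ∈ F, ∀ s ∈ F, kk n t = kk n s → t = s := by
  rw [Filter.eventually_all_finset]
  intro t ht
  rw [Filter.eventually_all_finset]
  intro s hs
  by_cases hts : t = s
  · exact Eventually.of_forall fun n _ => hts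
  have hd : 0 < |t - s| := abs_pos.2 (sub_ne_zero.2 hts)
  have h1 : Tendsto (fun n : ℕ => (1 / 2 : ℝ) ^ n) atTop (𝓝 0) :=
    tendsto_pow_atTop_nhds_zero_of_lt_one (by norm_num) (by norm_num)
  filter_upwards [h1.eventually (gt_mem_nhds hd)] with n hn hk
  exfalso
  have a1 := mem_dy (n := n) (hF t ht).1
  have a2 := mem_dy (n := n) (hF s hs).1
  rw [← hk] at a2
  have hp : (0 : ℝ) < 2 ^ n := by positivity
  have h3 : ((kk n t : ℝ) + 1) / 2 ^ n = (kk n t : ℝ) / 2 ^ n + (1 / 2) ^ n := by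
    rw [one_div_pow]
    ring
  have a3 := a1.1
  have a4 := a1.2
  have a5 := a2.1
  have a6 := a2.2
  rw [h3] at a4 a6
  have : |t - s| ≤ (1 / 2) ^ n := by
    rw [abs_le]
    constructor <;> linarith
  linarith

theorem no_dual {Z : Type*} [NormedAddCommGroup Z] [NormedSpace ℝ Z]
    (e : SumSp ≃L[ℝ] (Z →L[ℝ] ℝ)) : False := by
  classical
  -- constants
  obtain ⟨C, hC, heC⟩ : ∃ C : ℝ, 0 < C ∧ ∀ x, ‖e.symm x‖ ≤ C * ‖x‖ := by
    refine ⟨‖(e.symm : (Z →L[ℝ] ℝ) →L[ℝ] SumSp)‖ + 1, by positivity, fun x => ?_⟩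
    have := (e.symm : (Z →L[ℝ] ℝ) →L[ℝ] SumSp).le_opNorm x
    have h2 := norm_nonneg x
    change ‖(e.symm : (Z →L[ℝ] ℝ) →L[ℝ] SumSp) x‖ ≤ _
    nlinarith
  obtain ⟨D, hD, heD⟩ : ∃ D : ℝ, 0 < D ∧ ∀ x, ‖e x‖ ≤ D * ‖x‖ := by
    refine ⟨‖(e : SumSp →L[ℝ] (Z →L[ℝ] ℝ))‖ + 1, by positivity, fun x => ?_⟩
    have := (e : SumSp →L[ℝ] (Z →L[ℝ] ℝ)).le_opNorm x
    have h2 := norm_nonneg x
    change ‖(e : SumSp →L[ℝ] (Z →L[ℝ] ℝ)) x‖ ≤ _
    nlinarith
  choose z hz1 hz2 using exists_z e hC heC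
  -- bad sets
  let bad : ℕ → Set ℝ := fun n => ⋃ k : Fin (2 ^ n), {s | 1 / 2 ≤ |(VV e (z n k) - gd n k k.2 : HH) s|}
  have hbad : ∀ n, mu (bad n) ≤ ENNReal.ofReal ((1 / 2) ^ n / 4) := by
    intro n
    refine (measure_iUnion_le _).trans ?_
    rw [tsum_fintype]
    have h1 : ∀ k ∈ (Finset.univ : Finset (Fin (2 ^ n))),
        mu {s | 1 / 2 ≤ |(VV e (z n k) - gd n k k.2 : HH) s|}
          ≤ ENNReal.ofReal (4 * ((1 / 2) ^ n / 4) ^ 2) :=
      fun k _ => cheb _ (by positivity) (hz2 n k)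
    refine (Finset.sum_le_sum h1).trans ?_
    rw [Finset.sum_const, Finset.card_univ, Fintype.card_fin, nsmul_eq_mul]
    have h2 : ((2 ^ n : ℕ) : ℝ≥0∞) = ENNReal.ofReal (2 ^ n) := by
      rw [ENNReal.ofReal_pow (by norm_num)]
      simp
    rw [h2, ← ENNReal.ofReal_mul (by positivity)]
    refine ENNReal.ofReal_le_ofReal (le_of_eq ?_)
    rw [one_div_pow]
    field_simp
  have hbadU : mu (⋃ n, bad n) ≤ ENNReal.ofReal (1 / 2) := by
    refine (measure_iUnion_le _).trans ((ENNReal.tsum_le_tsum hbad).trans ?_)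
    have hs : HasSum (fun n : ℕ => (1 / 2 : ℝ) ^ n / 4) (2 / 4) := hasSum_geometric_two.div_const 4
    rw [← ENNReal.ofReal_tsum_of_nonneg (fun n => by positivity) hs.summable, hs.tsum_eq]
    exact ENNReal.ofReal_le_ofReal (by norm_num)
  -- differentiation
  have hdiff : ∀ᵐ t ∂mu, ∀ n : ℕ, ∀ k : Fin (2 ^ n), t ∈ Ioc (0 : ℝ) 1 →
      Tendsto (fun m : ℕ => 2 ^ m * ∫ s in dy m (kk m t), VV e (z n k) s ∂mu) atTop
        (𝓝 (VV e (z n k) t)) := by
    rw [ae_all_iff]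
    intro n
    rw [ae_all_iff]
    intro k
    refine ae_dyadic _ ?_
    have : IsFiniteMeasure (mu.restrict (Ioc (0:ℝ) 1)) := ⟨by
      rw [Measure.restrict_apply_univ, mu_unit]; simp⟩
    exact ((Lp.memLp (VV e (z n k))).restrict _).integrable (by norm_num)
  have hgd : ∀ᵐ t ∂mu, ∀ n : ℕ, ∀ k : Fin (2 ^ n),
      (VV e (z n k) - gd n k k.2 : HH) t = VV e (z n k) t - (dy n k).indicator (fun _ => (1:ℝ)) t := by
    rw [ae_all_iff]
    intro n
    rw [ae_all_iff]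
    intro k
    filter_upwards [Lp.coeFn_sub (VV e (z n k)) (gd n k k.2), gd_coe n k k.2] with t h1 h2
    rw [h1, Pi.sub_apply, h2]
  let P : ℝ → Prop := fun t => (∀ n : ℕ, ∀ k : Fin (2 ^ n), t ∈ Ioc (0 : ℝ) 1 →
      Tendsto (fun m : ℕ => 2 ^ m * ∫ s in dy m (kk m t), VV e (z n k) s ∂mu) atTop
        (𝓝 (VV e (z n k) t))) ∧ ∀ n : ℕ, ∀ k : Fin (2 ^ n),
      (VV e (z n k) - gd n k k.2 : HH) t = VV e (z n k) t - (dy n k).indicator (fun _ => (1:ℝ)) t
  have hP : ∀ᵐ t ∂mu, P t := hdiff.and hgd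
  let G : Set ℝ := {t | t ∈ Ioc (0 : ℝ) 1 ∧ P t ∧ t ∉ ⋃ n, bad n}
  have hGunc : ¬ G.Countable := by
    intro hcount
    have h0 : mu G = 0 := by
      exact hcount.measure_zero mu
    have hN : mu {t | ¬ P t} = 0 := hP
    have hcov : Ioc (0 : ℝ) 1 ⊆ G ∪ ({t | ¬ P t} ∪ ⋃ n, bad n) := by
      intro t ht
      by_cases h1 : P t
      · by_cases h2 : t ∈ ⋃ n, bad n
        · exact Or.inr (Or.inr h2)
        · exact Or.inl ⟨ht, h1, h2⟩
      · exact Or.inr (Or.inl h1)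
    have h2 : mu (Ioc (0 : ℝ) 1) ≤ mu G + (mu {t | ¬ P t} + mu (⋃ n, bad n)) :=
      (measure_mono hcov).trans ((measure_union_le _ _).trans
        (add_le_add le_rfl (measure_union_le _ _)))
    rw [mu_unit, h0, hN, zero_add, zero_add] at h2
    have h3 := h2.trans hbadU
    rw [← ENNReal.ofReal_one, ENNReal.ofReal_le_ofReal_iff (by norm_num)] at h3
    norm_num at h3
  -- the selected vectors
  have hkey : ∀ t : G, ∀ n : ℕ, 1 / 2 ≤ VV e (z n ⟨kk n t, kk_lt t.2.1.2⟩) t := by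
    rintro ⟨t, htI, hPt, htb⟩ n
    have h1 := hPt.2 n ⟨kk n t, kk_lt htI.2⟩
    rw [indicator_of_mem (mem_dy htI.1)] at h1
    have h2 : ¬ (1 / 2 ≤ |(VV e (z n ⟨kk n t, kk_lt htI.2⟩) - gd n (kk n t) (kk_lt htI.2) : HH) t|) := by
      intro h
      exact htb (mem_iUnion.2 ⟨n, mem_iUnion.2 ⟨⟨kk n t, kk_lt htI.2⟩, h⟩⟩)
    rw [h1] at h2
    have h3 := (abs_lt.1 (not_le.1 h2)).1
    change 1 / 2 ≤ VV e (z n ⟨kk n t, kk_lt htI.2⟩) t
    linarith
  -- the weak star limits x_t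
  have hx : ∀ t : G, ∃ x : Z →L[ℝ] ℝ, ∀ w, Tendsto
      (fun m => ((2 : ℝ) ^ m • TT e (gd m (kk m t) (kk_lt t.2.1.2))) w) (hyperfilter ℕ) (𝓝 (x w)) := by
    intro t
    refine exists_ulim (fun m => ((2 : ℝ) ^ m • TT e (gd m (kk m t) (kk_lt t.2.1.2)))) D ?_
    intro m
    rw [norm_smul, norm_pow, Real.norm_ofNat, TT_apply]
    have h1 := heD (iOL (T1 (gd m (kk m t) (kk_lt t.2.1.2))))
    have h2 : ‖iOL (T1 (gd m (kk m t) (kk_lt t.2.1.2)))‖ ≤ 1 / 2 ^ m :=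
      (iO_norm _).trans (T1_gd_norm m (kk m t) (kk_lt t.2.1.2))
    have hp : (0 : ℝ) < 2 ^ m := by positivity
    calc (2 : ℝ) ^ m * ‖e (iOL (T1 (gd m (kk m t) (kk_lt t.2.1.2))))‖
        ≤ 2 ^ m * (D * (1 / 2 ^ m)) := by
          refine mul_le_mul_of_nonneg_left (h1.trans ?_) hp.le
          exact mul_le_mul_of_nonneg_left h2 hD.le
      _ = D := by field_simp
  choose x hx using hx
  have hxz : ∀ t : G, ∀ n : ℕ, ∀ k : Fin (2 ^ n), x t (z n k) = VV e (z n k) t := by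
    intro t n k
    have h1 := hx t (z n k)
    have h2 := (t.2.2.1.1 n k t.2.1).mono_left (Nat.hyperfilter_le_atTop)
    refine tendsto_nhds_unique h1 (h2.congr fun m => ?_)
    rw [ContinuousLinearMap.smul_apply, TT_gd, smul_eq_mul]
  -- the functionals φ_t
  have hzC : ∀ n (k : Fin (2 ^ n)), ‖z n k‖ ≤ C := by
    intro n k
    refine NormedSpace.norm_le_dual_bound ℝ _ hC.le fun f => ?_
    refine le_trans ?_ (hz1 n f)
    exact Finset.single_le_sum (f := fun k => |f (z n k)|) (fun _ _ => abs_nonneg _)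
      (Finset.mem_univ k)
  have hφ : ∀ t : G, ∃ φ : (Z →L[ℝ] ℝ) →L[ℝ] ℝ, ∀ w, Tendsto
      (fun n => NormedSpace.inclusionInDoubleDual ℝ Z (z n ⟨kk n t, kk_lt t.2.1.2⟩) w)
      (hyperfilter ℕ) (𝓝 (φ w)) := by
    intro t
    refine exists_ulim (fun n =>
      NormedSpace.inclusionInDoubleDual ℝ Z (z n ⟨kk n t, kk_lt t.2.1.2⟩)) C ?_
    intro n
    exact (NormedSpace.double_dual_bound ℝ Z _).trans (hzC _ _)
  choose φ hφ using hφ
  have hφ' : ∀ t : G, ∀ w, Tendsto (fun n => w (z n ⟨kk n t, kk_lt t.2.1.2⟩))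
      (hyperfilter ℕ) (𝓝 (φ t w)) := by
    intro t w
    simpa using hφ t w
  have hφx : ∀ t : G, 1 / 2 ≤ φ t (x t) := by
    intro t
    refine ge_of_tendsto (hφ' t (x t)) (Eventually.of_forall fun n => ?_)
    rw [hxz]
    exact hkey t n
  have hsum : ∀ (F : Finset G) (w : Z →L[ℝ] ℝ), ∑ t ∈ F, |φ t w| ≤ C * ‖w‖ := by
    intro F w
    have h1 : Tendsto (fun n => ∑ t ∈ F, |w (z n ⟨kk n t, kk_lt t.2.1.2⟩)|) (hyperfilter ℕ)
        (𝓝 (∑ t ∈ F, |φ t w|)) := tendsto_finsetSum _ fun t _ => (hφ' t w).abs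
    refine le_of_tendsto h1 ?_
    have h2 := kk_injOn (F.image Subtype.val) (by
      intro t ht
      obtain ⟨s, _, rfl⟩ := Finset.mem_image.1 ht
      exact s.2.1)
    have h3 := h2.filter_mono (Nat.hyperfilter_le_atTop)
    filter_upwards [h3] with n hn
    refine le_trans ?_ (hz1 n w)
    have hinj : Set.InjOn (fun t : G => (⟨kk n t, kk_lt t.2.1.2⟩ : Fin (2 ^ n))) F := by
      intro s hs t ht hst
      have h4 : kk n s = kk n t := congrArg Fin.val hst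
      exact Subtype.ext (hn s (Finset.mem_image_of_mem _ hs) t (Finset.mem_image_of_mem _ ht) h4)
    rw [← Finset.sum_image (f := fun k : Fin (2 ^ n) => |w (z n k)|) hinj]
    exact Finset.sum_le_sum_of_subset_of_nonneg (Finset.subset_univ _) fun _ _ _ => abs_nonneg _
  -- transfer to the sum space
  have hfin := countable_support (fun t : G => (φ t).toLinearMap.comp
    (e : SumSp →L[ℝ] (Z →L[ℝ] ℝ)).toLinearMap) (C := C * D) (by positivity) (by
      intro F y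
      have h1 := hsum F (e y)
      have h2 := heD y
      have h3 : C * ‖e y‖ ≤ C * (D * ‖y‖) := mul_le_mul_of_nonneg_left h2 hC.le
      refine (h1.trans h3).trans (le_of_eq ?_)
      ring)
  apply hGunc
  have huniv : {t : G | (φ t).toLinearMap.comp
    (e : SumSp →L[ℝ] (Z →L[ℝ] ℝ)).toLinearMap ≠ 0} = univ := by
    rw [eq_univ_iff_forall]
    intro t h0
    have h1 : φ t (e (e.symm (x t))) = 0 := by
      have := LinearMap.congr_fun h0 (e.symm (x t))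
      simpa using this
    rw [ContinuousLinearEquiv.apply_symm_apply] at h1
    have := hφx t
    rw [h1] at this
    norm_num at this
  rw [huniv] at hfin
  exact Set.countable_coe_iff.1 (Set.countable_univ_iff.1 hfin)

end

end

end Pool.Agent.V1126.LL
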