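import Pool.Agent.V1126.LLRiesz

set_option autoImplicit false

open MeasureTheory Set Filter Topology ENNReal

namespace Pool.Agent.V1126.LL

noncomputable section

section Helly

variable {Z H : Type*} [NormedAddCommGroup Z] [NormedSpace ℝ Z]
  [NormedAddCommGroup H] [InnerProductSpace ℝ H] [CompleteSpace H]

/-- the tuples which are bounded in the sense of operators from `ℓ_∞^N` -/
def BB (Z : Type*) [NormedAddCommGroup Z] [NormedSpace ℝ Z] (N : ℕ) (C : ℝ) : Set (Fin N → Z) :=
  {z | ∀ x : Z →L[ℝ] ℝ, ∑ k, |x (z k)| ≤ C * ‖x‖}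

lemma BB_convex (N : ℕ) (C : ℝ) : Convex ℝ (BB Z N C) := by
  intro z hz w hw a b ha hb hab x
  have h1 : ∑ k, |x ((a • z + b • w) k)| ≤ ∑ k, (a * |x (z k)| + b * |x (w k)|) := by
    refine Finset.sum_le_sum fun k _ => ?_
    simp only [Pi.add_apply, Pi.smul_apply, map_add, map_smul, smul_eq_mul]
    refine (abs_add_le _ _).trans ?_
    rw [abs_mul, abs_mul, abs_of_nonneg ha, abs_of_nonneg hb]
  refine h1.trans ?_
  rw [Finset.sum_add_distrib, ← Finset.mul_sum, ← Finset.mul_sum]
  have h2 := hz x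
  have h3 := hw x
  have h4 : C * ‖x‖ = a * (C * ‖x‖) + b * (C * ‖x‖) := by rw [← add_mul, hab, one_mul]
  rw [h4]
  exact add_le_add (mul_le_mul_of_nonneg_left h2 ha) (mul_le_mul_of_nonneg_left h3 hb)

/-- signed sums -/
def Phi (Z : Type*) [NormedAddCommGroup Z] [NormedSpace ℝ Z] (N : ℕ) :
    (Fin N → Z) →ₗ[ℝ] ((Fin N → Bool) → Z) where
  toFun z := fun ε => ∑ k, sg (ε k) • z k
  map_add' z w := by
    ext ε
    simp [smul_add, Finset.sum_add_distrib]
  map_smul' c z := by
    ext ε
    simp only [Pi.smul_apply, RingHom.id_apply, Finset.smul_sum]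
    refine Finset.sum_congr rfl fun k _ => ?_
    rw [smul_comm]

lemma sum_abs_le_Phi {N : ℕ} (z : Fin N → Z) (x : Z →L[ℝ] ℝ) :
    ∑ k, |x (z k)| ≤ ‖x‖ * ‖Phi Z N z‖ := by
  let ε : Fin N → Bool := fun k => decide (0 ≤ x (z k))
  have h1 : ∑ k, |x (z k)| = x (Phi Z N z ε) := by
    simp only [Phi, LinearMap.coe_mk, AddHom.coe_mk, map_sum, map_smul, smul_eq_mul]
    refine Finset.sum_congr rfl fun k _ => ?_
    by_cases h : 0 ≤ x (z k)
    · simp [ε, sg, h]
    · simp [ε, sg, h, abs_of_neg (not_le.1 h)]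
  rw [h1]
  refine (le_abs_self _).trans ((x.le_opNorm _).trans ?_)
  exact mul_le_mul_of_nonneg_left (norm_le_pi_norm _ ε) (norm_nonneg _)

lemma Phi_inj (N : ℕ) : Function.Injective (Phi Z N) := by
  rw [injective_iff_map_eq_zero]
  intro z hz
  ext k
  refine SeparatingDual.eq_zero_of_forall_dual_eq_zero (R := ℝ) fun x => ?_
  have h1 := sum_abs_le_Phi z x
  rw [hz, norm_zero, mul_zero] at h1
  have h2 : |x (z k)| ≤ ∑ k, |x (z k)| :=
    Finset.single_le_sum (f := fun k => |x (z k)|) (fun _ _ => abs_nonneg _) (Finset.mem_univ k)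
  exact abs_eq_zero.1 (le_antisymm (h2.trans h1) (abs_nonneg _))

/-- the norms of the coordinate functionals of a functional on an `ℓ_∞` sum add up -/
lemma sum_norm_le {ι : Type*} [Fintype ι] [DecidableEq ι] (L : (ι → Z) →L[ℝ] ℝ) :
    ∑ i, ‖L.comp (ContinuousLinearMap.single ℝ (fun _ : ι => Z) i)‖ ≤ ‖L‖ := by
  refine le_of_forall_pos_lt_add fun η hη => ?_
  have hc : (0 : ℝ) < Fintype.card ι + 1 := by positivity
  let η' := η / (Fintype.card ι + 1)
  have hη' : 0 < η' := div_pos hη hc
  have h1 : ∀ i, ∃ w : Z, ‖w‖ ≤ 1 ∧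
      ‖L.comp (ContinuousLinearMap.single ℝ (fun _ : ι => Z) i)‖ - η'
        ≤ L.comp (ContinuousLinearMap.single ℝ (fun _ : ι => Z) i) w := by
    intro i
    obtain ⟨w, hw1, hw2⟩ := ContinuousLinearMap.exists_lt_apply_of_lt_opNorm
      (L.comp (ContinuousLinearMap.single ℝ (fun _ : ι => Z) i))
      (r := ‖L.comp (ContinuousLinearMap.single ℝ (fun _ : ι => Z) i)‖ - η') (by linarith)
    rcases le_total 0 (L.comp (ContinuousLinearMap.single ℝ (fun _ : ι => Z) i) w) with h | h
    · refine ⟨w, hw1.le, ?_⟩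
      rw [Real.norm_of_nonneg h] at hw2
      exact hw2.le
    · refine ⟨-w, by rw [norm_neg]; exact hw1.le, ?_⟩
      rw [Real.norm_of_nonpos h] at hw2
      rw [map_neg]
      exact hw2.le
  choose w hw1 hw2 using h1
  have h2 : ∑ i, L.comp (ContinuousLinearMap.single ℝ (fun _ : ι => Z) i) (w i) = L w := by
    have h3 : w = ∑ i, Pi.single i (w i) := (Finset.univ_sum_single w).symm
    conv_rhs => rw [h3]
    rw [map_sum]
    rfl
  have h4 : ∑ i, (‖L.comp (ContinuousLinearMap.single ℝ (fun _ : ι => Z) i)‖ - η') ≤ L w := by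
    rw [← h2]
    exact Finset.sum_le_sum fun i _ => hw2 i
  have h5 : L w ≤ ‖L‖ := by
    refine (le_abs_self _).trans ((L.le_opNorm w).trans ?_)
    have : ‖w‖ ≤ 1 := (pi_norm_le_iff_of_nonneg zero_le_one).2 hw1
    nlinarith [norm_nonneg L]
  rw [Finset.sum_sub_distrib] at h4
  simp only [Finset.sum_const, Finset.card_univ, nsmul_eq_mul] at h4
  have h6 : (Fintype.card ι : ℝ) * η' < η := by
    have : (Fintype.card ι : ℝ) * η' + η' = η := by
      have := mul_div_cancel₀ η hc.ne'
      simp only [η']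
      field_simp
    linarith
  linarith

/-- The approximation lemma (Helly, Dean). -/
theorem lemA (T : H →ₗ[ℝ] (Z →L[ℝ] ℝ)) {N : ℕ} (lam : Fin N → (Z →L[ℝ] ℝ) →ₗ[ℝ] ℝ) {C : ℝ}
    (hC : 0 < C) (hlam : ∀ x : Z →L[ℝ] ℝ, ∑ k, |lam k x| ≤ C * ‖x‖)
    (c : Fin N → H) (hc : ∀ k g, lam k (T g) = inner ℝ g (c k))
    (V : Z →ₗ[ℝ] H) (hV : ∀ z g, inner ℝ g (V z) = T g z)
    {δ : ℝ} (hδ : 0 < δ) :
    ∃ z : Fin N → Z, (∀ x : Z →L[ℝ] ℝ, ∑ k, |x (z k)| ≤ C * ‖x‖) ∧ ∀ k, ‖V (z k) - c k‖ ≤ δ := by
  let K : Set (Fin N → H) := (LinearMap.pi fun k => V.comp (LinearMap.proj k)) '' (BB Z N C)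
  have hKc : Convex ℝ K := (BB_convex N C).linear_image _
  have hmem : c ∈ closure K := by
    by_contra hcK
    obtain ⟨f, u, hfu, huc⟩ := geometric_hahn_banach_closed_point hKc.closure isClosed_closure hcK
    let g : Fin N → H := fun k => (InnerProductSpace.toDual ℝ H).symm
      (f.comp (ContinuousLinearMap.single ℝ (fun _ : Fin N => H) k))
    have hg : ∀ a : Fin N → H, f a = ∑ k, inner ℝ (g k) (a k) := by
      intro a
      have h3 : a = ∑ k, Pi.single k (a k) := (Finset.univ_sum_single a).symm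
      conv_lhs => rw [h3]
      rw [map_sum]
      refine Finset.sum_congr rfl fun k _ => ?_
      simp [g]
    let Lam : (Fin N → Z) →ₗ[ℝ] ℝ := ∑ k, (T (g k)).toLinearMap.comp (LinearMap.proj k)
    have hLam : ∀ z, Lam z = ∑ k, T (g k) (z k) := by
      intro z
      simp [Lam]
    have hLamB : ∀ z ∈ BB Z N C, Lam z < u := by
      intro z hz
      have h1 := hfu _ (subset_closure (Set.mem_image_of_mem _ hz))
      rw [hg] at h1
      rw [hLam]
      refine lt_of_eq_of_lt ?_ h1
      refine Finset.sum_congr rfl fun k _ => ?_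
      simp [hV]
    have hu : 0 < u := by
      have := hLamB 0 (by intro x; simp; positivity)
      simpa using this
    have hbd : ∀ z, Lam z ≤ u / C * ‖Phi Z N z‖ := by
      intro z
      refine le_of_forall_pos_le_add fun η hη => ?_
      let r := ‖Phi Z N z‖ + η * C / u
      have hr : 0 < r := by positivity
      have h1 : (C / r) • z ∈ BB Z N C := by
        intro x
        have h2 := sum_abs_le_Phi z x
        have h3 : ∑ k, |x (((C / r) • z) k)| = C / r * ∑ k, |x (z k)| := by
          rw [Finset.mul_sum]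
          refine Finset.sum_congr rfl fun k _ => ?_
          rw [Pi.smul_apply, map_smul, smul_eq_mul, abs_mul, abs_of_pos (div_pos hC hr)]
        rw [h3]
        have h4 : ∑ k, |x (z k)| ≤ ‖x‖ * r := by
          refine h2.trans (mul_le_mul_of_nonneg_left ?_ (norm_nonneg _))
          simp only [r]
          have : 0 < η * C / u := by positivity
          linarith
        have h5 : C / r * ∑ k, |x (z k)| ≤ C / r * (‖x‖ * r) :=
          mul_le_mul_of_nonneg_left h4 (div_pos hC hr).le
        refine h5.trans (le_of_eq ?_)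
        field_simp
      have h2 := hLamB _ h1
      rw [map_smul, smul_eq_mul, div_mul_eq_mul_div, div_lt_iff₀ hr] at h2
      have h3 : Lam z ≤ u * r / C := by
        rw [le_div_iff₀ hC]
        linarith
      refine h3.trans (le_of_eq ?_)
      simp only [r]
      field_simp
    -- extend
    let e := LinearEquiv.ofInjective (Phi Z N) (Phi_inj N)
    have he : ∀ y : LinearMap.range (Phi Z N), Phi Z N (e.symm y) = y := by
      intro y
      have := e.apply_symm_apply y
      rw [← LinearEquiv.ofInjective_apply (h := Phi_inj N) (Phi Z N) (e.symm y)]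
      exact congrArg Subtype.val this
    let f0 : LinearMap.range (Phi Z N) →L[ℝ] ℝ := LinearMap.mkContinuous
      (Lam.comp e.symm.toLinearMap) (u / C) (by
        intro y
        have h1 := hbd (e.symm y)
        have h2 := hbd (-(e.symm y))
        rw [map_neg, map_neg, norm_neg] at h2
        rw [he] at h1 h2
        rw [Real.norm_eq_abs]
        refine abs_le.2 ⟨?_, ?_⟩
        · change -(u / C * ‖(y : (Fin N → Bool) → Z)‖) ≤ Lam (e.symm y)
          linarith
        · exact h1)
    have hf0 : ‖f0‖ ≤ u / C := LinearMap.mkContinuous_norm_le _ (by positivity) _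
    obtain ⟨L, hL1, hL2⟩ := exists_extension_norm_eq (LinearMap.range (Phi Z N)) f0
    let y : (Fin N → Bool) → (Z →L[ℝ] ℝ) :=
      fun ε => L.comp (ContinuousLinearMap.single ℝ (fun _ : Fin N → Bool => Z) ε)
    have hy : ∑ ε, ‖y ε‖ ≤ u / C := (sum_norm_le L).trans (hL2.trans_le hf0)
    have hx : ∀ k, T (g k) = ∑ ε : Fin N → Bool, sg (ε k) • y ε := by
      intro k
      ext z
      have h1 : T (g k) z = Lam (Pi.single k z) := by
        rw [hLam, Finset.sum_eq_single k]
        · simp
        · intro j _ hj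
          simp [Pi.single_eq_of_ne hj]
        · simp
      have h2 : Lam (Pi.single k z) = L (Phi Z N (Pi.single k z)) := by
        have h3 := hL1 ⟨Phi Z N (Pi.single k z), LinearMap.mem_range_self _ _⟩
        rw [h3]
        change _ = Lam (e.symm ⟨Phi Z N (Pi.single k z), LinearMap.mem_range_self _ _⟩)
        congr 1
        rw [LinearEquiv.eq_symm_apply]
        rfl
      have h4 : Phi Z N (Pi.single k z) = ∑ ε : Fin N → Bool, Pi.single ε (sg (ε k) • z) := by
        rw [Finset.univ_sum_single (fun ε : Fin N → Bool => sg (ε k) • z)]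
        ext ε
        simp only [Phi, LinearMap.coe_mk, AddHom.coe_mk]
        rw [Finset.sum_eq_single k]
        · simp
        · intro j _ hj
          simp [Pi.single_eq_of_ne hj]
        · simp
      rw [h1, h2, h4, map_sum]
      simp only [ContinuousLinearMap.coe_sum', Finset.sum_apply, ContinuousLinearMap.coe_smul',
        Pi.smul_apply, smul_eq_mul]
      refine Finset.sum_congr rfl fun ε _ => ?_
      have : L (Pi.single ε (sg (ε k) • z)) = y ε (sg (ε k) • z) := rfl
      rw [this, map_smul, smul_eq_mul]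
    have hfc : f c ≤ u := by
      rw [hg]
      calc ∑ k, inner ℝ (g k) (c k) = ∑ k, lam k (T (g k)) :=
            Finset.sum_congr rfl fun k _ => (hc k (g k)).symm
        _ = ∑ k, ∑ ε : Fin N → Bool, sg (ε k) * lam k (y ε) := by
            refine Finset.sum_congr rfl fun k _ => ?_
            rw [hx k, map_sum]
            refine Finset.sum_congr rfl fun ε _ => ?_
            rw [map_smul, smul_eq_mul]
        _ = ∑ ε : Fin N → Bool, ∑ k, sg (ε k) * lam k (y ε) := Finset.sum_comm
        _ ≤ ∑ ε : Fin N → Bool, C * ‖y ε‖ := by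
            refine Finset.sum_le_sum fun ε _ => ?_
            refine le_trans ?_ (hlam (y ε))
            refine Finset.sum_le_sum fun k _ => ?_
            refine (le_abs_self _).trans ?_
            rw [abs_mul, abs_sg, one_mul]
        _ = C * ∑ ε : Fin N → Bool, ‖y ε‖ := by rw [Finset.mul_sum]
        _ ≤ C * (u / C) := mul_le_mul_of_nonneg_left hy hC.le
        _ = u := by field_simp
    linarith
  obtain ⟨w, ⟨z, hz, rfl⟩, hw⟩ := Metric.mem_closure_iff.1 hmem δ hδ
  refine ⟨z, hz, fun k => ?_⟩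
  have h1 := dist_le_pi_dist c ((LinearMap.pi fun k => V.comp (LinearMap.proj k)) z) k
  have h2 := h1.trans hw.le
  rw [dist_comm, dist_eq_norm] at h2
  simpa using h2

end Helly

end

end Pool.Agent.V1126.LL
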