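import Pool.Agent.V1126.LLDyad

set_option autoImplicit false

open MeasureTheory Set Filter Topology ENNReal

namespace Pool.Agent.V1126.LL

noncomputable section

/-- the Hilbert space used as a host -/
abbrev HH : Type := Lp ℝ 2 mu

/-- integration over a set of measure at most one -/
def JA (A : Set ℝ) (hA : MeasurableSet A) (hA1 : mu A ≤ 1) : SumSp →ₗ[ℝ] ℝ where
  toFun x := ∫ s in A, x.toFn s ∂mu
  map_add' x y := by
    rw [← integral_add (integral_le_norm x hA hA1).1 (integral_le_norm y hA hA1).1]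
    refine integral_congr_ae (ae_restrict_of_ae ?_)
    rw [toFn_add]
    exact AEEqFun.coeFn_add _ _
  map_smul' c x := by
    rw [RingHom.id_apply, smul_eq_mul, ← integral_const_mul]
    refine integral_congr_ae (ae_restrict_of_ae ?_)
    rw [toFn_smul]
    exact AEEqFun.coeFn_smul _ _

lemma sum_JA (n : ℕ) (x : SumSp) :
    ∑ k : Fin (2 ^ n), |JA (dy n k) (dy_meas n k) (mu_dy_le k.2) x| ≤ ‖x‖ := by
  have hI := integral_le_norm x measurableSet_Ioc mu_unit.le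
  have h1 : ∑ k : Fin (2 ^ n), |JA (dy n k) (dy_meas n k) (mu_dy_le k.2) x|
      ≤ ∑ k : Fin (2 ^ n), ∫ s in dy n k, |x.toFn s| ∂mu := by
    refine Finset.sum_le_sum fun k _ => ?_
    exact abs_integral_le_integral_abs
  refine h1.trans ?_
  rw [← integral_iUnion_fintype (fun k : Fin (2 ^ n) => dy_meas n k) ?_ ?_, ← dy_cover]
  · exact hI.2
  · intro k l hkl
    exact dy_disj fun h => hkl (Fin.ext h)
  · intro k
    exact (hI.1.mono_set (dy_subset k.2)).abs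

/-- the indicator of the unit interval -/
def chi : HH := indicatorConstLp 2 (measurableSet_Ioc (a := (0:ℝ)) (b := 1))
  (by rw [mu_unit]; simp) (1 : ℝ)

/-- restriction to the unit interval, from `L_2` to `L_1` -/
def T1 : HH →L[ℝ] L1 := (ContinuousLinearMap.mul ℝ ℝ).holderL mu 2 2 1 chi

lemma T1_coe (g : HH) : ∀ᵐ s ∂mu, T1 g s = (indicator (Ioc (0:ℝ) 1) (g : ℝ → ℝ)) s := by
  have h1 := ContinuousLinearMap.coeFn_holder (r := 1) (ContinuousLinearMap.mul ℝ ℝ) chi g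
  have h2 := indicatorConstLp_coeFn (p := 2) (hs := measurableSet_Ioc (a := (0:ℝ)) (b := 1))
    (hμs := (by rw [mu_unit]; simp : mu (Ioc (0:ℝ) 1) ≠ ∞)) (c := (1 : ℝ))
  filter_upwards [h1, h2] with s a1 a2
  have a3 : T1 g s = ((ContinuousLinearMap.mul ℝ ℝ) (chi s)) (g s) := a1
  rw [a3]
  have a4 : chi s = (Ioc (0:ℝ) 1).indicator (fun _ => (1:ℝ)) s := a2
  rw [a4]
  by_cases hs : s ∈ Ioc (0:ℝ) 1
  · simp [indicator_of_mem hs]
  · simp [indicator_of_notMem hs]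

/-- the continuous inclusion of `L_1` -/
def iOL : L1 →L[ℝ] SumSp := iO.mkContinuous 1 (fun u => by
  rw [one_mul]
  exact iO_norm u)

lemma iOL_apply (u : L1) : iOL u = iO u := rfl

lemma JA_T1 {A : Set ℝ} (hA : MeasurableSet A) (hA1 : mu A ≤ 1) (hsub : A ⊆ Ioc 0 1) (g : HH) :
    JA A hA hA1 (iOL (T1 g)) = ∫ s in A, g s ∂mu := by
  change ∫ s in A, (T1 g) s ∂mu = _
  refine integral_congr_ae ?_
  filter_upwards [ae_restrict_of_ae (T1_coe g), ae_restrict_mem hA] with s h1 h2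
  rw [h1, indicator_of_mem (hsub h2)]

/-- normalised indicator of a dyadic interval, in `L_2` -/
def gd (m k : ℕ) (hk : k < 2 ^ m) : HH :=
  indicatorConstLp 2 (dy_meas m k) (ne_top_of_le_ne_top one_ne_top (mu_dy_le hk)) (1 : ℝ)

lemma gd_coe (m k : ℕ) (hk : k < 2 ^ m) :
    ∀ᵐ s ∂mu, gd m k hk s = (dy m k).indicator (fun _ => (1:ℝ)) s :=
  indicatorConstLp_coeFn

lemma T1_gd_norm (m k : ℕ) (hk : k < 2 ^ m) : ‖T1 (gd m k hk)‖ ≤ 1 / 2 ^ m := by
  have h1 : ‖T1 (gd m k hk)‖ = ∫ s, ‖T1 (gd m k hk) s‖ ∂mu := L1.norm_eq_integral_norm _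
  rw [h1]
  have h2 : ∫ s, ‖T1 (gd m k hk) s‖ ∂mu = ∫ s, (dy m k).indicator (fun _ => (1:ℝ)) s ∂mu := by
    refine integral_congr_ae ?_
    filter_upwards [T1_coe (gd m k hk), gd_coe m k hk] with s a1 a2
    rw [a1]
    by_cases hs : s ∈ dy m k
    · rw [indicator_of_mem (dy_subset hk hs), a2, indicator_of_mem hs]
      simp
    · rw [indicator_of_notMem hs]
      by_cases hs' : s ∈ Ioc (0:ℝ) 1
      · rw [indicator_of_mem hs', a2, indicator_of_notMem hs]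
        simp
      · rw [indicator_of_notMem hs']
        simp
  rw [h2, integral_indicator (dy_meas m k), setIntegral_const, smul_eq_mul, mul_one,
    Measure.real, mu_dy hk, ENNReal.toReal_ofReal (by positivity)]

/-- Chebyshev bound -/
lemma cheb (f : HH) {δ : ℝ} (hδ : 0 ≤ δ) (hf : ‖f‖ ≤ δ) :
    mu {s | 1 / 2 ≤ |f s|} ≤ ENNReal.ofReal (4 * δ ^ 2) := by
  have h1 := meas_ge_le_mul_pow_eLpNorm_enorm (μ := mu) (p := 2) (f := (f : ℝ → ℝ)) (by norm_num)
    (by norm_num) (Lp.aestronglyMeasurable f) (ε := ENNReal.ofReal (1 / 2)) (by simp)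
    (fun h => absurd h ENNReal.ofReal_ne_top)
  have h2 : {s | 1 / 2 ≤ |f s|} = {s | ENNReal.ofReal (1 / 2) ≤ ‖f s‖ₑ} := by
    ext s
    simp only [mem_ofPred_eq]
    rw [← ofReal_norm_eq_enorm, ENNReal.ofReal_le_ofReal_iff (norm_nonneg _), Real.norm_eq_abs]
  rw [h2]
  refine h1.trans ?_
  have h3 : eLpNorm (f : ℝ → ℝ) 2 mu ≤ ENNReal.ofReal δ := by
    rw [Lp.norm_def] at hf
    rw [← ENNReal.ofReal_toReal (Lp.eLpNorm_lt_top f).ne]
    exact ENNReal.ofReal_le_ofReal hf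
  have h4 : (ENNReal.ofReal (1 / 2))⁻¹ ^ (2 : ℝ≥0∞).toReal * eLpNorm (f : ℝ → ℝ) 2 mu ^ (2 : ℝ≥0∞).toReal
      ≤ (ENNReal.ofReal (1 / 2))⁻¹ ^ (2 : ℝ≥0∞).toReal * (ENNReal.ofReal δ) ^ (2 : ℝ≥0∞).toReal := by
    gcongr
  refine h4.trans (le_of_eq ?_)
  rw [← ENNReal.ofReal_inv_of_pos (by norm_num), ENNReal.toReal_ofNat, ENNReal.rpow_ofNat,
    ENNReal.rpow_ofNat, ← ENNReal.ofReal_pow (by norm_num), ← ENNReal.ofReal_pow hδ,
    ← ENNReal.ofReal_mul (by positivity)]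
  norm_num

section Main

variable {Z : Type*} [NormedAddCommGroup Z] [NormedSpace ℝ Z] (e : SumSp ≃L[ℝ] (Z →L[ℝ] ℝ))

/-- the operator from the host into the dual space -/
def TT : HH →L[ℝ] (Z →L[ℝ] ℝ) := (e : SumSp →L[ℝ] (Z →L[ℝ] ℝ)).comp (iOL.comp T1)

lemma TT_apply (g : HH) : TT e g = e (iOL (T1 g)) := rfl

/-- the predual operator -/
def VV : Z →ₗ[ℝ] HH where
  toFun z := (InnerProductSpace.toDual ℝ HH).symm ((TT e).flip z)
  map_add' z w := by simp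
  map_smul' c z := by simp

lemma VV_inner (z : Z) (g : HH) : inner ℝ g (VV e z) = TT e g z := by
  rw [real_inner_comm]
  have := InnerProductSpace.toDual_symm_apply (𝕜 := ℝ) (x := g) (y := (TT e).flip z)
  simpa [VV] using this

lemma TT_gd (m k : ℕ) (hk : k < 2 ^ m) (z : Z) :
    TT e (gd m k hk) z = ∫ s in dy m k, VV e z s ∂mu := by
  rw [← VV_inner, gd]
  exact L2.inner_indicatorConstLp_one (𝕜 := ℝ) _ _ _

/-- existence of the approximating tuples at every level -/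
lemma exists_z {C : ℝ} (hC : 0 < C) (heC : ∀ x, ‖e.symm x‖ ≤ C * ‖x‖) (n : ℕ) :
    ∃ z : Fin (2 ^ n) → Z, (∀ x : Z →L[ℝ] ℝ, ∑ k, |x (z k)| ≤ C * ‖x‖) ∧
      ∀ k : Fin (2 ^ n), ‖VV e (z k) - gd n k k.2‖ ≤ (1 / 2) ^ n / 4 := by
  refine lemA (TT e).toLinearMap (fun k : Fin (2 ^ n) =>
    (JA (dy n k) (dy_meas n k) (mu_dy_le k.2)).comp e.symm.toLinearEquiv.toLinearMap) hC ?_
    (fun k : Fin (2 ^ n) => gd n k k.2) ?_ (VV e) (VV_inner e) (by positivity)
  · intro x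
    exact (sum_JA n (e.symm x)).trans (heC x)
  · intro k g
    have h1 : ((JA (dy n k) (dy_meas n k) (mu_dy_le k.2)).comp e.symm.toLinearEquiv.toLinearMap)
        ((TT e).toLinearMap g) = JA (dy n k) (dy_meas n k) (mu_dy_le k.2) (iOL (T1 g)) := by
      change JA (dy n k) (dy_meas n k) (mu_dy_le k.2) (e.symm (e (iOL (T1 g)))) = _
      rw [ContinuousLinearEquiv.symm_apply_apply]
    rw [h1, JA_T1 _ _ (dy_subset k.2), real_inner_comm, gd]
    exact (L2.inner_indicatorConstLp_one (𝕜 := ℝ) _ _ _).symm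

end Main

end

end Pool.Agent.V1126.LL
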