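import Pool.Agent.V1126.LLDef

set_option autoImplicit false

open MeasureTheory Set Filter Topology ENNReal

namespace Pool.Agent.V1126.LL

noncomputable section

/-- the sign of a Boolean -/
def sg (b : Bool) : ℝ := if b then 1 else -1

lemma sg_sq (b : Bool) : sg b * sg b = 1 := by cases b <;> simp [sg]
lemma abs_sg (b : Bool) : |sg b| = 1 := by cases b <;> simp [sg]

/-- the Riesz product -/
def RP {N : ℕ} (ε : Fin N → Bool) (x : Fin N → ℝ) : ℂ :=
  ∏ j, (1 + ((sg (ε j) * x j : ℝ) : ℂ) * Complex.I)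

lemma RP_norm {N : ℕ} (ε : Fin N → Bool) (x : Fin N → ℝ) (hx : ∑ j, x j ^ 2 ≤ 1) :
    |(RP ε x).im| ≤ 2 := by
  have h1 : ‖RP ε x‖ ^ 2 ≤ 4 := by
    rw [RP, norm_prod, ← Finset.prod_pow]
    have h2 : ∀ j ∈ Finset.univ, ‖(1 + ((sg (ε j) * x j : ℝ) : ℂ) * Complex.I)‖ ^ 2
        ≤ Real.exp (x j ^ 2) := by
      intro j _
      rw [← Complex.normSq_eq_norm_sq, Complex.normSq_apply]
      have : (1 + ((sg (ε j) * x j : ℝ) : ℂ) * Complex.I).re = 1 := by simp
      rw [this]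
      have : (1 + ((sg (ε j) * x j : ℝ) : ℂ) * Complex.I).im = sg (ε j) * x j := by simp
      rw [this]
      have h3 := Real.add_one_le_exp (x j ^ 2)
      have h4 := sg_sq (ε j)
      have h5 : sg (ε j) * x j * (sg (ε j) * x j) = x j ^ 2 := by
        calc sg (ε j) * x j * (sg (ε j) * x j) = (sg (ε j) * sg (ε j)) * x j ^ 2 := by ring
          _ = x j ^ 2 := by rw [h4, one_mul]
      linarith
    refine (Finset.prod_le_prod (fun j _ => by positivity) h2).trans ?_
    rw [← Real.exp_sum]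
    have h6 : Real.exp (∑ j, x j ^ 2) ≤ Real.exp 1 := Real.exp_le_exp.2 hx
    have h7 := Real.exp_one_lt_d9
    linarith
  have h8 := Complex.abs_im_le_norm (RP ε x)
  have h9 : ‖RP ε x‖ ≤ 2 := by
    nlinarith [norm_nonneg (RP ε x)]
  exact h8.trans h9

lemma RP_sum {N : ℕ} (x : Fin N → ℝ) (i : Fin N) :
    ∑ ε : Fin N → Bool, sg (ε i) * (RP ε x).im = 2 ^ N * x i := by
  have h1 : ∑ ε : Fin N → Bool, ((sg (ε i) : ℝ) : ℂ) * RP ε x
      = (((2 ^ N * x i : ℝ)) : ℂ) * Complex.I := by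
    have h2 : ∀ ε : Fin N → Bool, ((sg (ε i) : ℝ) : ℂ) * RP ε x
        = ∏ j, (fun (j : Fin N) (b : Bool) => (if j = i then ((sg b : ℝ) : ℂ) else 1) *
          (1 + ((sg b * x j : ℝ) : ℂ) * Complex.I)) j (ε j) := by
      intro ε
      simp only
      rw [Finset.prod_mul_distrib]
      congr 1
      rw [Finset.prod_ite_eq' Finset.univ i]
      simp
    rw [Finset.sum_congr rfl fun ε _ => h2 ε]
    have h3 := Finset.prod_univ_sum (fun _ : Fin N => (Finset.univ : Finset Bool))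
      (fun (j : Fin N) (b : Bool) => (if j = i then ((sg b : ℝ) : ℂ) else 1) *
          (1 + ((sg b * x j : ℝ) : ℂ) * Complex.I))
    rw [Fintype.piFinset_univ] at h3
    rw [← h3]
    have h4 : ∀ j : Fin N, ∑ b : Bool, (if j = i then ((sg b : ℝ) : ℂ) else 1) *
          (1 + ((sg b * x j : ℝ) : ℂ) * Complex.I)
        = 2 * (if j = i then ((x i : ℝ) : ℂ) * Complex.I else 1) := by
      intro j
      by_cases hj : j = i
      · subst hj
        simp [sg]
        ring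
      · simp [sg, hj]
        ring
    rw [Finset.prod_congr rfl fun j _ => h4 j, Finset.prod_mul_distrib,
      Finset.prod_ite_eq' Finset.univ i]
    simp
    ring
  have h5 := congrArg Complex.im h1
  rw [Complex.im_sum] at h5
  have h6 : ∀ r : ℝ, (((r : ℝ) : ℂ) * Complex.I).im = r := by intro r; simp
  rw [h6] at h5
  rw [← h5]
  refine Finset.sum_congr rfl fun ε _ => ?_
  rw [Complex.im_ofReal_mul]

/-- the inclusion of `L_∞` -/
def iI : Li →ₗ[ℝ] SumSp where
  toFun v := ⟨(v : ℝ →ₘ[mu] ℝ), 0, v, by simp⟩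
  map_add' v w := toFn_inj (by rfl)
  map_smul' c v := toFn_inj (by rfl)

/-- the inclusion of `L_1` -/
def iO : L1 →ₗ[ℝ] SumSp where
  toFun v := ⟨(v : ℝ →ₘ[mu] ℝ), v, 0, by simp⟩
  map_add' v w := toFn_inj (by rfl)
  map_smul' c v := toFn_inj (by rfl)

lemma iI_norm (v : Li) : ‖iI v‖ ≤ ‖v‖ := by
  have := norm_le_of (x := iI v) 0 v (by
    rw [AddSubgroup.coe_zero, zero_add]
    rfl)
  simpa using this

lemma iO_norm (v : L1) : ‖iO v‖ ≤ ‖v‖ := by
  have := norm_le_of (x := iO v) v 0 (by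
    rw [AddSubgroup.coe_zero, add_zero]
    rfl)
  simpa using this

lemma exists_decomp (x : SumSp) : ∃ u v, x = iO u + iI v := by
  obtain ⟨u, v, h⟩ := x.2
  exact ⟨u, v, toFn_inj h⟩

/-- the `L_∞` part: a bounded map from `L_∞` to `ℓ_1^N` has only few large coordinates -/
lemma count_bound {N : ℕ} (ψ : Fin N → Li →ₗ[ℝ] ℝ) {C δ : ℝ} (hC0 : 0 ≤ C)
    (hC : ∀ g : Li, ∑ i, |ψ i g| ≤ C * ‖g‖)
    (v : Fin N → Li) (hv : ∀ i, ‖v i‖ ≤ 1) (hδ : ∀ i, δ ≤ ψ i (v i)) :
    Real.sqrt N * δ ≤ 2 * C := by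
  rcases Nat.eq_zero_or_pos N with hN | hN
  · subst hN
    simpa using hC0
  have hN' : (0 : ℝ) < N := by exact_mod_cast hN
  have hs : 0 < Real.sqrt N := Real.sqrt_pos.2 hN'
  -- pointwise functions
  let G : (Fin N → Bool) → ℝ → ℝ := fun ε s => (RP ε (fun j => v j s / Real.sqrt N)).im
  have hvae : ∀ᵐ s ∂mu, ∀ i, |v i s| ≤ 1 := by
    rw [ae_all_iff]
    intro i
    have := ae_le_eLpNormEssSup (f := v i) (μ := mu)
    filter_upwards [this] with s hs
    have h3 : eLpNorm (v i : ℝ → ℝ) ∞ mu = eLpNormEssSup (v i) mu := by simp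
    have h4 : eLpNormEssSup (v i : ℝ → ℝ) mu ≠ ∞ := by
      rw [← h3]
      exact (Lp.eLpNorm_lt_top (v i)).ne
    have h5 := ENNReal.toReal_mono h4 hs
    have h6 := hv i
    rw [Lp.norm_def, h3] at h6
    have h7 : |v i s| = (‖v i s‖ₑ).toReal := by simp
    rw [h7]
    exact h5.trans h6
  have hGb : ∀ ε, ∀ᵐ s ∂mu, ‖G ε s‖ ≤ 2 := by
    intro ε
    filter_upwards [hvae] with s hs'
    refine RP_norm ε _ ?_
    have : ∀ j ∈ Finset.univ, (v j s / Real.sqrt N) ^ 2 ≤ 1 / N := by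
      intro j _
      rw [div_pow, Real.sq_sqrt hN'.le]
      have := hs' j
      gcongr
      rw [← sq_abs]
      nlinarith [abs_nonneg (v j s)]
    refine (Finset.sum_le_sum this).trans ?_
    simp
    rw [mul_inv_cancel₀ hN'.ne']
  have hGm : ∀ ε, AEStronglyMeasurable (G ε) mu := by
    intro ε
    have hm : ∀ j, Measurable (v j : ℝ → ℝ) := fun j => (Lp.stronglyMeasurable (v j)).measurable
    have : Measurable (G ε) := by
      refine Complex.measurable_im.comp ?_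
      unfold RP
      refine Finset.measurable_prod _ fun j _ => ?_
      have := hm j
      fun_prop
    exact this.aestronglyMeasurable
  have hGL : ∀ ε, MemLp (G ε) ∞ mu := fun ε => memLp_top_of_bound (hGm ε) 2 (hGb ε)
  let g : (Fin N → Bool) → Li := fun ε => (hGL ε).toLp
  have hgn : ∀ ε, ‖g ε‖ ≤ 2 := by
    intro ε
    rw [Lp.norm_toLp]
    have h1 : eLpNorm (G ε) ∞ mu ≤ ENNReal.ofReal 2 := by
      rw [eLpNorm_exponent_top]
      exact eLpNormEssSup_le_of_ae_bound (hGb ε)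
    have h2 := ENNReal.toReal_mono (by simp) h1
    simpa using h2
  have key : ∀ i, ∑ ε, sg (ε i) • g ε = (2 ^ N / Real.sqrt N) • v i := by
    intro i
    apply Lp.ext
    have h1 : ∀ᵐ s ∂mu, ∀ ε, g ε s = G ε s := by
      rw [ae_all_iff]
      exact fun ε => (hGL ε).coeFn_toLp
    have h2 : ∀ᵐ s ∂mu, ∀ ε : Fin N → Bool, (sg (ε i) • g ε : Li) s = sg (ε i) * g ε s := by
      rw [ae_all_iff]
      intro ε
      filter_upwards [Lp.coeFn_smul (sg (ε i)) (g ε)] with s hs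
      simpa using hs
    filter_upwards [h1, h2, Lp.coeFn_finsetSum Finset.univ (fun ε => sg (ε i) • g ε),
      Lp.coeFn_smul (2 ^ N / Real.sqrt N) (v i)] with s a1 a2 a3 a4
    rw [a3, a4, Finset.sum_apply]
    simp only [Pi.smul_apply, smul_eq_mul]
    rw [Finset.sum_congr rfl fun ε _ => (a2 ε).trans (by rw [a1 ε])]
    have := RP_sum (fun j => v j s / Real.sqrt N) i
    rw [this]
    ring
  -- sum everything
  have h1 : ∑ i, ψ i ((2 ^ N / Real.sqrt N) • v i) ≤ 2 ^ N * (2 * C) := by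
    calc ∑ i, ψ i ((2 ^ N / Real.sqrt N) • v i) = ∑ i, ∑ ε : Fin N → Bool, sg (ε i) * ψ i (g ε) := by
          refine Finset.sum_congr rfl fun i _ => ?_
          rw [← key i, map_sum]
          simp
      _ = ∑ ε : Fin N → Bool, ∑ i, sg (ε i) * ψ i (g ε) := Finset.sum_comm
      _ ≤ ∑ ε : Fin N → Bool, 2 * C := by
          refine Finset.sum_le_sum fun ε _ => ?_
          have h3 : ∑ i, sg (ε i) * ψ i (g ε) ≤ ∑ i, |ψ i (g ε)| := by
            refine Finset.sum_le_sum fun i _ => ?_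
            refine (le_abs_self _).trans ?_
            rw [abs_mul, abs_sg, one_mul]
          refine h3.trans ((hC (g ε)).trans ?_)
          nlinarith [hgn ε]
      _ = 2 ^ N * (2 * C) := by simp
  have h2 : ∑ i, ψ i ((2 ^ N / Real.sqrt N) • v i) ≥ N * (2 ^ N / Real.sqrt N * δ) := by
    have : ∀ i ∈ Finset.univ, 2 ^ N / Real.sqrt N * δ ≤ ψ i ((2 ^ N / Real.sqrt N) • v i) := by
      intro i _
      rw [map_smul, smul_eq_mul]
      exact mul_le_mul_of_nonneg_left (hδ i) (by positivity)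
    have := Finset.sum_le_sum this
    simpa using this
  have h3 : (N : ℝ) * (2 ^ N / Real.sqrt N * δ) = 2 ^ N * (Real.sqrt N * δ) := by
    have h5 : Real.sqrt N * Real.sqrt N = N := Real.mul_self_sqrt hN'.le
    field_simp
    rw [sq, h5]
  have h4 : (2 : ℝ) ^ N * (Real.sqrt N * δ) ≤ 2 ^ N * (2 * C) := by linarith
  exact le_of_mul_le_mul_left h4 (by positivity)

/-- on `L_1 + L_∞` a family of functionals which is bounded in the `ℓ_1` sense is countably
supported -/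
theorem countable_support {ι : Type*} (φ : ι → SumSp →ₗ[ℝ] ℝ) {C : ℝ} (hC0 : 0 ≤ C)
    (hC : ∀ (F : Finset ι) (x : SumSp), ∑ i ∈ F, |φ i x| ≤ C * ‖x‖) :
    {i | φ i ≠ 0}.Countable := by
  have hone : ∀ i x, |φ i x| ≤ C * ‖x‖ := by
    intro i x
    have := hC {i} x
    simpa using this
  have hA : ∀ x, {i | φ i x ≠ 0}.Countable := by
    intro x
    have hs : Summable fun i => |φ i x| :=
      summable_of_sum_le (fun i => abs_nonneg _) (fun F => hC F x)
    have h1 := hs.countable_support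
    refine h1.mono ?_
    intro i hi
    have hi' : φ i x ≠ 0 := hi
    simpa [Function.mem_support] using hi'
  -- the `L_1` part
  have : Fact ((1 : ℝ≥0∞) ≠ ∞) := ⟨by simp⟩
  obtain ⟨D, hDc, hDd⟩ := TopologicalSpace.exists_countable_dense L1
  have hS1 : (⋃ u ∈ D, {i | φ i (iO u) ≠ 0}).Countable :=
    hDc.biUnion fun u _ => hA (iO u)
  have hB : ∀ i, i ∉ (⋃ u ∈ D, {i | φ i (iO u) ≠ 0}) → ∀ u, φ i (iO u) = 0 := by
    intro i hi
    let ψ : L1 →L[ℝ] ℝ := LinearMap.mkContinuous ((φ i).comp iO) C (by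
      intro u
      have h1 := hone i (iO u)
      have h2 := iO_norm u
      have h3 : C * ‖iO u‖ ≤ C * ‖u‖ := mul_le_mul_of_nonneg_left h2 hC0
      exact h1.trans h3)
    have hz : ∀ u ∈ D, ψ u = (0 : L1 →L[ℝ] ℝ) u := by
      intro u hu
      by_contra hne
      exact hi (Set.mem_biUnion hu hne)
    have := Continuous.ext_on hDd ψ.continuous (0 : L1 →L[ℝ] ℝ).continuous hz
    intro u
    exact congrFun this u
  -- the `L_∞` part
  have hF : ∀ n : ℕ, {i | ∃ v : Li, ‖v‖ ≤ 1 ∧ 1 / ((n : ℝ) + 1) ≤ φ i (iI v)}.Finite := by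
    intro n
    by_contra hinf
    obtain ⟨N, hN⟩ := exists_nat_gt ((2 * C * ((n : ℝ) + 1)) ^ 2)
    obtain ⟨t, hts, htc⟩ := Set.Infinite.exists_subset_card_eq hinf N
    have e : Fin N ≃ t := (Finset.equivFinOfCardEq htc).symm
    have hts' : ∀ i : t, ∃ v : Li, ‖v‖ ≤ 1 ∧ 1 / ((n : ℝ) + 1) ≤ φ i (iI v) := fun i => hts i.2
    choose v hv1 hv2 using hts'
    have h1 := count_bound (fun j => (φ (e j)).comp iI) (C := C) (δ := 1 / ((n : ℝ) + 1)) hC0 ?_
      (fun j => v (e j)) (fun j => hv1 (e j)) (fun j => hv2 (e j))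
    · have hn : (0 : ℝ) < (n : ℝ) + 1 := by positivity
      rw [mul_one_div, div_le_iff₀ hn] at h1
      have h2 : (N : ℝ) ≤ (2 * C * ((n : ℝ) + 1)) ^ 2 := by
        have h3 : Real.sqrt N ^ 2 = N := Real.sq_sqrt (Nat.cast_nonneg N)
        rw [← h3]
        exact pow_le_pow_left₀ (Real.sqrt_nonneg _) h1 2
      linarith
    · intro g
      have h2 : ∑ j : Fin N, |φ (e j) (iI g)| = ∑ i ∈ t, |φ i (iI g)| := by
        rw [← Finset.sum_coe_sort t, ← e.sum_comp]
      have h3 := hC t (iI g)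
      have h4 : C * ‖iI g‖ ≤ C * ‖g‖ := mul_le_mul_of_nonneg_left (iI_norm g) hC0
      simp only [LinearMap.comp_apply]
      rw [h2]
      exact h3.trans h4
  have hS2 : (⋃ n : ℕ, {i | ∃ v : Li, ‖v‖ ≤ 1 ∧ 1 / ((n : ℝ) + 1) ≤ φ i (iI v)}).Countable :=
    Set.countable_iUnion fun n => (hF n).countable
  have hD2 : ∀ i, i ∉ (⋃ n : ℕ, {i | ∃ v : Li, ‖v‖ ≤ 1 ∧ 1 / ((n : ℝ) + 1) ≤ φ i (iI v)}) →
      ∀ v, φ i (iI v) = 0 := by
    intro i hi v
    by_contra hne
    -- normalise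
    have key : ∃ w : Li, ‖w‖ ≤ 1 ∧ 0 < φ i (iI w) := by
      have hv0 : 0 < ‖v‖ := by
        rw [norm_pos_iff]
        rintro rfl
        exact hne (by simp)
      refine ⟨(SignType.sign (φ i (iI v)) : ℝ) • (‖v‖⁻¹ • v), ?_, ?_⟩
      · rw [norm_smul, norm_smul, norm_inv, norm_norm, inv_mul_cancel₀ hv0.ne', mul_one]
        rcases lt_trichotomy (φ i (iI v)) 0 with h | h | h
        · simp [sign_neg h]
        · exact absurd h hne
        · simp [sign_pos h]
      · rw [map_smul, map_smul, map_smul, map_smul, smul_eq_mul, smul_eq_mul]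
        have h1 : (SignType.sign (φ i (iI v)) : ℝ) * φ i (iI v) = |φ i (iI v)| :=
          sign_mul_self _
        have h2 : 0 < |φ i (iI v)| := abs_pos.2 hne
        have h3 : (SignType.sign (φ i (iI v)) : ℝ) * (‖v‖⁻¹ * φ i (iI v))
          = ‖v‖⁻¹ * |φ i (iI v)| := by rw [← h1]; ring
        rw [h3]
        positivity
    obtain ⟨w, hw1, hw2⟩ := key
    obtain ⟨n, hn⟩ := exists_nat_one_div_lt hw2
    exact hi (Set.mem_iUnion.2 ⟨n, w, hw1, hn.le⟩)
  refine (hS1.union hS2).mono ?_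
  intro i hi
  by_contra hni
  rw [Set.mem_union, not_or] at hni
  apply hi
  ext x
  obtain ⟨u, v, rfl⟩ := exists_decomp x
  rw [map_add, hB i hni.1 u, hD2 i hni.2 v]
  simp

end

end Pool.Agent.V1126.LL
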