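import Mathlib

/-!
# Quasi-parabolic hyperbolic structures on a group

Definitions only. For a generating set `X` of `G` we work with the vertex set `G` of the Cayley graph
`Γ(G, X)` with its word metric `d(a, b) = |a⁻¹ b|_X`; hyperbolicity of the Cayley graph and its
Gromov boundary can be read off from the vertices.
-/

set_option autoImplicit false

namespace Pool.Agent.V1126.QP

open Filter
open scoped Pointwise

variable {G : Type} [Group G]

/-- The word length `|g|_X`. -/
noncomputable def wlen (X : Set G) (g : G) : ℕ := sInf {n : ℕ | g ∈ (X ∪ X⁻¹) ^ n}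

/-- The Gromov product `(a | b)` at the vertex `1` of the Cayley graph `Γ(G, X)`. -/
noncomputable def gprod (X : Set G) (a b : G) : ℝ :=
  ((wlen X a : ℝ) + (wlen X b : ℝ) - (wlen X (a⁻¹ * b) : ℝ)) / 2

/-- The Cayley graph `Γ(G, X)` is Gromov hyperbolic (inequality for Gromov products; since the word
metric is left invariant the base point `1` is enough). -/
def Hyperbolic (X : Set G) : Prop :=
  ∃ δ : ℝ, ∀ a b c : G, min (gprod X a b) (gprod X b c) - δ ≤ gprod X a c

/-- `g` acts on `Γ(G, X)` as a loxodromic isometry. -/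
def Loxodromic (X : Set G) (g : G) : Prop :=
  ∃ c : ℝ, 0 < c ∧ ∀ n : ℕ, c * (n : ℝ) ≤ (wlen X (g ^ n) : ℝ)

/-- The sequence of vertices `x` converges to infinity, i.e. defines a point of the Gromov boundary. -/
def ToInfinity (X : Set G) (x : ℕ → G) : Prop :=
  Tendsto (fun p : ℕ × ℕ => gprod X (x p.1) (x p.2)) atTop atTop

/-- Two sequences converging to infinity define the same point of the Gromov boundary. -/
def SamePoint (X : Set G) (x y : ℕ → G) : Prop :=
  Tendsto (fun n : ℕ => gprod X (x n) (y n)) atTop atTop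

/-- The action of `G` on `Γ(G, X)` is quasi-parabolic: there is a loxodromic element, some point of the
Gromov boundary is fixed by `G`, and the limit set (which is the whole boundary, the orbit of `1` being
the vertex set) is infinite. -/
def QuasiParabolic (X : Set G) : Prop :=
  (∃ g : G, Loxodromic X g) ∧
  (∃ x : ℕ → G, ToInfinity X x ∧ ∀ g : G, SamePoint X (fun n => g * x n) x) ∧
  (∃ f : ℕ → ℕ → G, (∀ i, ToInfinity X (f i)) ∧ ∀ i j, i ≠ j → ¬ SamePoint X (f i) (f j))

/-- Generating sets of `G` with hyperbolic Cayley graph on which `G` acts quasi-parabolically. -/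
def QPGen (G : Type) [Group G] : Type :=
  {X : Set G // Subgroup.closure X = ⊤ ∧ Hyperbolic X ∧ QuasiParabolic X}

/-- `X ≼ Y` if `sup_{y ∈ Y} |y|_X < ∞`. -/
def Dominated (X Y : Set G) : Prop := ∃ C : ℕ, ∀ y ∈ Y, wlen X y ≤ C

theorem one_mem_pow_zero (S : Set G) : (1 : G) ∈ S ^ 0 := by simp

theorem exists_mem_pow {X : Set G} (hX : Subgroup.closure X = ⊤) (g : G) :
    ∃ n : ℕ, g ∈ (X ∪ X⁻¹) ^ n := by
  have hg : g ∈ Subgroup.closure X := by rw [hX]; trivial
  induction hg using Subgroup.closure_induction with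
  | mem x hx => exact ⟨1, by rw [pow_one]; exact Or.inl hx⟩
  | one => exact ⟨0, one_mem_pow_zero _⟩
  | mul x y _ _ hx hy =>
    obtain ⟨m, hm⟩ := hx
    obtain ⟨n, hn⟩ := hy
    exact ⟨m + n, by rw [pow_add]; exact Set.mul_mem_mul hm hn⟩
  | inv x _ hx =>
    obtain ⟨n, hn⟩ := hx
    refine ⟨n, ?_⟩
    have h : ((X ∪ X⁻¹) ^ n)⁻¹ = (X ∪ X⁻¹) ^ n := by
      rw [← inv_pow, Set.union_inv, inv_inv, Set.union_comm]
    rw [← h]
    simpa using hn

theorem wlen_mem {X : Set G} (hX : Subgroup.closure X = ⊤) (g : G) :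
    g ∈ (X ∪ X⁻¹) ^ (wlen X g) := Nat.sInf_mem (exists_mem_pow hX g)

theorem wlen_le {X : Set G} {g : G} {n : ℕ} (h : g ∈ (X ∪ X⁻¹) ^ n) : wlen X g ≤ n := Nat.sInf_le h

theorem wlen_mul_le {X : Set G} (hX : Subgroup.closure X = ⊤) (g h : G) :
    wlen X (g * h) ≤ wlen X g + wlen X h := by
  apply wlen_le
  rw [pow_add]
  exact Set.mul_mem_mul (wlen_mem hX g) (wlen_mem hX h)

theorem wlen_inv {X : Set G} (hX : Subgroup.closure X = ⊤) (g : G) : wlen X g⁻¹ = wlen X g := by
  have h : ∀ n, ((X ∪ X⁻¹) ^ n)⁻¹ = (X ∪ X⁻¹) ^ n := by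
    intro n
    rw [← inv_pow, Set.union_inv, inv_inv, Set.union_comm]
  have key : ∀ g : G, wlen X g⁻¹ ≤ wlen X g := by
    intro g
    apply wlen_le
    rw [← h]
    simpa using wlen_mem hX g
  apply le_antisymm (key g)
  simpa using key g⁻¹

theorem wlen_pow_le {X Y : Set G} (hX : Subgroup.closure X = ⊤) {C : ℕ}
    (hC : ∀ y ∈ Y, wlen X y ≤ C) (n : ℕ) (g : G) (hg : g ∈ (Y ∪ Y⁻¹) ^ n) : wlen X g ≤ n * C := by
  induction n generalizing g with
  | zero =>
    rw [pow_zero, Set.mem_one] at hg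
    rw [hg]
    have : wlen X (1 : G) ≤ 0 := wlen_le (one_mem_pow_zero _)
    omega
  | succ n ih =>
    rw [pow_succ, Set.mem_mul] at hg
    obtain ⟨a, ha, b, hb, rfl⟩ := hg
    have h1 := ih a ha
    have h2 : wlen X b ≤ C := by
      rcases hb with hb | hb
      · exact hC b hb
      · rw [← wlen_inv hX]; exact hC _ hb
    have h3 := wlen_mul_le hX a b
    calc wlen X (a * b) ≤ n * C + C := by omega
      _ = (n + 1) * C := by ring

theorem Dominated.trans {X Y Z : Set G} (hX : Subgroup.closure X = ⊤) (hY : Subgroup.closure Y = ⊤)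
    (h1 : Dominated X Y) (h2 : Dominated Y Z) : Dominated X Z := by
  obtain ⟨C, hC⟩ := h1
  obtain ⟨C', hC'⟩ := h2
  refine ⟨C' * C, fun z hz => ?_⟩
  refine (wlen_pow_le hX hC (wlen Y z) z (wlen_mem hY z)).trans ?_
  exact Nat.mul_le_mul_right _ (hC' z hz)

/-- The preorder `≼` on generating sets. -/
instance : Preorder (QPGen G) where
  le X Y := Dominated X.1 Y.1
  le_refl X := ⟨1, fun y hy => wlen_le (by rw [pow_one]; exact Or.inl hy)⟩
  le_trans X Y _ h1 h2 := h1.trans X.2.1 Y.2.1 h2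

/-- The poset `H_qp(G)` of quasi-parabolic hyperbolic structures: generating sets up to
`X ∼ Y ↔ X ≼ Y ∧ Y ≼ X`, with the order induced by `≼`. -/
abbrev Hqp (G : Type) [Group G] : Type := Antisymmetrization (QPGen G) (· ≤ ·)

end Pool.Agent.V1126.QP
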