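import Pool.Agent.V1126.QPDefs

/-!
# Tree-like hyperbolic structures from height functions
-/

set_option autoImplicit false

namespace Pool.Agent.V1126.QP

open Filter
open scoped Pointwise

/-- Data of a focal action on a tree: `k` is the Busemann character and `H g` is the height of the
lowest common ancestor of the base vertex and its image under `g`. -/
structure HeightData (G : Type) [Group G] where
  k : G → ℤ
  H : G → ℤ
  t : G
  k_mul : ∀ g h, k (g * h) = k g + k h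
  H_nonneg : ∀ g, 0 ≤ H g
  k_le : ∀ g, k g ≤ H g
  H_one : H 1 ≤ 0
  H_inv : ∀ g, H g⁻¹ ≤ H g - k g
  H_mul : ∀ g h, H (g * h) ≤ max (H g) (H h + k g)
  k_t : k t = 1
  H_t : H t ≤ 1

namespace HeightData

variable {G : Type} [Group G] (E : HeightData G)

theorem k_one : E.k 1 = 0 := by
  have := E.k_mul 1 1
  rw [mul_one] at this
  omega

theorem k_inv (g : G) : E.k g⁻¹ = - E.k g := by
  have := E.k_mul g⁻¹ g
  rw [inv_mul_cancel, E.k_one] at this
  omega

theorem H_inv' (g : G) : E.H g⁻¹ = E.H g - E.k g := by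
  apply le_antisymm (E.H_inv g)
  have := E.H_inv g⁻¹
  rw [inv_inv, E.k_inv] at this
  omega

theorem H_one' : E.H 1 = 0 := le_antisymm E.H_one (E.H_nonneg 1)

theorem k_pow (g : G) (n : ℕ) : E.k (g ^ n) = n * E.k g := by
  induction n with
  | zero => simp [E.k_one]
  | succ n ih => rw [pow_succ, E.k_mul, ih]; push_cast; ring

theorem k_t_pow (n : ℕ) : E.k (E.t ^ n) = n := by
  rw [E.k_pow, E.k_t, mul_one]

theorem H_t_pow (n : ℕ) : E.H (E.t ^ n) = n := by
  apply le_antisymm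
  · induction n with
    | zero => simpa using E.H_one
    | succ n ih =>
      rw [pow_succ]
      have := E.H_mul (E.t ^ n) E.t
      rw [E.k_t_pow] at this
      have := E.H_t
      push_cast
      omega
  · have := E.k_le (E.t ^ n)
    rwa [E.k_t_pow] at this

/-- The distance in the tree between the base vertex and its image. -/
def D (g : G) : ℤ := 2 * E.H g - E.k g

theorem D_nonneg (g : G) : 0 ≤ E.D g := by
  have := E.H_nonneg g
  have := E.k_le g
  unfold D; omega

theorem D_inv (g : G) : E.D g⁻¹ = E.D g := by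
  unfold D; rw [E.H_inv', E.k_inv]; ring

theorem D_one : E.D 1 = 0 := by
  unfold D; rw [E.H_one', E.k_one]; ring

theorem D_mul (g h : G) : E.D (g * h) ≤ E.D g + E.D h := by
  have := E.H_mul g h
  have := E.H_nonneg g
  have := E.H_nonneg h
  have := E.k_le g
  have := E.k_le h
  unfold D; rw [E.k_mul]; omega

theorem abs_k_le (g : G) : |E.k g| ≤ E.D g := by
  have := E.H_nonneg g
  have := E.k_le g
  unfold D
  rw [abs_le]; constructor <;> omega

/-- The generating set associated with height data. -/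
def gen : Set G := {g | E.D g ≤ 1}

theorem gen_inv {g : G} (h : g ∈ E.gen ∪ E.gen⁻¹) : E.D g ≤ 1 := by
  rcases h with h | h
  · exact h
  · have : E.D g⁻¹ ≤ 1 := h
    rwa [E.D_inv] at this

theorem D_le_of_mem_pow (n : ℕ) (g : G) (hg : g ∈ (E.gen ∪ E.gen⁻¹) ^ n) : E.D g ≤ n := by
  induction n generalizing g with
  | zero =>
    rw [pow_zero, Set.mem_one] at hg
    rw [hg, E.D_one]; simp
  | succ n ih =>
    rw [pow_succ, Set.mem_mul] at hg
    obtain ⟨a, ha, b, hb, rfl⟩ := hg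
    have h1 := ih a ha
    have h2 := E.gen_inv hb
    have h3 := E.D_mul a b
    push_cast; omega

theorem t_mem : E.t ∈ E.gen := by
  change E.D E.t ≤ 1
  have h1 := E.H_t
  have h2 := E.k_t
  unfold D; omega

theorem mem_pow (g : G) : g ∈ (E.gen ∪ E.gen⁻¹) ^ (E.D g + 1).toNat := by
  obtain ⟨a, ha⟩ : ∃ a : ℕ, E.H g = a := ⟨(E.H g).toNat, (Int.toNat_of_nonneg (E.H_nonneg g)).symm⟩
  obtain ⟨b, hb⟩ : ∃ b : ℕ, E.H g - E.k g = b :=
    ⟨(E.H g - E.k g).toNat, (Int.toNat_of_nonneg (by have := E.k_le g; omega)).symm⟩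
  have hD : (E.D g + 1).toNat = a + (1 + b) := by
    unfold D; omega
  set p : G := (E.t ^ a)⁻¹ * g * E.t ^ b with hp
  have hkp : E.k p = 0 := by
    rw [hp, E.k_mul, E.k_mul, E.k_inv, E.k_t_pow, E.k_t_pow]; omega
  have hHp : E.H p ≤ 0 := by
    rw [hp, mul_assoc]
    have h1 := E.H_mul (E.t ^ a)⁻¹ (g * E.t ^ b)
    have h2 := E.H_mul g (E.t ^ b)
    rw [E.H_inv', E.H_t_pow, E.k_inv, E.k_t_pow] at h1
    rw [E.H_t_pow] at h2
    omega
  have hpm : p ∈ E.gen := by
    change E.D p ≤ 1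
    unfold D; omega
  have hg : g = E.t ^ a * (p * (E.t⁻¹) ^ b) := by
    rw [hp, inv_pow]; group
  rw [hD, pow_add, pow_add]
  rw [hg] 
  refine Set.mul_mem_mul ?_ (Set.mul_mem_mul ?_ ?_)
  · exact Set.pow_mem_pow (Or.inl E.t_mem)
  · rw [pow_one]; exact Or.inl hpm
  · exact Set.pow_mem_pow (Or.inr (by simpa using E.t_mem))

theorem closure_gen : Subgroup.closure E.gen = ⊤ := by
  rw [eq_top_iff]
  intro g _
  have h : ∀ n : ℕ, ∀ g ∈ (E.gen ∪ E.gen⁻¹) ^ n, g ∈ Subgroup.closure E.gen := by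
    intro n
    induction n with
    | zero =>
      intro g hg
      rw [pow_zero, Set.mem_one] at hg
      rw [hg]; exact Subgroup.one_mem _
    | succ n ih =>
      intro g hg
      rw [pow_succ, Set.mem_mul] at hg
      obtain ⟨a, ha, b, hb, rfl⟩ := hg
      refine Subgroup.mul_mem _ (ih a ha) ?_
      rcases hb with hb | hb
      · exact Subgroup.subset_closure hb
      · exact (Subgroup.inv_mem_iff _).1 (Subgroup.subset_closure hb)
  exact h _ g (E.mem_pow g)

theorem D_le_wlen (g : G) : E.D g ≤ (wlen E.gen g : ℤ) :=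
  E.D_le_of_mem_pow _ g (wlen_mem E.closure_gen g)

theorem wlen_le_D (g : G) : (wlen E.gen g : ℤ) ≤ E.D g + 1 := by
  have h1 : wlen E.gen g ≤ (E.D g + 1).toNat := wlen_le (E.mem_pow g)
  have h2 := E.D_nonneg g
  omega

/-- The height of the lowest common ancestor of the images of the base vertex under `a`, `b`. -/
def HH (a b : G) : ℤ := E.H (a⁻¹ * b) + E.k a

theorem HH_comm (a b : G) : E.HH a b = E.HH b a := by
  unfold HH
  have h : b⁻¹ * a = (a⁻¹ * b)⁻¹ := by group
  rw [h, E.H_inv', E.k_mul, E.k_inv]; ring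

theorem HH_ultra (a b c : G) : E.HH a c ≤ max (E.HH a b) (E.HH b c) := by
  unfold HH
  have h : a⁻¹ * c = (a⁻¹ * b) * (b⁻¹ * c) := by group
  have h1 := E.H_mul (a⁻¹ * b) (b⁻¹ * c)
  rw [← h, E.k_mul, E.k_inv] at h1
  omega

theorem HH_one (a : G) : E.HH 1 a = E.H a := by
  unfold HH; rw [E.k_one]; simp

theorem HH_mul_left (g a b : G) : E.HH (g * a) (g * b) = E.HH a b + E.k g := by
  unfold HH
  have h : (g * a)⁻¹ * (g * b) = a⁻¹ * b := by group
  rw [h, E.k_mul]; ring

/-- The Gromov product in the tree. -/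
def gD (a b : G) : ℤ := E.H a + E.H b - E.HH a b

theorem gD_hyp (a b c : G) : min (E.gD a b) (E.gD b c) ≤ E.gD a c := by
  have h1 := E.HH_ultra a b c
  have h2 := E.HH_ultra a 1 b
  have h3 := E.HH_ultra 1 a b
  have h4 := E.HH_ultra 1 b a
  have h5 := E.HH_ultra b 1 c
  have h6 := E.HH_ultra 1 b c
  have h7 := E.HH_ultra 1 c b
  have h8 := E.HH_ultra a 1 c
  have h9 := E.HH_ultra 1 a c
  have h10 := E.HH_ultra 1 c a
  have h11 := E.HH_ultra b a c
  have h12 := E.HH_ultra a c b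
  have e1 := E.HH_comm b a
  have e2 := E.HH_comm c a
  have e3 := E.HH_comm c b
  have e4 := E.HH_comm a 1
  have e5 := E.HH_comm b 1
  have e6 := E.HH_comm c 1
  have f1 := E.HH_one a
  have f2 := E.HH_one b
  have f3 := E.HH_one c
  unfold gD
  omega

theorem gprod_near (a b : G) : |gprod E.gen a b - (E.gD a b : ℝ)| ≤ 3 / 2 := by
  have h1 : (2 * E.gD a b : ℤ) = E.D a + E.D b - E.D (a⁻¹ * b) := by
    unfold gD D HH
    rw [E.k_mul, E.k_inv]; ring
  have a1 := E.D_le_wlen a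
  have a2 := E.wlen_le_D a
  have b1 := E.D_le_wlen b
  have b2 := E.wlen_le_D b
  have c1 := E.D_le_wlen (a⁻¹ * b)
  have c2 := E.wlen_le_D (a⁻¹ * b)
  have h2 : (2 * (E.gD a b : ℝ)) = (E.D a : ℝ) + E.D b - E.D (a⁻¹ * b) := by exact_mod_cast h1
  have a1' : (E.D a : ℝ) ≤ (wlen E.gen a : ℝ) := by exact_mod_cast a1
  have a2' : (wlen E.gen a : ℝ) ≤ (E.D a : ℝ) + 1 := by exact_mod_cast a2
  have b1' : (E.D b : ℝ) ≤ (wlen E.gen b : ℝ) := by exact_mod_cast b1
  have b2' : (wlen E.gen b : ℝ) ≤ (E.D b : ℝ) + 1 := by exact_mod_cast b2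
  have c1' : (E.D (a⁻¹ * b) : ℝ) ≤ (wlen E.gen (a⁻¹ * b) : ℝ) := by exact_mod_cast c1
  have c2' : (wlen E.gen (a⁻¹ * b) : ℝ) ≤ (E.D (a⁻¹ * b) : ℝ) + 1 := by exact_mod_cast c2
  unfold gprod
  rw [abs_le]
  constructor <;> linarith

theorem hyperbolic : Hyperbolic E.gen := by
  refine ⟨3, fun a b c => ?_⟩
  have h := E.gD_hyp a b c
  have h' : min (E.gD a b : ℝ) (E.gD b c : ℝ) ≤ (E.gD a c : ℝ) := by exact_mod_cast h
  have h1 := abs_le.1 (E.gprod_near a b)
  have h2 := abs_le.1 (E.gprod_near b c)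
  have h3 := abs_le.1 (E.gprod_near a c)
  rcases min_le_iff.1 h' with h4 | h4
  · have := min_le_left (gprod E.gen a b) (gprod E.gen b c)
    linarith
  · have := min_le_right (gprod E.gen a b) (gprod E.gen b c)
    linarith

theorem loxodromic_of_k {g : G} (hg : E.k g ≠ 0) : Loxodromic E.gen g := by
  refine ⟨1, one_pos, fun n => ?_⟩
  have h1 := E.abs_k_le (g ^ n)
  have h2 := E.D_le_wlen (g ^ n)
  rw [E.k_pow, abs_mul] at h1
  have h3 : (1 : ℤ) ≤ |E.k g| := Int.one_le_abs hg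
  have h4 : (n : ℤ) ≤ |(n : ℤ)| * |E.k g| := by
    rw [Nat.abs_cast]; nlinarith [Int.natCast_nonneg n]
  have h5 : (n : ℤ) ≤ (wlen E.gen (g ^ n) : ℤ) := by omega
  rw [one_mul]
  exact_mod_cast h5

/-- Criterion for convergence of Gromov products. -/
theorem tendsto_gprod {ι : Type} {l : Filter ι} {a b : ι → G}
    (h : Tendsto (fun i => E.gD (a i) (b i)) l atTop) :
    Tendsto (fun i => gprod E.gen (a i) (b i)) l atTop := by
  have h1 : Tendsto (fun i => (E.gD (a i) (b i) : ℝ)) l atTop := tendsto_intCast_atTop_atTop.comp h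
  have h2 : Tendsto (fun i => (E.gD (a i) (b i) : ℝ) + (-(3 / 2 : ℝ))) l atTop :=
    tendsto_atTop_add_const_right l _ h1
  refine tendsto_atTop_mono (fun i => ?_) h2
  have := abs_le.1 (E.gprod_near (a i) (b i))
  linarith

theorem not_tendsto_gprod {a b : ℕ → G} (M : ℤ) (h : ∀ i, E.gD (a i) (b i) ≤ M) :
    ¬ Tendsto (fun i => gprod E.gen (a i) (b i)) atTop atTop := by
  intro hc
  obtain ⟨i, hi⟩ := (hc.eventually_gt_atTop ((M : ℝ) + 3 / 2)).exists
  have h1 := abs_le.1 (E.gprod_near (a i) (b i))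
  have h2 : (E.gD (a i) (b i) : ℝ) ≤ M := by exact_mod_cast h i
  linarith

/-- The action on the tree of height data is quasi-parabolic as soon as infinitely many elements `u i`
give pairwise distinct ends below the base vertex. -/
theorem quasiParabolic (u : ℕ → G) (hu : ∀ i, E.k (u i) = 0)
    (hsep : ∀ i j, i ≠ j → ∃ M : ℤ, ∀ n : ℕ, -M ≤ E.HH (u i * (E.t ^ n)⁻¹) (u j * (E.t ^ n)⁻¹)) :
    QuasiParabolic E.gen := by
  refine ⟨⟨E.t, E.loxodromic_of_k (by rw [E.k_t]; norm_num)⟩, ⟨fun n => E.t ^ n, ?_, ?_⟩,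
    ⟨fun i n => u i * (E.t ^ n)⁻¹, ?_, ?_⟩⟩
  · -- the fixed point
    refine E.tendsto_gprod ?_
    have key : ∀ p : ℕ × ℕ, ((min p.1 p.2 : ℕ) : ℤ) ≤ E.gD (E.t ^ p.1) (E.t ^ p.2) := by
      intro p
      unfold gD
      rw [E.H_t_pow, E.H_t_pow]
      have h1 := E.HH_ultra (E.t ^ p.1) 1 (E.t ^ p.2)
      have h2 : E.HH (E.t ^ p.1) 1 = p.1 := by rw [E.HH_comm, E.HH_one, E.H_t_pow]
      rw [h2, E.HH_one, E.H_t_pow] at h1
      omega
    refine tendsto_atTop_mono key ?_
    refine tendsto_natCast_atTop_atTop.comp ?_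
    rw [← Filter.prod_atTop_atTop_eq]
    refine Filter.tendsto_atTop.2 fun b => ?_
    rw [Filter.prod_atTop_atTop_eq]
    filter_upwards [Filter.eventually_ge_atTop ((b, b) : ℕ × ℕ)] with p hp
    exact le_min hp.1 hp.2
  · intro g
    refine E.tendsto_gprod ?_
    have key : ∀ n : ℕ, (n : ℤ) + (- |E.k g| - |E.H g|) ≤ E.gD (g * E.t ^ n) (E.t ^ n) := by
      intro n
      unfold gD
      rw [E.H_t_pow]
      have h1 := E.k_le (g * E.t ^ n)
      rw [E.k_mul, E.k_t_pow] at h1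
      have h2 := E.HH_ultra (g * E.t ^ n) g (E.t ^ n)
      have h3 := E.HH_ultra g 1 (E.t ^ n)
      have h4 : E.HH (g * E.t ^ n) g = n + E.k g := by
        have := E.HH_mul_left g (E.t ^ n) 1
        rw [mul_one] at this
        rw [this, E.HH_comm, E.HH_one, E.H_t_pow]
      have h5 : E.HH g 1 = E.H g := by rw [E.HH_comm, E.HH_one]
      rw [E.HH_one, E.H_t_pow, h5] at h3
      rw [h4] at h2
      have h6 := le_abs_self (E.k g)
      have h7 := neg_abs_le (E.k g)
      have h8 := le_abs_self (E.H g)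
      have h9 := abs_nonneg (E.k g)
      have h10 := abs_nonneg (E.H g)
      omega
    refine tendsto_atTop_mono key ?_
    exact tendsto_atTop_add_const_right atTop _ tendsto_natCast_atTop_atTop
  · intro i
    refine E.tendsto_gprod ?_
    have key : ∀ p : ℕ × ℕ,
        ((min p.1 p.2 : ℕ) : ℤ) ≤ E.gD (u i * (E.t ^ p.1)⁻¹) (u i * (E.t ^ p.2)⁻¹) := by
      intro p
      unfold gD
      rw [E.HH_mul_left, hu]
      have h1 := E.H_nonneg (u i * (E.t ^ p.1)⁻¹)
      have h2 := E.H_nonneg (u i * (E.t ^ p.2)⁻¹)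
      have h3 : E.HH (E.t ^ p.1)⁻¹ (E.t ^ p.2)⁻¹ ≤ - ((min p.1 p.2 : ℕ) : ℤ) := by
        unfold HH
        rw [inv_inv, E.k_inv, E.k_t_pow]
        rcases le_total p.1 p.2 with h | h
        · have e : E.t ^ p.1 * (E.t ^ p.2)⁻¹ = (E.t ^ (p.2 - p.1))⁻¹ := by
            obtain ⟨c, hc⟩ := Nat.exists_eq_add_of_le h
            rw [hc, Nat.add_sub_cancel_left, pow_add, mul_inv_rev]
            have : Commute (E.t ^ p.1) (E.t ^ c)⁻¹ :=
              ((Commute.refl E.t).pow_pow _ _).inv_right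
            rw [← mul_assoc, this.eq]; group
          rw [e, E.H_inv', E.H_t_pow, E.k_t_pow]
          omega
        · have e : E.t ^ p.1 * (E.t ^ p.2)⁻¹ = E.t ^ (p.1 - p.2) := by
            obtain ⟨c, hc⟩ := Nat.exists_eq_add_of_le h
            rw [hc, Nat.add_sub_cancel_left, Nat.add_comm, pow_add]; group
          rw [e, E.H_t_pow]
          omega
      omega
    refine tendsto_atTop_mono key ?_
    refine tendsto_natCast_atTop_atTop.comp ?_
    refine Filter.tendsto_atTop.2 fun b => ?_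
    filter_upwards [Filter.eventually_ge_atTop ((b, b) : ℕ × ℕ)] with p hp
    exact le_min hp.1 hp.2
  · intro i j hij
    obtain ⟨M, hM⟩ := hsep i j hij
    refine E.not_tendsto_gprod (E.H (u i) + E.H (u j) + M) fun n => ?_
    change E.gD (u i * (E.t ^ n)⁻¹) (u j * (E.t ^ n)⁻¹) ≤ _
    unfold gD
    have h1 := E.H_mul (u i) (E.t ^ n)⁻¹
    have h2 := E.H_mul (u j) (E.t ^ n)⁻¹
    rw [E.H_inv', E.H_t_pow, E.k_t_pow, hu] at h1 h2
    have h3 := hM n
    have h4 := E.H_nonneg (u i)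
    have h5 := E.H_nonneg (u j)
    omega

/-- The generating set of height data as an element of `QPGen G`. -/
def toQPGen (h : QuasiParabolic E.gen) : QPGen G := ⟨E.gen, E.closure_gen, E.hyperbolic, h⟩

theorem dominated_iff (E' : HeightData G) :
    Dominated E.gen E'.gen ↔ ∃ C : ℤ, ∀ g, E'.D g ≤ 1 → E.D g ≤ C := by
  constructor
  · rintro ⟨C, hC⟩
    refine ⟨C, fun g hg => ?_⟩
    have h1 := hC g hg
    have h2 := E.D_le_wlen g
    omega
  · rintro ⟨C, hC⟩
    refine ⟨(C + 1).toNat, fun g hg => ?_⟩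
    have h1 := hC g hg
    have h2 := E.wlen_le_D g
    omega

end HeightData

end Pool.Agent.V1126.QP
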