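import Mathlib

/-!
# The field `F₂(t)` with the involution `t ↦ t + 1`
-/

set_option autoImplicit false

namespace Pool.Agent.V1126.RatAlg

open Polynomial

/-- The field with two elements. -/
abbrev F : Type := ZMod 2

/-- The field of rational functions. -/
abbrev K : Type := RatFunc F

/-- The variable. -/
noncomputable def t : K := algebraMap F[X] K X

/-- The variable plus one. -/
noncomputable def s : K := algebraMap F[X] K (X + C 1)

/-- The substitution `X ↦ X + 1` on polynomials. -/
noncomputable def σp : F[X] ≃+* F[X] := (algEquivAevalXAddC (1 : F)).toRingEquiv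

/-- The substitution `t ↦ t + 1` on rational functions. -/
noncomputable def σ : K ≃+* K := IsFractionRing.ringEquivOfRingEquiv σp

theorem σ_algebraMap (p : F[X]) : σ (algebraMap F[X] K p) = algebraMap F[X] K (σp p) :=
  IsFractionRing.ringEquivOfRingEquiv_algebraMap σp p

theorem σp_apply (p : F[X]) : σp p = p.comp (X + C 1) := by
  show algEquivAevalXAddC (1 : F) p = _
  rw [algEquivAevalXAddC_apply]; rfl

theorem two_eq_zero : (2 : F) = 0 := rfl

theorem add_self (x : K) : x + x = 0 := by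
  have h : (2 : K) = 0 := by
    have : (algebraMap F K) 2 = 2 := map_ofNat _ 2
    rw [← this, two_eq_zero, map_zero]
  linear_combination x * h

theorem one_add_one : (1 : F) + 1 = 0 := rfl

theorem σ_t : σ t = s := by
  unfold t s
  rw [σ_algebraMap, σp_apply, X_comp]

theorem σ_s : σ s = t := by
  unfold t s
  rw [σ_algebraMap, σp_apply, add_comp, X_comp, C_comp, add_assoc, ← C_add, one_add_one, C_0, add_zero]

theorem s_eq : s = t + 1 := by
  unfold t s
  rw [map_add, C_1, map_one]

theorem ts : t + s = 1 := by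
  rw [s_eq, ← add_assoc, add_self, zero_add]

theorem σp_σp (p : F[X]) : σp (σp p) = p := by
  rw [σp_apply, σp_apply, comp_assoc, add_comp, X_comp, C_comp, add_assoc, ← C_add, one_add_one, C_0,
    add_zero, comp_X]

theorem σ_σ (x : K) : σ (σ x) = x := by
  obtain ⟨p, q, hq, rfl⟩ := IsFractionRing.div_surjective (A := F[X]) x
  rw [map_div₀, map_div₀, σ_algebraMap, σ_algebraMap, σ_algebraMap, σ_algebraMap, σp_σp, σp_σp]

theorem t_ne : t ≠ 0 := by
  unfold t
  rw [Ne, FaithfulSMul.algebraMap_eq_zero_iff]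
  exact X_ne_zero

theorem s_ne : s ≠ 0 := by
  rw [← σ_t, Ne, map_eq_zero_iff σ σ.injective]
  exact t_ne

theorem deg_t : RatFunc.intDegree t = 1 := by
  unfold t
  rw [RatFunc.intDegree_polynomial, natDegree_X]; rfl

theorem deg_s : RatFunc.intDegree s = 1 := by
  unfold s
  rw [RatFunc.intDegree_polynomial, natDegree_X_add_C]; rfl

theorem deg_σ (x : K) : RatFunc.intDegree (σ x) = RatFunc.intDegree x := by
  by_cases hx : x = 0
  · rw [hx, map_zero]
  · obtain ⟨p, q, hq, rfl⟩ := IsFractionRing.div_surjective (A := F[X]) x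
    have hp : algebraMap F[X] K p ≠ 0 := by
      intro h
      rw [h, zero_div] at hx
      exact hx rfl
    have hq' : algebraMap F[X] K q ≠ 0 := by
      intro h
      rw [h, div_zero] at hx
      exact hx rfl
    have hp2 : algebraMap F[X] K (σp p) ≠ 0 := by
      rw [← σ_algebraMap, Ne, map_eq_zero_iff σ σ.injective]; exact hp
    have hq2 : algebraMap F[X] K (σp q) ≠ 0 := by
      rw [← σ_algebraMap, Ne, map_eq_zero_iff σ σ.injective]; exact hq'
    rw [map_div₀, σ_algebraMap, σ_algebraMap, RatFunc.intDegree_div hp2 hq2,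
      RatFunc.intDegree_div hp hq', RatFunc.intDegree_polynomial, RatFunc.intDegree_polynomial,
      RatFunc.intDegree_polynomial, RatFunc.intDegree_polynomial, σp_apply, σp_apply,
      natDegree_comp, natDegree_comp, natDegree_X_add_C, mul_one, mul_one]

theorem deg_zpow {x : K} (hx : x ≠ 0) (n : ℤ) : RatFunc.intDegree (x ^ n) = n * RatFunc.intDegree x := by
  have hn : ∀ m : ℕ, RatFunc.intDegree (x ^ m) = m * RatFunc.intDegree x := by
    intro m
    induction m with
    | zero => simp
    | succ m ih => rw [pow_succ, RatFunc.intDegree_mul (pow_ne_zero _ hx) hx, ih]; push_cast; ring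
  cases n with
  | ofNat m => rw [Int.ofNat_eq_natCast, zpow_natCast]; exact hn m
  | negSucc m => rw [zpow_negSucc, RatFunc.intDegree_inv, hn, Int.negSucc_eq]; push_cast; ring

theorem u_ne (i j : ℤ) : t ^ i * s ^ j ≠ 0 := mul_ne_zero (zpow_ne_zero _ t_ne) (zpow_ne_zero _ s_ne)

theorem deg_u (i j : ℤ) : RatFunc.intDegree (t ^ i * s ^ j) = i + j := by
  rw [RatFunc.intDegree_mul (zpow_ne_zero _ t_ne) (zpow_ne_zero _ s_ne), deg_zpow t_ne, deg_zpow s_ne,
    deg_t, deg_s, mul_one, mul_one]

/-- `x` has degree at most `d`. -/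
def dle (x : K) (d : ℤ) : Prop := x = 0 ∨ RatFunc.intDegree x ≤ d

theorem dle_add {x y : K} {d : ℤ} (hx : dle x d) (hy : dle y d) : dle (x + y) d := by
  by_cases hx0 : x = 0
  · rw [hx0, zero_add]; exact hy
  by_cases hy0 : y = 0
  · rw [hy0, add_zero]; exact hx
  by_cases hxy : x + y = 0
  · exact Or.inl hxy
  · right
    have h1 := hx.resolve_left hx0
    have h2 := hy.resolve_left hy0
    have h3 := RatFunc.intDegree_add_le hy0 hxy
    omega

theorem leadingCoeff_eq_one {p : F[X]} (hp : p ≠ 0) : p.leadingCoeff = 1 := by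
  have h : p.leadingCoeff ≠ 0 := leadingCoeff_ne_zero.2 hp
  generalize p.leadingCoeff = a at h
  revert a
  decide

theorem algebraMap_ne {p : F[X]} (hp : p ≠ 0) : algebraMap F[X] K p ≠ 0 := by
  rw [Ne, FaithfulSMul.algebraMap_eq_zero_iff]; exact hp

/-- The sum of two elements of the same degree has smaller degree. -/
theorem dle_cancel {x y : K} (hx : x ≠ 0) (hy : y ≠ 0)
    (h : RatFunc.intDegree x = RatFunc.intDegree y) :
    dle (x + y) (RatFunc.intDegree x - 1) := by
  by_cases hxy : x + y = 0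
  · exact Or.inl hxy
  right
  obtain ⟨p, q, hq, rfl⟩ := IsFractionRing.div_surjective (A := F[X]) x
  obtain ⟨p', q', hq', rfl⟩ := IsFractionRing.div_surjective (A := F[X]) y
  have hq0 : q ≠ 0 := nonZeroDivisors.ne_zero hq
  have hq0' : q' ≠ 0 := nonZeroDivisors.ne_zero hq'
  have hp0 : p ≠ 0 := by rintro rfl; simp at hx
  have hp0' : p' ≠ 0 := by rintro rfl; simp at hy
  have hqq := algebraMap_ne hq0
  have hqq' := algebraMap_ne hq0'
  have hpp := algebraMap_ne hp0
  have hpp' := algebraMap_ne hp0'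
  rw [RatFunc.intDegree_div hpp hqq, RatFunc.intDegree_div hpp' hqq', RatFunc.intDegree_polynomial,
    RatFunc.intDegree_polynomial, RatFunc.intDegree_polynomial, RatFunc.intDegree_polynomial] at h
  have e : algebraMap F[X] K p / algebraMap F[X] K q + algebraMap F[X] K p' / algebraMap F[X] K q' =
      algebraMap F[X] K (p * q' + q * p') / algebraMap F[X] K (q * q') := by
    rw [div_add_div _ _ hqq hqq', map_add, map_mul, map_mul, map_mul]
  have hne : p * q' + q * p' ≠ 0 := by
    intro h0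
    rw [e, h0, map_zero, zero_div] at hxy
    exact hxy rfl
  rw [e, RatFunc.intDegree_div (algebraMap_ne hne) (algebraMap_ne (mul_ne_zero hq0 hq0')),
    RatFunc.intDegree_polynomial, RatFunc.intDegree_polynomial, RatFunc.intDegree_div hpp hqq,
    RatFunc.intDegree_polynomial, RatFunc.intDegree_polynomial, natDegree_mul hq0 hq0']
  have hA : (p * q').natDegree = p.natDegree + q'.natDegree := natDegree_mul hp0 hq0'
  have hB : (q * p').natDegree = q.natDegree + p'.natDegree := natDegree_mul hq0 hp0'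
  have hAB : (p * q').natDegree = (q * p').natDegree := by omega
  have hlt : (p * q' + q * p').natDegree < (p * q').natDegree := by
    have e2 : p * q' + q * p' = p * q' - q * p' := by
      have : (q * p') + (q * p') = 0 := by
        have h2 : (2 : F[X]) = 0 := by
          have : (C (2 : F)) = 2 := map_ofNat _ 2
          rw [← this, two_eq_zero, map_zero]
        linear_combination (q * p') * h2
      linear_combination this
    rw [e2]
    rw [e2] at hne
    apply natDegree_lt_natDegree hne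
    apply degree_sub_lt_left
    · rw [degree_eq_natDegree (mul_ne_zero hp0 hq0'), degree_eq_natDegree (mul_ne_zero hq0 hp0'), hAB]
    · exact mul_ne_zero hp0 hq0'
    · rw [leadingCoeff_eq_one (mul_ne_zero hp0 hq0'), leadingCoeff_eq_one (mul_ne_zero hq0 hp0')]
  omega

/-- The ring `F₂[t, 1/t, 1/(t+1)]`. -/
noncomputable def R : Subring K where
  carrier := {y | ∃ (n : ℕ) (p : F[X]), y * (t * s) ^ n = algebraMap F[X] K p}
  mul_mem' := by
    rintro a b ⟨n, p, hp⟩ ⟨m, q, hq⟩
    refine ⟨n + m, p * q, ?_⟩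
    rw [map_mul, ← hp, ← hq, pow_add]; ring
  one_mem' := ⟨0, 1, by simp⟩
  add_mem' := by
    rintro a b ⟨n, p, hp⟩ ⟨m, q, hq⟩
    refine ⟨n + m, p * (X * (X + C 1)) ^ m + q * (X * (X + C 1)) ^ n, ?_⟩
    have h : algebraMap F[X] K (X * (X + C 1)) = t * s := by rw [map_mul]; rfl
    rw [map_add, map_mul, map_mul, map_pow, map_pow, h, ← hp, ← hq, pow_add]; ring
  zero_mem' := ⟨0, 0, by simp⟩
  neg_mem' := by
    rintro a ⟨n, p, hp⟩
    exact ⟨n, -p, by rw [map_neg, ← hp]; ring⟩

theorem mem_R {y : K} : y ∈ R ↔ ∃ (n : ℕ) (p : F[X]), y * (t * s) ^ n = algebraMap F[X] K p := Iff.rfl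

theorem algebraMap_mem (p : F[X]) : algebraMap F[X] K p ∈ R := ⟨0, p, by simp⟩

theorem t_mem : t ∈ R := algebraMap_mem _

theorem s_mem : s ∈ R := algebraMap_mem _

theorem t_inv_mem : t⁻¹ ∈ R := by
  refine ⟨1, X + C 1, ?_⟩
  rw [pow_one, ← mul_assoc, inv_mul_cancel₀ t_ne, one_mul]; rfl

theorem s_inv_mem : s⁻¹ ∈ R := by
  refine ⟨1, X, ?_⟩
  rw [pow_one, mul_comm t, ← mul_assoc, inv_mul_cancel₀ s_ne, one_mul]; rfl

theorem σ_mem {y : K} (hy : y ∈ R) : σ y ∈ R := by
  obtain ⟨n, p, hp⟩ := hy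
  refine ⟨n, σp p, ?_⟩
  rw [← σ_algebraMap, ← hp, map_mul, map_pow, map_mul, σ_t, σ_s, mul_comm s t]

theorem zpow_mem {x : K} (hx : x ∈ R) (hx' : x⁻¹ ∈ R) (n : ℤ) : x ^ n ∈ R := by
  cases n with
  | ofNat m => rw [Int.ofNat_eq_natCast, zpow_natCast]; exact R.pow_mem hx m
  | negSucc m => rw [zpow_negSucc, ← inv_pow]; exact R.pow_mem hx' _

theorem u_mem (i j : ℤ) : t ^ i * s ^ j ∈ R :=
  R.mul_mem (zpow_mem t_mem t_inv_mem i) (zpow_mem s_mem s_inv_mem j)

/-- Expansion of an element of nonpositive degree. -/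
theorem repr {x : K} (hx : x ∈ R) (hd : dle x 0) : ∃ n0 : ℕ, ∀ n, n0 ≤ n → ∃ f : ℕ → K,
    (∀ i, f i = 0 ∨ f i = t ^ i) ∧ t ^ n * s ^ n * x = ∑ i ∈ Finset.range (2 * n + 1), f i := by
  obtain ⟨n0, p, hp⟩ := hx
  refine ⟨n0, fun n hn => ?_⟩
  obtain ⟨m, rfl⟩ := Nat.exists_eq_add_of_le hn
  set q : F[X] := p * (X * (X + C 1)) ^ m with hq
  have h : algebraMap F[X] K (X * (X + C 1)) = t * s := by rw [map_mul]; rfl
  have hx2 : t ^ (n0 + m) * s ^ (n0 + m) * x = algebraMap F[X] K q := by
    rw [hq, map_mul, map_pow, h, ← hp, pow_add, pow_add]; ring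
  have hdeg : q.natDegree < 2 * (n0 + m) + 1 := by
    by_cases hx0 : x = 0
    · rw [hx0, mul_zero] at hx2
      have : q = 0 := (FaithfulSMul.algebraMap_eq_zero_iff F[X] K).1 hx2.symm
      rw [this, natDegree_zero]; omega
    · have h1 := hd.resolve_left hx0
      have h2 := congrArg RatFunc.intDegree hx2
      have h3 := deg_u (n0 + m : ℕ) (n0 + m : ℕ)
      rw [zpow_natCast, zpow_natCast] at h3
      rw [RatFunc.intDegree_mul (mul_ne_zero (pow_ne_zero _ t_ne) (pow_ne_zero _ s_ne)) hx0, h3,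
        RatFunc.intDegree_polynomial] at h2
      omega
  refine ⟨fun i => algebraMap F[X] K (monomial i (q.coeff i)), fun i => ?_, ?_⟩
  · have hc : q.coeff i = 0 ∨ q.coeff i = 1 := by
      generalize q.coeff i = a
      revert a
      decide
    rcases hc with hc | hc
    · left; simp [hc]
    · right
      show algebraMap F[X] K (monomial i (q.coeff i)) = t ^ i
      rw [hc, monomial_one_right_eq_X_pow, map_pow]; rfl
  · rw [hx2, ← map_sum]
    congr 1
    exact q.as_sum_range' _ hdeg

end Pool.Agent.V1126.RatAlg
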