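import Pool.Agent.V1126.Uniq5

/-!
# Rigidity of quasi-parabolic length functions, part 6
-/

set_option autoImplicit false

namespace Pool.Agent.V1126

open HL

namespace GData

variable {G R : Type} [Group G] [CommRing R] {X : GData G R} {E : HL G}

namespace Ctx

variable (c : Ctx X E) (dg : Deg X)

include c in
theorem l_e {e : G} (he : e = 1 ∨ e = X.σ) : E.l e ≤ E.l X.σ := by
  rcases he with rfl | rfl
  · rw [E.one]; exact E.nonneg _
  · exact le_rfl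

theorem l_U_le (i j : ℤ) : E.l (X.U i j) ≤ |i + j| * E.l X.T + c.C := by
  have e : X.U i j = X.T ^ (i + j) * X.U (-j) (- -j) := by
    have : X.T ^ (i + j) = X.U (i + j) 0 := by unfold U; simp
    rw [this, X.U_mul]; congr 1 <;> ring
  rw [e]
  have h1 := E.mul_le (X.T ^ (i + j)) (X.U (-j) (- -j))
  have h2 := c.hC (-j)
  have h3 := E.zpow_le X.T (i + j)
  omega

theorem le_l_T_pow (n : ℕ) : (n : ℤ) ≤ c.κ * (E.l (X.T ^ n) + c.κ * E.l X.T + 1) := by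
  have hκ : (0 : ℤ) < c.κ := by exact_mod_cast c.κ_pos
  have hT := E.nonneg X.T
  have h1 : X.T ^ n = c.b ^ (n / c.κ) * X.T ^ (n % c.κ) := by
    rw [c.b_pow, ← pow_add, Nat.div_add_mod]
  have h2 := E.sub_le (c.b ^ (n / c.κ)) (X.T ^ (n % c.κ))
  rw [← h1] at h2
  have h3 := E.pow_le X.T (n % c.κ)
  have h4 : ((n % c.κ : ℕ) : ℤ) ≤ c.κ := by exact_mod_cast (Nat.mod_lt _ c.κ_pos).le
  have h5 : ((n % c.κ : ℕ) : ℤ) * E.l X.T ≤ c.κ * E.l X.T := mul_le_mul_of_nonneg_right h4 hT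
  have h6 := c.l_b_pow (n / c.κ)
  have h7 : (n : ℤ) = c.κ * (n / c.κ : ℕ) + (n % c.κ : ℕ) := by
    exact_mod_cast (Nat.div_add_mod n c.κ).symm
  have h8 : ((n / c.κ : ℕ) : ℤ) + 1 ≤ E.l (X.T ^ n) + c.κ * E.l X.T + 1 := by omega
  have h9 := mul_le_mul_of_nonneg_left h8 hκ.le
  have h10 : (c.κ : ℤ) * ((n / c.κ : ℕ) + 1) = c.κ * (n / c.κ : ℕ) + c.κ := by ring
  omega

theorem le_l_T_zpow (n : ℤ) : |n| ≤ c.κ * (E.l (X.T ^ n) + c.κ * E.l X.T + 1) := by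
  have h := c.le_l_T_pow n.natAbs
  rw [Int.natCast_natAbs] at h
  rcases Int.natAbs_eq n with h1 | h1
  · have : X.T ^ n = X.T ^ n.natAbs := by
      rw [← zpow_natCast, ← h1]
    rw [this]; exact h
  · have : E.l (X.T ^ n) = E.l (X.T ^ n.natAbs) := by
      have h2 := E.zpow_neg_l X.T n.natAbs
      rw [← h1] at h2
      rw [h2, zpow_natCast]
    rw [this]; exact h

theorem l_U_ge (i j : ℤ) : |i + j| ≤ c.κ * (E.l (X.U i j) + c.C + c.κ * E.l X.T + 1) := by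
  have e : X.T ^ (i + j) = X.U i j * X.U j (-j) := by
    have : X.T ^ (i + j) = X.U (i + j) 0 := by unfold U; simp
    rw [this, X.U_mul]; congr 1; ring
  have h1 := E.mul_le (X.U i j) (X.U j (-j))
  rw [← e] at h1
  have h2 := c.hC j
  have h3 := c.le_l_T_zpow (i + j)
  have hκ : (0 : ℤ) < c.κ := by exact_mod_cast c.κ_pos
  have h4 : E.l (X.T ^ (i + j)) + c.κ * E.l X.T + 1 ≤ E.l (X.U i j) + c.C + c.κ * E.l X.T + 1 := by
    omega
  exact h3.trans (mul_le_mul_of_nonneg_left h4 hκ.le)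

/-- Bound for the dilation part. -/
theorem l_U_of_l {x : R} {i j : ℤ} {e : G} (he : e = 1 ∨ e = X.σ) :
    E.l (X.U i j) ≤ E.l (X.τ x * X.U i j * e) + 2 * E.l c.b + 7 * E.D + c.C + E.l X.σ := by
  obtain ⟨n, hn⟩ := Good.invol c.good (X.τ_mul_self x) (c.fixed (X.τ x))
  have h1 : E.l ((c.b ^ n)⁻¹ * (X.τ x * c.b ^ n)) ≤ E.l c.b + 4 * E.D := (hn n le_rfl).2
  have h2 : E.l ((c.b ^ n)⁻¹ * ((X.τ x * X.U i j * e) * c.b ^ n)) ≤
      E.l (X.τ x * X.U i j * e) + E.l c.b + 3 * E.D :=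
    Good.conj_pow_le c.good (c.fixed _) n
  have hb : c.b ^ n = X.U (c.κ * n) 0 := by
    rw [c.b_pow]; unfold U
    rw [zpow_zero, mul_one, ← zpow_natCast]; push_cast; rfl
  have h3 : E.l ((c.b ^ n)⁻¹ * (e * c.b ^ n)) ≤ c.C + E.l X.σ := by
    have hC0 := c.C_nonneg
    have hσ0 := E.nonneg X.σ
    rcases he with rfl | rfl
    · rw [one_mul, inv_mul_cancel, E.one]; omega
    · have e1 : (c.b ^ n)⁻¹ * (X.σ * c.b ^ n) = X.U (-(c.κ * n)) (c.κ * n) * X.σ := by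
        have := X.conj_σ (-(c.κ * n)) 0
        rw [hb, X.U_inv, neg_zero]
        have e2 : X.U (c.κ * n) 0 = (X.U (-(c.κ * n)) 0)⁻¹ := by rw [X.U_inv, neg_neg, neg_zero]
        rw [e2, ← mul_assoc, this]
        congr 2 <;> ring
      rw [e1]
      have h4 := E.mul_le (X.U (-(c.κ * n)) (c.κ * n)) X.σ
      have h5 := c.hC (-(c.κ * n))
      rw [neg_neg] at h5
      omega
  have hcomm : X.U i j * c.b ^ n = c.b ^ n * X.U i j := by
    rw [hb]; exact (X.U_comm i j (c.κ * n) 0).eq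
  have e3 : (c.b ^ n)⁻¹ * ((X.τ x * X.U i j * e) * c.b ^ n) =
      ((c.b ^ n)⁻¹ * (X.τ x * c.b ^ n)) * (X.U i j * ((c.b ^ n)⁻¹ * (e * c.b ^ n))) := by
    have e4 : X.U i j = c.b ^ n * X.U i j * (c.b ^ n)⁻¹ := by rw [← hcomm]; group
    calc _ = (c.b ^ n)⁻¹ * (X.τ x * X.U i j * e * c.b ^ n) := rfl
      _ = (c.b ^ n)⁻¹ * (X.τ x * (c.b ^ n * X.U i j * (c.b ^ n)⁻¹) * e * c.b ^ n) := by rw [← e4]
      _ = _ := by group
  rw [e3] at h2
  have h4 := E.sub_le' ((c.b ^ n)⁻¹ * (X.τ x * c.b ^ n)) (X.U i j * ((c.b ^ n)⁻¹ * (e * c.b ^ n)))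
  have h5 := E.sub_le (X.U i j) ((c.b ^ n)⁻¹ * (e * c.b ^ n))
  omega

include c dg in
theorem bound_of_l (B : ℤ) : ∃ B' : ℤ, ∀ (x : R) (i j : ℤ) (e : G), (e = 1 ∨ e = X.σ) →
    E.l (X.τ x * X.U i j * e) ≤ B → |i + j| ≤ B' ∧ dg.Dle x B' := by
  have hκ : (0 : ℤ) < c.κ := by exact_mod_cast c.κ_pos
  set B1 : ℤ := B + 2 * E.l c.b + 7 * E.D + c.C + E.l X.σ with hB1
  obtain ⟨B2, hB2⟩ := c.deg_le dg (B + E.l X.σ + B1)
  refine ⟨max (c.κ * (B1 + c.C + c.κ * E.l X.T + 1)) B2, fun x i j e he hl => ?_⟩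
  have h1 := c.l_U_of_l (x := x) (i := i) (j := j) he
  have h2 : E.l (X.U i j) ≤ B1 := by omega
  constructor
  · refine le_trans ((c.l_U_ge i j).trans (mul_le_mul_of_nonneg_left ?_ hκ.le)) (le_max_left _ _)
    omega
  · refine dg.mono _ _ _ (le_max_right _ _) (hB2 x ?_)
    have h3 := E.sub_le (X.τ x) (X.U i j * e)
    rw [← mul_assoc] at h3
    have h4 := E.mul_le (X.U i j) e
    have h5 := c.l_e he
    have h6 : X.N E x = E.l (X.τ x) := rfl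
    omega

include c dg in
theorem l_of_bound (B : ℤ) : ∃ B' : ℤ, ∀ (x : R) (i j : ℤ) (e : G), (e = 1 ∨ e = X.σ) →
    |i + j| ≤ B → dg.Dle x B → E.l (X.τ x * X.U i j * e) ≤ B' := by
  refine ⟨(c.c6 + 2 * (B.toNat * E.l X.T)) + (B * E.l X.T + c.C) + E.l X.σ,
    fun x i j e he hij hx => ?_⟩
  have h1 := c.N_le_of_deg' dg (d := B.toNat) (dg.mono _ _ _ (by omega) hx)
  have h2 := c.l_U_le i j
  have h3 := c.l_e he
  have h4 := E.mul_le (X.τ x * X.U i j) e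
  have h5 := E.mul_le (X.τ x) (X.U i j)
  have h6 : X.N E x = E.l (X.τ x) := rfl
  have h7 : |i + j| * E.l X.T ≤ B * E.l X.T := mul_le_mul_of_nonneg_right hij (E.nonneg _)
  omega

end Ctx

end GData

end Pool.Agent.V1126
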