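import Pool.Agent.V1126.RatAlg
import Pool.Agent.V1126.Uniq6
import Pool.Agent.V1126.QPHeight

/-!
# The group of maps `x ↦ t ^ i * (t + 1) ^ j * σ ^ ε (x) + y`
-/

set_option autoImplicit false

namespace Pool.Agent.V1126.RatAlg

/-- Powers of the substitution. -/
noncomputable def σe (ε : Bool) (x : K) : K := if ε then σ x else x

theorem σe_add (ε : Bool) (x y : K) : σe ε (x + y) = σe ε x + σe ε y := by
  unfold σe; cases ε <;> simp

theorem σe_mul (ε : Bool) (x y : K) : σe ε (x * y) = σe ε x * σe ε y := by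
  unfold σe; cases ε <;> simp

theorem σe_zero (ε : Bool) : σe ε 0 = 0 := by
  unfold σe; cases ε <;> simp

theorem σe_one (ε : Bool) : σe ε 1 = 1 := by
  unfold σe; cases ε <;> simp

theorem σe_self (ε : Bool) (x : K) : σe ε (σe ε x) = x := by
  unfold σe; cases ε <;> simp [σ_σ]

theorem deg_σe (ε : Bool) (x : K) : RatFunc.intDegree (σe ε x) = RatFunc.intDegree x := by
  unfold σe; cases ε <;> simp [deg_σ]

theorem σe_mem (ε : Bool) {x : K} (hx : x ∈ R) : σe ε x ∈ R := by
  unfold σe; cases ε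
  · simpa using hx
  · simpa using σ_mem hx

theorem σe_σe (a b : Bool) (x : K) : σe a (σe b x) = σe (xor a b) x := by
  unfold σe; cases a <;> cases b <;> simp [σ_σ]

theorem σe_u (ε : Bool) (i j : ℤ) : ∃ i' j' : ℤ, σe ε (t ^ i * s ^ j) = t ^ i' * s ^ j' := by
  cases ε
  · exact ⟨i, j, by simp [σe]⟩
  · refine ⟨j, i, ?_⟩
    simp only [σe, if_true]
    rw [map_mul, map_zpow₀, map_zpow₀, σ_t, σ_s, mul_comm]

theorem neg_eq (x : K) : -x = x := by
  have := add_self x
  linear_combination -this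

/-- The group. -/
noncomputable def Gr : Subgroup (Equiv.Perm K) where
  carrier := {f | ∃ y ∈ R, ∃ (i j : ℤ) (ε : Bool), ∀ x, f x = t ^ i * s ^ j * σe ε x + y}
  mul_mem' := by
    rintro f g ⟨y, hy, i, j, ε, hf⟩ ⟨y', hy', k, l, ε', hg⟩
    obtain ⟨k', l', h⟩ := σe_u ε k l
    refine ⟨t ^ i * s ^ j * σe ε y' + y, R.add_mem (R.mul_mem (u_mem i j) (σe_mem ε hy')) hy,
      i + k', j + l', xor ε ε', fun x => ?_⟩
    rw [Equiv.Perm.mul_apply, hf, hg, σe_add, σe_mul, h, σe_σe, zpow_add₀ t_ne, zpow_add₀ s_ne]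
    ring
  one_mem' := ⟨0, R.zero_mem, 0, 0, false, fun x => by simp [σe]⟩
  inv_mem' := by
    rintro f ⟨y, hy, i, j, ε, hf⟩
    obtain ⟨i', j', h⟩ := σe_u ε (-i) (-j)
    refine ⟨σe ε (t ^ (-i) * s ^ (-j) * y), σe_mem ε (R.mul_mem (u_mem _ _) hy), i', j', ε,
      fun x => ?_⟩
    rw [Equiv.Perm.inv_eq_iff_eq, hf, ← h, ← σe_mul, ← σe_add, σe_self]
    have h1 : t ^ i * s ^ j * (t ^ (-i) * s ^ (-j)) = 1 := by
      rw [mul_mul_mul_comm, ← zpow_add₀ t_ne, ← zpow_add₀ s_ne, add_neg_cancel, add_neg_cancel,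
        zpow_zero, zpow_zero, one_mul]
    have h2 := add_self y
    linear_combination (-(x + y)) * h1 - h2

theorem Gr_ext {f g : Gr} (h : ∀ x, f.1 x = g.1 x) : f = g :=
  Subtype.ext (Equiv.ext h)

/-- Translations. -/
noncomputable def τG (x : R) : Gr := ⟨Equiv.addRight (x : K), x.1, x.2, 0, 0, false, fun z => by
  simp [σe]⟩

/-- Multiplication by `t`. -/
noncomputable def TG : Gr := ⟨Equiv.mulLeft₀ t t_ne, 0, R.zero_mem, 1, 0, false, fun z => by
  simp [σe]⟩

/-- Multiplication by `t + 1`. -/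
noncomputable def SG : Gr := ⟨Equiv.mulLeft₀ s s_ne, 0, R.zero_mem, 0, 1, false, fun z => by
  simp [σe]⟩

/-- The involution. -/
noncomputable def σG : Gr := ⟨σ.toEquiv, 0, R.zero_mem, 0, 0, true, fun z => by simp [σe]⟩

theorem τG_apply (x : R) (z : K) : (τG x).1 z = z + x := rfl
theorem TG_apply (z : K) : TG.1 z = t * z := rfl
theorem SG_apply (z : K) : SG.1 z = s * z := rfl
theorem σG_apply (z : K) : σG.1 z = σ z := rfl
theorem mul_apply (f g : Gr) (z : K) : (f * g).1 z = f.1 (g.1 z) := rfl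
theorem one_apply (z : K) : (1 : Gr).1 z = z := rfl

theorem zpow_apply {f : Gr} {v : K} (hv : v ≠ 0) (hf : ∀ z, f.1 z = v * z) (n : ℤ) (z : K) :
    (f ^ n).1 z = v ^ n * z := by
  have hn : ∀ (m : ℕ) (z : K), (f ^ m).1 z = v ^ m * z := by
    intro m
    induction m with
    | zero => intro z; rw [pow_zero, pow_zero, one_mul]; rfl
    | succ m ih => intro z; rw [pow_succ, mul_apply, ih, hf, pow_succ, mul_assoc]
  cases n with
  | ofNat m => rw [Int.ofNat_eq_natCast, zpow_natCast, zpow_natCast]; exact hn m z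
  | negSucc m =>
    rw [zpow_negSucc, zpow_negSucc]
    show ((f ^ (m + 1)).1)⁻¹ z = _
    rw [Equiv.Perm.inv_eq_iff_eq, hn, ← mul_assoc, mul_inv_cancel₀ (pow_ne_zero _ hv), one_mul]

/-- The unit `t` of `R`. -/
noncomputable def tR : (R : Type)ˣ := ⟨⟨t, t_mem⟩, ⟨t⁻¹, t_inv_mem⟩, Subtype.ext (mul_inv_cancel₀ t_ne),
  Subtype.ext (inv_mul_cancel₀ t_ne)⟩

/-- The unit `t + 1` of `R`. -/
noncomputable def sR : (R : Type)ˣ := ⟨⟨s, s_mem⟩, ⟨s⁻¹, s_inv_mem⟩, Subtype.ext (mul_inv_cancel₀ s_ne),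
  Subtype.ext (inv_mul_cancel₀ s_ne)⟩

theorem inv_mul_apply {f : Gr} {x y : K} (h : f.1 y = x) : (f⁻¹).1 x = y := by
  show (f.1)⁻¹ x = y
  rw [Equiv.Perm.inv_eq_iff_eq, h]

/-- The group data. -/
noncomputable def data : GData Gr R where
  t := tR
  s := sR
  ts := Subtype.ext ts
  two := fun x => Subtype.ext (add_self x.1)
  τ := τG
  T := TG
  S := SG
  σ := σG
  τ_add := fun x y => Gr_ext fun z => by
    rw [mul_apply, τG_apply, τG_apply, τG_apply, add_assoc, add_comm (y : K)]; rfl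
  T_conj := fun x => by
    rw [mul_inv_eq_iff_eq_mul]
    refine Gr_ext fun z => ?_
    rw [mul_apply, mul_apply, τG_apply, TG_apply, TG_apply, τG_apply]
    show _ = t * z + t * x
    ring
  S_conj := fun x => by
    rw [mul_inv_eq_iff_eq_mul]
    refine Gr_ext fun z => ?_
    rw [mul_apply, mul_apply, τG_apply, SG_apply, SG_apply, τG_apply]
    show _ = s * z + s * x
    ring
  comm := Gr_ext fun z => by
    rw [mul_apply, mul_apply, TG_apply, SG_apply, SG_apply, TG_apply]; ring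
  σT := by
    rw [mul_inv_eq_iff_eq_mul]
    refine Gr_ext fun z => ?_
    rw [mul_apply, mul_apply, σG_apply, TG_apply, SG_apply, σG_apply, map_mul, σ_t]
  σS := by
    rw [mul_inv_eq_iff_eq_mul]
    refine Gr_ext fun z => ?_
    rw [mul_apply, mul_apply, σG_apply, TG_apply, SG_apply, σG_apply, map_mul, σ_s]
  σσ := Gr_ext fun z => by
    rw [mul_apply, σG_apply, σG_apply, σ_σ, one_apply]
  σ_conj := fun x => ⟨⟨σ x, σ_mem x.2⟩, by
    rw [mul_inv_eq_iff_eq_mul]
    refine Gr_ext fun z => ?_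
    rw [mul_apply, mul_apply, σG_apply, τG_apply, τG_apply, σG_apply, map_add]⟩
  nf := fun g => by
    obtain ⟨f, y, hy, i, j, ε, hf⟩ := g
    refine ⟨⟨y, hy⟩, i, j, ε, Gr_ext fun z => ?_⟩
    rw [mul_apply, mul_apply, mul_apply, τG_apply, zpow_apply t_ne TG_apply,
      zpow_apply s_ne SG_apply]
    show f z = _
    rw [hf, ← mul_assoc]
    unfold σe
    cases ε
    · rfl
    · rfl

theorem coe_u (i j : ℤ) : ((data.u i j : R) : K) = t ^ i * s ^ j := by
  have h1 : ∀ n : ℤ, (((tR ^ n : (R : Type)ˣ) : R) : K) = t ^ n := by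
    intro n
    have : ((Units.map R.subtype.toMonoidHom (tR ^ n) : Kˣ) : K) = t ^ n := by
      rw [map_zpow, Units.val_zpow_eq_zpow_val]; rfl
    exact this
  have h2 : ∀ n : ℤ, (((sR ^ n : (R : Type)ˣ) : R) : K) = s ^ n := by
    intro n
    have : ((Units.map R.subtype.toMonoidHom (sR ^ n) : Kˣ) : K) = s ^ n := by
      rw [map_zpow, Units.val_zpow_eq_zpow_val]; rfl
    exact this
  show ((((tR ^ i * sR ^ j : (R : Type)ˣ) : R)) : K) = _
  rw [Units.val_mul, Subring.coe_mul, h1, h2]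

/-- The degree filtration. -/
def deg : GData.Deg data where
  Dle := fun x d => dle (x : K) d
  mono := fun x d e hde h => h.imp_right fun h => h.trans hde
  add := fun x y d hx hy => dle_add hx hy
  shift := fun i j x d h => by
    show dle ((data.u i j * x : R) : K) _
    rw [Subring.coe_mul, coe_u]
    rcases h with h | h
    · left; rw [h, mul_zero]
    · by_cases hx : (x : K) = 0
      · left; rw [hx, mul_zero]
      · right
        rw [RatFunc.intDegree_mul (u_ne i j) hx, deg_u]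
        omega
  cancel := fun x y d hx hy hx' hy' => by
    have hx0 : (x : K) ≠ 0 := fun h => hx' (Or.inl h)
    have hy0 : (y : K) ≠ 0 := fun h => hy' (Or.inl h)
    have h1 := hx.resolve_left hx0
    have h2 := hy.resolve_left hy0
    have h3 : ¬ RatFunc.intDegree (x : K) ≤ d - 1 := fun h => hx' (Or.inr h)
    have h4 : ¬ RatFunc.intDegree (y : K) ≤ d - 1 := fun h => hy' (Or.inr h)
    have h5 : RatFunc.intDegree (x : K) = d := by omega
    have h6 := dle_cancel hx0 hy0 (by omega)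
    rw [h5] at h6
    exact h6
  exists_le := fun x => ⟨RatFunc.intDegree (x : K), Or.inr le_rfl⟩
  one := Or.inr (by show RatFunc.intDegree (1 : K) ≤ 0; rw [RatFunc.intDegree_one])
  repr := fun x hx => by
    obtain ⟨n0, hn0⟩ := repr x.2 hx
    refine ⟨n0, fun n hn => ?_⟩
    obtain ⟨f, hf, hs⟩ := hn0 n hn
    have hfm : ∀ i, f i ∈ R := by
      intro i
      rcases hf i with h | h
      · rw [h]; exact R.zero_mem
      · rw [h]; exact R.pow_mem t_mem _
    refine ⟨fun i => ⟨f i, hfm i⟩, fun i => ?_, ?_⟩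
    · rcases hf i with h | h
      · left; exact Subtype.ext h
      · right; exact Subtype.ext h
    · apply Subtype.ext
      rw [AddSubmonoidClass.coe_finsetSum]
      exact hs

end Pool.Agent.V1126.RatAlg
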