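import Pool.Agent.V1126.HLEnds

/-!
# Rigidity of quasi-parabolic length functions on certain solvable groups

`R` is a ring of characteristic two with units `t`, `s`, `t + s = 1`, and `G` is generated by the
translations `τ x`, the dilations `T`, `S` and an involution `σ` exchanging `T` and `S`.
-/

set_option autoImplicit false

namespace Pool.Agent.V1126

open HL

/-- The group data. -/
structure GData (G R : Type) [Group G] [CommRing R] where
  t : Rˣ
  s : Rˣ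
  ts : (t : R) + (s : R) = 1
  two : ∀ x : R, x + x = 0
  τ : R → G
  T : G
  S : G
  σ : G
  τ_add : ∀ x y, τ (x + y) = τ x * τ y
  T_conj : ∀ x, T * τ x * T⁻¹ = τ ((t : R) * x)
  S_conj : ∀ x, S * τ x * S⁻¹ = τ ((s : R) * x)
  comm : Commute T S
  σT : σ * T * σ⁻¹ = S
  σS : σ * S * σ⁻¹ = T
  σσ : σ * σ = 1
  σ_conj : ∀ x, ∃ y, σ * τ x * σ⁻¹ = τ y
  nf : ∀ g, ∃ (x : R) (i j : ℤ) (ε : Bool), g = τ x * (T ^ i * S ^ j * (if ε then σ else 1))

namespace GData

variable {G R : Type} [Group G] [CommRing R] (X : GData G R)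

theorem τ_zero : X.τ 0 = 1 := by
  have h := X.τ_add 0 0
  rw [add_zero] at h
  exact (left_eq_mul.1 h)

theorem τ_mul_self (x : R) : X.τ x * X.τ x = 1 := by
  rw [← X.τ_add, X.two, X.τ_zero]

theorem τ_inv (x : R) : (X.τ x)⁻¹ = X.τ x := inv_eq_of_mul_eq_one_left (X.τ_mul_self x)

theorem T_conj_pow (n : ℕ) (x : R) : X.T ^ n * X.τ x * (X.T ^ n)⁻¹ = X.τ ((X.t : R) ^ n * x) := by
  induction n generalizing x with
  | zero => simp
  | succ n ih =>
    have h : X.T ^ (n + 1) * X.τ x * (X.T ^ (n + 1))⁻¹ =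
        X.T ^ n * (X.T * X.τ x * X.T⁻¹) * (X.T ^ n)⁻¹ := by rw [pow_succ]; group
    rw [h, X.T_conj, ih]; congr 1; ring

theorem conj_symm_aux {a : G} {u : Rˣ} (h : ∀ x, a * X.τ x * a⁻¹ = X.τ ((u : R) * x)) (x : R) :
    a⁻¹ * X.τ x * a⁻¹⁻¹ = X.τ (((u⁻¹ : Rˣ) : R) * x) := by
  have h1 := h (((u⁻¹ : Rˣ) : R) * x)
  rw [← mul_assoc, Units.mul_inv, one_mul] at h1
  rw [← h1]; group

theorem zpow_conj {a : G} {u : Rˣ} (h : ∀ x, a * X.τ x * a⁻¹ = X.τ ((u : R) * x)) (n : ℤ) (x : R) :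
    a ^ n * X.τ x * (a ^ n)⁻¹ = X.τ (((u ^ n : Rˣ) : R) * x) := by
  have hn : ∀ (b : G) (v : Rˣ), (∀ x, b * X.τ x * b⁻¹ = X.τ ((v : R) * x)) → ∀ (m : ℕ) (x : R),
      b ^ m * X.τ x * (b ^ m)⁻¹ = X.τ (((v ^ m : Rˣ) : R) * x) := by
    intro b v hb m
    induction m with
    | zero => intro x; simp
    | succ m ih =>
      intro x
      have h : b ^ (m + 1) * X.τ x * (b ^ (m + 1))⁻¹ =
          b ^ m * (b * X.τ x * b⁻¹) * (b ^ m)⁻¹ := by rw [pow_succ]; group
      rw [h, hb, ih, pow_succ, Units.val_mul, mul_assoc]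
  cases n with
  | ofNat m =>
    rw [Int.ofNat_eq_natCast, zpow_natCast, zpow_natCast]
    exact hn a u h m x
  | negSucc m =>
    rw [zpow_negSucc, zpow_negSucc]
    have := hn a⁻¹ u⁻¹ (X.conj_symm_aux h) (m + 1) x
    rwa [inv_pow, inv_pow] at this

/-- The dilation `T ^ i * S ^ j`. -/
def U (i j : ℤ) : G := X.T ^ i * X.S ^ j

/-- The unit `t ^ i * s ^ j`. -/
def u (i j : ℤ) : R := ((X.t ^ i * X.s ^ j : Rˣ) : R)

theorem U_conj (i j : ℤ) (x : R) : X.U i j * X.τ x * (X.U i j)⁻¹ = X.τ (X.u i j * x) := by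
  have h1 := X.zpow_conj X.S_conj j x
  have h2 := X.zpow_conj X.T_conj i (((X.s ^ j : Rˣ) : R) * x)
  rw [← h1] at h2
  have h3 : X.u i j * x = ((X.t ^ i : Rˣ) : R) * (((X.s ^ j : Rˣ) : R) * x) := by
    unfold u; rw [Units.val_mul, mul_assoc]
  rw [h3, ← h2]
  unfold U; group

theorem comm_zpow (i j : ℤ) : Commute (X.T ^ i) (X.S ^ j) := X.comm.zpow_zpow i j

theorem U_mul (i j k l : ℤ) : X.U i j * X.U k l = X.U (i + k) (j + l) := by
  unfold U
  rw [zpow_add, zpow_add]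
  have h := (X.comm_zpow k j).eq
  calc X.T ^ i * X.S ^ j * (X.T ^ k * X.S ^ l) = X.T ^ i * (X.S ^ j * X.T ^ k) * X.S ^ l := by group
    _ = X.T ^ i * (X.T ^ k * X.S ^ j) * X.S ^ l := by rw [h]
    _ = _ := by group

theorem U_zero : X.U 0 0 = 1 := by unfold U; simp

theorem U_inv (i j : ℤ) : (X.U i j)⁻¹ = X.U (-i) (-j) := by
  apply inv_eq_of_mul_eq_one_right
  rw [X.U_mul, add_neg_cancel, add_neg_cancel, X.U_zero]

theorem U_pow (i j : ℤ) (n : ℕ) : X.U i j ^ n = X.U (n * i) (n * j) := by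
  induction n with
  | zero => simp [X.U_zero]
  | succ n ih =>
    rw [pow_succ, ih, X.U_mul]; push_cast; congr 1 <;> ring

theorem U_zpow (i j : ℤ) (n : ℤ) : X.U i j ^ n = X.U (n * i) (n * j) := by
  cases n with
  | ofNat m => rw [Int.ofNat_eq_natCast, zpow_natCast, X.U_pow]
  | negSucc m =>
    rw [zpow_negSucc, X.U_pow, X.U_inv, Int.negSucc_eq]; push_cast; congr 1 <;> ring

theorem U_comm (i j k l : ℤ) : Commute (X.U i j) (X.U k l) := by
  unfold Commute SemiconjBy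
  rw [X.U_mul, X.U_mul, add_comm i, add_comm j]

theorem σ_inv : X.σ⁻¹ = X.σ := inv_eq_of_mul_eq_one_left X.σσ

theorem σ_U (i j : ℤ) : X.σ * X.U i j * X.σ⁻¹ = X.U j i := by
  unfold U
  have h : X.σ * (X.T ^ i * X.S ^ j) * X.σ⁻¹ =
      (X.σ * X.T ^ i * X.σ⁻¹) * (X.σ * X.S ^ j * X.σ⁻¹) := by group
  rw [h, ← conj_zpow, ← conj_zpow, X.σT, X.σS, (X.comm_zpow j i).eq]

/-- Every element normalises the translations. -/
theorem normal (g : G) (x : R) : ∃ y, g * X.τ x * g⁻¹ = X.τ y := by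
  obtain ⟨z, i, j, ε, rfl⟩ := X.nf g
  obtain ⟨y, hy⟩ : ∃ y, (if ε then X.σ else 1) * X.τ x * (if ε then X.σ else 1)⁻¹ = X.τ y := by
    cases ε
    · exact ⟨x, by simp⟩
    · simpa using X.σ_conj x
  refine ⟨X.u i j * y, ?_⟩
  have e : X.τ z * (X.T ^ i * X.S ^ j * (if ε then X.σ else 1)) * X.τ x *
      (X.τ z * (X.T ^ i * X.S ^ j * (if ε then X.σ else 1)))⁻¹ =
      X.τ z * (X.U i j * ((if ε then X.σ else 1) * X.τ x * (if ε then X.σ else 1)⁻¹) *
        (X.U i j)⁻¹) * (X.τ z)⁻¹ := by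
    unfold U; group
  rw [e, hy, X.U_conj, X.τ_inv, ← X.τ_add, ← X.τ_add]
  congr 1
  have := X.two z
  linear_combination this

/-! ### Length functions -/

variable (E : HL G)

/-- The length of a translation. -/
def N (x : R) : ℤ := E.l (X.τ x)

theorem N_nonneg (x : R) : 0 ≤ X.N E x := E.nonneg _

theorem N_zero : X.N E 0 = 0 := by unfold N; rw [X.τ_zero, E.one]

theorem N_add (x y : R) : X.N E (x + y) ≤ max (X.N E x) (X.N E y) + E.D := by
  have h := E.four 1 (X.τ x) (X.τ (x + y)) (X.τ y)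
  have e1 : (1 : G)⁻¹ * X.τ (x + y) = X.τ (x + y) := by simp
  have e2 : (X.τ x)⁻¹ * X.τ y = X.τ (x + y) := by rw [X.τ_inv, ← X.τ_add]
  have e3 : (1 : G)⁻¹ * X.τ x = X.τ x := by simp
  have e4 : (X.τ (x + y))⁻¹ * X.τ y = X.τ x := by
    rw [X.τ_inv, ← X.τ_add]; congr 1
    have := X.two y
    linear_combination this
  have e5 : (X.τ x)⁻¹ * X.τ (x + y) = X.τ y := by
    rw [X.τ_inv, ← X.τ_add]; congr 1
    have := X.two x
    linear_combination this
  have e6 : (1 : G)⁻¹ * X.τ y = X.τ y := by simp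
  rw [e1, e2, e3, e4, e5, e6] at h
  have hD := E.D_nonneg
  unfold N
  omega

theorem N_u (i j : ℤ) (x : R) : X.N E (X.u i j * x) ≤ X.N E x + 2 * E.l (X.U i j) := by
  unfold N
  rw [← X.U_conj]
  exact E.conj_le _ _

theorem u_mul (i j k l : ℤ) : X.u i j * X.u k l = X.u (i + k) (j + l) := by
  unfold u
  rw [← Units.val_mul]
  congr 1
  rw [zpow_add, zpow_add]
  exact mul_mul_mul_comm _ _ _ _

theorem u_zero : X.u 0 0 = 1 := by unfold u; simp

theorem u_one_zero : X.u 1 0 = (X.t : R) := by unfold u; simp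

theorem u_zero_one : X.u 0 1 = (X.s : R) := by unfold u; simp

/-- A loxodromic `τ x * l` has loxodromic `l`. -/
theorem lox_of_lox_mul {x : R} {l : G} (h : E.Lox (X.τ x * l)) : E.Lox l := by
  by_contra hl
  have hD := E.D_nonneg
  have hl0 := E.nonneg l
  have key : ∀ k : ℕ, ∃ y : R, (X.τ x * l) ^ (2 ^ k) = X.τ y * l ^ (2 ^ k) ∧
      X.N E y ≤ X.N E x + k * (2 * E.l l + E.D) + 2 * E.D * (k * k) := by
    intro k
    induction k with
    | zero => exact ⟨x, by simp, by simp⟩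
    | succ k ih =>
      obtain ⟨y, hy, hN⟩ := ih
      obtain ⟨z, hz⟩ := X.normal (l ^ (2 ^ k)) y
      refine ⟨y + z, ?_, ?_⟩
      · rw [pow_succ, pow_mul, hy, sq, X.τ_add, ← hz, pow_mul, sq]
        group
      · have h1 := X.N_add E y z
        have h2 : X.N E z ≤ X.N E y + 2 * E.l (l ^ (2 ^ k)) := by
          unfold N; rw [← hz]; exact E.conj_le _ _
        have h3 := E.not_lox_double hl k
        have h4 := E.nonneg (l ^ (2 ^ k))
        have h5 : X.N E (y + z) ≤ X.N E y + 2 * (E.l l + k * (2 * E.D)) + E.D := by omega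
        have h6 : X.N E x + ((k + 1 : ℕ) : ℤ) * (2 * E.l l + E.D) +
            2 * E.D * (((k + 1 : ℕ) : ℤ) * ((k + 1 : ℕ) : ℤ)) =
            (X.N E x + k * (2 * E.l l + E.D) + 2 * E.D * (k * k)) +
            2 * (E.l l + k * (2 * E.D)) + E.D + 2 * E.D := by push_cast; ring
        rw [h6]
        omega
  obtain ⟨M, hM, hg⟩ := h
  obtain ⟨k, hk⟩ := exists_two_pow (M * (X.N E x + E.l l)) (M * (2 * E.l l + 3 * E.D))
    (M * (2 * E.D))
  obtain ⟨y, hy, hN⟩ := key k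
  have h1 := hg.le_pow (2 ^ k)
  rw [← pow_mul, mul_comm, pow_mul] at h1
  have h2 := E.pow_le ((X.τ x * l) ^ 2 ^ k) M
  have h3 := E.mul_le (X.τ y) (l ^ 2 ^ k)
  rw [← hy] at h3
  have h4 := E.not_lox_double hl k
  have h5 : E.l ((X.τ x * l) ^ 2 ^ k) ≤
      X.N E x + E.l l + (2 * E.l l + 3 * E.D) * k + 2 * E.D * (k * k) := by
    unfold N at hN ⊢
    nlinarith
  have hM' : (0 : ℤ) ≤ M := by positivity
  have h6 := mul_le_mul_of_nonneg_left h5 hM'
  push_cast at h1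
  nlinarith

/-- There is a good element `U i j` whose positive end is fixed by `G`. -/
theorem exists_good (hq : E.QP) : ∃ i j : ℤ, E.Good (X.U i j) ∧
    ∀ f : G, E.S (fun n => f * P (X.U i j) n) (P (X.U i j)) := by
  obtain ⟨g, -, hg, -⟩ := hq.exists_two
  obtain ⟨i, j, hij⟩ : ∃ i j : ℤ, E.Lox (X.U i j) := by
    obtain ⟨x, i, j, ε, rfl⟩ := X.nf g
    have h1 := X.lox_of_lox_mul E hg
    cases ε
    · refine ⟨i, j, ?_⟩
      simpa [U] using h1
    · refine ⟨i + j, j + i, ?_⟩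
      have h2 := h1.pow (m := 2) (by norm_num)
      have e : (X.T ^ i * X.S ^ j * (if true then X.σ else 1)) ^ 2 = X.U (i + j) (j + i) := by
        have h3 := X.σ_U i j
        rw [X.σ_inv] at h3
        rw [if_pos rfl, sq]
        have : X.T ^ i * X.S ^ j * X.σ * (X.T ^ i * X.S ^ j * X.σ) =
            X.U i j * (X.σ * X.U i j * X.σ) := by unfold U; group
        rw [this, h3, X.U_mul]
      rwa [e] at h2
  -- make the positive end fixed
  obtain ⟨i, j, hij, hfix⟩ : ∃ i j : ℤ, E.Lox (X.U i j) ∧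
      ∀ f : G, E.S (fun n => f * P (X.U i j) n) (P (X.U i j)) := by
    rcases hq.fixed hij with h | h
    · exact ⟨i, j, hij, h⟩
    · refine ⟨-i, -j, ?_, ?_⟩
      · rw [← X.U_inv]; exact hij.inv
      · rw [← X.U_inv]; exact h
  obtain ⟨M, hM, hgood⟩ := hij
  refine ⟨M * i, M * j, ?_, ?_⟩
  · rw [← X.U_pow]; exact hgood
  · intro f
    rw [← X.U_pow]
    have h1 := S_pow hM hgood
    exact ((h1.symm.left f).trans (hfix f)).trans h1

end GData

end Pool.Agent.V1126
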