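import Pool.Agent.V1126.Uniq
import Pool.Agent.V1126.HLFix

/-!
# Rigidity of quasi-parabolic length functions, part 2
-/

set_option autoImplicit false

namespace Pool.Agent.V1126

open HL

namespace GData

variable {G R : Type} [Group G] [CommRing R] (X : GData G R) (E : HL G)

theorem conj_U (hg : ∀ p q, X.σ * X.U p q * X.σ⁻¹ = X.U q p) (i j : ℤ) (n : ℕ) (p q : ℤ) :
    ((X.U i j ^ n)⁻¹ * (X.σ * X.U i j ^ n)) * X.U p q *
      ((X.U i j ^ n)⁻¹ * (X.σ * X.U i j ^ n))⁻¹ = X.U q p := by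
  have h1 : Commute (X.U i j ^ n) (X.U p q) := (X.U_comm i j p q).pow_left n
  have h2 : Commute (X.U i j ^ n) (X.U q p) := (X.U_comm i j q p).pow_left n
  calc _ = (X.U i j ^ n)⁻¹ * (X.σ * ((X.U i j ^ n) * X.U p q * (X.U i j ^ n)⁻¹) * X.σ⁻¹) *
        (X.U i j ^ n) := by group
    _ = (X.U i j ^ n)⁻¹ * (X.σ * X.U p q * X.σ⁻¹) * (X.U i j ^ n) := by
        rw [h1.eq, mul_inv_cancel_right]
    _ = X.U q p := by rw [hg, mul_assoc, ← h2.eq, inv_mul_cancel_left]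

/-- The element `T * S⁻¹` and its powers are bounded. -/
theorem w_bounded {i j : ℤ} (h : E.Good (X.U i j))
    (hf : ∀ f : G, E.S (fun n => f * P (X.U i j) n) (P (X.U i j))) :
    ∃ C : ℤ, ∀ n : ℤ, E.l (X.U n (-n)) ≤ C := by
  set a := X.U i j with ha
  have hD := E.D_nonneg
  obtain ⟨n0, hn0⟩ := h.invol X.σσ (hf X.σ)
  set σ' := (a ^ n0)⁻¹ * (X.σ * a ^ n0) with hσ'
  have hσl : E.l σ' ≤ E.l a + 4 * E.D := (hn0 n0 le_rfl).2
  have hσm : ∀ m : ℕ, E.l ((a ^ m)⁻¹ * (σ' * a ^ m)) ≤ E.l a + 4 * E.D := by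
    intro m
    have h1 := (hn0 (n0 + m) (by omega)).2
    have e : (a ^ (n0 + m))⁻¹ * (X.σ * a ^ (n0 + m)) = (a ^ m)⁻¹ * (σ' * a ^ m) := by
      rw [pow_add, hσ']; group
    rwa [e] at h1
  have hconj : ∀ p q : ℤ, σ' * X.U p q * σ'⁻¹ = X.U q p := fun p q =>
    X.conj_U X.σ_U i j n0 p q
  -- growth of the diagonal
  have hdiag : ∀ m : ℕ, E.l (a ^ m) ≤ E.l (X.U (m * (i + j)) (m * (i + j))) + 2 * (E.l a + 4 * E.D) := by
    intro m
    have e1 : X.U (m * (i + j)) (m * (i + j)) = a ^ m * (σ' * a ^ m * σ'⁻¹) := by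
      have e2 : σ' * a ^ m * σ'⁻¹ = X.U (m * j) (m * i) := by
        rw [ha, X.U_pow, hconj]
      rw [e2, ha, X.U_pow, X.U_mul]; congr 1 <;> ring
    have e3 : a ^ (m + m) = X.U (m * (i + j)) (m * (i + j)) * (σ' * ((a ^ m)⁻¹ * (σ' * a ^ m))⁻¹) := by
      rw [e1, pow_add]; group
    have g1 := E.mul_le (X.U (m * (i + j)) (m * (i + j))) (σ' * ((a ^ m)⁻¹ * (σ' * a ^ m))⁻¹)
    rw [← e3] at g1
    have g2 := E.mul_le σ' ((a ^ m)⁻¹ * (σ' * a ^ m))⁻¹
    rw [E.inv] at g2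
    have g3 := hσm m
    have g4 := h.mono (n := m) (m := m + m) (by omega)
    push_cast at g4
    omega
  refine ⟨3 * (2 * E.l a + 4 * E.D) + 4 * (E.l a + 4 * E.D), fun n => ?_⟩
  obtain ⟨k, hk⟩ := h.near_axis (u := X.U n (-n)) (X.U_comm _ _ _ _)
  have e1 : X.U n (-n) * a ^ k = X.U (n + k * i) (-n + k * j) := by
    rw [ha, X.U_zpow, X.U_mul]
  have g1 := E.conj_le σ' (X.U n (-n) * a ^ k)
  rw [e1, hconj] at g1
  have g2 := E.mul_le (X.U (n + k * i) (-n + k * j)) (X.U (-n + k * j) (n + k * i))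
  have e2 : X.U (n + k * i) (-n + k * j) * X.U (-n + k * j) (n + k * i) =
      X.U (k * (i + j)) (k * (i + j)) := by
    rw [X.U_mul]; congr 1 <;> ring
  rw [e2] at g2
  have g3 : E.l (a ^ k) ≤ E.l (X.U (k * (i + j)) (k * (i + j))) + 2 * (E.l a + 4 * E.D) := by
    rcases Int.natAbs_eq k with hkk | hkk
    · have := hdiag k.natAbs
      rw [hkk, zpow_natCast]
      exact this
    · have := hdiag k.natAbs
      rw [hkk, zpow_neg, E.inv, zpow_natCast]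
      have e3 : X.U (-(k.natAbs : ℤ) * (i + j)) (-(k.natAbs : ℤ) * (i + j)) =
          (X.U ((k.natAbs : ℤ) * (i + j)) ((k.natAbs : ℤ) * (i + j)))⁻¹ := by
        rw [X.U_inv]; congr 1 <;> ring
      rw [e3, E.inv]
      exact this
  have g4 := E.sub_le (X.U n (-n)) (a ^ k)
  rw [e1] at hk g4
  omega

/-- A power of `T` is good, and its attracting end is fixed. -/
theorem exists_good_T (hq : E.QP) : ∃ κ : ℤ, κ ≠ 0 ∧ E.Good (X.U κ 0) ∧
    (∀ f : G, E.S (fun n => f * P (X.U κ 0) n) (P (X.U κ 0))) ∧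
    ∃ C : ℤ, ∀ n : ℤ, E.l (X.U n (-n)) ≤ C := by
  obtain ⟨i, j, hg, hf⟩ := X.exists_good E hq
  obtain ⟨C, hC⟩ := X.w_bounded E hg hf
  have hD := E.D_nonneg
  obtain ⟨m, hm, hm1⟩ : ∃ m : ℕ, 2 * C + 2 * E.D + 1 ≤ m ∧ 1 ≤ m :=
    ⟨(2 * C + 2 * E.D + 1).toNat + 1, by omega, by omega⟩
  have hC0 : 0 ≤ C := (E.nonneg _).trans (hC 0)
  -- comparison of powers
  have hcomp : ∀ n : ℕ, E.l ((X.U (m * i) (m * j) ^ n)⁻¹ * X.U (m * (i + j)) 0 ^ n) ≤ C := by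
    intro n
    have e : (X.U (m * i) (m * j) ^ n)⁻¹ * X.U (m * (i + j)) 0 ^ n =
        X.U (n * (m * j)) (-(n * (m * j))) := by
      rw [X.U_pow, X.U_pow, X.U_inv, X.U_mul]; congr 1 <;> ring
    rw [e]; exact hC _
  have hgood : E.Good (X.U (m * (i + j)) 0) := by
    unfold Good
    have g1 := hcomp 1
    have g2 := hcomp 2
    rw [pow_one, pow_one] at g1
    have h1 := E.near (X.U (m * i) (m * j)) (X.U (m * (i + j)) 0)
    have h2 := E.near (X.U (m * (i + j)) 0 ^ 2) (X.U (m * i) (m * j) ^ 2)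
    rw [E.swap (X.U (m * (i + j)) 0 ^ 2)] at h2
    have h3 := hg.add_le m m
    have e1 : X.U i j ^ m = X.U (m * i) (m * j) := X.U_pow i j m
    have e2 : X.U i j ^ (m + m) = X.U (m * i) (m * j) ^ 2 := by
      rw [← e1, ← pow_mul]; congr 1; ring
    rw [e1, e2] at h3
    have h4 : (m : ℤ) ≤ m * (E.D + 1) := by nlinarith
    omega
  refine ⟨m * (i + j), ?_, hgood, ?_, C, hC⟩
  · intro h0
    unfold Good at hgood
    rw [h0, X.U_zero, one_pow, E.one] at hgood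
    omega
  · have hgm : E.Good (X.U i j ^ m) := hg.pow hm1
    have s1 : E.S (P (X.U (m * (i + j)) 0)) (P (X.U i j ^ m)) := by
      refine hgm.S_self.near C fun n => ?_
      show E.l ((((X.U i j) ^ m) ^ n)⁻¹ * X.U (m * (i + j)) 0 ^ n) ≤ C
      rw [X.U_pow i j m]; exact hcomp n
    have s2 := (S_pow hm1 hgm).symm
    have s3 := s1.trans s2
    intro f
    exact ((s3.left f).trans (hf f)).trans s3.symm

end GData

end Pool.Agent.V1126
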