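import Pool.Agent.V1126.Uniq2

/-!
# Rigidity of quasi-parabolic length functions, part 3
-/

set_option autoImplicit false

namespace Pool.Agent.V1126

open HL

namespace GData

variable {G R : Type} [Group G] [CommRing R] (X : GData G R) (E : HL G)

theorem nf' (g : G) : ∃ (x : R) (i j : ℤ) (e : G), g = X.τ x * X.U i j * e ∧ (e = 1 ∨ e = X.σ) := by
  obtain ⟨x, i, j, ε, rfl⟩ := X.nf g
  refine ⟨x, i, j, if ε then X.σ else 1, by unfold U; group, ?_⟩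
  cases ε
  · left; simp
  · right; simp

/-- Conjugates of `σ` by dilations. -/
theorem conj_σ (i j : ℤ) : X.U i j * X.σ * (X.U i j)⁻¹ = X.U (i - j) (j - i) * X.σ := by
  have h := X.σ_U (-i) (-j)
  have e : X.U i j * X.σ * (X.U i j)⁻¹ = X.U i j * (X.σ * X.U (-i) (-j) * X.σ⁻¹) * X.σ := by
    rw [X.U_inv]; group
  rw [e, h, X.U_mul]; congr 2

/-- Translations have unbounded length. -/
theorem N_unbounded (hq : E.QP) {κ : ℤ} (hg : E.Good (X.U κ 0))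
    (hf : ∀ f : G, E.S (fun n => f * P (X.U κ 0) n) (P (X.U κ 0)))
    {C : ℤ} (hC : ∀ n : ℤ, E.l (X.U n (-n)) ≤ C) : ∀ B : ℤ, ∃ x, B < X.N E x := by
  intro B
  by_contra hc
  push Not at hc
  have hbd : ∀ f : G, ∀ n : ℕ, E.l (X.U κ 0 ^ n * (f * (X.U κ 0 ^ n)⁻¹)) ≤ B + (E.l f + B + E.l X.σ) +
      (C + E.l X.σ) := by
    intro f n
    obtain ⟨x, i, j, e, rfl, he⟩ := X.nf' f
    obtain ⟨y, hy⟩ := X.normal (X.U κ 0 ^ n) x
    have e1 : X.U κ 0 ^ n * (X.τ x * X.U i j * e * (X.U κ 0 ^ n)⁻¹) =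
        (X.U κ 0 ^ n * X.τ x * (X.U κ 0 ^ n)⁻¹) * ((X.U κ 0 ^ n * X.U i j * (X.U κ 0 ^ n)⁻¹) *
          (X.U κ 0 ^ n * e * (X.U κ 0 ^ n)⁻¹)) := by group
    have e2 : X.U κ 0 ^ n * X.U i j * (X.U κ 0 ^ n)⁻¹ = X.U i j := by
      rw [((X.U_comm κ 0 i j).pow_left n).eq, mul_inv_cancel_right]
    rw [e1, e2, hy]
    have g1 := E.mul_le (X.τ y) (X.U i j * (X.U κ 0 ^ n * e * (X.U κ 0 ^ n)⁻¹))
    have g2 := E.mul_le (X.U i j) (X.U κ 0 ^ n * e * (X.U κ 0 ^ n)⁻¹)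
    have g3 : E.l (X.τ y) ≤ B := hc y
    have g3' : E.l (X.τ x) ≤ B := hc x
    have g4 : E.l (X.U κ 0 ^ n * e * (X.U κ 0 ^ n)⁻¹) ≤ C + E.l X.σ := by
      have hC0 := (E.nonneg _).trans (hC 0)
      have hσ0 := E.nonneg X.σ
      rcases he with rfl | rfl
      · rw [mul_one, mul_inv_cancel, E.one]; omega
      · rw [X.U_pow, X.conj_σ]
        have := E.mul_le (X.U (n * κ - n * 0) (n * 0 - n * κ)) X.σ
        have h2 := hC (n * κ - n * 0)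
        have h3 : -((n : ℤ) * κ - n * 0) = n * 0 - n * κ := by ring
        rw [h3] at h2
        omega
    have g5 : E.l (X.U i j) ≤ E.l (X.τ x * X.U i j * e) + B + E.l X.σ := by
      have h1 := E.sub_le (X.τ x * X.U i j) e
      have h2 := E.sub_le' (X.τ x) (X.U i j)
      have h3 : E.l e ≤ E.l X.σ := by
        rcases he with rfl | rfl
        · rw [E.one]; exact E.nonneg _
        · exact le_rfl
      omega
    omega
  -- the repelling end is fixed as well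
  have hf' : ∀ f : G, E.S (fun n => f * P (X.U κ 0)⁻¹ n) (P (X.U κ 0)⁻¹) := by
    intro f
    refine hg.inv.S_self.near (B + (E.l f + B + E.l X.σ) + (C + E.l X.σ)) fun n => ?_
    show E.l (((X.U κ 0)⁻¹ ^ n)⁻¹ * (f * (X.U κ 0)⁻¹ ^ n)) ≤ _
    rw [inv_pow, inv_inv]
    exact hbd f n
  have hboth : ∀ g : G, E.Lox g →
      (E.S (P (X.U κ 0)) (P g) ∧ E.S (P (X.U κ 0)⁻¹) (P g⁻¹)) ∨
      (E.S (P (X.U κ 0)) (P g⁻¹) ∧ E.S (P (X.U κ 0)⁻¹) (P g)) := by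
    intro g hgl
    have h1 := hgl.fix hg.S_self (fun k => hf (g ^ k))
    have h2 := hgl.fix hg.inv.S_self (fun k => hf' (g ^ k))
    rcases h1 with h1 | h1 <;> rcases h2 with h2 | h2
    · exact absurd (h1.trans h2.symm) hg.not_S_inv
    · exact Or.inl ⟨h1, h2⟩
    · exact Or.inr ⟨h1, h2⟩
    · exact absurd (h1.trans h2.symm) hg.not_S_inv
  obtain ⟨g, h, hgl, hhl, hne⟩ := hq.exists_two
  apply hne
  rcases hboth g hgl with ⟨a1, a2⟩ | ⟨a1, a2⟩ <;> rcases hboth h hhl with ⟨b1, b2⟩ | ⟨b1, b2⟩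
  · exact Or.inl ⟨a1.symm.trans b1, a2.symm.trans b2⟩
  · exact Or.inr ⟨a1.symm.trans b1, a2.symm.trans b2⟩
  · exact Or.inr ⟨a2.symm.trans b2, a1.symm.trans b1⟩
  · exact Or.inl ⟨a2.symm.trans b2, a1.symm.trans b1⟩

theorem frob (j : ℕ) : (X.t : R) ^ (2 ^ j) + (X.s : R) ^ (2 ^ j) = 1 := by
  induction j with
  | zero => simpa using X.ts
  | succ j ih =>
    have h : ((X.t : R) ^ (2 ^ j) + (X.s : R) ^ (2 ^ j)) ^ 2 = 1 := by rw [ih, one_pow]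
    have h2 := X.two ((X.t : R) ^ (2 ^ j) * (X.s : R) ^ (2 ^ j))
    rw [pow_succ, pow_mul, pow_mul]
    linear_combination h - h2

theorem N_t_pow (r : ℕ) (x : R) : X.N E ((X.t : R) ^ r * x) ≤ X.N E x + 2 * (r * E.l X.T) := by
  unfold N
  rw [← X.T_conj_pow]
  have h1 := E.conj_le (X.T ^ r) (X.τ x)
  have h2 := E.pow_le X.T r
  omega

/-- The exponent of the good power of `T` is positive. -/
theorem κ_pos (hunb : ∀ B : ℤ, ∃ x, B < X.N E x) {κ : ℤ} (hκ : κ ≠ 0) (hg : E.Good (X.U κ 0))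
    (hf : ∀ f : G, E.S (fun n => f * P (X.U κ 0) n) (P (X.U κ 0)))
    {C : ℤ} (hC : ∀ n : ℤ, E.l (X.U n (-n)) ≤ C) : 0 < κ := by
  by_contra hc
  have hκ' : κ < 0 := by omega
  obtain ⟨m, hm⟩ : ∃ m : ℕ, κ = -(m : ℤ) := ⟨κ.natAbs, by omega⟩
  have hm0 : 0 < m := by omega
  have hD := E.D_nonneg
  set c2 := E.l (X.U κ 0) + 4 * E.D with hc2
  have hT := E.nonneg X.T
  have hC0 := (E.nonneg _).trans (hC 0)
  -- large multiples
  have key : ∀ x : R, ∃ n0 : ℕ, ∀ k : ℕ, n0 ≤ k → X.N E ((X.t : R) ^ k * x) ≤ c2 + 2 * (m * E.l X.T) := by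
    intro x
    obtain ⟨n0, hn0⟩ := hg.invol (X.τ_mul_self x) (hf (X.τ x))
    refine ⟨m * n0, fun k hk => ?_⟩
    have h1 : n0 ≤ k / m := by
      rw [Nat.le_div_iff_mul_le hm0, mul_comm]; exact hk
    have h2 := (hn0 (k / m) h1).2
    have e1 : (X.U κ 0 ^ (k / m))⁻¹ * (X.τ x * X.U κ 0 ^ (k / m)) = X.τ ((X.t : R) ^ (m * (k / m)) * x) := by
      have h3 : (X.U κ 0 ^ (k / m))⁻¹ = X.T ^ (m * (k / m)) := by
        rw [X.U_pow, X.U_inv]
        unfold U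
        rw [mul_zero, neg_zero, zpow_zero, mul_one, ← zpow_natCast]
        congr 1
        rw [hm]; push_cast; ring
      rw [← inv_inv (X.U κ 0 ^ (k / m)), h3, inv_inv, ← mul_assoc, X.T_conj_pow]
    rw [e1] at h2
    have h4 := X.N_t_pow E (k % m) ((X.t : R) ^ (m * (k / m)) * x)
    have e2 : (X.t : R) ^ (k % m) * ((X.t : R) ^ (m * (k / m)) * x) = (X.t : R) ^ k * x := by
      rw [← mul_assoc, ← pow_add, Nat.mod_add_div]
    rw [e2] at h4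
    have h5 : ((k % m : ℕ) : ℤ) ≤ m := by exact_mod_cast (Nat.mod_lt _ hm0).le
    have h6 : ((k % m : ℕ) : ℤ) * E.l X.T ≤ m * E.l X.T := mul_le_mul_of_nonneg_right h5 hT
    have h7 : X.N E ((X.t : R) ^ (m * (k / m)) * x) ≤ c2 := h2
    omega
  obtain ⟨x, hx⟩ := hunb (c2 + 2 * (m * E.l X.T) + 2 * C + E.D)
  obtain ⟨n0, hn0⟩ := key x
  have h1 := hn0 (2 ^ n0) (Nat.lt_two_pow_self).le
  have h2 : X.N E ((X.s : R) ^ (2 ^ n0) * x) ≤ X.N E ((X.t : R) ^ (2 ^ n0) * x) + 2 * C := by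
    have h3 := X.N_u E (-(2 ^ n0 : ℕ)) ((2 ^ n0 : ℕ)) ((X.t : R) ^ (2 ^ n0) * x)
    have h4 := hC (-(2 ^ n0 : ℕ))
    rw [neg_neg] at h4
    have e : X.u (-(2 ^ n0 : ℕ)) ((2 ^ n0 : ℕ)) * ((X.t : R) ^ (2 ^ n0) * x) =
        (X.s : R) ^ (2 ^ n0) * x := by
      unfold u
      rw [zpow_natCast, zpow_neg, zpow_natCast, Units.val_mul, Units.val_pow_eq_pow_val X.s]
      have hu : (((X.t ^ 2 ^ n0)⁻¹ : Rˣ) : R) * ((X.t ^ 2 ^ n0 : Rˣ) : R) = 1 := Units.inv_mul _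
      rw [Units.val_pow_eq_pow_val] at hu
      linear_combination (X.s : R) ^ (2 ^ n0) * x * hu
    rw [e] at h3
    omega
  have h5 := X.N_add E ((X.t : R) ^ (2 ^ n0) * x) ((X.s : R) ^ (2 ^ n0) * x)
  rw [← add_mul, X.frob, one_mul] at h5
  omega

end GData

end Pool.Agent.V1126
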