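import Pool.Agent.V1126.Uniq3

/-!
# Rigidity of quasi-parabolic length functions, part 4
-/

set_option autoImplicit false

namespace Pool.Agent.V1126

open HL

namespace GData

variable {G R : Type} [Group G] [CommRing R] (X : GData G R) (E : HL G)

/-- The data extracted from a quasi-parabolic length function. -/
structure Ctx where
  κ : ℕ
  κ_pos : 0 < κ
  good : E.Good (X.T ^ κ)
  fixed : ∀ f : G, E.S (fun n => f * P (X.T ^ κ) n) (P (X.T ^ κ))
  C : ℤ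
  hC : ∀ n : ℤ, E.l (X.U n (-n)) ≤ C
  unb : ∀ B : ℤ, ∃ x, B < X.N E x

theorem exists_ctx (hq : E.QP) : Nonempty (Ctx X E) := by
  obtain ⟨κ, hκ, hg, hf, C, hC⟩ := X.exists_good_T E hq
  have hunb := X.N_unbounded E hq hg hf hC
  have hpos := X.κ_pos E hunb hκ hg hf hC
  obtain ⟨k, rfl⟩ : ∃ k : ℕ, κ = k := ⟨κ.toNat, by omega⟩
  have e : X.U (k : ℤ) 0 = X.T ^ k := by unfold U; simp
  rw [e] at hg hf
  exact ⟨⟨k, by omega, hg, hf, C, hC, hunb⟩⟩

/-- A degree filtration on `R`. -/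
structure Deg where
  Dle : R → ℤ → Prop
  mono : ∀ x d e, d ≤ e → Dle x d → Dle x e
  add : ∀ x y d, Dle x d → Dle y d → Dle (x + y) d
  shift : ∀ i j x d, Dle x d → Dle (X.u i j * x) (d + i + j)
  cancel : ∀ x y d, Dle x d → Dle y d → ¬ Dle x (d - 1) → ¬ Dle y (d - 1) → Dle (x + y) (d - 1)
  exists_le : ∀ x, ∃ d, Dle x d
  one : Dle 1 0
  repr : ∀ x, Dle x 0 → ∃ n0 : ℕ, ∀ n, n0 ≤ n → ∃ f : ℕ → R,
    (∀ i, f i = 0 ∨ f i = (X.t : R) ^ i) ∧
    (X.t : R) ^ n * (X.s : R) ^ n * x = ∑ i ∈ Finset.range (2 * n + 1), f i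

variable {X E}

namespace Ctx

variable (c : Ctx X E)

/-- The good element. -/
def b : G := X.T ^ c.κ

theorem b_pow (n : ℕ) : c.b ^ n = X.T ^ (c.κ * n) := by unfold b; rw [pow_mul]

theorem C_nonneg : 0 ≤ c.C := (E.nonneg _).trans (c.hC 0)

theorem l_b_pow (n : ℕ) : (n : ℤ) ≤ E.l (c.b ^ n) := Good.le_pow c.good n

theorem expand (x : R) (hx : E.l c.b + 3 * E.D < X.N E x) (J : ℕ) :
    2 * E.l (c.b ^ J) + X.N E x - 2 * E.l c.b - 5 * E.D ≤ X.N E ((X.t : R) ^ (c.κ * J) * x) := by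
  have hg : E.Good c.b := c.good
  obtain ⟨n, hn⟩ := invol_aux (X.τ_mul_self x) (c.fixed (X.τ x))
  have h1 := hn n le_rfl
  have h1' : 2 * E.l (X.τ x * c.b ^ n) ≤ 2 * E.l (c.b ^ n) + E.D := h1
  have h2 := E.g2_hyp (c.b ^ n) (X.τ x) (c.b ^ J)⁻¹
  have h3 := hg.add_ge n J
  have h4 := E.four 1 (X.τ x) (X.τ x * (c.b ^ J)⁻¹) (c.b ^ J)⁻¹
  unfold g2 at h2
  have e1 : E.l ((c.b ^ n)⁻¹ * X.τ x) = E.l (X.τ x * c.b ^ n) := by
    rw [← E.inv ((c.b ^ n)⁻¹ * X.τ x), mul_inv_rev, X.τ_inv, inv_inv]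
  have e2 : (c.b ^ n)⁻¹ * (c.b ^ J)⁻¹ = (c.b ^ (n + J))⁻¹ := by
    rw [← mul_inv_rev, ← pow_add, add_comm]
  have e3 : (X.τ x * (c.b ^ J)⁻¹)⁻¹ * (c.b ^ J)⁻¹ = X.τ ((X.t : R) ^ (c.κ * J) * x) := by
    rw [mul_inv_rev, inv_inv, X.τ_inv, c.b_pow, X.T_conj_pow]
  have e4 : (X.τ x)⁻¹ * (X.τ x * (c.b ^ J)⁻¹) = (c.b ^ J)⁻¹ := by group
  rw [e1, e2, X.τ_inv, E.inv, E.inv] at h2
  rw [e3, e4, X.τ_inv, inv_one, one_mul, one_mul, one_mul, E.inv] at h4
  have h5 : E.l (X.τ x) = X.N E x := rfl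
  have h6 : E.l (X.τ ((X.t : R) ^ (c.κ * J) * x)) = X.N E ((X.t : R) ^ (c.κ * J) * x) := rfl
  rw [h5] at h2 h4
  rw [h6] at h4
  have hD := E.D_nonneg
  omega

theorem sum_le {f : ℕ → R} {B : ℤ} (hB0 : 0 ≤ B) (n : ℕ) (hB : ∀ i, i < n → X.N E (f i) ≤ B) :
    X.N E (∑ i ∈ Finset.range n, f i) ≤ B + n * E.D := by
  induction n with
  | zero =>
    rw [Finset.range_zero, Finset.sum_empty, X.N_zero]
    simpa using hB0
  | succ n ih =>
    rw [Finset.sum_range_succ]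
    have h1 := X.N_add E (∑ i ∈ Finset.range n, f i) (f n)
    have h2 := ih (fun i hi => hB i (by omega))
    have h3 := hB n (by omega)
    have hD := E.D_nonneg
    have h4 : 0 ≤ (n : ℤ) * E.D := mul_nonneg (by positivity) hD
    push_cast
    have h5 : ((n : ℤ) + 1) * E.D = n * E.D + E.D := by ring
    omega

/-- The error constant for sums. -/
def c5 : ℤ := 2 * (c.κ * E.l X.T) + c.κ * E.D

theorem sum_bound (x : R) (f : ℕ → R) (hf : ∀ i, f i = 0 ∨ f i = (X.t : R) ^ i * x) (m : ℕ) :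
    X.N E (∑ i ∈ Finset.range (c.κ * (m + 1)), f i) ≤ 2 * E.l (c.b ^ m) + X.N E x + c.c5 + E.D := by
  have hT := E.nonneg X.T
  have hD := E.D_nonneg
  have hg : E.Good c.b := c.good
  have hterm : ∀ q r : ℕ, r < c.κ → X.N E (f (c.κ * q + r)) ≤
      2 * E.l (c.b ^ q) + X.N E x + 2 * (c.κ * E.l X.T) := by
    intro q r hr
    have hx0 := X.N_nonneg E x
    have hb0 := E.nonneg (c.b ^ q)
    have hκT : 0 ≤ (c.κ : ℤ) * E.l X.T := mul_nonneg (by positivity) hT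
    rcases hf (c.κ * q + r) with h | h
    · rw [h, X.N_zero]; omega
    · rw [h]
      have h1 := X.N_t_pow E r ((X.t : R) ^ (c.κ * q) * x)
      have e : (X.t : R) ^ r * ((X.t : R) ^ (c.κ * q) * x) = (X.t : R) ^ (c.κ * q + r) * x := by
        ring
      rw [e] at h1
      have h2 : X.N E ((X.t : R) ^ (c.κ * q) * x) ≤ X.N E x + 2 * E.l (c.b ^ q) := by
        unfold N
        rw [← X.T_conj_pow, c.b_pow]
        exact E.conj_le _ _
      have h3 : (r : ℤ) * E.l X.T ≤ c.κ * E.l X.T :=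
        mul_le_mul_of_nonneg_right (by exact_mod_cast hr.le) hT
      omega
  unfold c5
  induction m with
  | zero =>
    have h1 := sum_le (X := X) (E := E) (f := f) (B := X.N E x + 2 * (c.κ * E.l X.T))
      (by have := X.N_nonneg E x; positivity) c.κ (fun i hi => by
        have := hterm 0 i hi
        rw [mul_zero, zero_add, pow_zero, E.one] at this
        omega)
    rw [zero_add, mul_one, pow_zero, E.one]
    omega
  | succ m ih =>
    rw [mul_add_one c.κ (m + 1), Finset.sum_range_add]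
    have h1 := X.N_add E (∑ i ∈ Finset.range (c.κ * (m + 1)), f i)
      (∑ i ∈ Finset.range c.κ, f (c.κ * (m + 1) + i))
    have h2 := sum_le (X := X) (E := E) (f := fun i => f (c.κ * (m + 1) + i))
      (B := 2 * E.l (c.b ^ (m + 1)) + X.N E x + 2 * (c.κ * E.l X.T))
      (by
        have := X.N_nonneg E x
        have := E.nonneg (c.b ^ (m + 1))
        positivity) c.κ (fun i hi => hterm (m + 1) i hi)
    have h3 := hg.add_le m 1
    push_cast at h3
    omega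

/-- The error constant for shrinking. -/
def c9 : ℤ := c.c5 + 2 * E.l c.b + 6 * E.D

theorem c5_nonneg : 0 ≤ c.c5 := by
  have hT := E.nonneg X.T
  have hD := E.D_nonneg
  unfold c5; positivity

theorem shrink (x y : R) (f : ℕ → R) (hf : ∀ i, f i = 0 ∨ f i = (X.t : R) ^ i * x) (m : ℕ)
    (hy : (X.t : R) ^ (c.κ * m) * y = ∑ i ∈ Finset.range (c.κ * (m + 1)), f i) :
    X.N E y ≤ X.N E x + c.c9 := by
  by_contra hc
  push Not at hc
  have hD := E.D_nonneg
  have h5 := c.c5_nonneg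
  have hx := X.N_nonneg E x
  have hb := E.nonneg c.b
  unfold c9 at hc
  have h1 := c.expand y (by omega) m
  have h2 := c.sum_bound x f hf m
  rw [← hy] at h2
  omega

end Ctx

end GData

end Pool.Agent.V1126
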