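import Pool.Agent.V1126.Uniq4

/-!
# Rigidity of quasi-parabolic length functions, part 5
-/

set_option autoImplicit false

namespace Pool.Agent.V1126

open HL

namespace GData

variable {G R : Type} [Group G] [CommRing R] {X : GData G R} {E : HL G}

theorem t_pow_eq_u (n : ℕ) : (X.t : R) ^ n = X.u n 0 := by
  unfold u; simp

theorem s_pow_eq_u (n : ℕ) : (X.s : R) ^ n = X.u 0 n := by
  unfold u; simp

theorem u_cancel (i j : ℤ) (x : R) : X.u (-i) (-j) * (X.u i j * x) = x := by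
  rw [← mul_assoc, X.u_mul, neg_add_cancel, neg_add_cancel, X.u_zero, one_mul]

theorem u_cancel' (i j : ℤ) (x : R) : X.u i j * (X.u (-i) (-j) * x) = x := by
  rw [← mul_assoc, X.u_mul, add_neg_cancel, add_neg_cancel, X.u_zero, one_mul]

namespace Ctx

variable (c : Ctx X E) (dg : Deg X)

/-- Bound for elements of nonpositive degree. -/
def c6 : ℤ := X.N E 1 + c.c9 + 2 * c.C

theorem c9_nonneg : 0 ≤ c.c9 := by
  have := c.c5_nonneg
  have := E.nonneg c.b
  have := E.D_nonneg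
  unfold c9; omega

theorem c6_nonneg : 0 ≤ c.c6 := by
  have := c.c9_nonneg
  have := c.C_nonneg
  have := X.N_nonneg E 1
  unfold c6; omega

include dg in
theorem N_le_of_deg {x : R} (hx : dg.Dle x 0) : X.N E x ≤ c.c6 := by
  obtain ⟨n0, hn0⟩ := dg.repr x hx
  have hκ := c.κ_pos
  obtain ⟨f, hf, hs⟩ := hn0 (c.κ * n0) (Nat.le_mul_of_pos_left _ hκ)
  set n := c.κ * n0 with hn
  -- extend by zero
  have hs' : ∑ i ∈ Finset.range (c.κ * (2 * n0 + 1)), (if i < 2 * n + 1 then f i else 0) =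
      ∑ i ∈ Finset.range (2 * n + 1), f i := by
    obtain ⟨r, hr⟩ : ∃ r, c.κ * (2 * n0 + 1) = 2 * n + 1 + r := ⟨c.κ - 1, by rw [hn]; ring_nf; omega⟩
    rw [hr, Finset.sum_range_add]
    have h1 : ∑ i ∈ Finset.range (2 * n + 1), (if i < 2 * n + 1 then f i else 0) =
        ∑ i ∈ Finset.range (2 * n + 1), f i :=
      Finset.sum_congr rfl fun i hi => by rw [if_pos (Finset.mem_range.1 hi)]
    have h2 : ∑ i ∈ Finset.range r, (if 2 * n + 1 + i < 2 * n + 1 then f (2 * n + 1 + i) else 0) = 0 :=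
      Finset.sum_eq_zero fun i _ => by rw [if_neg (by omega)]
    rw [h1, h2, add_zero]
  have h1 := c.shrink 1 (X.u (-n) n * x) (fun i => if i < 2 * n + 1 then f i else 0)
    (fun i => by
      show (if i < 2 * n + 1 then f i else 0) = 0 ∨ (if i < 2 * n + 1 then f i else 0) = _
      split_ifs
      · rw [mul_one]; exact hf i
      · left; rfl) (2 * n0)
    (by
      rw [hs', ← hs, t_pow_eq_u, t_pow_eq_u, s_pow_eq_u, ← mul_assoc, X.u_mul, X.u_mul]
      congr 2
      · rw [hn]; push_cast; ring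
      )
  have h2 := X.N_u E n (-n) (X.u (-n) n * x)
  have e : X.u n (-n) * (X.u (-n) n * x) = x := by
    have := u_cancel' (X := X) n (-n) x
    rwa [neg_neg] at this
  rw [e] at h2
  have h3 := c.hC n
  unfold c6
  omega

include dg in
theorem N_le_of_deg' {x : R} {d : ℕ} (hx : dg.Dle x d) : X.N E x ≤ c.c6 + 2 * (d * E.l X.T) := by
  have h1 := dg.shift (-d) 0 x d hx
  rw [add_neg_cancel, add_zero] at h1
  have h2 := c.N_le_of_deg dg h1
  have h3 := X.N_t_pow E d (X.u (-d) 0 * x)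
  have e : (X.t : R) ^ d * (X.u (-d) 0 * x) = x := by
    have := u_cancel' (X := X) d 0 x
    rwa [neg_zero, ← t_pow_eq_u] at this
  rw [e] at h3
  omega

include dg in
theorem exists_i0 : ∃ i0 : ℕ, E.l c.b + 3 * E.D < X.N E ((X.t : R) ^ i0) := by
  by_contra hc
  push Not at hc
  obtain ⟨x, hx⟩ := c.unb (E.l c.b + 3 * E.D)
  obtain ⟨d, hd⟩ := dg.exists_le x
  have h1 := dg.shift (-(max d 0)) 0 x d hd
  obtain ⟨n, hn⟩ := dg.repr _ (dg.mono _ _ 0 (by omega) h1)
  obtain ⟨f, hf, hs⟩ := hn n le_rfl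
  have hb := E.nonneg c.b
  have hD := E.D_nonneg
  set V := E.l (X.U (max d 0 - n) (-n)) with hV
  have key : ∀ J : ℕ, X.N E ((X.t : R) ^ (c.κ * J) * x) ≤
      2 * V + (E.l c.b + 3 * E.D + (2 * n + 1 : ℕ) * E.D) := by
    intro J
    have e : (X.t : R) ^ (c.κ * J) * x = X.u (max d 0 - n) (-n) *
        ∑ i ∈ Finset.range (2 * n + 1), (X.t : R) ^ (c.κ * J) * f i := by
      rw [← Finset.mul_sum, ← hs, t_pow_eq_u, t_pow_eq_u, s_pow_eq_u]
      simp only [← mul_assoc, X.u_mul]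
      congr 2 <;> ring
    rw [e]
    have h2 := X.N_u E (max d 0 - n) (-n) (∑ i ∈ Finset.range (2 * n + 1), (X.t : R) ^ (c.κ * J) * f i)
    have h3 := sum_le (X := X) (E := E) (f := fun i => (X.t : R) ^ (c.κ * J) * f i)
      (B := E.l c.b + 3 * E.D) (by omega) (2 * n + 1) (fun i _ => by
        rcases hf i with h | h
        · rw [h, mul_zero, X.N_zero]; omega
        · rw [h, ← pow_add]; exact hc _)
    omega
  obtain ⟨J, hJ⟩ : ∃ J : ℕ, 2 * V + (E.l c.b + 3 * E.D + (2 * n + 1 : ℕ) * E.D) + 2 * E.l c.b +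
      5 * E.D < J := ⟨(2 * V + (E.l c.b + 3 * E.D + (2 * n + 1 : ℕ) * E.D) + 2 * E.l c.b +
      5 * E.D + 1).toNat, by omega⟩
  have h4 := key J
  have h5 := c.expand x hx J
  have h6 := c.l_b_pow J
  have h7 := X.N_nonneg E x
  omega

include dg in
/-- Lower bound for the length of powers of `t`. -/
theorem exists_c8 : ∃ C8 : ℤ, 0 ≤ C8 ∧ ∀ J : ℕ, 2 * (J : ℤ) ≤ X.N E ((X.t : R) ^ (c.κ * J)) + C8 := by
  obtain ⟨i0, hi0⟩ := c.exists_i0 dg
  have hT := E.nonneg X.T
  have hb := E.nonneg c.b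
  have hD := E.D_nonneg
  have hi : 0 ≤ (i0 : ℤ) * E.l X.T := mul_nonneg (by positivity) hT
  refine ⟨2 * E.l c.b + 5 * E.D + 2 * (i0 * E.l X.T), by omega, fun J => ?_⟩
  have h1 := c.expand _ hi0 J
  have h2 := X.N_t_pow E i0 ((X.t : R) ^ (c.κ * J))
  rw [mul_comm] at h1 h2
  have h3 := c.l_b_pow J
  have h4 := X.N_nonneg E ((X.t : R) ^ i0)
  rw [mul_comm ((X.t : R) ^ (c.κ * J))] at h1
  rw [mul_comm ((X.t : R) ^ (c.κ * J))] at h2
  omega

end Ctx

/-- Approximation of elements by combinations of the translates of `x`. -/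
theorem Deg.approx (dg : Deg X) {x : R} {d : ℤ} (h1 : dg.Dle x d) (h2 : ¬ dg.Dle x (d - 1)) (n : ℕ) :
    ∀ z, dg.Dle z (d + n - 1) → ∃ f : ℕ → R, (∀ i, f i = 0 ∨ f i = (X.t : R) ^ i * x) ∧
      dg.Dle (z + ∑ i ∈ Finset.range n, f i) (d - 1) := by
  classical
  induction n with
  | zero =>
    intro z hz
    refine ⟨fun _ => 0, fun _ => Or.inl rfl, ?_⟩
    simpa using hz
  | succ n ih =>
    intro z hz
    have hz' : dg.Dle z (d + n) := dg.mono _ _ _ (by push_cast; omega) hz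
    -- a helper to extend families
    have hext : ∀ (f : ℕ → R) (v : R), (∀ i, f i = 0 ∨ f i = (X.t : R) ^ i * x) →
        (v = 0 ∨ v = (X.t : R) ^ n * x) → (∀ i, Function.update f n v i = 0 ∨
          Function.update f n v i = (X.t : R) ^ i * x) ∧
          ∑ i ∈ Finset.range (n + 1), Function.update f n v i = ∑ i ∈ Finset.range n, f i + v := by
      intro f v hf hv
      constructor
      · intro i
        by_cases hi : i = n
        · subst hi; rw [Function.update_self]; exact hv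
        · rw [Function.update_of_ne hi]; exact hf i
      · rw [Finset.sum_range_succ, Function.update_self]
        congr 1
        exact Finset.sum_congr rfl fun i hi =>
          Function.update_of_ne (Finset.mem_range.1 hi).ne _ _
    by_cases hzn : dg.Dle z (d + n - 1)
    · obtain ⟨f, hf, hs⟩ := ih z hzn
      obtain ⟨g1, g2⟩ := hext f 0 hf (Or.inl rfl)
      exact ⟨_, g1, by rw [g2, add_zero]; exact hs⟩
    · have hx1 : dg.Dle ((X.t : R) ^ n * x) (d + n) := by
        have := dg.shift n 0 x d h1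
        rwa [add_zero, ← t_pow_eq_u] at this
      have hx2 : ¬ dg.Dle ((X.t : R) ^ n * x) (d + n - 1) := by
        intro h
        apply h2
        have h3 := dg.shift (-n) 0 _ _ h
        have e : X.u (-n) 0 * ((X.t : R) ^ n * x) = x := by
          have := u_cancel (X := X) n 0 x
          rwa [neg_zero, ← t_pow_eq_u] at this
        rw [e] at h3
        exact dg.mono _ _ _ (by omega) h3
      have hc := dg.cancel z _ (d + n) hz' hx1 hzn hx2
      obtain ⟨f, hf, hs⟩ := ih _ hc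
      obtain ⟨g1, g2⟩ := hext f ((X.t : R) ^ n * x) hf (Or.inr rfl)
      refine ⟨_, g1, ?_⟩
      rw [g2]
      have e : z + (∑ i ∈ Finset.range n, f i + (X.t : R) ^ n * x) =
          z + (X.t : R) ^ n * x + ∑ i ∈ Finset.range n, f i := by ring
      rw [e]; exact hs

namespace Ctx

variable (c : Ctx X E) (dg : Deg X)

include c dg in
/-- Elements of bounded length have bounded degree. -/
theorem deg_le (B : ℤ) : ∃ B' : ℤ, ∀ x, X.N E x ≤ B → dg.Dle x B' := by
  obtain ⟨C8, hC8, h8⟩ := c.exists_c8 dg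
  have hD := E.D_nonneg
  have h6 := c.c6_nonneg
  have h9 := c.c9_nonneg
  set K0 : ℤ := |B| + c.c6 + c.c9 + E.D + C8 with hK0
  have hB := abs_nonneg B
  have hB' := le_abs_self B
  have hK : 0 ≤ K0 := by omega
  refine ⟨c.κ * K0, fun x hx => ?_⟩
  by_contra hc
  -- exact degree
  obtain ⟨d, hd, hd1, hd2⟩ : ∃ d : ℤ, c.κ * K0 < d ∧ dg.Dle x d ∧ ¬ dg.Dle x (d - 1) := by
    obtain ⟨e, he⟩ := dg.exists_le x
    have hex : ∃ n : ℕ, dg.Dle x (c.κ * K0 + n) :=
      ⟨(e - c.κ * K0).toNat, dg.mono _ _ _ (by omega) he⟩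
    classical
    have hf := Nat.find_spec hex
    have hm : Nat.find hex ≠ 0 := by
      intro h0
      rw [h0] at hf
      exact hc (by simpa using hf)
    have hm2 := Nat.find_min hex (m := Nat.find hex - 1) (by omega)
    refine ⟨c.κ * K0 + Nat.find hex, by omega, hf, ?_⟩
    intro h
    apply hm2
    refine dg.mono _ _ _ ?_ h
    omega
  have hκ : (0 : ℤ) < c.κ := by exact_mod_cast c.κ_pos
  have hκK : 0 ≤ (c.κ : ℤ) * K0 := by positivity
  obtain ⟨J, hJ1, hJ2⟩ : ∃ J : ℕ, d ≤ c.κ * J ∧ (c.κ : ℤ) * J ≤ d + c.κ - 1 := by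
    refine ⟨((d + c.κ - 1) / c.κ).toNat, ?_, ?_⟩
    · rw [Int.toNat_of_nonneg (Int.ediv_nonneg (by omega) (by omega))]
      have := Int.emod_add_mul_ediv (d + c.κ - 1) c.κ
      have h2 := Int.emod_lt_of_pos (d + c.κ - 1) hκ
      omega
    · rw [Int.toNat_of_nonneg (Int.ediv_nonneg (by omega) (by omega))]
      have := Int.emod_add_mul_ediv (d + c.κ - 1) c.κ
      have h2 := Int.emod_nonneg (d + c.κ - 1) hκ.ne'
      omega
  have hz : dg.Dle ((X.t : R) ^ (c.κ * J) * (X.t : R) ^ (c.κ * J))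
      (d + (c.κ * (J + 1) : ℕ) - 1) := by
    have := dg.shift ((c.κ * J : ℕ) + (c.κ * J : ℕ)) 0 1 0 dg.one
    rw [mul_one] at this
    rw [t_pow_eq_u, X.u_mul, add_zero]
    refine dg.mono _ _ _ ?_ this
    push_cast
    have e : (c.κ : ℤ) * (J + 1) = c.κ * J + c.κ := by ring
    omega
  obtain ⟨f, hf, hs⟩ := dg.approx hd1 hd2 (c.κ * (J + 1)) _ hz
  set Y := ∑ i ∈ Finset.range (c.κ * (J + 1)), f i with hY
  set y := X.u (-(c.κ * J : ℕ)) 0 * Y with hy
  have hyY : (X.t : R) ^ (c.κ * J) * y = Y := by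
    have := u_cancel' (X := X) (c.κ * J : ℕ) 0 Y
    rwa [neg_zero, ← t_pow_eq_u] at this
  have h1 := c.shrink x y f hf J hyY
  have h2 : dg.Dle ((X.t : R) ^ (c.κ * J) + y) 0 := by
    have h3 := dg.shift (-(c.κ * J : ℕ)) 0 _ _ hs
    have e : X.u (-(c.κ * J : ℕ)) 0 * ((X.t : R) ^ (c.κ * J) * (X.t : R) ^ (c.κ * J) + Y) =
        (X.t : R) ^ (c.κ * J) + y := by
      rw [mul_add, hy]
      congr 1
      have := u_cancel (X := X) (c.κ * J : ℕ) 0 ((X.t : R) ^ (c.κ * J))
      rwa [neg_zero, ← t_pow_eq_u] at this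
    rw [e] at h3
    refine dg.mono _ _ _ ?_ h3
    push_cast
    omega
  have h3 := c.N_le_of_deg dg h2
  have h4 := X.N_add E ((X.t : R) ^ (c.κ * J) + y) y
  have e : (X.t : R) ^ (c.κ * J) + y + y = (X.t : R) ^ (c.κ * J) := by
    rw [add_assoc, X.two, add_zero]
  rw [e] at h4
  have h5 := h8 J
  have h10 : (J : ℤ) ≤ K0 := by omega
  have h11 : (c.κ : ℤ) * J ≤ c.κ * K0 := mul_le_mul_of_nonneg_left h10 hκ.le
  omega

end Ctx

end GData

end Pool.Agent.V1126
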