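import Mathlib

/-!
# The restricted wreath product `ℤ ≀ ℤ`
-/

set_option autoImplicit false

namespace Pool.Agent.V1126.QP

/-- The action of `ℤ` on the group of finitely supported functions `ℤ → ℤ` by shifting coordinates:
`(shift n x) i = x (i - n)`. -/
noncomputable def shift : Multiplicative ℤ →* MulAut (Multiplicative (ℤ →₀ ℤ)) where
  toFun n := AddEquiv.toMultiplicative (Finsupp.domCongr (Equiv.addRight (Multiplicative.toAdd n)))
  map_one' := by
    ext x i
    change Finsupp.equivMapDomain (Equiv.addRight (0 : ℤ)) (Multiplicative.toAdd x) i =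
      Multiplicative.toAdd x i
    simp only [Finsupp.equivMapDomain_apply, Equiv.addRight_symm, Equiv.coe_addRight, neg_zero,
      add_zero]
  map_mul' m n := by
    ext x i
    change Finsupp.equivMapDomain (Equiv.addRight (Multiplicative.toAdd (m * n)))
        (Multiplicative.toAdd x) i =
      Finsupp.equivMapDomain (Equiv.addRight (Multiplicative.toAdd m))
        (Finsupp.equivMapDomain (Equiv.addRight (Multiplicative.toAdd n)) (Multiplicative.toAdd x)) i
    simp only [Finsupp.equivMapDomain_apply, Equiv.addRight_symm, Equiv.coe_addRight, toAdd_mul]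
    congr 1
    ring

/-- The restricted wreath product `ℤ ≀ ℤ = (⨁_ℤ ℤ) ⋊ ℤ`. -/
abbrev ZwrZ : Type := Multiplicative (ℤ →₀ ℤ) ⋊[shift] Multiplicative ℤ

end Pool.Agent.V1126.QP
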