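import Pool.Agent.V1126.QPHeight
import Pool.Agent.V1126.ZwrZDef

/-!
# Uncountable chains of quasi-parabolic structures on groups mapping onto `ℤ ≀ ℤ`
-/

set_option autoImplicit false

namespace Pool.Agent.V1126.QP

open Filter

/-- Pull back height data along a homomorphism. -/
def HeightData.comap {G G' : Type} [Group G] [Group G'] (E : HeightData G) (f : G' →* G) (t' : G')
    (ht : f t' = E.t) : HeightData G' where
  k g := E.k (f g)
  H g := E.H (f g)
  t := t'
  k_mul g h := by rw [map_mul, E.k_mul]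
  H_nonneg g := E.H_nonneg _
  k_le g := E.k_le _
  H_one := by rw [map_one]; exact E.H_one
  H_inv g := by rw [map_inv]; exact E.H_inv _
  H_mul g h := by rw [map_mul]; exact E.H_mul _ _
  k_t := by rw [ht]; exact E.k_t
  H_t := by rw [ht]; exact E.H_t

namespace ZwrZ

/-- The finitely supported function underlying an element of `ℤ ≀ ℤ`. -/
def fn (g : ZwrZ) : ℤ →₀ ℤ := Multiplicative.toAdd g.left

/-- The cursor position of an element of `ℤ ≀ ℤ`. -/
def kk (g : ZwrZ) : ℤ := Multiplicative.toAdd g.right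

theorem kk_mul (g h : ZwrZ) : kk (g * h) = kk g + kk h := rfl

theorem kk_one : kk 1 = 0 := rfl

theorem kk_inv (g : ZwrZ) : kk g⁻¹ = - kk g := rfl

theorem shift_apply (n : Multiplicative ℤ) (x : Multiplicative (ℤ →₀ ℤ)) (i : ℤ) :
    (Multiplicative.toAdd (shift n x)) i = (Multiplicative.toAdd x) (i - Multiplicative.toAdd n) := by
  change Finsupp.equivMapDomain (Equiv.addRight (Multiplicative.toAdd n))
    (Multiplicative.toAdd x) i = _
  simp only [Finsupp.equivMapDomain_apply, Equiv.addRight_symm, Equiv.coe_addRight]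
  rfl

theorem fn_mul (g h : ZwrZ) (i : ℤ) : fn (g * h) i = fn g i + fn h (i - kk g) := by
  unfold fn
  rw [SemidirectProduct.mul_left, toAdd_mul, Finsupp.add_apply, shift_apply]
  rfl

theorem fn_one (i : ℤ) : fn 1 i = 0 := rfl

theorem fn_inv (g : ZwrZ) (i : ℤ) : fn g⁻¹ i = - fn g (i + kk g) := by
  have h := fn_mul g g⁻¹ (i + kk g)
  rw [mul_inv_cancel, fn_one, add_sub_cancel_right] at h
  omega

/-- A divisibility chain `m i ∣ m (i + 1)` with `m i = 1` for `i ≤ 0` that tends to infinity. -/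
structure DivChain where
  m : ℤ → ℕ
  one : ∀ i, i ≤ 0 → m i = 1
  dvd : ∀ i j, i ≤ j → m i ∣ m j
  unb : ∀ B : ℕ, ∃ A : ℤ, ∀ i, m i ≤ B → i ≤ A

variable (c : DivChain)

/-- `g` maps the base vertex below the vertex of height `n` above the base vertex. -/
def P (g : ZwrZ) (n : ℤ) : Prop := 0 ≤ n ∧ kk g ≤ n ∧ ∀ i, (c.m (i - n) : ℤ) ∣ fn g i

theorem P_mono {g : ZwrZ} {n n' : ℤ} (h : P c g n) (hn : n ≤ n') : P c g n' := by
  obtain ⟨h1, h2, h3⟩ := h
  refine ⟨by omega, by omega, fun i => ?_⟩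
  refine dvd_trans ?_ (h3 i)
  exact_mod_cast c.dvd (i - n') (i - n) (by omega)

theorem P_nonempty (g : ZwrZ) : ∃ n, P c g n := by
  obtain ⟨N, hN⟩ := (fn g).support.bddAbove
  refine ⟨max 0 (max (kk g) N), by omega, by omega, fun i => ?_⟩
  by_cases hi : i ∈ (fn g).support
  · have := hN hi
    rw [c.one _ (by omega)]
    simp
  · rw [Finsupp.notMem_support_iff.1 hi]
    exact dvd_zero _

/-- The height of the lowest common ancestor. -/
noncomputable def Hc (g : ZwrZ) : ℤ := sInf {n | P c g n}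

theorem P_Hc (g : ZwrZ) : P c g (Hc c g) :=
  Int.csInf_mem (P_nonempty c g) ⟨0, fun _ h => h.1⟩

theorem Hc_le {g : ZwrZ} {n : ℤ} (h : P c g n) : Hc c g ≤ n :=
  csInf_le ⟨0, fun _ h => h.1⟩ h

theorem P_one : P c 1 0 := ⟨le_refl _, le_refl _, fun i => by rw [fn_one]; exact dvd_zero _⟩

theorem P_inv {g : ZwrZ} {n : ℤ} (h : P c g n) : P c g⁻¹ (n - kk g) := by
  obtain ⟨h1, h2, h3⟩ := h
  refine ⟨by omega, by rw [kk_inv]; omega, fun i => ?_⟩
  rw [fn_inv, dvd_neg]
  have := h3 (i + kk g)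
  have e : i - (n - kk g) = i + kk g - n := by ring
  rw [e]
  exact this

theorem P_mul {g h : ZwrZ} {n : ℤ} (h1 : P c g n) (h2 : P c h (n - kk g)) : P c (g * h) n := by
  obtain ⟨a1, a2, a3⟩ := h1
  obtain ⟨b1, b2, b3⟩ := h2
  refine ⟨a1, by rw [kk_mul]; omega, fun i => ?_⟩
  rw [fn_mul]
  refine dvd_add (a3 i) ?_
  have := b3 (i - kk g)
  have e : i - kk g - (n - kk g) = i - n := by ring
  rwa [e] at this

/-- The generator of the cyclic factor. -/
noncomputable def tt : ZwrZ := SemidirectProduct.inr (Multiplicative.ofAdd 1)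

theorem kk_tt : kk tt = 1 := rfl

theorem fn_tt (i : ℤ) : fn tt i = 0 := rfl

theorem P_tt : P c tt 1 :=
  ⟨by norm_num, by rw [kk_tt], fun i => by rw [fn_tt]; exact dvd_zero _⟩

/-- The height data on `ℤ ≀ ℤ` associated with a divisibility chain. -/
noncomputable def data : HeightData ZwrZ where
  k := kk
  H := Hc c
  t := tt
  k_mul := kk_mul
  H_nonneg g := (P_Hc c g).1
  k_le g := (P_Hc c g).2.1
  H_one := Hc_le c (P_one c)
  H_inv g := Hc_le c (P_inv c (P_Hc c g))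
  H_mul g h := by
    refine Hc_le c (P_mul c (P_mono c (P_Hc c g) (le_max_left _ _)) ?_)
    exact P_mono c (P_Hc c h) (by have := le_max_right (Hc c g) (Hc c h + kk g); omega)
  k_t := kk_tt
  H_t := Hc_le c (P_tt c)

/-- The element `n` at position `i`. -/
noncomputable def el (i n : ℤ) : ZwrZ :=
  SemidirectProduct.inl (Multiplicative.ofAdd (Finsupp.single i n))

theorem kk_el (i n : ℤ) : kk (el i n) = 0 := rfl

theorem fn_el (i n j : ℤ) : fn (el i n) j = if i = j then n else 0 := by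
  change (Finsupp.single i n) j = _
  rw [Finsupp.single_apply]

theorem kk_tt_pow (n : ℕ) : kk (tt ^ n) = n := by
  induction n with
  | zero => rfl
  | succ n ih => rw [pow_succ, kk_mul, ih, kk_tt]; push_cast; ring

theorem fn_tt_pow (n : ℕ) (i : ℤ) : fn (tt ^ n) i = 0 := by
  induction n generalizing i with
  | zero => rfl
  | succ n ih => rw [pow_succ, fn_mul, ih, fn_tt]; rfl

variable {G : Type} [Group G] (π : G →* ZwrZ)

theorem quasiParabolic_comap (hπ : Function.Surjective π) (t' : G) (ht : π t' = tt) :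
    QuasiParabolic ((data c).comap π t' ht).gen := by
  choose u hu using fun i : ℕ => hπ (el 0 i)
  refine ((data c).comap π t' ht).quasiParabolic u ?_ ?_
  · intro i
    change kk (π (u i)) = 0
    rw [hu, kk_el]
  · intro i j hij
    obtain ⟨A, hA⟩ := c.unb ((j : ℤ) - i).natAbs
    refine ⟨A, fun n => ?_⟩
    change -A ≤ Hc c (π ((u i * (t' ^ n)⁻¹)⁻¹ * (u j * (t' ^ n)⁻¹))) + kk (π (u i * (t' ^ n)⁻¹))
    have e : π ((u i * (t' ^ n)⁻¹)⁻¹ * (u j * (t' ^ n)⁻¹)) =
        tt ^ n * ((el 0 i)⁻¹ * (el 0 j * (tt ^ n)⁻¹)) := by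
      rw [map_mul, map_inv, map_mul, map_mul, map_inv, map_pow, hu, hu, ht]; group
    have e2 : kk (π (u i * (t' ^ n)⁻¹)) = -n := by
      rw [map_mul, map_inv, map_pow, hu, ht, kk_mul, kk_el, kk_inv, kk_tt_pow]; ring
    rw [e, e2]
    set w := tt ^ n * ((el 0 i)⁻¹ * (el 0 j * (tt ^ n)⁻¹)) with hw
    have h1 := (P_Hc c w).2.2 n
    have h2 : fn w n = (j : ℤ) - i := by
      rw [hw, fn_mul, fn_tt_pow, kk_tt_pow, fn_mul, fn_mul, fn_inv, fn_inv, kk_inv, kk_el, kk_el,
        fn_tt_pow, fn_el, fn_el]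
      simp
      ring
    rw [h2] at h1
    have h3 : c.m ((n : ℤ) - Hc c w) ≤ ((j : ℤ) - i).natAbs := by
      apply Nat.le_of_dvd
      · rw [Nat.pos_iff_ne_zero, Ne, Int.natAbs_eq_zero]
        omega
      · rw [← Int.natCast_dvd]; exact h1
    have := hA _ h3
    omega

/-- The divisibility chain with `m i = 2 ^ ⌊α i⌋` for `i > 0`. -/
noncomputable def chain (α : {α : ℝ // 0 < α}) : DivChain where
  m i := 2 ^ (⌊(α : ℝ) * i⌋.toNat)
  one i hi := by
    have h : ⌊(α : ℝ) * i⌋ ≤ 0 := by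
      have h1 : (α : ℝ) * i ≤ 0 :=
        mul_nonpos_of_nonneg_of_nonpos α.2.le (by exact_mod_cast hi)
      have := Int.floor_mono h1
      simpa using this
    rw [Int.toNat_of_nonpos h, pow_zero]
  dvd i j hij := by
    apply pow_dvd_pow
    apply Int.toNat_le_toNat
    apply Int.floor_mono
    exact mul_le_mul_of_nonneg_left (by exact_mod_cast hij) α.2.le
  unb B := by
    refine ⟨⌈((B : ℝ) + 1) / α⌉, fun i hi => ?_⟩
    have h1 : ⌊(α : ℝ) * i⌋.toNat ≤ B := by
      have := (Nat.lt_two_pow_self (n := ⌊(α : ℝ) * i⌋.toNat)).le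
      omega
    have h2 : ⌊(α : ℝ) * i⌋ ≤ B := by omega
    have h3 : (α : ℝ) * i < B + 1 := by
      have := Int.lt_floor_add_one ((α : ℝ) * i)
      have h4 : (⌊(α : ℝ) * i⌋ : ℝ) ≤ B := by exact_mod_cast h2
      linarith
    have h5 : (i : ℝ) ≤ ((B : ℝ) + 1) / α := by
      rw [le_div_iff₀ α.2]; linarith
    have h6 : (i : ℝ) ≤ (⌈((B : ℝ) + 1) / α⌉ : ℝ) := h5.trans (Int.le_ceil _)
    exact_mod_cast h6

theorem chain_dvd {α β : {α : ℝ // 0 < α}} (h : (α : ℝ) ≤ β) (i : ℤ) :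
    (chain α).m i ∣ (chain β).m i := by
  rcases le_total i 0 with hi | hi
  · rw [(chain α).one i hi]; exact one_dvd _
  · apply pow_dvd_pow
    apply Int.toNat_le_toNat
    apply Int.floor_mono
    exact mul_le_mul_of_nonneg_right h (by exact_mod_cast hi)

theorem Hc_mono {α β : {α : ℝ // 0 < α}} (h : (α : ℝ) ≤ β) (g : ZwrZ) :
    Hc (chain α) g ≤ Hc (chain β) g := by
  apply Hc_le
  obtain ⟨h1, h2, h3⟩ := P_Hc (chain β) g
  refine ⟨h1, h2, fun i => dvd_trans ?_ (h3 i)⟩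
  exact_mod_cast chain_dvd h _

theorem dominated_of_le {α β : {α : ℝ // 0 < α}} (h : (α : ℝ) ≤ β) (t' : G) (ht : π t' = tt) :
    Dominated ((data (chain α)).comap π t' ht).gen ((data (chain β)).comap π t' ht).gen := by
  rw [HeightData.dominated_iff]
  refine ⟨1, fun g hg => ?_⟩
  have h1 : 2 * Hc (chain β) (π g) - kk (π g) ≤ 1 := hg
  change 2 * Hc (chain α) (π g) - kk (π g) ≤ 1
  have := Hc_mono h (π g)
  omega

theorem not_dominated_of_lt {α β : {α : ℝ // 0 < α}} (h : (α : ℝ) < β)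
    (hπ : Function.Surjective π) (t' : G) (ht : π t' = tt) :
    ¬ Dominated ((data (chain β)).comap π t' ht).gen ((data (chain α)).comap π t' ht).gen := by
  rw [HeightData.dominated_iff]
  rintro ⟨C, hC⟩
  -- choose a large position
  obtain ⟨i, hi⟩ := exists_nat_gt (((β : ℝ) * |(C : ℝ)| + 1) / (β - α))
  obtain ⟨g, hg⟩ := hπ (el i ((chain α).m i))
  have hpos : (0 : ℝ) < β - α := by linarith
  have hP : P (chain α) (el i ((chain α).m i)) 0 := by
    refine ⟨le_refl _, by rw [kk_el], fun j => ?_⟩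
    rw [fn_el, sub_zero]
    split_ifs with h1
    · rw [h1]
    · exact dvd_zero _
  have h1 := hC g (by
    change 2 * Hc (chain α) (π g) - kk (π g) ≤ 1
    rw [hg, kk_el]
    have := Hc_le (chain α) hP
    omega)
  have h2 : 2 * Hc (chain β) (π g) - kk (π g) ≤ C := h1
  rw [hg, kk_el] at h2
  obtain ⟨h3, -, h4⟩ := P_Hc (chain β) (el i ((chain α).m i))
  set n := Hc (chain β) (el i ((chain α).m i)) with hn
  have h5 := h4 i
  rw [fn_el, if_pos rfl] at h5
  have h6 : (chain β).m (i - n) ∣ (chain α).m i := by exact_mod_cast h5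
  have h7 : ⌊(β : ℝ) * ((i - n : ℤ) : ℝ)⌋.toNat ≤ ⌊(α : ℝ) * ((i : ℤ) : ℝ)⌋.toNat :=
    (Nat.pow_dvd_pow_iff_le_right (by norm_num)).1 h6
  have h8 : ⌊(α : ℝ) * ((i : ℤ) : ℝ)⌋.toNat ≤ (α : ℝ) * i := by
    have h9 : (0 : ℤ) ≤ ⌊(α : ℝ) * ((i : ℤ) : ℝ)⌋ := by
      apply Int.floor_nonneg.2
      exact mul_nonneg α.2.le (by positivity)
    have h10 : ((⌊(α : ℝ) * ((i : ℤ) : ℝ)⌋.toNat : ℕ) : ℝ) = ((⌊(α : ℝ) * ((i : ℤ) : ℝ)⌋ : ℤ) : ℝ) := by
      exact_mod_cast congrArg (Int.cast (R := ℝ)) (Int.toNat_of_nonneg h9)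
    rw [h10]
    have := Int.floor_le ((α : ℝ) * ((i : ℤ) : ℝ))
    simpa using this
  have h11 : (β : ℝ) * ((i - n : ℤ) : ℝ) < ⌊(β : ℝ) * ((i - n : ℤ) : ℝ)⌋.toNat + 1 := by
    have h12 := Int.lt_floor_add_one ((β : ℝ) * ((i - n : ℤ) : ℝ))
    have h13 : ((⌊(β : ℝ) * ((i - n : ℤ) : ℝ)⌋ : ℤ) : ℝ) ≤
        ((⌊(β : ℝ) * ((i - n : ℤ) : ℝ)⌋.toNat : ℕ) : ℝ) := by
      exact_mod_cast Int.self_le_toNat _
    linarith
  have h14 : ((⌊(β : ℝ) * ((i - n : ℤ) : ℝ)⌋.toNat : ℕ) : ℝ) ≤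
      ((⌊(α : ℝ) * ((i : ℤ) : ℝ)⌋.toNat : ℕ) : ℝ) := by exact_mod_cast h7
  have h15 : (β : ℝ) * ((i : ℝ) - n) < α * i + 1 := by
    push_cast at h11 h8 h14 ⊢
    linarith
  have h16 : (n : ℝ) ≤ |(C : ℝ)| := by
    have h17 : n ≤ |C| := by
      have := le_abs_self C
      omega
    calc (n : ℝ) ≤ ((|C| : ℤ) : ℝ) := by exact_mod_cast h17
      _ = |(C : ℝ)| := by push_cast; rfl
  rw [div_lt_iff₀ hpos] at hi
  have h18 : (β : ℝ) * n ≤ β * |(C : ℝ)| := mul_le_mul_of_nonneg_left h16 β.2.le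
  nlinarith

/-- The quasi-parabolic structures indexed by positive real numbers. -/
noncomputable def struc (hπ : Function.Surjective π) (t' : G) (ht : π t' = tt)
    (α : {α : ℝ // 0 < α}) : Hqp G :=
  toAntisymmetrization (· ≤ ·)
    (((data (chain α)).comap π t' ht).toQPGen (quasiParabolic_comap (chain α) π hπ t' ht))

theorem exists_chain (hπ : Function.Surjective π) :
    ∃ C : Set (Hqp G), IsChain (· ≤ ·) C ∧ ¬ C.Countable := by
  obtain ⟨t', ht⟩ := hπ tt
  refine ⟨Set.range (struc π hπ t' ht), ?_, ?_⟩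
  · rintro _ ⟨α, rfl⟩ _ ⟨β, rfl⟩ _
    rcases le_total (α : ℝ) β with h | h
    · left
      exact dominated_of_le π h t' ht
    · right
      exact dominated_of_le π h t' ht
  · intro hc
    have hlt : ∀ α β : {α : ℝ // 0 < α}, (α : ℝ) < β →
        struc π hπ t' ht α ≠ struc π hπ t' ht β := by
      intro α β h heq
      have h1 : struc π hπ t' ht β ≤ struc π hπ t' ht α := heq.ge
      exact not_dominated_of_lt π h hπ t' ht h1
    have hinj : Function.Injective (struc π hπ t' ht) := by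
      intro α β h
      by_contra hne
      have hne' : (α : ℝ) ≠ β := fun h1 => hne (Subtype.ext h1)
      rcases lt_or_gt_of_ne hne' with h1 | h1
      · exact hlt α β h1 h
      · exact hlt β α h1 h.symm
    have h1 : Countable {α : ℝ // 0 < α} := by
      have : Countable (Set.range (struc π hπ t' ht)) := hc.to_subtype
      exact (Equiv.ofInjective _ hinj).countable_iff.2 this
    have h2 : (Set.Ioi (0 : ℝ)).Countable := Set.countable_coe_iff.1 h1
    have h3 := Cardinal.mk_Ioi_real 0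
    rw [← Cardinal.le_aleph0_iff_set_countable, h3] at h2
    exact absurd h2 (not_le.2 Cardinal.aleph0_lt_continuum)

end ZwrZ

end Pool.Agent.V1126.QP
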